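import Pool.Agent.Lib.AbcU.Eng

/-!
# The moments of the number of divisors of the form `R i`
-/

open Finset
open scoped ENNReal

namespace Pool.Agent.Lib.AbcU

variable {ι : Type*}

theorem summable_L (R : ι → ℕ) (k : ℕ) (σ : ℝ) (h : Dk R Set.univ k σ ≠ ⊤) :
    Summable (fun s : Fin k → ι => (L R s : ℝ) ^ (-σ)) := by
  have h1 := ENNReal.summable_toReal h
  refine h1.congr (fun s => ?_)
  rw [if_pos (fun _ => Set.mem_univ _), ENNReal.toReal_ofReal (by positivity)]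

/-- The solutions of `R i ∣ r`. -/
def sol (R : ι → ℕ) (r : ℕ) : Set ι := {i | R i ∣ r}

theorem finite_R_le (R : ι → ℕ) (hR : ∀ i, 1 ≤ R i) {σ : ℝ} (hσ : 0 ≤ σ)
    (h : Dk R Set.univ 1 σ ≠ ⊤) (n : ℕ) : {i | R i ≤ n}.Finite := by
  have h1 := summable_L R 1 σ h
  have h2 : Summable (fun i : ι => (R i : ℝ) ^ (-σ)) := by
    have h3 := h1.comp_injective (i := fun i : ι => (fun _ : Fin 1 => i)) (by
      intro i j hij
      exact congrFun hij 0)
    refine h3.congr (fun i => ?_)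
    simp only [Function.comp]
    congr 2
    apply Nat.dvd_antisymm
    · rw [L_dvd]
      intro _
      exact dvd_rfl
    · exact (L_dvd R (fun _ : Fin 1 => i) _).mp dvd_rfl 0
  rcases Nat.eq_zero_or_pos n with h0 | hn
  · apply Set.Finite.subset Set.finite_empty
    intro i hi
    have := hR i
    simp only [Set.mem_ofPred_eq] at hi
    omega
  have hn0 : (0 : ℝ) < n := by exact_mod_cast hn
  have h4 : (0 : ℝ) < (n : ℝ) ^ (-σ) := by positivity
  have h5 := h2.tendsto_cofinite_zero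
  have h6 := (h5.eventually (gt_mem_nhds h4))
  rw [Filter.eventually_cofinite] at h6
  apply h6.subset
  intro i hi
  simp only [Set.mem_ofPred_eq, not_lt] at hi ⊢
  have h7 : (0 : ℝ) < R i := by exact_mod_cast hR i
  exact Real.rpow_le_rpow_of_nonpos h7 (by exact_mod_cast hi) (by linarith)

theorem finite_sol (R : ι → ℕ) (hf : ∀ n, {i | R i ≤ n}.Finite) {r : ℕ} (hr : 1 ≤ r) :
    (sol R r).Finite :=
  (hf r).subset (fun _ hi => Nat.le_of_dvd hr hi)

/-- The `k`-tuples of solutions. -/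
theorem finite_tuples (R : ι → ℕ) (hf : ∀ n, {i | R i ≤ n}.Finite) {r : ℕ} (hr : 1 ≤ r) (k : ℕ) :
    {s : Fin k → ι | L R s ∣ r}.Finite := by
  have h : {s : Fin k → ι | L R s ∣ r} = Set.univ.pi (fun _ => sol R r) := by
    ext s
    simp only [Set.mem_ofPred_eq, Set.mem_univ_pi, L_dvd, sol]
  rw [h]
  exact Set.Finite.pi (fun _ => finite_sol R hf hr)

theorem ncard_tuples (S : Set ι) (k : ℕ) :
    ({s : Fin k → ι | ∀ i, s i ∈ S}).ncard = S.ncard ^ k := by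
  rw [← Nat.card_coe_set_eq, ← Nat.card_coe_set_eq]
  have e : {s : Fin k → ι | ∀ i, s i ∈ S} ≃ (Fin k → S) :=
    Equiv.subtypePiEquivPi (p := fun _ x => x ∈ S)
  rw [Nat.card_congr e, Nat.card_fun]
  simp

open Classical in
/-- The power of the number of solutions as a sum over tuples. -/
theorem hasSum_pow (R : ι → ℕ) (hf : ∀ n, {i | R i ≤ n}.Finite) {r : ℕ} (hr : 1 ≤ r) (k : ℕ) :
    HasSum (fun s : Fin k → ι => if L R s ∣ r then (1 : ℝ) else 0) ((sol R r).ncard ^ k : ℝ) := by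
  have hfin := finite_tuples R hf hr k
  have h1 : HasSum (fun s : Fin k → ι => if L R s ∣ r then (1 : ℝ) else 0)
      (∑ s ∈ hfin.toFinset, if L R s ∣ r then (1 : ℝ) else 0) :=
    hasSum_sum_of_ne_finset_zero (by
      intro s hs
      rw [if_neg]
      intro h
      exact hs (hfin.mem_toFinset.mpr h))
  convert h1 using 1
  have h3 : ∑ s ∈ hfin.toFinset, (if L R s ∣ r then (1 : ℝ) else 0) =
      ∑ s ∈ hfin.toFinset, (1 : ℝ) := by
    apply Finset.sum_congr rfl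
    intro s hs
    exact if_pos (hfin.mem_toFinset.mp hs)
  rw [h3, Finset.sum_const, nsmul_eq_mul, mul_one, ← Set.ncard_eq_toFinset_card _ hfin]
  have h2 : {s : Fin k → ι | L R s ∣ r} = {s : Fin k → ι | ∀ i, s i ∈ sol R r} := by
    ext s
    simp only [Set.mem_ofPred_eq, L_dvd, sol]
  rw [h2, ncard_tuples]
  push_cast
  rfl

theorem frac_le (y σ : ℝ) (hy : 0 ≤ y) (hσ0 : 0 ≤ σ) (hσ1 : σ ≤ 1) :
    y - ⌊y⌋₊ ≤ y ^ σ := by
  rcases lt_or_ge y 1 with h | h
  · rw [Nat.floor_eq_zero.mpr h]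
    rcases hy.eq_or_lt with h0 | h0
    · rw [← h0]
      simp only [Nat.cast_zero, sub_zero]
      positivity
    · have := Real.rpow_le_rpow_of_exponent_ge h0 h.le hσ1
      rw [Real.rpow_one] at this
      simp only [Nat.cast_zero, sub_zero]
      exact this
  · have h1 := Real.one_le_rpow h hσ0
    have h2 := Nat.lt_floor_add_one y
    linarith

open Classical in
/-- The moments with a power saving. -/
theorem moment_bound (R : ι → ℕ) (hR : ∀ i, 1 ≤ R i) (θ : ℝ) (hθ : 0 ≤ θ)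
    (hD : ∀ (k : ℕ) (σ : ℝ), θ < σ → Dk R Set.univ k σ ≠ ⊤) (k : ℕ) (σ : ℝ) (hσ : θ < σ)
    (hσ1 : σ ≤ 1) (Y : ℕ) :
    |∑ r ∈ Finset.Icc 1 Y, ((sol R r).ncard ^ k : ℝ) -
      (∑' s : Fin k → ι, 1 / (L R s : ℝ)) * Y| ≤
      (∑' s : Fin k → ι, (L R s : ℝ) ^ (-σ)) * (Y : ℝ) ^ σ := by
  have hθ1 : θ < 1 := by linarith
  have hσ0 : 0 ≤ σ := by linarith
  have hf := finite_R_le R hR (σ := 1) (by norm_num) (hD 1 1 hθ1)
  have hY0 : (0 : ℝ) ≤ Y := Nat.cast_nonneg _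
  have hL : ∀ s : Fin k → ι, (0 : ℝ) < L R s := fun s => by exact_mod_cast L_pos R hR s
  have hs1 : Summable (fun s : Fin k → ι => 1 / (L R s : ℝ)) := by
    refine (summable_L R k 1 (hD k 1 hθ1)).congr (fun s => ?_)
    rw [Real.rpow_neg_one, one_div]
  have hsσ := summable_L R k σ (hD k σ hσ)
  have h1 : HasSum (fun s : Fin k → ι => ∑ r ∈ Finset.Icc 1 Y, if L R s ∣ r then (1 : ℝ) else 0)
      (∑ r ∈ Finset.Icc 1 Y, ((sol R r).ncard ^ k : ℝ)) :=
    hasSum_sum (fun r hr => hasSum_pow R hf (Finset.mem_Icc.mp hr).1 k)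
  have h2 : ∀ s : Fin k → ι, (∑ r ∈ Finset.Icc 1 Y, if L R s ∣ r then (1 : ℝ) else 0) =
      (⌊(Y : ℝ) / L R s⌋₊ : ℝ) := by
    intro s
    rw [← Finset.sum_filter, Finset.sum_const, nsmul_eq_mul, mul_one]
    congr 1
    rw [Nat.floor_div_natCast, Nat.floor_natCast, ← Nat.Ioc_filter_dvd_card_eq_div Y (L R s)]
    congr 1
  simp_rw [h2] at h1
  have h3 : HasSum (fun s : Fin k → ι => (Y : ℝ) / L R s)
      ((∑' s : Fin k → ι, 1 / (L R s : ℝ)) * Y) := by
    refine (hs1.hasSum.mul_right (Y : ℝ)).congr_fun ?_ |> fun h => h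
    intro s
    ring
  have h4 := h3.sub h1
  have h5 : HasSum (fun s : Fin k → ι => (L R s : ℝ) ^ (-σ) * (Y : ℝ) ^ σ)
      ((∑' s : Fin k → ι, (L R s : ℝ) ^ (-σ)) * (Y : ℝ) ^ σ) := hsσ.hasSum.mul_right _
  have h6 : ∀ s : Fin k → ι, (Y : ℝ) / L R s - (⌊(Y : ℝ) / L R s⌋₊ : ℝ) ≤
      (L R s : ℝ) ^ (-σ) * (Y : ℝ) ^ σ := by
    intro s
    refine (frac_le _ σ (by positivity) hσ0 hσ1).trans (le_of_eq ?_)
    rw [Real.div_rpow hY0 (hL s).le, Real.rpow_neg (hL s).le, div_eq_mul_inv, mul_comm]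
  have h7 : ∀ s : Fin k → ι, 0 ≤ (Y : ℝ) / L R s - (⌊(Y : ℝ) / L R s⌋₊ : ℝ) := by
    intro s
    have := Nat.floor_le (a := (Y : ℝ) / L R s) (by positivity)
    linarith
  have h8 := hasSum_le h6 h4 h5
  have h9 := h4.nonneg h7
  rw [abs_sub_comm, abs_of_nonneg h9]
  exact h8

end Pool.Agent.Lib.AbcU
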