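import Pool.Agent.Lib.AbcU.Height
import Pool.Agent.Lib.AbcU.Moment

/-!
# The moments of the number of high solutions
-/

open Finset
open scoped ENNReal

namespace Pool.Agent.Lib.AbcU

open Pool.Agent.Lib.Pabc2 (N rd ht IsT)

variable {ι : Type*}

open Classical in
/-- A power of the number of the solutions in `W` as a sum over tuples. -/
theorem pow_eq_tsum (R : ι → ℕ) (hf : ∀ n, {i | R i ≤ n}.Finite) (W : Set ι) {r : ℕ} (hr : 1 ≤ r)
    (k : ℕ) : (((sol R r ∩ W).ncard ^ k : ℕ) : ℝ≥0∞) =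
      ∑' s : Fin k → ι, if (∀ j, s j ∈ W) ∧ L R s ∣ r then 1 else 0 := by
  have hfin : {s : Fin k → ι | (∀ j, s j ∈ W) ∧ L R s ∣ r}.Finite :=
    (finite_tuples R hf hr k).subset (fun s hs => hs.2)
  have h1 : ∑' s : Fin k → ι, (if (∀ j, s j ∈ W) ∧ L R s ∣ r then (1 : ℝ≥0∞) else 0) =
      ∑ s ∈ hfin.toFinset, (if (∀ j, s j ∈ W) ∧ L R s ∣ r then (1 : ℝ≥0∞) else 0) := by
    apply tsum_eq_sum
    intro s hs
    rw [if_neg]
    intro h
    exact hs (hfin.mem_toFinset.mpr h)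
  have h3 : ∑ s ∈ hfin.toFinset, (if (∀ j, s j ∈ W) ∧ L R s ∣ r then (1 : ℝ≥0∞) else 0) =
      ∑ s ∈ hfin.toFinset, (1 : ℝ≥0∞) := by
    apply Finset.sum_congr rfl
    intro s hs
    exact if_pos (hfin.mem_toFinset.mp hs)
  rw [h1, h3, Finset.sum_const, nsmul_eq_mul, mul_one, ← Set.ncard_eq_toFinset_card _ hfin]
  have h2 : {s : Fin k → ι | (∀ j, s j ∈ W) ∧ L R s ∣ r} =
      {s : Fin k → ι | ∀ i, s i ∈ sol R r ∩ W} := by
    ext s
    simp only [Set.mem_ofPred_eq, L_dvd, sol, Set.mem_inter_iff]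
    exact ⟨fun h i => ⟨h.2 i, h.1 i⟩, fun h => ⟨fun i => (h i).2, fun i => (h i).1⟩⟩
  rw [h2, ncard_tuples]

open Classical in
/-- The moment over a finite family. -/
theorem sum_pow_le (R : ι → ℕ) (hf : ∀ n, {i | R i ≤ n}.Finite) (W : Set ι) {κ : Type*}
    (I : Finset κ) (r : κ → ℕ) (hr : ∀ i ∈ I, 1 ≤ r i) (k : ℕ) (w : (Fin k → ι) → ℝ≥0∞)
    (hw : ∀ s : Fin k → ι, (∀ j, s j ∈ W) →
      ((I.filter (fun i => L R s ∣ r i)).card : ℝ≥0∞) ≤ w s) :
    ∑ i ∈ I, (((sol R (r i) ∩ W).ncard ^ k : ℕ) : ℝ≥0∞) ≤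
      ∑' s : Fin k → ι, if ∀ j, s j ∈ W then w s else 0 := by
  have h1 : ∑ i ∈ I, (((sol R (r i) ∩ W).ncard ^ k : ℕ) : ℝ≥0∞) =
      ∑' s : Fin k → ι, ∑ i ∈ I, if (∀ j, s j ∈ W) ∧ L R s ∣ r i then (1 : ℝ≥0∞) else 0 := by
    rw [Summable.tsum_finsetSum (fun _ _ => ENNReal.summable)]
    exact Finset.sum_congr rfl (fun i hi => pow_eq_tsum R hf W (hr i hi) k)
  rw [h1]
  apply ENNReal.tsum_le_tsum
  intro s
  by_cases h : ∀ j, s j ∈ W
  · rw [if_pos h]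
    refine le_trans (le_of_eq ?_) (hw s h)
    rw [← Finset.sum_boole]
    apply Finset.sum_congr rfl
    intro i _
    by_cases h2 : L R s ∣ r i
    · rw [if_pos ⟨h, h2⟩, if_pos h2]
    · rw [if_neg (fun h3 => h2 h3.2), if_neg h2]
  · rw [if_neg h]
    apply le_of_eq
    apply Finset.sum_eq_zero
    intro i _
    exact if_neg (fun h3 => h h3.1)

theorem dvd_L (R : ι → ℕ) {k : ℕ} (s : Fin k → ι) (j : Fin k) : R (s j) ∣ L R s :=
  (L_dvd R s _).mp dvd_rfl j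

theorem le_L (R : ι → ℕ) (hR : ∀ i, 1 ≤ R i) {k : ℕ} (s : Fin k → ι) (j : Fin k) :
    R (s j) ≤ L R s := Nat.le_of_dvd (L_pos R hR s) (dvd_L R s j)

open Classical in
/-- A sum over tuples with large `lcm`, of a larger power. -/
theorem tsum_shift (R : ι → ℕ) (hR : ∀ i, 1 ≤ R i) (W W' : Set ι) (k : ℕ) (σ a z : ℝ)
    (hσa : σ ≤ a) (hz : 0 < z) (P : (Fin k → ι) → Prop)
    (hP : ∀ s : Fin k → ι, (∀ j, s j ∈ W) → P s → (∀ j, s j ∈ W') ∧ z ≤ L R s) :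
    (∑' s : Fin k → ι, if (∀ j, s j ∈ W) ∧ P s then ENNReal.ofReal ((L R s : ℝ) ^ (-a)) else 0) ≤
      ENNReal.ofReal (z ^ (-(a - σ))) * Dk R W' k σ := by
  unfold Dk
  rw [← ENNReal.tsum_mul_left]
  apply ENNReal.tsum_le_tsum
  intro s
  by_cases h : (∀ j, s j ∈ W) ∧ P s
  · obtain ⟨h1, h2⟩ := hP s h.1 h.2
    rw [if_pos h, if_pos h1, ← ENNReal.ofReal_mul (by positivity)]
    apply ENNReal.ofReal_le_ofReal
    have hL : (0 : ℝ) < L R s := by exact_mod_cast L_pos R hR s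
    rw [show -a = -(a - σ) + -σ by ring, Real.rpow_add hL]
    apply mul_le_mul_of_nonneg_right _ (by positivity)
    exact Real.rpow_le_rpow_of_nonpos hz h2 (by linarith)
  · rw [if_neg h]
    exact zero_le

/-- `exp (-c x) ≤ K x ^ (-η)` for `x > 0`. -/
theorem exp_le_rpow (c η : ℝ) (hc : 0 < c) (hη : 0 ≤ η) : ∃ K : ℝ, 0 < K ∧ ∀ x : ℝ, 0 < x →
    Real.exp (-(c * x)) ≤ K * x ^ (-η) := by
  obtain ⟨n, hn⟩ := exists_nat_ge η
  refine ⟨1 + n.factorial / c ^ n, by positivity, fun x hx => ?_⟩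
  rcases le_total x 1 with h | h
  · have h1 : (1 : ℝ) ≤ x ^ (-η) := Real.one_le_rpow_of_pos_of_le_one_of_nonpos hx h (by linarith)
    have h2 : Real.exp (-(c * x)) ≤ 1 := by
      rw [Real.exp_le_one_iff]
      have := mul_pos hc hx
      linarith
    have h3 : (0 : ℝ) ≤ n.factorial / c ^ n := by positivity
    nlinarith
  · have h1 : (c * x) ^ n / n.factorial ≤ Real.exp (c * x) :=
      Real.pow_div_factorial_le_exp _ (by positivity) n
    have h2 : x ^ (-(n : ℝ)) ≤ x ^ (-η) := Real.rpow_le_rpow_of_exponent_le h (by linarith)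
    have h3 : Real.exp (-(c * x)) ≤ ((c * x) ^ n / n.factorial)⁻¹ := by
      rw [Real.exp_neg]
      exact inv_anti₀ (by positivity) h1
    have h4 : ((c * x) ^ n / n.factorial)⁻¹ = n.factorial / c ^ n * x ^ (-(n : ℝ)) := by
      rw [Real.rpow_neg hx.le, Real.rpow_natCast, mul_pow]
      field_simp
    calc Real.exp (-(c * x)) ≤ n.factorial / c ^ n * x ^ (-(n : ℝ)) := by rw [← h4]; exact h3
      _ ≤ n.factorial / c ^ n * x ^ (-η) := mul_le_mul_of_nonneg_left h2 (by positivity)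
      _ ≤ (1 + n.factorial / c ^ n) * x ^ (-η) :=
          mul_le_mul_of_nonneg_right (by linarith) (by positivity)

/-- The triples of height at least `x`. -/
def Hi (e : ι → ℕ × ℕ) (x : ℝ) : Set ι := {i | x ≤ ht (e i)}

/-- The radical of a high triple. -/
theorem rad_ge (e : ι → ℕ × ℕ)
    (he : ∀ i, 0 < (e i).1 ∧ 0 < (e i).2 ∧ Nat.Coprime (e i).1 (e i).2) (β : ℝ) (hβ : 2 < β) :
    ∃ c : ℝ, 0 < c ∧ ∀ (x : ℝ), 0 < x → ∀ i ∈ Hi e x, c * x ^ (1 / β) ≤ (rd (e i) : ℝ) := by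
  obtain ⟨K, hK, h⟩ := height_all (β - 2) (by linarith)
  refine ⟨K ^ (-(1 / β)), by positivity, fun x hx i hi => ?_⟩
  have hβ0 : 0 < β := by linarith
  have h1 : x ≤ K * (rd (e i) : ℝ) ^ β := by
    have h2 := h (e i) (he i).1 (he i).2.1 (he i).2.2
    rw [show 2 + (β - 2) = β by ring] at h2
    exact le_trans hi h2
  have hr : (0 : ℝ) < rd (e i) := by exact_mod_cast rd_pos' (e i)
  have h3 : x ^ (1 / β) ≤ (K * (rd (e i) : ℝ) ^ β) ^ (1 / β) :=
    Real.rpow_le_rpow hx.le h1 (by positivity)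
  rw [Real.mul_rpow (by linarith) (by positivity), ← Real.rpow_mul hr.le,
    mul_one_div_cancel hβ0.ne', Real.rpow_one] at h3
  calc K ^ (-(1 / β)) * x ^ (1 / β) ≤ K ^ (-(1 / β)) * (K ^ (1 / β) * (rd (e i) : ℝ)) :=
        mul_le_mul_of_nonneg_left h3 (by positivity)
    _ = rd (e i) := by
        rw [← mul_assoc, ← Real.rpow_add (by linarith)]
        simp

open Classical in
/-- The tuples of triples of height at least `x`. -/
theorem tsum_high (e : ι → ℕ × ℕ) (hinj : Function.Injective e)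
    (he : ∀ i, 0 < (e i).1 ∧ 0 < (e i).2 ∧ Nat.Coprime (e i).1 (e i).2) (k : ℕ) (hk : 1 ≤ k)
    (η : ℝ) (hη0 : 0 < η) (hη : η < 1 / 3) : ∃ K : ℝ, 0 ≤ K ∧ ∀ x : ℝ, 0 < x →
      (∑' s : Fin k → ι, if ∀ j, s j ∈ Hi e x then
        ENNReal.ofReal ((L (fun i => rd (e i)) s : ℝ) ^ (-(1 : ℝ))) else 0) ≤
      ENNReal.ofReal (K * x ^ (-η)) := by
  obtain ⟨R, hRdef⟩ : ∃ R : ι → ℕ, R = fun i => rd (e i) := ⟨_, rfl⟩
  have hR : ∀ i, 1 ≤ R i := fun i => by rw [hRdef]; exact rd_pos' _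
  -- the parameters
  obtain ⟨δ, hδ⟩ : ∃ δ : ℝ, δ = (1 / 3 - η) / 2 := ⟨_, rfl⟩
  have hδ0 : 0 < δ := by linarith
  obtain ⟨M0, hM0⟩ := Dk_viol e hinj he k (1 / 3 + δ) (by linarith)
  obtain ⟨M, hM⟩ : ∃ M : ℝ, M = max M0 1 := ⟨_, rfl⟩
  have hMpos : 0 < M := by
    have : 1 ≤ M := by rw [hM]; exact le_max_right _ _
    linarith
  have hD1 : Dk (fun i => rd (e i)) (V e M) k (1 / 3 + δ) ≠ ⊤ :=
    hM0 M (by rw [hM]; exact le_max_left _ _)
  have hD2 : Dk (fun i => rd (e i)) Set.univ k (5 / 6) ≠ ⊤ := Dk_all e hinj he k _ (by norm_num)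
  rw [← hRdef] at hD1 hD2
  -- `(2/3 - δ) / β = η`
  obtain ⟨β, hβ⟩ : ∃ β : ℝ, β = (2 / 3 - δ) / η := ⟨_, rfl⟩
  have hβ2 : 2 < β := by
    rw [hβ, lt_div_iff₀ hη0]
    linarith
  obtain ⟨c, hc, hrad⟩ := rad_ge e he β hβ2
  obtain ⟨K1, hK1, hexp⟩ := exp_le_rpow (1 / (6 * M)) η (by positivity) hη0.le
  refine ⟨c ^ (-(2 / 3 - δ)) * (Dk R (V e M) k (1 / 3 + δ)).toReal +
    K1 * (Dk R Set.univ k (5 / 6)).toReal, by positivity, fun x hx => ?_⟩
  simp only [← hRdef]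
  obtain ⟨P, hP⟩ : ∃ P : (Fin k → ι) → Prop, P = fun s => ∀ j, s j ∈ V e M := ⟨_, rfl⟩
  obtain ⟨Q, hQ⟩ : ∃ Q : (Fin k → ι) → Prop, Q = fun s => ¬ P s := ⟨_, rfl⟩
  have hsplit : ∀ s : Fin k → ι, (if ∀ j, s j ∈ Hi e x then
      ENNReal.ofReal ((L R s : ℝ) ^ (-(1 : ℝ))) else 0) ≤
      (if (∀ j, s j ∈ Hi e x) ∧ P s then
        ENNReal.ofReal ((L R s : ℝ) ^ (-(1 : ℝ))) else 0) +
      (if (∀ j, s j ∈ Hi e x) ∧ Q s then
        ENNReal.ofReal ((L R s : ℝ) ^ (-(1 : ℝ))) else 0) := by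
    intro s
    by_cases h1 : ∀ j, s j ∈ Hi e x
    · by_cases h2 : P s
      · rw [if_pos h1, if_pos ⟨h1, h2⟩]
        exact le_self_add
      · have h3 : Q s := by rw [hQ]; exact h2
        rw [if_pos h1, if_pos (c := (∀ j, s j ∈ Hi e x) ∧ Q s) ⟨h1, h3⟩]
        exact le_add_self
    · rw [if_neg h1]
      exact zero_le
  refine (ENNReal.tsum_le_tsum hsplit).trans ?_
  rw [ENNReal.tsum_add]
  have hA := tsum_shift R hR (Hi e x) (V e M) k (1 / 3 + δ) 1 (c * x ^ (1 / β)) (by linarith)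
    (by positivity) P (by
      intro s h1 h2
      rw [hP] at h2
      refine ⟨h2, ?_⟩
      have h3 := hrad x hx (s ⟨0, hk⟩) (h1 _)
      have h4 := le_L R hR s ⟨0, hk⟩
      refine h3.trans ?_
      rw [hRdef] at h4 ⊢
      exact_mod_cast h4)
  have hB := tsum_shift R hR (Hi e x) Set.univ k (5 / 6) 1 (Real.exp (x / M)) (by norm_num)
    (by positivity) Q (by
      intro s h1 h2
      rw [hQ, hP] at h2
      refine ⟨fun j => Set.mem_univ _, ?_⟩
      push Not at h2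
      obtain ⟨j, hj⟩ := h2
      have h3 : ht (e (s j)) < M * Real.log (rd (e (s j))) := by
        unfold V at hj
        rw [Set.mem_ofPred_eq, not_le] at hj
        exact hj
      have h4 : x ≤ ht (e (s j)) := h1 j
      have h5 : x / M ≤ Real.log (rd (e (s j))) := by
        rw [div_le_iff₀ hMpos, mul_comm]
        linarith
      have h6 : (0 : ℝ) < rd (e (s j)) := by exact_mod_cast rd_pos' _
      have h7 : Real.exp (x / M) ≤ rd (e (s j)) := by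
        rw [← Real.exp_log h6]
        exact Real.exp_le_exp.mpr h5
      have h8 := le_L R hR s j
      refine h7.trans ?_
      rw [hRdef] at h8 ⊢
      exact_mod_cast h8)
  refine (add_le_add hA hB).trans ?_
  have e1 : Dk R (V e M) k (1 / 3 + δ) = ENNReal.ofReal (Dk R (V e M) k (1 / 3 + δ)).toReal :=
    (ENNReal.ofReal_toReal hD1).symm
  have e2 : Dk R Set.univ k (5 / 6) = ENNReal.ofReal (Dk R Set.univ k (5 / 6)).toReal :=
    (ENNReal.ofReal_toReal hD2).symm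
  rw [e1, e2, ← ENNReal.ofReal_mul (by positivity), ← ENNReal.ofReal_mul (by positivity),
    ← ENNReal.ofReal_add (by positivity) (by positivity)]
  apply ENNReal.ofReal_le_ofReal
  rw [ENNReal.toReal_ofReal ENNReal.toReal_nonneg, ENNReal.toReal_ofReal ENNReal.toReal_nonneg]
  have h1 : (c * x ^ (1 / β)) ^ (-(1 - (1 / 3 + δ))) = c ^ (-(2 / 3 - δ)) * x ^ (-η) := by
    rw [Real.mul_rpow hc.le (by positivity), ← Real.rpow_mul hx.le]
    congr 2
    · ring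
    · have h0 : 2 / 3 - δ ≠ 0 := by
        have : 0 < 2 / 3 - δ := by linarith
        exact this.ne'
      rw [hβ, one_div_div, show -(1 - (1 / 3 + δ)) = -(2 / 3 - δ) by ring, mul_neg,
        div_mul_cancel₀ _ h0]
  have h2 : Real.exp (x / M) ^ (-(1 - 5 / 6 : ℝ)) ≤ K1 * x ^ (-η) := by
    refine le_trans (le_of_eq ?_) (hexp x hx)
    rw [← Real.exp_mul]
    congr 1
    field_simp
    norm_num
  have h3 : 0 ≤ (Dk R (V e M) k (1 / 3 + δ)).toReal := ENNReal.toReal_nonneg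
  have h4 : 0 ≤ (Dk R Set.univ k (5 / 6)).toReal := ENNReal.toReal_nonneg
  have h5 := mul_le_mul_of_nonneg_right h2 h4
  rw [h1]
  calc c ^ (-(2 / 3 - δ)) * x ^ (-η) * (Dk R (V e M) k (1 / 3 + δ)).toReal +
      Real.exp (x / M) ^ (-(1 - 5 / 6 : ℝ)) * (Dk R Set.univ k (5 / 6)).toReal
      ≤ c ^ (-(2 / 3 - δ)) * x ^ (-η) * (Dk R (V e M) k (1 / 3 + δ)).toReal +
        K1 * x ^ (-η) * (Dk R Set.univ k (5 / 6)).toReal := by linarith
    _ = _ := by ring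

end Pool.Agent.Lib.AbcU
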