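import Pool.Agent.Lib.AbcU.Eng
import Pool.Agent.Lib.AbcS.BoxG

/-!
# The sum of the inverse powers of the relative radicals
-/

open Finset
open scoped ENNReal

namespace Pool.Agent.Lib.AbcU

open Pool.Agent.Lib.AbcS (rF InBoxF rF_pos)
open Pool.Agent.Lib.AbcB (DD)
open Pool.Agent.Lib.Pabc2 (N rd ht)

variable {ι : Type*}

theorem squarefree_prod (S : Finset ℕ) (hS : ∀ p ∈ S, p.Prime) : Squarefree (∏ p ∈ S, p) := by
  refine Finset.squarefree_prod_of_pairwise_isCoprime ?_ ?_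
  · intro p hp q hq hpq
    simp only [Function.onFun, ← Nat.coprime_iff_isRelPrime]
    exact (Nat.coprime_primes (hS p hp) (hS q hq)).mpr hpq
  · intro p hp
    exact (hS p hp).squarefree

/-- `off m` of a product of distinct primes. -/
theorem off_prod (m : ℕ) (hm : 1 ≤ m) (S : Finset ℕ) (hS : ∀ p ∈ S, p.Prime) :
    off m (∏ p ∈ S, p) = ∏ p ∈ S \ m.primeFactors, p := by
  classical
  set F := m.primeFactors with hF
  have h1 : (∏ p ∈ S \ F, p) * ∏ p ∈ S ∩ F, p = ∏ p ∈ S, p := by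
    rw [← Finset.sdiff_inter_self_left S F]
    exact Finset.prod_sdiff Finset.inter_subset_left
  have hpos : 0 < ∏ p ∈ S ∩ F, p :=
    Finset.prod_pos (fun p hp => (hS p (Finset.mem_inter.mp hp).1).pos)
  have h2 : Nat.gcd m (∏ p ∈ S, p) = ∏ p ∈ S ∩ F, p := by
    apply Nat.dvd_antisymm
    · have hg : Squarefree (Nat.gcd m (∏ p ∈ S, p)) :=
        (squarefree_prod S hS).squarefree_of_dvd (Nat.gcd_dvd_right _ _)
      rw [← Nat.prod_primeFactors_of_squarefree hg]
      apply Finset.prod_dvd_prod_of_subset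
      intro p hp
      have hp1 := Nat.dvd_of_mem_primeFactors hp
      have hp2 := Nat.prime_of_mem_primeFactors hp
      rw [Finset.mem_inter, hF]
      constructor
      · have h3 : p ∣ ∏ p ∈ S, p := hp1.trans (Nat.gcd_dvd_right _ _)
        have h4 : p ∈ (∏ p ∈ S, p).primeFactors := by
          rw [Nat.mem_primeFactors]
          exact ⟨hp2, h3, (Finset.prod_pos (fun p hp => (hS p hp).pos)).ne'⟩
        rwa [Nat.primeFactors_prod hS] at h4
      · rw [Nat.mem_primeFactors]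
        exact ⟨hp2, hp1.trans (Nat.gcd_dvd_left _ _), by omega⟩
    · apply Nat.dvd_gcd
      · refine (Finset.prod_dvd_prod_of_subset _ _ _ Finset.inter_subset_right).trans ?_
        exact Nat.prod_primeFactors_dvd m
      · exact Finset.prod_dvd_prod_of_subset _ _ _ Finset.inter_subset_left
  unfold off
  rw [h2, ← h1, Nat.mul_div_cancel _ hpos]

/-- The relative radical of a triple is the product of the three relative radicals. -/
theorem off_rd (m : ℕ) (hm : 1 ≤ m) (t : ℕ × ℕ) (h1 : 0 < t.1) (h2 : 0 < t.2)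
    (h12 : Nat.Coprime t.1 t.2) :
    off m (rd t) = rF m.primeFactors t.1 * rF m.primeFactors t.2 *
      rF m.primeFactors (t.1 + t.2) := by
  classical
  have h13 : Nat.Coprime t.1 (t.1 + t.2) := by
    rw [Nat.coprime_self_add_right]
    exact h12
  have h23 : Nat.Coprime t.2 (t.1 + t.2) := by
    rw [Nat.coprime_add_self_right]
    exact h12.symm
  have h123 : Nat.Coprime (t.1 * t.2) (t.1 + t.2) := Nat.Coprime.mul_left h13 h23
  unfold rd
  rw [off_prod m hm _ (fun p hp => Nat.prime_of_mem_primeFactors hp)]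
  unfold N rF
  rw [Nat.primeFactors_mul (by positivity) (by omega), Nat.primeFactors_mul h1.ne' h2.ne',
    Finset.union_sdiff_distrib, Finset.union_sdiff_distrib, Finset.prod_union,
    Finset.prod_union]
  · exact (h12.disjoint_primeFactors).mono Finset.sdiff_subset Finset.sdiff_subset
  · rw [← Finset.union_sdiff_distrib, ← Nat.primeFactors_mul h1.ne' h2.ne']
    exact (h123.disjoint_primeFactors).mono Finset.sdiff_subset Finset.sdiff_subset

theorem tsum_fiber {κ : Type*} [DecidableEq κ] (f : ι → ℝ≥0∞) (q : ι → κ) :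
    ∑' i, f i = ∑' x, ∑' i, if q i = x then f i else 0 := by
  rw [ENNReal.tsum_comm]
  apply tsum_congr
  intro i
  rw [tsum_eq_single (q i)]
  · rw [if_pos rfl]
  · intro x hx
    rw [if_neg (Ne.symm hx)]

theorem tsum_le_card (f : ι → ℝ≥0∞) (B v : ℝ) (hv : 0 ≤ v)
    (hB : ∀ T : Finset ι, (∀ i ∈ T, f i ≠ 0) → (T.card : ℝ) ≤ B)
    (hf : ∀ i, f i ≤ ENNReal.ofReal v) : ∑' i, f i ≤ ENNReal.ofReal (B * v) := by
  classical
  rw [ENNReal.tsum_eq_iSup_sum]
  apply iSup_le
  intro T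
  rw [← Finset.sum_filter_ne_zero]
  calc ∑ i ∈ T.filter (fun i => f i ≠ 0), f i
      ≤ ∑ _i ∈ T.filter (fun i => f i ≠ 0), ENNReal.ofReal v := Finset.sum_le_sum (fun i _ => hf i)
    _ = ((T.filter (fun i => f i ≠ 0)).card : ℝ≥0∞) * ENNReal.ofReal v := by
        rw [Finset.sum_const, nsmul_eq_mul]
    _ = ENNReal.ofReal (((T.filter (fun i => f i ≠ 0)).card : ℝ) * v) := by
        rw [ENNReal.ofReal_mul (Nat.cast_nonneg _), ENNReal.ofReal_natCast]
    _ ≤ ENNReal.ofReal (B * v) := by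
        apply ENNReal.ofReal_le_ofReal
        apply mul_le_mul_of_nonneg_right _ hv
        exact hB _ (fun i hi => (Finset.mem_filter.mp hi).2)

theorem tsum_geom3 (c u : ℝ) (hc : 0 ≤ c) (hu0 : 0 ≤ u) (hu1 : u < 1) :
    ∑' x : ℕ × ℕ × ℕ, ENNReal.ofReal (c * u ^ (x.1 + x.2.1 + x.2.2)) =
      ENNReal.ofReal (c * (1 - u)⁻¹ ^ 3) := by
  have hS : ∑' n : ℕ, ENNReal.ofReal (u ^ n) = ENNReal.ofReal ((1 - u)⁻¹) := by
    rw [← ENNReal.ofReal_tsum_of_nonneg (fun n => pow_nonneg hu0 n)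
      (summable_geometric_of_lt_one hu0 hu1), tsum_geometric_of_lt_one hu0 hu1]
  have h0 : 0 ≤ (1 - u)⁻¹ := inv_nonneg.mpr (by linarith)
  have h1 : ∀ x : ℕ × ℕ × ℕ, ENNReal.ofReal (c * u ^ (x.1 + x.2.1 + x.2.2)) =
      ENNReal.ofReal c * (ENNReal.ofReal (u ^ x.1) *
        (ENNReal.ofReal (u ^ x.2.1) * ENNReal.ofReal (u ^ x.2.2))) := by
    intro x
    rw [← ENNReal.ofReal_mul (by positivity), ← ENNReal.ofReal_mul (by positivity),
      ← ENNReal.ofReal_mul (by positivity)]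
    congr 1
    rw [pow_add, pow_add]
    ring
  simp_rw [h1]
  rw [ENNReal.tsum_mul_left, ENNReal.tsum_prod']
  simp only [ENNReal.tsum_mul_left, ENNReal.tsum_mul_right, ENNReal.tsum_prod', hS]
  rw [← ENNReal.ofReal_mul h0, ← ENNReal.ofReal_mul h0, ← ENNReal.ofReal_mul hc]
  congr 1
  ring

open Classical in
/-- The sum of the inverse powers of the relative radicals from a count in relative boxes. -/
theorem tsum_off_le (e : ι → ℕ × ℕ)
    (he : ∀ i, 0 < (e i).1 ∧ 0 < (e i).2 ∧ Nat.Coprime (e i).1 (e i).2)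
    (W : Set ι) (θ ε K σ : ℝ) (hθ : 0 ≤ θ) (hε : 0 < ε) (hK : 0 ≤ K) (hσ : θ + ε < σ)
    (hc : ∀ (m A B C : ℕ) (T : Finset ι), 1 ≤ m → 1 ≤ A → 1 ≤ B → 1 ≤ C →
      (∀ i ∈ T, i ∈ W ∧ InBoxF m.primeFactors A B C (e i)) →
      (T.card : ℝ) ≤ K * ((A : ℝ) * B * C) ^ θ * ((m : ℝ) * A * B * C) ^ ε) :
    ∃ K' : ℝ, ∀ m : ℕ, 1 ≤ m →
      ∑' i : ι, (if i ∈ W then ENNReal.ofReal ((off m (rd (e i)) : ℝ) ^ (-σ)) else 0) ≤
        ENNReal.ofReal (K' * (m : ℝ) ^ ε) := by
  obtain ⟨u, hu⟩ : ∃ u : ℝ, u = (2 : ℝ) ^ (θ + ε - σ) := ⟨_, rfl⟩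
  have hu0 : 0 < u := by rw [hu]; positivity
  have hu1 : u < 1 := by
    rw [hu]
    exact Real.rpow_lt_one_of_one_lt_of_neg (by norm_num) (by linarith)
  refine ⟨K * (8 : ℝ) ^ (θ + ε) * (1 - u)⁻¹ ^ 3, fun m hm => ?_⟩
  have hm0 : (0 : ℝ) < m := by exact_mod_cast hm
  obtain ⟨F, hF⟩ : ∃ F : Finset ℕ, F = m.primeFactors := ⟨_, rfl⟩
  obtain ⟨q, hq⟩ : ∃ q : ι → ℕ × ℕ × ℕ, q = fun i => (Nat.log 2 (rF F (e i).1),
    Nat.log 2 (rF F (e i).2), Nat.log 2 (rF F ((e i).1 + (e i).2))) := ⟨_, rfl⟩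
  rw [tsum_fiber _ q]
  have key : ∀ x : ℕ × ℕ × ℕ, (∑' i, if q i = x then
      (if i ∈ W then ENNReal.ofReal ((off m (rd (e i)) : ℝ) ^ (-σ)) else 0) else 0) ≤
      ENNReal.ofReal ((K * (8 : ℝ) ^ (θ + ε) * (m : ℝ) ^ ε) * u ^ (x.1 + x.2.1 + x.2.2)) := by
    rintro ⟨x, y, z⟩
    simp only
    obtain ⟨n, hn⟩ : ∃ n : ℝ, n = (2 : ℝ) ^ (x + y + z) := ⟨_, rfl⟩
    have hn0 : 0 < n := by rw [hn]; positivity
    have hv : 0 ≤ n ^ (-σ) := by positivity
    have hun : u ^ (x + y + z) = n ^ (θ + ε - σ) := by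
      rw [hu, hn, ← Real.rpow_natCast, ← Real.rpow_natCast, ← Real.rpow_mul (by norm_num),
        ← Real.rpow_mul (by norm_num), mul_comm]
    have hlow : ∀ i, q i = (x, y, z) → n ≤ (off m (rd (e i)) : ℝ) := by
      intro i hi
      rw [hq] at hi
      simp only [Prod.mk.injEq] at hi
      obtain ⟨h1, h2, h3⟩ := hi
      rw [off_rd m hm (e i) (he i).1 (he i).2.1 (he i).2.2, ← hF]
      have g1 : 2 ^ x ≤ rF F (e i).1 := by
        rw [← h1]
        exact Nat.pow_log_le_self 2 (rF_pos _ _).ne'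
      have g2 : 2 ^ y ≤ rF F (e i).2 := by
        rw [← h2]
        exact Nat.pow_log_le_self 2 (rF_pos _ _).ne'
      have g3 : 2 ^ z ≤ rF F ((e i).1 + (e i).2) := by
        rw [← h3]
        exact Nat.pow_log_le_self 2 (rF_pos _ _).ne'
      have g4 : 2 ^ (x + y + z) ≤ rF F (e i).1 * rF F (e i).2 * rF F ((e i).1 + (e i).2) := by
        rw [pow_add, pow_add]
        exact Nat.mul_le_mul (Nat.mul_le_mul g1 g2) g3
      rw [hn]
      exact_mod_cast g4
    have hup : ∀ i, q i = (x, y, z) →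
        InBoxF F (2 ^ (x + 1)) (2 ^ (y + 1)) (2 ^ (z + 1)) (e i) := by
      intro i hi
      rw [hq] at hi
      simp only [Prod.mk.injEq] at hi
      obtain ⟨h1, h2, h3⟩ := hi
      refine ⟨(he i).1, (he i).2.1, (he i).2.2, ?_, ?_, ?_⟩
      · rw [← h1]
        exact (Nat.lt_pow_succ_log_self (by norm_num) _).le
      · rw [← h2]
        exact (Nat.lt_pow_succ_log_self (by norm_num) _).le
      · rw [← h3]
        exact (Nat.lt_pow_succ_log_self (by norm_num) _).le
    have h8 : ((2 ^ (x + 1) : ℕ) : ℝ) * ((2 ^ (y + 1) : ℕ) : ℝ) * ((2 ^ (z + 1) : ℕ) : ℝ) =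
        8 * n := by
      rw [hn]
      push_cast
      rw [pow_add, pow_add, pow_add, pow_add, pow_add]
      ring
    have h := tsum_le_card (ι := ι) (fun i => if q i = (x, y, z) then
      (if i ∈ W then ENNReal.ofReal ((off m (rd (e i)) : ℝ) ^ (-σ)) else 0) else 0)
      (K * (8 * n) ^ θ * ((m : ℝ) * (8 * n)) ^ ε) (n ^ (-σ)) hv (by
        intro T hT
        have h1 := hc m (2 ^ (x + 1)) (2 ^ (y + 1)) (2 ^ (z + 1)) T hm Nat.one_le_two_pow
          Nat.one_le_two_pow Nat.one_le_two_pow (by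
            intro i hi
            have h2 := hT i hi
            by_cases hqi : q i = (x, y, z)
            · by_cases hW : i ∈ W
              · rw [← hF]
                exact ⟨hW, hup i hqi⟩
              · rw [if_pos hqi, if_neg hW] at h2
                exact absurd rfl h2
            · rw [if_neg hqi] at h2
              exact absurd rfl h2)
        rw [h8] at h1
        have e1 : (m : ℝ) * ((2 ^ (x + 1) : ℕ) : ℝ) * ((2 ^ (y + 1) : ℕ) : ℝ) *
            ((2 ^ (z + 1) : ℕ) : ℝ) = m * (8 * n) := by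
          rw [← h8]
          ring
        rw [e1] at h1
        exact h1) (by
        intro i
        by_cases hqi : q i = (x, y, z)
        · rw [if_pos hqi]
          by_cases hW : i ∈ W
          · rw [if_pos hW]
            apply ENNReal.ofReal_le_ofReal
            exact Real.rpow_le_rpow_of_nonpos hn0 (hlow i hqi) (by linarith)
          · rw [if_neg hW]
            exact zero_le
        · rw [if_neg hqi]
          exact zero_le)
    refine h.trans (le_of_eq ?_)
    congr 1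
    rw [hun, Real.mul_rpow (by norm_num) hn0.le, Real.mul_rpow hm0.le (by positivity),
      Real.mul_rpow (by norm_num) hn0.le, Real.rpow_add (by norm_num : (0 : ℝ) < 8),
      show θ + ε - σ = θ + ε + -σ by ring, Real.rpow_add hn0, Real.rpow_add hn0]
    ring
  refine (ENNReal.tsum_le_tsum key).trans ?_
  rw [tsum_geom3 _ u (by positivity) hu0.le hu1]
  apply le_of_eq
  congr 1
  ring

end Pool.Agent.Lib.AbcU
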