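import Pool.Agent.Lib.AbcU.RA2

/-!
# Values of binary forms with a prescribed divisor

Coprime pairs `(m, n)` with `1 ≤ m, n ≤ X` and `d ∣ F (m, n)`, `d` squarefree. The point `(m : n)` of the
projective line over `F_p` has at most `D + 1` possible values for every `p ∣ d`, and two pairs with the
same points satisfy `d ∣ m n' - m' n`.
-/

namespace Pool.Agent.Lib.AbcU

open Finset

/-- The binary form with coefficients `a 0, ..., a D`. -/
def bform (D : ℕ) (a : ℕ → ℤ) (t : ℕ × ℕ) : ℤ :=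
  ∑ i ∈ range (D + 1), a i * (t.1 : ℤ) ^ i * (t.2 : ℤ) ^ (D - i)

namespace BinAux

/-- The possible labels at `p`. -/
def T (D : ℕ) (a : ℕ → ℤ) (p : ℕ) : Finset ℕ :=
  insert 0 (((range p).filter
    (fun r : ℕ => (p : ℤ) ∣ ∑ i ∈ range (D + 1), a i * (r : ℤ) ^ i)).image (fun r => r + 1))

/-- The label of `(m, n)` at `p`: the point `(m : n)` of the projective line. -/
def lab (p : ℕ) (t : ℕ × ℕ) : ℕ :=
  if p ∣ t.2 then 0 else ((t.1 : ZMod p) * (t.2 : ZMod p)⁻¹).val + 1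

theorem card_roots (D : ℕ) (a : ℕ → ℤ) {p : ℕ} (hp : p.Prime)
    (ha : ∃ i ≤ D, ¬ (p : ℤ) ∣ a i) :
    ((range p).filter (fun r : ℕ => (p : ℤ) ∣ ∑ i ∈ range (D + 1), a i * (r : ℤ) ^ i)).card ≤ D := by
  classical
  have := Fact.mk hp
  set P : Polynomial (ZMod p) :=
    ∑ i ∈ range (D + 1), Polynomial.C ((a i : ℤ) : ZMod p) * Polynomial.X ^ i with hP
  have hcoef : ∀ i ≤ D, P.coeff i = ((a i : ℤ) : ZMod p) := by
    intro i hi
    rw [hP, Polynomial.finsetSum_coeff]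
    rw [sum_eq_single i]
    · simp
    · intro j _ hj
      simp [Polynomial.coeff_X_pow, hj.symm]
    · intro h
      exact absurd (mem_range.mpr (by omega)) h
  have hP0 : P ≠ 0 := by
    obtain ⟨i, hi, hd⟩ := ha
    intro h0
    have h1 := hcoef i hi
    rw [h0, Polynomial.coeff_zero] at h1
    exact hd ((ZMod.intCast_zmod_eq_zero_iff_dvd (a i) p).mp h1.symm)
  have hdeg : P.natDegree ≤ D := by
    rw [hP]
    refine Polynomial.natDegree_sum_le_of_forall_le _ _ fun i hi => ?_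
    refine (Polynomial.natDegree_C_mul_X_pow_le _ _).trans ?_
    rw [mem_range] at hi
    omega
  have h1 : ((range p).filter
      (fun r : ℕ => (p : ℤ) ∣ ∑ i ∈ range (D + 1), a i * (r : ℤ) ^ i)).card ≤
      (P.roots.toFinset).card := by
    refine card_le_card_of_injOn (fun r => (r : ZMod p)) ?_ ?_
    · intro r hr
      rw [mem_coe, mem_filter] at hr
      rw [mem_coe, Multiset.mem_toFinset, Polynomial.mem_roots hP0, Polynomial.IsRoot.def, hP,
        Polynomial.eval_finsetSum]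
      have h2 := (ZMod.intCast_zmod_eq_zero_iff_dvd _ p).mpr hr.2
      push_cast at h2
      simpa using h2
    · intro r hr r' hr' h
      rw [mem_coe, mem_filter, mem_range] at hr hr'
      have h2 := (ZMod.natCast_eq_natCast_iff' r r' p).mp h
      rwa [Nat.mod_eq_of_lt hr.1, Nat.mod_eq_of_lt hr'.1] at h2
  exact h1.trans ((Multiset.toFinset_card_le _).trans ((Polynomial.card_roots' P).trans hdeg))

theorem card_T (D : ℕ) (a : ℕ → ℤ) {p : ℕ} (hp : p.Prime) (ha : ∃ i ≤ D, ¬ (p : ℤ) ∣ a i) :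
    (T D a p).card ≤ D + 1 := by
  unfold T
  refine (card_insert_le _ _).trans (Nat.add_le_add_right ?_ 1)
  exact card_image_le.trans (card_roots D a hp ha)

theorem lab_mem {D : ℕ} {a : ℕ → ℤ} {p : ℕ} (hp : p.Prime) {t : ℕ × ℕ}
    (h : (p : ℤ) ∣ bform D a t) : lab p t ∈ T D a p := by
  have := Fact.mk hp
  unfold lab T
  by_cases h2 : p ∣ t.2
  · rw [if_pos h2]
    exact mem_insert_self _ _
  · rw [if_neg h2]
    refine mem_insert_of_mem (mem_image.mpr ⟨_, ?_, rfl⟩)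
    rw [mem_filter, mem_range]
    refine ⟨ZMod.val_lt _, ?_⟩
    rw [← ZMod.intCast_zmod_eq_zero_iff_dvd]
    have hn : (t.2 : ZMod p) ≠ 0 := by
      rw [Ne, ZMod.natCast_eq_zero_iff]
      exact h2
    have h3 := (ZMod.intCast_zmod_eq_zero_iff_dvd _ p).mpr h
    unfold bform at h3
    push_cast at h3 ⊢
    rw [ZMod.natCast_val, ZMod.cast_id', id]
    have h4 : ∑ i ∈ range (D + 1), ((a i : ℤ) : ZMod p) * (t.1 : ZMod p) ^ i *
        (t.2 : ZMod p) ^ (D - i) = (t.2 : ZMod p) ^ D *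
        ∑ i ∈ range (D + 1), ((a i : ℤ) : ZMod p) * ((t.1 : ZMod p) * (t.2 : ZMod p)⁻¹) ^ i := by
      rw [mul_sum]
      refine sum_congr rfl fun i hi => ?_
      rw [mem_range] at hi
      have h5 : (t.2 : ZMod p) ^ D = (t.2 : ZMod p) ^ (D - i) * (t.2 : ZMod p) ^ i := by
        rw [← pow_add]
        congr 1
        omega
      rw [h5, mul_pow, inv_pow]
      field_simp
    rw [h4] at h3
    exact (mul_eq_zero.mp h3).resolve_left (pow_ne_zero _ hn)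

theorem dvd_of_lab {p : ℕ} (hp : p.Prime) {t t' : ℕ × ℕ} (h : lab p t = lab p t') :
    (p : ℤ) ∣ (t.1 : ℤ) * t'.2 - (t'.1 : ℤ) * t.2 := by
  have := Fact.mk hp
  unfold lab at h
  by_cases h2 : p ∣ t.2
  · by_cases h2' : p ∣ t'.2
    · have e1 : (p : ℤ) ∣ (t.2 : ℤ) := by exact_mod_cast h2
      have e2 : (p : ℤ) ∣ (t'.2 : ℤ) := by exact_mod_cast h2'
      exact dvd_sub (e2.mul_left _) (e1.mul_left _)
    · rw [if_pos h2, if_neg h2'] at h
      exact absurd h.symm (Nat.succ_ne_zero _)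
  · by_cases h2' : p ∣ t'.2
    · rw [if_neg h2, if_pos h2'] at h
      exact absurd h (Nat.succ_ne_zero _)
    · rw [if_neg h2, if_neg h2'] at h
      have h3 := ZMod.val_injective p (Nat.succ_injective h)
      have hn : (t.2 : ZMod p) ≠ 0 := by
        rw [Ne, ZMod.natCast_eq_zero_iff]
        exact h2
      have hn' : (t'.2 : ZMod p) ≠ 0 := by
        rw [Ne, ZMod.natCast_eq_zero_iff]
        exact h2'
      rw [← ZMod.intCast_zmod_eq_zero_iff_dvd]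
      push_cast
      have h4 : (t.1 : ZMod p) * t'.2 = (t'.1 : ZMod p) * t.2 := by
        calc (t.1 : ZMod p) * t'.2 = ((t.1 : ZMod p) * (t.2 : ZMod p)⁻¹) * t.2 * t'.2 := by
              field_simp
          _ = ((t'.1 : ZMod p) * (t'.2 : ZMod p)⁻¹) * t.2 * t'.2 := by rw [h3]
          _ = (t'.1 : ZMod p) * t.2 := by field_simp
      rw [h4, sub_self]

/-- Pairs `(x, y)` with `y ≤ x ≤ X` and pairwise cross products at least `d`. -/
theorem slopes {X d : ℕ} (hd0 : 0 < d) (S : Finset (ℕ × ℕ))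
    (h1 : ∀ t ∈ S, 0 < t.1 ∧ t.1 ≤ X ∧ t.2 ≤ t.1)
    (h2 : ∀ t ∈ S, ∀ t' ∈ S, t ≠ t' → (d : ℤ) ≤ |(t.1 : ℤ) * t'.2 - (t'.1 : ℤ) * t.2|) :
    S.card ≤ ⌊(X : ℝ) ^ 2 / d⌋₊ + 1 := by
  have hdR : (0 : ℝ) < d := by exact_mod_cast hd0
  set f : ℕ × ℕ → ℕ := fun t => ⌊((t.2 : ℝ) / t.1) * ((X : ℝ) ^ 2 / d)⌋₊ with hf
  rw [← card_range (⌊(X : ℝ) ^ 2 / d⌋₊ + 1)]
  apply card_le_card_of_injOn f
  · intro t ht
    obtain ⟨ha, -, hc⟩ := h1 t (mem_coe.mp ht)
    rw [mem_coe, mem_range, Nat.lt_succ_iff]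
    apply Nat.floor_le_floor
    have ha' : (0 : ℝ) < t.1 := by exact_mod_cast ha
    have hr : (t.2 : ℝ) / t.1 ≤ 1 := by
      rw [div_le_one ha']
      exact_mod_cast hc
    have h5 : (0 : ℝ) ≤ (X : ℝ) ^ 2 / d := by positivity
    calc ((t.2 : ℝ) / t.1) * ((X : ℝ) ^ 2 / d) ≤ 1 * ((X : ℝ) ^ 2 / d) :=
          mul_le_mul_of_nonneg_right hr h5
      _ = (X : ℝ) ^ 2 / d := one_mul _
  · intro t ht t' ht' hft
    rw [mem_coe] at ht ht'
    obtain ⟨ha0, hAX, -⟩ := h1 t ht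
    obtain ⟨ha0', hAX', -⟩ := h1 t' ht'
    by_contra hne
    have habs := h2 t ht t' ht' hne
    have habsR : (d : ℝ) ≤ |(t.1 : ℝ) * t'.2 - (t'.1 : ℝ) * t.2| := by exact_mod_cast habs
    have ha : (0 : ℝ) < t.1 := by exact_mod_cast ha0
    have ha' : (0 : ℝ) < t'.1 := by exact_mod_cast ha0'
    have hA : (t.1 : ℝ) ≤ X := by exact_mod_cast hAX
    have hA' : (t'.1 : ℝ) ≤ X := by exact_mod_cast hAX'
    have hX0 : (0 : ℝ) < X := lt_of_lt_of_le ha hA
    have hprod : (t.1 : ℝ) * t'.1 ≤ (X : ℝ) ^ 2 := by nlinarith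
    have hdist : 1 ≤ |((t'.2 : ℝ) / t'.1) * ((X : ℝ) ^ 2 / d) -
        ((t.2 : ℝ) / t.1) * ((X : ℝ) ^ 2 / d)| := by
      have e : ((t'.2 : ℝ) / t'.1) * ((X : ℝ) ^ 2 / d) -
          ((t.2 : ℝ) / t.1) * ((X : ℝ) ^ 2 / d) =
          ((t.1 : ℝ) * t'.2 - (t'.1 : ℝ) * t.2) * (((X : ℝ) ^ 2) / (d * (t.1 * t'.1))) := by
        field_simp
      have hpos : (0 : ℝ) < ((X : ℝ) ^ 2) / (d * (t.1 * t'.1)) := by positivity
      rw [e, abs_mul, abs_of_pos hpos]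
      calc (1 : ℝ) ≤ d * (((X : ℝ) ^ 2) / (d * (t.1 * t'.1))) := by
            rw [mul_div_assoc', le_div_iff₀ (by positivity), one_mul]
            exact mul_le_mul_of_nonneg_left hprod hdR.le
        _ ≤ _ := mul_le_mul_of_nonneg_right habsR hpos.le
    have hx : (0 : ℝ) ≤ ((t.2 : ℝ) / t.1) * ((X : ℝ) ^ 2 / d) := by positivity
    have hx' : (0 : ℝ) ≤ ((t'.2 : ℝ) / t'.1) * ((X : ℝ) ^ 2 / d) := by positivity
    simp only [hf] at hft
    have f1 := Nat.floor_le hx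
    have f2 := Nat.lt_floor_add_one (((t.2 : ℝ) / t.1) * ((X : ℝ) ^ 2 / d))
    have f3 := Nat.floor_le hx'
    have f4 := Nat.lt_floor_add_one (((t'.2 : ℝ) / t'.1) * ((X : ℝ) ^ 2 / d))
    rw [hft] at f1 f2
    rcases le_abs.1 hdist with h | h <;> linarith

/-- The labels at all the primes of `d`. -/
def label (d : ℕ) (t : ℕ × ℕ) : {p // p ∈ d.primeFactors} → ℕ := fun p => lab p.1 t

theorem dvd_of_label {d : ℕ} (hd : Squarefree d) {t t' : ℕ × ℕ} (h : label d t = label d t') :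
    (d : ℤ) ∣ (t.1 : ℤ) * t'.2 - (t'.1 : ℤ) * t.2 := by
  rw [Int.natCast_dvd, ← Nat.prod_primeFactors_of_squarefree hd]
  refine prod_primes_dvd _ (fun p hp => (Nat.prime_of_mem_primeFactors hp).prime) ?_
  intro p hp
  rw [← Int.natCast_dvd]
  exact dvd_of_lab (Nat.prime_of_mem_primeFactors hp) (congrFun h ⟨p, hp⟩)

theorem fibre {X d : ℕ} (hd : Squarefree d) (S : Finset (ℕ × ℕ))
    (hS : ∀ t ∈ S, 1 ≤ t.1 ∧ t.1 ≤ X ∧ 1 ≤ t.2 ∧ t.2 ≤ X ∧ t.1.Coprime t.2)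
    (hl : ∀ t ∈ S, ∀ t' ∈ S, label d t = label d t') :
    S.card ≤ 2 * ⌊(X : ℝ) ^ 2 / d⌋₊ + 2 := by
  classical
  have hd0 : 0 < d := Nat.pos_of_ne_zero hd.ne_zero
  have hcross : ∀ t ∈ S, ∀ t' ∈ S, t ≠ t' →
      (d : ℤ) ≤ |(t.1 : ℤ) * t'.2 - (t'.1 : ℤ) * t.2| := by
    intro t ht t' ht' hne
    have h1 := hS t ht
    have h1' := hS t' ht'
    have hne0 : (t.1 : ℤ) * t'.2 - (t'.1 : ℤ) * t.2 ≠ 0 := fun h0 =>
      hne (RA2Aux.eq_of_cross h1.2.2.2.2 h1'.2.2.2.2 (by omega) h0)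
    exact Int.le_of_dvd (abs_pos.2 hne0) ((dvd_abs _ _).2 (dvd_of_label hd (hl t ht t' ht')))
  have hA : (S.filter (fun t => t.2 ≤ t.1)).card ≤ ⌊(X : ℝ) ^ 2 / d⌋₊ + 1 := by
    refine slopes hd0 _ ?_ ?_
    · intro t ht
      rw [mem_filter] at ht
      have h1 := hS t ht.1
      exact ⟨by omega, h1.2.1, ht.2⟩
    · intro t ht t' ht' hne
      rw [mem_filter] at ht ht'
      exact hcross t ht.1 t' ht'.1 hne
  have hB : (S.filter (fun t => ¬ t.2 ≤ t.1)).card ≤ ⌊(X : ℝ) ^ 2 / d⌋₊ + 1 := by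
    rw [← card_image_of_injective _ Prod.swap_injective]
    refine slopes hd0 _ ?_ ?_
    · intro t ht
      rw [mem_image] at ht
      obtain ⟨s, hs, rfl⟩ := ht
      rw [mem_filter] at hs
      have h1 := hS s hs.1
      simp only [Prod.fst_swap, Prod.snd_swap]
      exact ⟨by omega, h1.2.2.2.1, by omega⟩
    · intro t ht t' ht' hne
      rw [mem_image] at ht ht'
      obtain ⟨s, hs, rfl⟩ := ht
      obtain ⟨s', hs', rfl⟩ := ht'
      rw [mem_filter] at hs hs'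
      simp only [Prod.fst_swap, Prod.snd_swap]
      have h3 := hcross s hs.1 s' hs'.1 (fun h => hne (by rw [h]))
      have h4 : (s.2 : ℤ) * s'.1 - (s'.2 : ℤ) * s.1 =
          -((s.1 : ℤ) * s'.2 - (s'.1 : ℤ) * s.2) := by ring
      rw [h4, abs_neg]
      exact h3
  have h5 := card_filter_add_card_filter_not (s := S) (fun t : ℕ × ℕ => t.2 ≤ t.1)
  omega

end BinAux

open BinAux

/-- Coprime pairs at which a binary form is divisible by `d`. -/
theorem binary_count {D : ℕ} (a : ℕ → ℤ) (ha : ∀ p : ℕ, p.Prime → ∃ i ≤ D, ¬ (p : ℤ) ∣ a i)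
    (X : ℕ) {d : ℕ} (hd : Squarefree d) :
    ((((Icc 1 X) ×ˢ (Icc 1 X)).filter
      (fun t : ℕ × ℕ => t.1.Coprime t.2 ∧ (d : ℤ) ∣ bform D a t)).card : ℝ) ≤
      (D + 1) ^ d.primeFactors.card * (2 * (X : ℝ) ^ 2 / d + 2) := by
  classical
  set S := ((Icc 1 X) ×ˢ (Icc 1 X)).filter
      (fun t : ℕ × ℕ => t.1.Coprime t.2 ∧ (d : ℤ) ∣ bform D a t) with hS
  have hmem : ∀ t ∈ S, 1 ≤ t.1 ∧ t.1 ≤ X ∧ 1 ≤ t.2 ∧ t.2 ≤ X ∧ t.1.Coprime t.2 := by
    intro t ht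
    rw [hS, mem_filter, mem_product, mem_Icc, mem_Icc] at ht
    exact ⟨ht.1.1.1, ht.1.1.2, ht.1.2.1, ht.1.2.2, ht.2.1⟩
  have h1 := card_le_mul_card_image_of_maps_to (s := S)
    (t := Fintype.piFinset (fun p : {p // p ∈ d.primeFactors} => T D a p.1)) (f := label d)
    (by
      intro t ht
      rw [Fintype.mem_piFinset]
      intro p
      rw [hS, mem_filter] at ht
      refine lab_mem (Nat.prime_of_mem_primeFactors p.2) ?_
      refine dvd_trans ?_ ht.2.2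
      exact_mod_cast Nat.dvd_of_mem_primeFactors p.2)
    (2 * ⌊(X : ℝ) ^ 2 / d⌋₊ + 2) (by
      intro L _
      refine fibre hd _ (fun t ht => hmem t (mem_filter.mp ht).1) ?_
      intro t ht t' ht'
      rw [mem_filter] at ht ht'
      rw [ht.2, ht'.2])
  rw [Fintype.card_piFinset] at h1
  have h2 : ∏ p : {p // p ∈ d.primeFactors}, (T D a p.1).card ≤
      (D + 1) ^ d.primeFactors.card := by
    calc ∏ p : {p // p ∈ d.primeFactors}, (T D a p.1).card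
        ≤ ∏ _p : {p // p ∈ d.primeFactors}, (D + 1) :=
          prod_le_prod' fun p _ => card_T D a (Nat.prime_of_mem_primeFactors p.2)
            (ha p.1 (Nat.prime_of_mem_primeFactors p.2))
      _ = (D + 1) ^ d.primeFactors.card := by
          rw [prod_const, card_univ, Fintype.card_coe]
  have h3 : S.card ≤ (2 * ⌊(X : ℝ) ^ 2 / d⌋₊ + 2) * (D + 1) ^ d.primeFactors.card :=
    h1.trans (Nat.mul_le_mul_left _ h2)
  have h4 : (S.card : ℝ) ≤ (2 * (⌊(X : ℝ) ^ 2 / d⌋₊ : ℝ) + 2) * (D + 1) ^ d.primeFactors.card := by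
    exact_mod_cast h3
  have h5 : (⌊(X : ℝ) ^ 2 / d⌋₊ : ℝ) ≤ (X : ℝ) ^ 2 / d := Nat.floor_le (by positivity)
  calc (S.card : ℝ) ≤ _ := h4
    _ ≤ (2 * ((X : ℝ) ^ 2 / d) + 2) * (D + 1) ^ d.primeFactors.card := by gcongr
    _ = _ := by ring

end Pool.Agent.Lib.AbcU
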