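import Mathlib

/-!
Limiting distribution of the number of members of a family of integers which divide a random
integer.
-/

namespace Pool.Agent.Lib.AbcU

open Filter Topology

/-- A sequence which is uniformly close to convergent sequences converges. -/
theorem tendsto_of_approx {a : ℕ → ℝ}
    (h : ∀ ε : ℝ, 0 < ε → ∃ (b : ℕ → ℝ) (l : ℝ), Tendsto b atTop (𝓝 l) ∧
      ∀ᶠ Y in atTop, |a Y - b Y| ≤ ε) : ∃ l : ℝ, Tendsto a atTop (𝓝 l) := by
  apply cauchySeq_tendsto_of_complete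
  rw [Metric.cauchySeq_iff']
  intro ε hε
  obtain ⟨b, l, hb, hab⟩ := h (ε / 5) (by positivity)
  have h1 : ∀ᶠ Y in atTop, |b Y - l| < ε / 5 := by
    have := (Metric.tendsto_nhds.1 hb) (ε / 5) (by positivity)
    simpa [Real.dist_eq] using this
  obtain ⟨N, hN⟩ := (hab.and h1).exists_forall_of_atTop
  refine ⟨N, ?_⟩
  intro n hn
  have h2 := hN n hn
  have h3 := hN N le_rfl
  rw [Real.dist_eq]
  have e1 := abs_le.1 h2.1
  have e2 := abs_lt.1 h2.2
  have e3 := abs_le.1 h3.1
  have e4 := abs_lt.1 h3.2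
  rw [abs_lt]
  constructor <;> linarith

/-- The number of `r ∈ [1, Y]` with `P r`. -/
noncomputable def cnt (P : ℕ → Prop) (Y : ℕ) : ℕ := by
  classical
  exact ((Finset.Icc 1 Y).filter P).card

theorem cnt_eq (P : ℕ → Prop) [DecidablePred P] (Y : ℕ) :
    cnt P Y = ((Finset.Icc 1 Y).filter P).card := by
  unfold cnt
  congr

theorem cnt_le (P : ℕ → Prop) (Y : ℕ) : cnt P Y ≤ Y := by
  classical
  rw [cnt_eq]
  calc ((Finset.Icc 1 Y).filter P).card ≤ (Finset.Icc 1 Y).card := Finset.card_filter_le _ _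
    _ = Y := by simp

/-- A periodic set has a density. -/
theorem periodic_density {P : ℕ → Prop} {L : ℕ} (hL : 0 < L) (hP : ∀ r, P (r + L) ↔ P r) :
    ∃ d : ℝ, Tendsto (fun Y : ℕ => (cnt P Y : ℝ) / Y) atTop (𝓝 d) := by
  classical
  obtain ⟨c, hc⟩ : ∃ c : ℕ, c = ((Finset.range L).filter P).card := ⟨_, rfl⟩
  have hper : Function.Periodic P L := fun r => propext (hP r)
  -- every block of length `L` contains `c` elements
  have hblock : ∀ n : ℕ, ((Finset.Ico n (n + L)).filter P).card = c := by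
    intro n
    rw [hc, Nat.filter_Ico_card_eq_of_periodic n L P hper, Nat.count_eq_card_filter_range]
  have hmul : ∀ q : ℕ, cnt P (q * L) = q * c := by
    intro q
    induction q with
    | zero => simp [cnt_eq]
    | succ q ih =>
      have h1 : Finset.Icc 1 ((q + 1) * L) =
          Finset.Icc 1 (q * L) ∪ Finset.Ico (q * L + 1) (q * L + 1 + L) := by
        ext x
        simp only [Finset.mem_Icc, Finset.mem_union, Finset.mem_Ico]
        constructor
        · intro h
          rcases Nat.lt_or_ge (q * L) x with h2 | h2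
          · right
            refine ⟨h2, ?_⟩
            have := h.2
            rw [add_mul, one_mul] at this
            omega
          · left
            exact ⟨h.1, h2⟩
        · rintro (h | h)
          · refine ⟨h.1, ?_⟩
            rw [add_mul, one_mul]
            omega
          · rw [add_mul, one_mul]
            omega
      have hdisj : Disjoint ((Finset.Icc 1 (q * L)).filter P)
          ((Finset.Ico (q * L + 1) (q * L + 1 + L)).filter P) := by
        apply Finset.disjoint_filter_filter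
        rw [Finset.disjoint_left]
        intro x hx hy
        simp only [Finset.mem_Icc] at hx
        simp only [Finset.mem_Ico] at hy
        omega
      rw [cnt_eq, h1, Finset.filter_union, Finset.card_union_of_disjoint hdisj, hblock,
        ← cnt_eq, ih]
      ring
  have hmono : ∀ {Y Z : ℕ}, Y ≤ Z → cnt P Y ≤ cnt P Z := by
    intro Y Z h
    rw [cnt_eq, cnt_eq]
    exact Finset.card_le_card (Finset.filter_subset_filter _ (Finset.Icc_subset_Icc_right h))
  have hcL : c ≤ L := by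
    rw [hc]
    calc ((Finset.range L).filter P).card ≤ (Finset.range L).card := Finset.card_filter_le _ _
      _ = L := by simp
  refine ⟨(c : ℝ) / L, ?_⟩
  have hLr : (0 : ℝ) < L := by exact_mod_cast hL
  have hbound : ∀ Y : ℕ, |(cnt P Y : ℝ) - Y * (c / L)| ≤ c := by
    intro Y
    have e := Nat.div_add_mod Y L
    have hr := Nat.mod_lt Y hL
    have h1 : (Y / L) * c ≤ cnt P Y := by
      rw [← hmul]
      exact hmono (Nat.div_mul_le_self Y L)
    have h2 : cnt P Y ≤ (Y / L + 1) * c := by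
      rw [← hmul]
      apply hmono
      rw [add_mul, one_mul]
      nlinarith
    have h1' : ((Y / L : ℕ) : ℝ) * c ≤ cnt P Y := by exact_mod_cast h1
    have h2' : (cnt P Y : ℝ) ≤ (((Y / L : ℕ) : ℝ) + 1) * c := by exact_mod_cast h2
    have h3 : ((Y / L : ℕ) : ℝ) ≤ Y / L := Nat.cast_div_le
    have h4 : (Y : ℝ) / L < ((Y / L : ℕ) : ℝ) + 1 := by
      rw [div_lt_iff₀ hLr]
      have : Y < (Y / L + 1) * L := by nlinarith
      exact_mod_cast this
    have hc0 : (0 : ℝ) ≤ c := Nat.cast_nonneg c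
    have e2 : (Y : ℝ) * (c / L) = Y / L * c := by ring
    rw [e2, abs_le]
    constructor
    · nlinarith [mul_le_mul_of_nonneg_right h4.le hc0]
    · nlinarith [mul_le_mul_of_nonneg_right h3 hc0]
  rw [Metric.tendsto_atTop]
  intro ε hε
  obtain ⟨n, hn⟩ := exists_nat_gt ((c : ℝ) / ε)
  refine ⟨n + 1, ?_⟩
  intro Y hY
  have hY0 : (0 : ℝ) < Y := by
    have : 0 < Y := by omega
    exact_mod_cast this
  rw [Real.dist_eq]
  have e3 : (cnt P Y : ℝ) / Y - c / L = ((cnt P Y : ℝ) - Y * (c / L)) / Y := by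
    field_simp
  rw [e3, abs_div, abs_of_pos hY0, div_lt_iff₀ hY0]
  refine lt_of_le_of_lt (hbound Y) ?_
  rw [div_lt_iff₀ hε] at hn
  have h5 : (n : ℝ) ≤ Y := by
    have : n ≤ Y := by omega
    exact_mod_cast this
  nlinarith

section Family

variable {ι : Type*} (R : ι → ℕ)

/-- The number of members of the family which divide `r`. -/
noncomputable def numDvd (r : ℕ) : ℕ := {i | R i ∣ r}.ncard

variable {R}

theorem finite_le (hR : ∀ i, 1 ≤ R i) (hs : Summable (fun i => (1 : ℝ) / R i)) (Z : ℕ) :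
    {i | R i ≤ Z}.Finite := by
  have h1 := hs.tendsto_cofinite_zero
  have h2 : ∀ᶠ i in cofinite, (1 : ℝ) / R i < 1 / (Z + 1) := by
    apply h1.eventually_lt_const
    positivity
  rw [Filter.eventually_cofinite] at h2
  apply h2.subset
  intro i hi
  simp only [Set.mem_ofPred_eq, not_lt] at hi ⊢
  have h3 : (0 : ℝ) < R i := by exact_mod_cast hR i
  apply one_div_le_one_div_of_le h3
  have : (R i : ℝ) ≤ Z := by exact_mod_cast hi
  linarith

theorem numDvd_finite (hR : ∀ i, 1 ≤ R i) (hs : Summable (fun i => (1 : ℝ) / R i)) {r : ℕ}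
    (hr : 1 ≤ r) : {i | R i ∣ r}.Finite :=
  (finite_le hR hs r).subset (fun _ hi => Nat.le_of_dvd hr hi)

/-- The number of `r ≤ Y` divisible by some `R i`, `i ∉ F`, is at most `Y` times the tail. -/
theorem cnt_tail (hR : ∀ i, 1 ≤ R i) (hs : Summable (fun i => (1 : ℝ) / R i)) (F : Finset ι)
    (Y : ℕ) : (cnt (fun r => ∃ i, i ∉ F ∧ R i ∣ r) Y : ℝ) ≤
      Y * (∑' i, (1 : ℝ) / R i - ∑ i ∈ F, (1 : ℝ) / R i) := by
  classical
  obtain ⟨G, hG⟩ : ∃ G : Finset ι, G = (finite_le hR hs Y).toFinset \ F := ⟨_, rfl⟩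
  have hGF : Disjoint F G := by rw [hG]; exact Finset.disjoint_sdiff
  have h1 : (Finset.Icc 1 Y).filter (fun r => ∃ i, i ∉ F ∧ R i ∣ r) ⊆
      G.biUnion (fun i => (Finset.Icc 1 Y).filter (fun r => R i ∣ r)) := by
    intro r hr
    simp only [Finset.mem_filter, Finset.mem_Icc] at hr
    obtain ⟨⟨hr1, hr2⟩, i, hi, hir⟩ := hr
    simp only [Finset.mem_biUnion, Finset.mem_filter, Finset.mem_Icc]
    refine ⟨i, ?_, ⟨hr1, hr2⟩, hir⟩
    rw [hG, Finset.mem_sdiff]
    refine ⟨?_, hi⟩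
    rw [Set.Finite.mem_toFinset]
    exact (Nat.le_of_dvd hr1 hir).trans hr2
  have h2 : ∀ i, (((Finset.Icc 1 Y).filter (fun r => R i ∣ r)).card : ℝ) ≤ Y * (1 / R i) := by
    intro i
    have e : ((Finset.Icc 1 Y).filter (fun r => R i ∣ r)).card = Y / R i := by
      have := Nat.Ioc_filter_dvd_card_eq_div Y (R i)
      rw [← this]
      congr 1
    rw [e, mul_one_div]
    exact Nat.cast_div_le
  have h3 : (cnt (fun r => ∃ i, i ∉ F ∧ R i ∣ r) Y : ℝ) ≤ ∑ i ∈ G, Y * ((1 : ℝ) / R i) := by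
    rw [cnt_eq]
    calc (((Finset.Icc 1 Y).filter (fun r => ∃ i, i ∉ F ∧ R i ∣ r)).card : ℝ)
        ≤ ((G.biUnion (fun i => (Finset.Icc 1 Y).filter (fun r => R i ∣ r))).card : ℝ) := by
          exact_mod_cast Finset.card_le_card h1
      _ ≤ ((∑ i ∈ G, ((Finset.Icc 1 Y).filter (fun r => R i ∣ r)).card : ℕ) : ℝ) := by
          exact_mod_cast Finset.card_biUnion_le
      _ = ∑ i ∈ G, (((Finset.Icc 1 Y).filter (fun r => R i ∣ r)).card : ℝ) := by push_cast; rfl
      _ ≤ ∑ i ∈ G, Y * ((1 : ℝ) / R i) := Finset.sum_le_sum (fun i _ => h2 i)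
  refine h3.trans ?_
  rw [← Finset.mul_sum]
  apply mul_le_mul_of_nonneg_left _ (Nat.cast_nonneg Y)
  have h4 : ∑ i ∈ F ∪ G, (1 : ℝ) / R i ≤ ∑' i, (1 : ℝ) / R i :=
    hs.sum_le_tsum _ (fun i _ => by positivity)
  rw [Finset.sum_union hGF] at h4
  linarith

/-- For every `j` the set of `r` with exactly `j` members of the family dividing `r` has a
density. -/
theorem density_exists (hR : ∀ i, 1 ≤ R i) (hs : Summable (fun i => (1 : ℝ) / R i)) (j : ℕ) :
    ∃ d : ℝ, Tendsto (fun Y : ℕ => (cnt (fun r => numDvd R r = j) Y : ℝ) / Y) atTop (𝓝 d) := by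
  classical
  apply tendsto_of_approx
  intro ε hε
  have hsum := hs.hasSum
  have h0 := (Metric.tendsto_nhds.1 hsum) ε hε
  obtain ⟨F, hF⟩ := h0.exists
  have hF' : ∑' i, (1 : ℝ) / R i - ∑ i ∈ F, (1 : ℝ) / R i ≤ ε := by
    rw [Real.dist_eq, abs_lt] at hF
    linarith [hF.1]
  obtain ⟨L, hL⟩ : ∃ L : ℕ, L = ∏ i ∈ F, R i := ⟨_, rfl⟩
  have hL0 : 0 < L := by
    rw [hL]
    exact Finset.prod_pos (fun i _ => hR i)
  obtain ⟨P, hP⟩ : ∃ P : ℕ → Prop, P = fun r => (F.filter (fun i => R i ∣ r)).card = j := ⟨_, rfl⟩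
  have hper : ∀ r, P (r + L) ↔ P r := by
    intro r
    rw [hP]
    have e : F.filter (fun i => R i ∣ r + L) = F.filter (fun i => R i ∣ r) := by
      apply Finset.filter_congr
      intro i hi
      have : R i ∣ L := by
        rw [hL]
        exact Finset.dvd_prod_of_mem R hi
      exact (Nat.dvd_add_left this)
    simp only [e]
  obtain ⟨l, hl⟩ := periodic_density hL0 hper
  refine ⟨_, l, hl, ?_⟩
  filter_upwards [eventually_ge_atTop 1] with Y hY
  have hY0 : (0 : ℝ) < Y := by exact_mod_cast hY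
  have hkey : ∀ r : ℕ, 1 ≤ r → ¬ (∃ i, i ∉ F ∧ R i ∣ r) → ((numDvd R r = j) ↔ P r) := by
    intro r hr hn
    push Not at hn
    rw [hP]
    have e : numDvd R r = (F.filter (fun i => R i ∣ r)).card := by
      unfold numDvd
      rw [← Set.ncard_coe_finset]
      congr 1
      ext i
      simp only [Set.mem_ofPred_eq, Finset.coe_filter]
      constructor
      · intro h
        refine ⟨?_, h⟩
        by_contra hF
        exact hn i hF h
      · exact fun h => h.2
    simp only [e]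
  have hA : ((Finset.Icc 1 Y).filter (fun r => numDvd R r = j)) ⊆
      ((Finset.Icc 1 Y).filter P) ∪ ((Finset.Icc 1 Y).filter (fun r => ∃ i, i ∉ F ∧ R i ∣ r)) := by
    intro r hr
    simp only [Finset.mem_filter, Finset.mem_Icc, Finset.mem_union] at hr ⊢
    by_cases h : ∃ i, i ∉ F ∧ R i ∣ r
    · exact Or.inr ⟨hr.1, h⟩
    · exact Or.inl ⟨hr.1, (hkey r hr.1.1 h).1 hr.2⟩
  have hB : ((Finset.Icc 1 Y).filter P) ⊆ ((Finset.Icc 1 Y).filter (fun r => numDvd R r = j)) ∪
      ((Finset.Icc 1 Y).filter (fun r => ∃ i, i ∉ F ∧ R i ∣ r)) := by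
    intro r hr
    simp only [Finset.mem_filter, Finset.mem_Icc, Finset.mem_union] at hr ⊢
    by_cases h : ∃ i, i ∉ F ∧ R i ∣ r
    · exact Or.inr ⟨hr.1, h⟩
    · exact Or.inl ⟨hr.1, (hkey r hr.1.1 h).2 hr.2⟩
  have hA' : (cnt (fun r => numDvd R r = j) Y : ℝ) ≤
      cnt P Y + cnt (fun r => ∃ i, i ∉ F ∧ R i ∣ r) Y := by
    rw [cnt_eq, cnt_eq, cnt_eq]
    exact_mod_cast (Finset.card_le_card hA).trans (Finset.card_union_le _ _)
  have hB' : (cnt P Y : ℝ) ≤ cnt (fun r => numDvd R r = j) Y +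
      cnt (fun r => ∃ i, i ∉ F ∧ R i ∣ r) Y := by
    rw [cnt_eq, cnt_eq, cnt_eq]
    exact_mod_cast (Finset.card_le_card hB).trans (Finset.card_union_le _ _)
  have hT := cnt_tail hR hs F Y
  have hT' : (cnt (fun r => ∃ i, i ∉ F ∧ R i ∣ r) Y : ℝ) ≤ Y * ε :=
    hT.trans (mul_le_mul_of_nonneg_left hF' hY0.le)
  rw [← sub_div, abs_div, abs_of_pos hY0, div_le_iff₀ hY0, abs_le]
  constructor <;> nlinarith

end Family

/-- Densities and moments: if all sets `{N = j}` have densities `d j`, the `k`-th moments of `N`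
over `[1, Y]` converge to `E` and the `(k+1)`-st moments are bounded, then `E` is the `k`-th moment
of the densities. -/
theorem hasSum_moment {N : ℕ → ℕ} {d : ℕ → ℝ}
    (hd : ∀ j, Tendsto (fun Y : ℕ => (cnt (fun r => N r = j) Y : ℝ) / Y) atTop (𝓝 (d j)))
    {k : ℕ} {E C : ℝ}
    (hk : Tendsto (fun Y : ℕ => (∑ r ∈ Finset.Icc 1 Y, (N r : ℝ) ^ k) / Y) atTop (𝓝 E))
    (hC : ∀ᶠ Y : ℕ in atTop, (∑ r ∈ Finset.Icc 1 Y, (N r : ℝ) ^ (k + 1)) / Y ≤ C) :
    HasSum (fun j : ℕ => (j : ℝ) ^ k * d j) E := by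
  classical
  have hd0 : ∀ j, 0 ≤ d j := fun j => ge_of_tendsto' (hd j) (fun Y => by positivity)
  rw [hasSum_iff_tendsto_nat_of_nonneg (fun j => mul_nonneg (by positivity) (hd0 j))]
  -- the sum over `r` with `N r < J`
  have hsplit : ∀ (J Y : ℕ), ∑ j ∈ Finset.range J, (j : ℝ) ^ k * (cnt (fun r => N r = j) Y : ℝ) =
      ∑ r ∈ (Finset.Icc 1 Y).filter (fun r => N r < J), (N r : ℝ) ^ k := by
    intro J Y
    have h1 : ∀ r ∈ (Finset.Icc 1 Y).filter (fun r => N r < J), N r ∈ Finset.range J := by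
      intro r hr
      simp only [Finset.mem_filter] at hr
      exact Finset.mem_range.2 hr.2
    rw [← Finset.sum_fiberwise_of_maps_to h1]
    apply Finset.sum_congr rfl
    intro j hj
    rw [Finset.sum_congr rfl (fun r hr => by rw [(Finset.mem_filter.1 hr).2]), Finset.sum_const,
      nsmul_eq_mul, mul_comm, cnt_eq]
    congr 2
    congr 1
    ext r
    simp only [Finset.mem_filter, Finset.mem_Icc]
    constructor
    · rintro ⟨h2, h3⟩
      exact ⟨⟨h2, by rw [h3]; exact Finset.mem_range.1 hj⟩, h3⟩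
    · rintro ⟨⟨h2, _⟩, h3⟩
      exact ⟨h2, h3⟩
  have hup : ∀ J : ℕ, ∑ j ∈ Finset.range J, (j : ℝ) ^ k * d j ≤ E := by
    intro J
    have h1 : Tendsto (fun Y : ℕ => ∑ j ∈ Finset.range J,
        (j : ℝ) ^ k * ((cnt (fun r => N r = j) Y : ℝ) / Y)) atTop
        (𝓝 (∑ j ∈ Finset.range J, (j : ℝ) ^ k * d j)) :=
      tendsto_finsetSum _ (fun j _ => (hd j).const_mul _)
    apply le_of_tendsto_of_tendsto' h1 hk
    intro Y
    have e : ∑ j ∈ Finset.range J, (j : ℝ) ^ k * ((cnt (fun r => N r = j) Y : ℝ) / Y) =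
        (∑ j ∈ Finset.range J, (j : ℝ) ^ k * (cnt (fun r => N r = j) Y : ℝ)) / Y := by
      rw [Finset.sum_div]
      exact Finset.sum_congr rfl (fun j _ => by ring)
    rw [e, hsplit]
    apply div_le_div_of_nonneg_right _ (Nat.cast_nonneg Y)
    exact Finset.sum_le_sum_of_subset_of_nonneg (Finset.filter_subset _ _)
      (fun r _ _ => by positivity)
  have hlow : ∀ J : ℕ, 1 ≤ J → E - C / J ≤ ∑ j ∈ Finset.range J, (j : ℝ) ^ k * d j := by
    intro J hJ
    have hJ0 : (0 : ℝ) < J := by exact_mod_cast hJ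
    have h1 : Tendsto (fun Y : ℕ => ∑ j ∈ Finset.range J,
        (j : ℝ) ^ k * ((cnt (fun r => N r = j) Y : ℝ) / Y)) atTop
        (𝓝 (∑ j ∈ Finset.range J, (j : ℝ) ^ k * d j)) :=
      tendsto_finsetSum _ (fun j _ => (hd j).const_mul _)
    have h2 : Tendsto (fun Y : ℕ => (∑ r ∈ Finset.Icc 1 Y, (N r : ℝ) ^ k) / Y - C / J) atTop
        (𝓝 (E - C / J)) := hk.sub_const _
    apply le_of_tendsto_of_tendsto h2 h1
    filter_upwards [hC, eventually_ge_atTop 1] with Y hY hY1
    have hY0 : (0 : ℝ) < Y := by exact_mod_cast hY1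
    have e : ∑ j ∈ Finset.range J, (j : ℝ) ^ k * ((cnt (fun r => N r = j) Y : ℝ) / Y) =
        (∑ j ∈ Finset.range J, (j : ℝ) ^ k * (cnt (fun r => N r = j) Y : ℝ)) / Y := by
      rw [Finset.sum_div]
      exact Finset.sum_congr rfl (fun j _ => by ring)
    rw [e, hsplit]
    have h3 : ∑ r ∈ (Finset.Icc 1 Y).filter (fun r => ¬ N r < J), (N r : ℝ) ^ k ≤
        (∑ r ∈ Finset.Icc 1 Y, (N r : ℝ) ^ (k + 1)) / J := by
      rw [Finset.sum_div]
      calc ∑ r ∈ (Finset.Icc 1 Y).filter (fun r => ¬ N r < J), (N r : ℝ) ^ k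
          ≤ ∑ r ∈ (Finset.Icc 1 Y).filter (fun r => ¬ N r < J), (N r : ℝ) ^ (k + 1) / J := by
            apply Finset.sum_le_sum
            intro r hr
            have h4 : J ≤ N r := Nat.le_of_not_lt (Finset.mem_filter.1 hr).2
            have h5 : (J : ℝ) ≤ N r := by exact_mod_cast h4
            rw [le_div_iff₀ hJ0, pow_succ]
            exact mul_le_mul_of_nonneg_left h5 (by positivity)
        _ ≤ ∑ r ∈ Finset.Icc 1 Y, (N r : ℝ) ^ (k + 1) / J :=
            Finset.sum_le_sum_of_subset_of_nonneg (Finset.filter_subset _ _)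
              (fun r _ _ => by positivity)
    have h6 := Finset.sum_filter_add_sum_filter_not (Finset.Icc 1 Y) (fun r => N r < J)
      (fun r => (N r : ℝ) ^ k)
    have h7 : (∑ r ∈ Finset.Icc 1 Y, (N r : ℝ) ^ (k + 1)) / J / Y ≤ C / J := by
      rw [div_right_comm]
      exact div_le_div_of_nonneg_right hY hJ0.le
    have h8 : (∑ r ∈ Finset.Icc 1 Y, (N r : ℝ) ^ k) / Y =
        (∑ r ∈ (Finset.Icc 1 Y).filter (fun r => N r < J), (N r : ℝ) ^ k) / Y +
        (∑ r ∈ (Finset.Icc 1 Y).filter (fun r => ¬ N r < J), (N r : ℝ) ^ k) / Y := by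
      rw [← h6, add_div]
    have h9 := div_le_div_of_nonneg_right h3 hY0.le
    linarith
  have hlim : Tendsto (fun J : ℕ => E - C / J) atTop (𝓝 (E - 0)) :=
    tendsto_const_nhds.sub (tendsto_const_div_atTop_nhds_zero_nat C)
  rw [sub_zero] at hlim
  apply tendsto_of_tendsto_of_tendsto_of_le_of_le' hlim tendsto_const_nhds
  · filter_upwards [eventually_ge_atTop 1] with J hJ
    exact hlow J hJ
  · exact Eventually.of_forall hup

end Pool.Agent.Lib.AbcU
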