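import Mathlib

/-!
# Sums over tuples of `lcm ^ (-σ)`
-/

open Finset
open scoped ENNReal

namespace Pool.Agent.Lib.AbcU

variable {ι : Type*}

/-- The part of `n` which is missing in `m`: `lcm m n = m * off m n`. -/
def off (m n : ℕ) : ℕ := n / Nat.gcd m n

theorem lcm_eq_off (m n : ℕ) : Nat.lcm n m = m * off m n := by
  unfold off Nat.lcm
  rw [Nat.gcd_comm n m, mul_comm n m, Nat.mul_div_assoc _ (Nat.gcd_dvd_right m n)]

/-- The least common multiple of the values of `R` on a tuple. -/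
def L (R : ι → ℕ) {k : ℕ} (s : Fin k → ι) : ℕ := Finset.univ.lcm (fun i => R (s i))

theorem L_dvd (R : ι → ℕ) {k : ℕ} (s : Fin k → ι) (n : ℕ) : L R s ∣ n ↔ ∀ i, R (s i) ∣ n := by
  unfold L
  rw [Finset.lcm_dvd_iff]
  simp

theorem L_cons (R : ι → ℕ) (i : ι) {k : ℕ} (s : Fin k → ι) :
    L R (Fin.cons i s : Fin (k + 1) → ι) = Nat.lcm (R i) (L R s) := by
  apply Nat.dvd_antisymm
  · rw [L_dvd]
    intro j
    refine Fin.cases ?_ (fun j => ?_) j
    · simp only [Fin.cons_zero]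
      exact Nat.dvd_lcm_left _ _
    · simp only [Fin.cons_succ]
      exact ((L_dvd R s _).mp dvd_rfl j).trans (Nat.dvd_lcm_right _ _)
  · apply Nat.lcm_dvd
    · have h := (L_dvd R (Fin.cons i s : Fin (k + 1) → ι) _).mp dvd_rfl 0
      simpa using h
    · rw [L_dvd]
      intro j
      have h := (L_dvd R (Fin.cons i s : Fin (k + 1) → ι) _).mp dvd_rfl j.succ
      simpa using h

theorem L_pos (R : ι → ℕ) (hR : ∀ i, 1 ≤ R i) {k : ℕ} (s : Fin k → ι) : 1 ≤ L R s := by
  induction k with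
  | zero =>
    have h : L R s ∣ 1 := by
      rw [L_dvd]
      intro i
      exact i.elim0
    exact Nat.pos_of_ne_zero (fun h0 => by rw [h0] at h; simp at h)
  | succ k ih =>
    have e : s = Fin.cons (s 0) (Fin.tail s) := (Fin.cons_self_tail s).symm
    rw [e, L_cons]
    exact Nat.lcm_pos (hR _) (ih _)

open Classical in
/-- The sum of `lcm ^ (-σ)` over all the `k`-tuples of elements of `W`. -/
noncomputable def Dk (R : ι → ℕ) (W : Set ι) (k : ℕ) (σ : ℝ) : ℝ≥0∞ :=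
  ∑' s : Fin k → ι, if ∀ i, s i ∈ W then ENNReal.ofReal ((L R s : ℝ) ^ (-σ)) else 0

theorem Dk_mono (R : ι → ℕ) {W W' : Set ι} (h : W ⊆ W') (k : ℕ) (σ : ℝ) :
    Dk R W k σ ≤ Dk R W' k σ := by
  classical
  unfold Dk
  apply ENNReal.tsum_le_tsum
  intro s
  by_cases h1 : ∀ i, s i ∈ W
  · rw [if_pos h1, if_pos (fun i => h (h1 i))]
  · rw [if_neg h1]
    exact zero_le

theorem Dk_zero (R : ι → ℕ) (W : Set ι) (σ : ℝ) : Dk R W 0 σ ≠ ⊤ := by
  classical
  unfold Dk
  rw [tsum_fintype]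
  simp

open Classical in
theorem Dk_succ (R : ι → ℕ) (W : Set ι) (k : ℕ) (σ : ℝ) :
    Dk R W (k + 1) σ = ∑' s : Fin k → ι, (if ∀ i, s i ∈ W then
      ENNReal.ofReal ((L R s : ℝ) ^ (-σ)) * ∑' i : ι, (if i ∈ W then
        ENNReal.ofReal ((off (L R s) (R i) : ℝ) ^ (-σ)) else 0) else 0) := by
  unfold Dk
  rw [← (Fin.consEquiv (fun _ : Fin (k + 1) => ι)).tsum_eq]
  rw [ENNReal.tsum_prod', ENNReal.tsum_comm]
  apply tsum_congr
  intro s
  by_cases h : ∀ i, s i ∈ W
  · rw [if_pos h, ← ENNReal.tsum_mul_left]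
    apply tsum_congr
    intro i
    have e1 : (Fin.consEquiv (fun _ : Fin (k + 1) => ι)) (i, s) = Fin.cons i s := rfl
    rw [e1, L_cons, lcm_eq_off]
    by_cases hi : i ∈ W
    · rw [if_pos, if_pos hi, ← ENNReal.ofReal_mul (by positivity)]
      · congr 1
        push_cast
        rw [Real.mul_rpow (Nat.cast_nonneg _) (Nat.cast_nonneg _)]
      · intro j
        refine Fin.cases ?_ (fun j => ?_) j
        · simpa using hi
        · simpa using h j
    · rw [if_neg, if_neg hi, mul_zero]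
      intro hcon
      exact hi (by simpa using hcon 0)
  · rw [if_neg h]
    rw [ENNReal.tsum_eq_zero]
    intro i
    have e1 : (Fin.consEquiv (fun _ : Fin (k + 1) => ι)) (i, s) = Fin.cons i s := rfl
    rw [e1, if_neg]
    intro hcon
    apply h
    intro j
    simpa using hcon j.succ

open Classical in
/-- The engine: from one to all the moments. -/
theorem engine (R : ι → ℕ) (hR : ∀ i, 1 ≤ R i) (W : ℝ → Set ι)
    (hW : ∀ M M' : ℝ, M ≤ M' → W M' ⊆ W M) (θ : ℝ)
    (H : ∀ σ : ℝ, θ < σ → ∀ ε : ℝ, 0 < ε → ∃ M K : ℝ, ∀ m : ℕ, 1 ≤ m →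
      ∑' i : ι, (if i ∈ W M then ENNReal.ofReal ((off m (R i) : ℝ) ^ (-σ)) else 0) ≤
        ENNReal.ofReal (K * (m : ℝ) ^ ε)) :
    ∀ (k : ℕ) (σ : ℝ), θ < σ → ∃ M0 : ℝ, ∀ M : ℝ, M0 ≤ M → Dk R (W M) k σ ≠ ⊤ := by
  intro k
  induction k with
  | zero => exact fun σ _ => ⟨0, fun M _ => Dk_zero R _ σ⟩
  | succ k ih =>
    intro σ hσ
    obtain ⟨ε, hε⟩ : ∃ ε : ℝ, ε = (σ - θ) / 2 := ⟨_, rfl⟩
    have hε0 : 0 < ε := by linarith
    obtain ⟨M1, hM1⟩ := ih (σ - ε) (by linarith)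
    obtain ⟨M2, K, hM2⟩ := H σ hσ ε hε0
    refine ⟨max M1 M2, fun M hM => ?_⟩
    have hMM1 : M1 ≤ M := (le_max_left _ _).trans hM
    have hMM2 : M2 ≤ M := (le_max_right _ _).trans hM
    have h1 : Dk R (W M) (k + 1) σ ≤ ENNReal.ofReal K * Dk R (W M) k (σ - ε) := by
      rw [Dk_succ R]
      unfold Dk
      rw [← ENNReal.tsum_mul_left]
      apply ENNReal.tsum_le_tsum
      intro s
      by_cases h : ∀ i, s i ∈ W M
      · rw [if_pos h, if_pos h]
        have hL : 1 ≤ L R s := L_pos R hR s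
        have hL0 : (0 : ℝ) < L R s := by exact_mod_cast hL
        have h2 : ∑' i : ι, (if i ∈ W M then
            ENNReal.ofReal ((off (L R s) (R i) : ℝ) ^ (-σ)) else 0) ≤
            ENNReal.ofReal (K * (L R s : ℝ) ^ ε) := by
          refine le_trans ?_ (hM2 (L R s) hL)
          apply ENNReal.tsum_le_tsum
          intro i
          by_cases hi : i ∈ W M
          · rw [if_pos hi, if_pos (hW _ _ hMM2 hi)]
          · rw [if_neg hi]
            exact zero_le
        calc ENNReal.ofReal ((L R s : ℝ) ^ (-σ)) * ∑' i : ι, (if i ∈ W M then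
              ENNReal.ofReal ((off (L R s) (R i) : ℝ) ^ (-σ)) else 0)
            ≤ ENNReal.ofReal ((L R s : ℝ) ^ (-σ)) * ENNReal.ofReal (K * (L R s : ℝ) ^ ε) := by
              gcongr
          _ = ENNReal.ofReal K * ENNReal.ofReal ((L R s : ℝ) ^ (-(σ - ε))) := by
              rw [← ENNReal.ofReal_mul (by positivity), ← ENNReal.ofReal_mul' (by positivity)]
              congr 1
              rw [show -(σ - ε) = -σ + ε by ring, Real.rpow_add hL0]
              ring
      · rw [if_neg h]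
        exact zero_le
    have h2 : Dk R (W M) k (σ - ε) ≠ ⊤ := hM1 M hMM1
    exact ne_top_of_le_ne_top (ENNReal.mul_ne_top ENNReal.ofReal_ne_top h2) h1

end Pool.Agent.Lib.AbcU
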