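import Pool.Agent.Lib.AbcU.Hyp
import Pool.Agent.Lib.AbcR.Main

/-!
# The height bound for all the triples
-/

open Finset Filter Topology

namespace Pool.Agent.Lib.AbcU

open Pool.Agent.Lib.Pabc2 (N rd ht IsT)

/-- The height is at most `K rad ^ (2 + ε)`. -/
theorem height_all (ε : ℝ) (hε : 0 < ε) : ∃ K : ℝ, 1 ≤ K ∧ ∀ t : ℕ × ℕ,
    0 < t.1 → 0 < t.2 → Nat.Coprime t.1 t.2 → ht t ≤ K * (rd t : ℝ) ^ (2 + ε) := by
  obtain ⟨n0, hn0⟩ := ((Pabc9.height Pabc9.thmE ε hε).and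
    (eventually_ge_atTop 1)).exists_forall_of_atTop
  have key : ∀ t : ℕ × ℕ, IsT t → ∀ n : ℕ, n0 ≤ n → rd t ≤ n → ht t ≤ (n : ℝ) ^ (2 + ε) := by
    intro t hI n hn hrd
    have hn1 := (hn0 n hn).2
    obtain ⟨R, hR⟩ := AbcL.pf_nonempty hI
    have hnp : (0 : ℝ) < n := by exact_mod_cast hn1
    have h2 := (hn0 n hn).1 t hI hrd R hR
    refine h2.trans ?_
    have h3 : ∏ p ∈ (N t).primeFactors.erase R, (p : ℝ) ≤ n := by
      have h4 : ∏ p ∈ (N t).primeFactors.erase R, p ≤ rd t := by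
        unfold rd
        apply Finset.prod_le_prod_of_subset_of_one_le' (Finset.erase_subset _ _)
        intro p hp _
        exact (Nat.prime_of_mem_primeFactors hp).one_lt.le
      have h5 : ((∏ p ∈ (N t).primeFactors.erase R, p : ℕ) : ℝ) ≤ n := by
        exact_mod_cast h4.trans hrd
      rw [Nat.cast_prod] at h5
      exact h5
    have h6 : 0 ≤ ∏ p ∈ (N t).primeFactors.erase R, (p : ℝ) :=
      Finset.prod_nonneg (fun p _ => Nat.cast_nonneg p)
    calc (∏ p ∈ (N t).primeFactors.erase R, (p : ℝ)) ^ 2 * (n : ℝ) ^ ε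
        ≤ (n : ℝ) ^ 2 * (n : ℝ) ^ ε := by gcongr
      _ = (n : ℝ) ^ (2 + ε) := by
          rw [← Real.rpow_natCast (n : ℝ) 2, ← Real.rpow_add hnp]
          norm_num
  obtain ⟨K, hK⟩ : ∃ K : ℝ, K = max 1 ((n0 : ℝ) ^ (2 + ε)) := ⟨_, rfl⟩
  have hK1 : 1 ≤ K := by rw [hK]; exact le_max_left _ _
  have main : ∀ t : ℕ × ℕ, IsT t → ht t ≤ K * (rd t : ℝ) ^ (2 + ε) := by
    intro t hI
    have hr1 : (1 : ℝ) ≤ rd t := by exact_mod_cast rd_pos' t
    have hr2 : (1 : ℝ) ≤ (rd t : ℝ) ^ (2 + ε) := Real.one_le_rpow hr1 (by linarith)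
    rcases Nat.lt_or_ge (rd t) n0 with h | h
    · have h1 := key t hI n0 le_rfl h.le
      have h2 : (n0 : ℝ) ^ (2 + ε) ≤ K := by rw [hK]; exact le_max_right _ _
      calc ht t ≤ K := h1.trans h2
        _ = K * 1 := (mul_one K).symm
        _ ≤ K * (rd t : ℝ) ^ (2 + ε) := mul_le_mul_of_nonneg_left hr2 (by linarith)
    · have h1 := key t hI (rd t) h le_rfl
      refine h1.trans ?_
      exact le_mul_of_one_le_left (by positivity) hK1
  refine ⟨K, hK1, fun t h1 h2 h12 => ?_⟩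
  rcases le_total t.1 t.2 with h | h
  · exact main t ⟨h1, h, h12⟩
  · have h3 := main t.swap ⟨h2, h, h12.symm⟩
    rwa [AbcB.ht_swap, AbcB.rd_swap] at h3

end Pool.Agent.Lib.AbcU
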