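import Pool.Agent.Lib.AbcU.Base

/-!
# The two inputs of the engine: all the triples, and the violators
-/

open Finset
open scoped ENNReal

namespace Pool.Agent.Lib.AbcU

open Pool.Agent.Lib.AbcS (rF InBoxF rF_pos)
open Pool.Agent.Lib.AbcB (DD)
open Pool.Agent.Lib.Pabc2 (N rd ht)

variable {ι : Type*}

theorem DD_le (A B C : ℕ) (hA : 1 ≤ A) (hB : 1 ≤ B) (hC : 1 ≤ C) :
    DD A B C ≤ ((A : ℝ) * B * C) ^ (2 / 3 : ℝ) := by
  have hA' : (1 : ℝ) ≤ A := by exact_mod_cast hA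
  have hB' : (1 : ℝ) ≤ B := by exact_mod_cast hB
  have hC' : (1 : ℝ) ≤ C := by exact_mod_cast hC
  obtain ⟨x, hx⟩ : ∃ x : ℝ, x = max (A : ℝ) (max (B : ℝ) C) := ⟨_, rfl⟩
  have h1 : (A : ℝ) ≤ x := by rw [hx]; exact le_max_left _ _
  have h2 : (B : ℝ) ≤ x := by rw [hx]; exact (le_max_left _ _).trans (le_max_right _ _)
  have h3 : (C : ℝ) ≤ x := by rw [hx]; exact (le_max_right _ _).trans (le_max_right _ _)
  obtain ⟨n, hn⟩ : ∃ n : ℝ, n = (A : ℝ) * B * C := ⟨_, rfl⟩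
  have hn0 : 0 < n := by rw [hn]; positivity
  have hx0 : 0 < x := by linarith
  have h4 : n ≤ x ^ 3 := by
    rw [hn]
    calc (A : ℝ) * B * C ≤ x * x * x := by gcongr
      _ = x ^ 3 := by ring
  have h5 : n ^ (1 / 3 : ℝ) ≤ x := by
    calc n ^ (1 / 3 : ℝ) ≤ (x ^ 3) ^ (1 / 3 : ℝ) :=
          Real.rpow_le_rpow hn0.le h4 (by norm_num)
      _ = x := by
          rw [← Real.rpow_natCast, ← Real.rpow_mul hx0.le]
          norm_num
  unfold DD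
  rw [← hx, ← hn, div_le_iff₀ hx0]
  calc n = n ^ (2 / 3 : ℝ) * n ^ (1 / 3 : ℝ) := by
        rw [← Real.rpow_add hn0]
        norm_num
    _ ≤ n ^ (2 / 3 : ℝ) * x := mul_le_mul_of_nonneg_left h5 (by positivity)

theorem sqrt_DD_le (A B C : ℕ) (hA : 1 ≤ A) (hB : 1 ≤ B) (hC : 1 ≤ C) :
    Real.sqrt (DD A B C) ≤ ((A : ℝ) * B * C) ^ (1 / 3 : ℝ) := by
  have h0 : (0 : ℝ) ≤ (A : ℝ) * B * C := by positivity
  refine (Real.sqrt_le_sqrt (DD_le A B C hA hB hC)).trans (le_of_eq ?_)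
  rw [Real.sqrt_eq_rpow, ← Real.rpow_mul h0]
  norm_num

/-- The triples with `c ≥ rad(abc) ^ M`. -/
def V (e : ι → ℕ × ℕ) (M : ℝ) : Set ι := {i | M * Real.log (rd (e i)) ≤ ht (e i)}

theorem V_anti (e : ι → ℕ × ℕ) (M M' : ℝ) (h : M ≤ M') : V e M' ⊆ V e M := by
  intro i hi
  have h1 : 0 ≤ Real.log (rd (e i)) := Real.log_natCast_nonneg _
  exact (mul_le_mul_of_nonneg_right h h1).trans hi

open Classical in
theorem hyp_all (e : ι → ℕ × ℕ) (hinj : Function.Injective e)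
    (he : ∀ i, 0 < (e i).1 ∧ 0 < (e i).2 ∧ Nat.Coprime (e i).1 (e i).2)
    (W : Set ι) (σ : ℝ) (hσ : 2 / 3 < σ) (ε : ℝ) (hε : 0 < ε) :
    ∃ K : ℝ, ∀ m : ℕ, 1 ≤ m →
      ∑' i : ι, (if i ∈ W then
        ENNReal.ofReal ((off m (rd (e i)) : ℝ) ^ (-σ)) else 0) ≤
        ENNReal.ofReal (K * (m : ℝ) ^ ε) := by
  obtain ⟨δ, hδ⟩ : ∃ δ : ℝ, δ = min ε ((σ - 2 / 3) / 2) := ⟨_, rfl⟩
  have hδ0 : 0 < δ := by rw [hδ]; exact lt_min hε (by linarith)
  have hδσ : 2 / 3 + δ < σ := by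
    have : δ ≤ (σ - 2 / 3) / 2 := by rw [hδ]; exact min_le_right _ _
    linarith
  have hδε : δ ≤ ε := by rw [hδ]; exact min_le_left _ _
  obtain ⟨K, hK, hb⟩ := Pool.Agent.Lib.AbcS.box_allF δ hδ0
  obtain ⟨K', hK'⟩ := tsum_off_le e he W (2 / 3) δ K σ (by norm_num) hδ0 (by linarith)
    hδσ (by
      intro m A B C T hm hA hB hC hT
      have h1 := hb m A B C (T.image e) hm hA hB hC (by
        intro t ht
        rw [Finset.mem_image] at ht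
        obtain ⟨i, hi, rfl⟩ := ht
        exact (hT i hi).2)
      rw [Finset.card_image_of_injective _ hinj] at h1
      refine h1.trans ?_
      have h2 := DD_le A B C hA hB hC
      have h3 : (0 : ℝ) ≤ ((m : ℝ) * A * B * C) ^ δ := by positivity
      apply mul_le_mul_of_nonneg_right _ h3
      exact mul_le_mul_of_nonneg_left h2 (by linarith))
  refine ⟨max K' 0, fun m hm => (hK' m hm).trans ?_⟩
  apply ENNReal.ofReal_le_ofReal
  have hm1 : (1 : ℝ) ≤ m := by exact_mod_cast hm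
  calc K' * (m : ℝ) ^ δ ≤ max K' 0 * (m : ℝ) ^ δ :=
        mul_le_mul_of_nonneg_right (le_max_left _ _) (by positivity)
    _ ≤ max K' 0 * (m : ℝ) ^ ε :=
        mul_le_mul_of_nonneg_left (Real.rpow_le_rpow_of_exponent_le hm1 hδε) (le_max_right _ _)

open Classical in
theorem hyp_viol (e : ι → ℕ × ℕ) (hinj : Function.Injective e)
    (he : ∀ i, 0 < (e i).1 ∧ 0 < (e i).2 ∧ Nat.Coprime (e i).1 (e i).2)
    (σ : ℝ) (hσ : 1 / 3 < σ) (ε : ℝ) (hε : 0 < ε) :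
    ∃ M K : ℝ, ∀ m : ℕ, 1 ≤ m →
      ∑' i : ι, (if i ∈ V e M then
        ENNReal.ofReal ((off m (rd (e i)) : ℝ) ^ (-σ)) else 0) ≤
        ENNReal.ofReal (K * (m : ℝ) ^ ε) := by
  obtain ⟨δ, hδ⟩ : ∃ δ : ℝ, δ = min ε ((σ - 1 / 3) / 2) := ⟨_, rfl⟩
  have hδ0 : 0 < δ := by rw [hδ]; exact lt_min hε (by linarith)
  have hδσ : 1 / 3 + δ < σ := by
    have : δ ≤ (σ - 1 / 3) / 2 := by rw [hδ]; exact min_le_right _ _
    linarith
  have hδε : δ ≤ ε := by rw [hδ]; exact min_le_left _ _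
  obtain ⟨K, M, hK, _, hb⟩ := Pool.Agent.Lib.AbcS.box_violF δ hδ0
  obtain ⟨K', hK'⟩ := tsum_off_le e he (V e M) (1 / 3) δ K σ (by norm_num) hδ0 (by linarith)
    hδσ (by
      intro m A B C T hm hA hB hC hT
      have h1 := hb m A B C (T.image e) hm hA hB hC (by
        intro t ht
        rw [Finset.mem_image] at ht
        obtain ⟨i, hi, rfl⟩ := ht
        exact ⟨(hT i hi).2, (hT i hi).1⟩)
      rw [Finset.card_image_of_injective _ hinj] at h1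
      refine h1.trans ?_
      have h2 := sqrt_DD_le A B C hA hB hC
      have h3 : (0 : ℝ) ≤ ((m : ℝ) * A * B * C) ^ δ := by positivity
      apply mul_le_mul_of_nonneg_right _ h3
      exact mul_le_mul_of_nonneg_left h2 (by linarith))
  refine ⟨M, max K' 0, fun m hm => (hK' m hm).trans ?_⟩
  apply ENNReal.ofReal_le_ofReal
  have hm1 : (1 : ℝ) ≤ m := by exact_mod_cast hm
  calc K' * (m : ℝ) ^ δ ≤ max K' 0 * (m : ℝ) ^ δ :=
        mul_le_mul_of_nonneg_right (le_max_left _ _) (by positivity)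
    _ ≤ max K' 0 * (m : ℝ) ^ ε :=
        mul_le_mul_of_nonneg_left (Real.rpow_le_rpow_of_exponent_le hm1 hδε) (le_max_right _ _)

theorem rd_pos' (t : ℕ × ℕ) : 1 ≤ rd t :=
  Finset.prod_pos (fun _ hp => (Nat.prime_of_mem_primeFactors hp).pos)

/-- The `k`-tuples of all the triples. -/
theorem Dk_all (e : ι → ℕ × ℕ) (hinj : Function.Injective e)
    (he : ∀ i, 0 < (e i).1 ∧ 0 < (e i).2 ∧ Nat.Coprime (e i).1 (e i).2)
    (k : ℕ) (σ : ℝ) (hσ : 2 / 3 < σ) : Dk (fun i => rd (e i)) Set.univ k σ ≠ ⊤ := by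
  obtain ⟨M0, h⟩ := engine (fun i => rd (e i)) (fun _ => rd_pos' _) (fun _ => Set.univ)
    (fun _ _ _ => subset_rfl) (2 / 3) (fun σ hσ ε hε => by
      obtain ⟨K, hK⟩ := hyp_all e hinj he Set.univ σ hσ ε hε
      exact ⟨0, K, hK⟩) k σ hσ
  exact h M0 le_rfl

/-- The `k`-tuples of the violators. -/
theorem Dk_viol (e : ι → ℕ × ℕ) (hinj : Function.Injective e)
    (he : ∀ i, 0 < (e i).1 ∧ 0 < (e i).2 ∧ Nat.Coprime (e i).1 (e i).2)
    (k : ℕ) (σ : ℝ) (hσ : 1 / 3 < σ) :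
    ∃ M0 : ℝ, ∀ M : ℝ, M0 ≤ M → Dk (fun i => rd (e i)) (V e M) k σ ≠ ⊤ :=
  engine (fun i => rd (e i)) (fun _ => rd_pos' _) (V e) (V_anti e) (1 / 3)
    (fun σ hσ ε hε => hyp_viol e hinj he σ hσ ε hε) k σ hσ

end Pool.Agent.Lib.AbcU
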