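import Pool.Agent.Lib.AbcS.BoxF

/-!
# New primes create no new solutions of the S-unit equation

For a positive integer `P` and `k` primes `p 1, ..., p k ≤ X` we count the abc-triples whose primes
all divide `P p 1 ... p k` and do not all divide `P`.
-/

open Finset

namespace Pool.Agent.Lib.AbcU

open Pool.Agent.Lib.Pabc2 (N)
open Pool.Agent.Lib.AbcS (rF InBoxF box_allF)
open Pool.Agent.Lib.AbcB (DD)

/-- The pair `z = (p, (a, b))` is a tuple of primes at most `X` together with a new solution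
`a + b = c`: all primes of `a b c` divide `P` or are some `p i`, and not all of them divide `P`. -/
def NewSol (k P X : ℕ) (z : (Fin k → ℕ) × (ℕ × ℕ)) : Prop :=
  (∀ i, (z.1 i).Prime ∧ z.1 i ≤ X) ∧ 0 < z.2.1 ∧ 0 < z.2.2 ∧ Nat.Coprime z.2.1 z.2.2 ∧
    (∀ q ∈ (N z.2).primeFactors, q ∣ P ∨ ∃ i, z.1 i = q) ∧
    ∃ q ∈ (N z.2).primeFactors, ¬ q ∣ P

/-- The new primes of a triple. -/
def newP (P : ℕ) (t : ℕ × ℕ) : Finset ℕ := (N t).primeFactors \ P.primeFactors

theorem prod_le_of_inj {A : Finset ℕ} {k : ℕ} {B : Finset (Fin k)} {X : ℕ} (hX : 1 ≤ X)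
    (g : ℕ → Fin k) (hg : ∀ q ∈ A, g q ∈ B) (hi : ∀ q ∈ A, ∀ q' ∈ A, g q = g q' → q = q')
    (hq : ∀ q ∈ A, q ≤ X) : ∏ q ∈ A, q ≤ X ^ B.card := by
  refine (Finset.prod_le_pow_card A (fun q => q) X hq).trans ?_
  apply Nat.pow_le_pow_right hX
  exact Finset.card_le_card_of_injOn g hg (fun q hq q' hq' h => hi q hq q' hq' h)

theorem new_solutions (k : ℕ) (ε : ℝ) (hε : 0 < ε) : ∃ K : ℝ, 1 ≤ K ∧
    ∀ (P X : ℕ) (T : Finset ((Fin k → ℕ) × (ℕ × ℕ))), 1 ≤ P → 1 ≤ X →
      (∀ z ∈ T, NewSol k P X z) →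
      (T.card : ℝ) ≤ K * (P : ℝ) ^ ε * (X : ℝ) ^ ((k : ℝ) - 1 + ε) := by
  classical
  rcases Nat.eq_zero_or_pos k with hk | hk
  · subst hk
    refine ⟨1, le_refl _, fun P X T hP hX hT => ?_⟩
    have hT0 : T = ∅ := by
      rw [Finset.eq_empty_iff_forall_notMem]
      intro z hz
      obtain ⟨-, -, -, -, h1, q, hq, hqP⟩ := hT z hz
      rcases h1 q hq with h | ⟨i, -⟩
      · exact hqP h
      · exact i.elim0
    rw [hT0, Finset.card_empty, Nat.cast_zero]
    positivity
  obtain ⟨δ, hδ⟩ : ∃ δ : ℝ, δ = ε / k := ⟨_, rfl⟩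
  have hkR : (0 : ℝ) < k := by exact_mod_cast hk
  have hk1 : (1 : ℝ) ≤ k := by exact_mod_cast hk
  have hδ0 : 0 < δ := by rw [hδ]; positivity
  have hδε : δ ≤ ε := by
    rw [hδ, div_le_iff₀ hkR]
    nlinarith
  obtain ⟨K0, hK0, hbox⟩ := box_allF δ hδ0
  refine ⟨(4 : ℝ) ^ k * (K0 * (k : ℝ) ^ k), ?_, ?_⟩
  · have h1 : (1 : ℝ) ≤ (4 : ℝ) ^ k := one_le_pow₀ (by norm_num)
    have h2 : (1 : ℝ) ≤ (k : ℝ) ^ k := one_le_pow₀ hk1
    have h3 : (1 : ℝ) ≤ K0 * (k : ℝ) ^ k := by nlinarith
    nlinarith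
  intro P X T hP hX hT
  have hP' : (1 : ℝ) ≤ P := by exact_mod_cast hP
  have hX' : (1 : ℝ) ≤ X := by exact_mod_cast hX
  have hX0 : (0 : ℝ) < X := by linarith
  haveI : Nonempty (Fin k) := ⟨⟨0, hk⟩⟩
  -- an index for every new prime
  have hg : ∀ z ∈ T, ∃ g : ℕ → Fin k, ∀ q ∈ newP P z.2, z.1 (g q) = q := by
    intro z hz
    obtain ⟨-, -, -, -, h1, -⟩ := hT z hz
    have h2 : ∀ q : ℕ, ∃ i : Fin k, q ∈ newP P z.2 → z.1 i = q := by
      intro q
      by_cases hq : q ∈ newP P z.2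
      · unfold newP at hq
        rw [Finset.mem_sdiff] at hq
        have h3 : ¬ q ∣ P := fun h => hq.2 (Nat.mem_primeFactors.mpr
          ⟨Nat.prime_of_mem_primeFactors hq.1, h, by omega⟩)
        rcases h1 q hq.1 with h | ⟨i, hi⟩
        · exact absurd h h3
        · exact ⟨i, fun _ => hi⟩
      · exact ⟨Classical.arbitrary _, fun h => absurd h hq⟩
    choose g hg using h2
    exact ⟨g, hg⟩
  choose! g hg using hg
  set s : (Fin k → ℕ) × (ℕ × ℕ) → Fin k → Fin 4 := fun z i =>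
    if i ∈ (newP P z.2).image (g z) then
      (if z.1 i ∣ z.2.1 then 1 else if z.1 i ∣ z.2.2 then 2 else 3) else 0 with hs
  have hmem : ∀ z ∈ T, ∀ q ∈ newP P z.2, q.Prime ∧ q ≤ X ∧
      (s z (g z q) = if q ∣ z.2.1 then 1 else if q ∣ z.2.2 then 2 else 3) := by
    intro z hz q hq
    have h1 := hg z hz q hq
    obtain ⟨h2, -⟩ := hT z hz
    have h3 := h2 (g z q)
    rw [h1] at h3
    refine ⟨h3.1, h3.2, ?_⟩
    rw [hs]
    simp only
    rw [if_pos (Finset.mem_image_of_mem _ hq), h1]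
  have hinj : ∀ z ∈ T, ∀ q ∈ newP P z.2, ∀ q' ∈ newP P z.2, g z q = g z q' → q = q' := by
    intro z hz q hq q' hq' h
    rw [← hg z hz q hq, ← hg z hz q' hq', h]
  -- the fibre of a pattern
  have hfib : ∀ σ : Fin k → Fin 4, ((T.filter (fun z => s z = σ)).card : ℝ) ≤
      K0 * (k : ℝ) ^ k * ((P : ℝ) ^ ε * (X : ℝ) ^ ((k : ℝ) - 1 + ε)) := by
    intro σ
    have hR0 : 0 ≤ K0 * (k : ℝ) ^ k * ((P : ℝ) ^ ε * (X : ℝ) ^ ((k : ℝ) - 1 + ε)) := by positivity
    rcases (T.filter (fun z => s z = σ)).eq_empty_or_nonempty with he | ⟨z0, hz0⟩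
    · rw [he, Finset.card_empty, Nat.cast_zero]
      exact hR0
    obtain ⟨n, hn⟩ : ∃ n : Fin 4 → ℕ, n = fun l => (univ.filter (fun i => σ i = l)).card := ⟨_, rfl⟩
    have hsum : n 0 + n 1 + n 2 + n 3 = k := by
      have h1 : (univ : Finset (Fin k)).card = ∑ l : Fin 4, (univ.filter (fun i => σ i = l)).card :=
        Finset.card_eq_sum_card_fiberwise (fun i _ => Finset.mem_univ _)
      rw [Finset.card_univ, Fintype.card_fin, Fin.sum_univ_four] at h1
      rw [hn]
      exact h1.symm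
    have hbx : ∀ z ∈ T.filter (fun z => s z = σ),
        InBoxF P.primeFactors (X ^ n 1) (X ^ n 2) (X ^ n 3) z.2 := by
      intro z hz
      rw [Finset.mem_filter] at hz
      obtain ⟨hzT, hzs⟩ := hz
      obtain ⟨-, ha, hb, hc, -⟩ := hT z hzT
      have hNne : N z.2 ≠ 0 := by
        unfold N
        positivity
      have hsub : ∀ m : ℕ, m ∣ N z.2 → ∀ q ∈ m.primeFactors \ P.primeFactors, q ∈ newP P z.2 := by
        intro m hm q hq
        rw [Finset.mem_sdiff] at hq
        unfold newP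
        rw [Finset.mem_sdiff]
        exact ⟨Nat.primeFactors_mono hm hNne hq.1, hq.2⟩
      have hgen : ∀ (m : ℕ) (l : Fin 4), m ∣ N z.2 →
          (∀ q ∈ m.primeFactors, (if q ∣ z.2.1 then (1 : Fin 4) else if q ∣ z.2.2 then 2 else 3) = l) →
          rF P.primeFactors m ≤ X ^ n l := by
        intro m l hm hl
        unfold rF
        rw [hn]
        apply prod_le_of_inj hX (g z)
        · intro q hq
          have h1 := hsub m hm q hq
          rw [Finset.mem_filter]
          refine ⟨Finset.mem_univ _, ?_⟩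
          rw [← hzs, (hmem z hzT q h1).2.2]
          exact hl q (Finset.mem_sdiff.mp hq).1
        · intro q hq q' hq' h
          exact hinj z hzT q (hsub m hm q hq) q' (hsub m hm q' hq') h
        · intro q hq
          exact (hmem z hzT q (hsub m hm q hq)).2.1
      refine ⟨ha, hb, hc, ?_, ?_, ?_⟩
      · apply hgen
        · exact ⟨z.2.2 * (z.2.1 + z.2.2), by unfold N; ring⟩
        · intro q hq
          rw [if_pos (Nat.dvd_of_mem_primeFactors hq)]
      · apply hgen
        · exact ⟨z.2.1 * (z.2.1 + z.2.2), by unfold N; ring⟩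
        · intro q hq
          have h1 := Nat.dvd_of_mem_primeFactors hq
          have h2 := Nat.prime_of_mem_primeFactors hq
          have h3 : ¬ q ∣ z.2.1 := fun h =>
            h2.one_lt.ne' (Nat.dvd_one.mp (hc.gcd_eq_one ▸ Nat.dvd_gcd h h1))
          rw [if_neg h3, if_pos h1]
      · apply hgen
        · exact ⟨z.2.1 * z.2.2, by unfold N; ring⟩
        · intro q hq
          have h1 := Nat.dvd_of_mem_primeFactors hq
          have h2 := Nat.prime_of_mem_primeFactors hq
          have h3 : ¬ q ∣ z.2.1 := fun h => h2.one_lt.ne' (Nat.dvd_one.mp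
            (hc.gcd_eq_one ▸ Nat.dvd_gcd h ((Nat.dvd_add_right h).mp h1)))
          have h4 : ¬ q ∣ z.2.2 := fun h => h2.one_lt.ne' (Nat.dvd_one.mp
            (hc.gcd_eq_one ▸ Nat.dvd_gcd ((Nat.dvd_add_left h).mp h1) h))
          rw [if_neg h3, if_neg h4]
    -- some index is used
    have hj : 1 ≤ n 1 + n 2 + n 3 := by
      rw [Finset.mem_filter] at hz0
      obtain ⟨-, -, -, -, -, q, hq, hqP⟩ := hT z0 hz0.1
      have h1 : q ∈ newP P z0.2 := by
        unfold newP
        rw [Finset.mem_sdiff]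
        exact ⟨hq, fun h => hqP (Nat.dvd_of_mem_primeFactors h)⟩
      have h2 := (hmem z0 hz0.1 q h1).2.2
      rw [hz0.2] at h2
      have h3 : ∀ l : Fin 4, σ (g z0 q) = l → 1 ≤ n l := by
        intro l hl
        rw [hn]
        exact Finset.card_pos.mpr ⟨g z0 q, Finset.mem_filter.mpr ⟨Finset.mem_univ _, hl⟩⟩
      split_ifs at h2
      · have := h3 1 h2
        omega
      · have := h3 2 h2
        omega
      · have := h3 3 h2
        omega
    -- the count of the triples
    set T' := (T.filter (fun z => s z = σ)).image (fun z => z.2) with hT'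
    have hXp : ∀ m : ℕ, 1 ≤ X ^ m := fun m => Nat.one_le_pow _ _ hX
    have hc1 : (T'.card : ℝ) ≤ K0 * DD (X ^ n 1) (X ^ n 2) (X ^ n 3) *
        ((P : ℝ) * ((X ^ n 1 : ℕ) : ℝ) * ((X ^ n 2 : ℕ) : ℝ) * ((X ^ n 3 : ℕ) : ℝ)) ^ δ := by
      apply hbox P _ _ _ T' hP (hXp _) (hXp _) (hXp _)
      intro t ht
      rw [hT', Finset.mem_image] at ht
      obtain ⟨z, hz, rfl⟩ := ht
      exact hbx z hz
    have hDD : DD (X ^ n 1) (X ^ n 2) (X ^ n 3) ≤ (X : ℝ) ^ (n 1 + n 2 + n 3 - 1) := by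
      unfold DD
      have h1 : (X : ℝ) ≤ max (((X ^ n 1 : ℕ) : ℝ)) (max ((X ^ n 2 : ℕ) : ℝ) ((X ^ n 3 : ℕ) : ℝ)) := by
        have h2 : ∀ m : ℕ, 1 ≤ m → (X : ℝ) ≤ ((X ^ m : ℕ) : ℝ) := by
          intro m hm
          push_cast
          calc (X : ℝ) = (X : ℝ) ^ 1 := (pow_one _).symm
            _ ≤ (X : ℝ) ^ m := pow_le_pow_right₀ hX' hm
        rcases Nat.eq_zero_or_pos (n 1) with h3 | h3
        · rcases Nat.eq_zero_or_pos (n 2) with h4 | h4
          · exact ((h2 (n 3) (by omega)).trans (le_max_right _ _)).trans (le_max_right _ _)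
          · exact ((h2 (n 2) h4).trans (le_max_left _ _)).trans (le_max_right _ _)
        · exact (h2 (n 1) h3).trans (le_max_left _ _)
      have h5 : 0 < max (((X ^ n 1 : ℕ) : ℝ)) (max ((X ^ n 2 : ℕ) : ℝ) ((X ^ n 3 : ℕ) : ℝ)) :=
        hX0.trans_le h1
      rw [div_le_iff₀ h5]
      have h6 : ((X ^ n 1 : ℕ) : ℝ) * ((X ^ n 2 : ℕ) : ℝ) * ((X ^ n 3 : ℕ) : ℝ) =
          (X : ℝ) ^ (n 1 + n 2 + n 3 - 1) * X := by
        push_cast
        rw [← pow_succ, ← pow_add, ← pow_add]
        congr 1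
        omega
      rw [h6]
      exact mul_le_mul_of_nonneg_left h1 (by positivity)
    have hpw : ((P : ℝ) * ((X ^ n 1 : ℕ) : ℝ) * ((X ^ n 2 : ℕ) : ℝ) * ((X ^ n 3 : ℕ) : ℝ)) ^ δ ≤
        (P : ℝ) ^ ε * (X : ℝ) ^ ε := by
      have h1 : (P : ℝ) * ((X ^ n 1 : ℕ) : ℝ) * ((X ^ n 2 : ℕ) : ℝ) * ((X ^ n 3 : ℕ) : ℝ) =
          (P : ℝ) * (X : ℝ) ^ (n 1 + n 2 + n 3) := by
        push_cast
        rw [pow_add, pow_add]
        ring
      rw [h1, Real.mul_rpow (by linarith) (by positivity)]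
      apply mul_le_mul
      · exact Real.rpow_le_rpow_of_exponent_le hP' hδε
      · rw [← Real.rpow_natCast, ← Real.rpow_mul hX0.le]
        apply Real.rpow_le_rpow_of_exponent_le hX'
        have h2 : ((n 1 + n 2 + n 3 : ℕ) : ℝ) ≤ k := by
          exact_mod_cast (by omega : n 1 + n 2 + n 3 ≤ k)
        calc ((n 1 + n 2 + n 3 : ℕ) : ℝ) * δ ≤ k * δ := mul_le_mul_of_nonneg_right h2 hδ0.le
          _ = ε := by rw [hδ]; field_simp
      · positivity
      · positivity
    -- the tuples over a triple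
    have hQ : ∀ z ∈ T, (newP P z.2).card ≤ k := by
      intro z hz
      have h1 : (newP P z.2).card ≤ (univ : Finset (Fin k)).card :=
        Finset.card_le_card_of_injOn (g z) (fun q _ => Finset.mem_univ _)
          (fun q hq q' hq' h => hinj z hz q hq q' hq' h)
      rwa [Finset.card_univ, Fintype.card_fin] at h1
    have hin : ∀ t ∈ T', (((T.filter (fun z => s z = σ)).filter (fun z => z.2 = t)).card : ℝ) ≤
        (k : ℝ) ^ k * (X : ℝ) ^ n 0 := by
      intro t ht
      have hQt : (newP P t).card ≤ k := by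
        rw [hT', Finset.mem_image] at ht
        obtain ⟨z, hz, rfl⟩ := ht
        exact hQ z (Finset.mem_filter.mp hz).1
      have h1 : (((T.filter (fun z => s z = σ)).filter (fun z => z.2 = t)).card) ≤
          (Fintype.piFinset (fun i : Fin k => if σ i = 0 then Finset.Icc 1 X else newP P t)).card := by
        apply Finset.card_le_card_of_injOn (fun z => z.1)
        · intro z hz
          rw [Finset.mem_coe, Finset.mem_filter, Finset.mem_filter] at hz
          obtain ⟨⟨hzT, hzs⟩, hzt⟩ := hz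
          rw [Finset.mem_coe, Fintype.mem_piFinset]
          intro i
          have h2 := (hT z hzT).1 i
          split_ifs with h3
          · rw [Finset.mem_Icc]
            exact ⟨h2.1.one_lt.le, h2.2⟩
          · rw [← hzs] at h3
            have h4 : i ∈ (newP P z.2).image (g z) := by
              by_contra h5
              apply h3
              rw [hs]
              simp only
              rw [if_neg h5]
            rw [Finset.mem_image] at h4
            obtain ⟨q, hq, hqi⟩ := h4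
            have h6 : z.1 i ∈ newP P t := by
              rw [← hqi, hg z hzT q hq, ← hzt]
              exact hq
            exact h6
        · intro z hz z' hz' h
          rw [Finset.mem_coe, Finset.mem_filter] at hz hz'
          exact Prod.ext h (hz.2.trans hz'.2.symm)
      have h2 : ((Fintype.piFinset (fun i : Fin k => if σ i = 0 then Finset.Icc 1 X
          else newP P t)).card : ℝ) ≤ (k : ℝ) ^ k * (X : ℝ) ^ n 0 := by
        rw [Fintype.card_piFinset]
        push_cast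
        have h3 : ∀ i : Fin k, (((if σ i = 0 then Finset.Icc 1 X else newP P t).card : ℕ) : ℝ) ≤
            (k : ℝ) * (if σ i = 0 then (X : ℝ) else 1) := by
          intro i
          split_ifs with h4
          · rw [Nat.card_Icc, Nat.add_sub_cancel]
            nlinarith
          · rw [mul_one]
            exact_mod_cast hQt
        refine (Finset.prod_le_prod (fun i _ => Nat.cast_nonneg _) (fun i _ => h3 i)).trans ?_
        rw [Finset.prod_mul_distrib, Finset.prod_const, Finset.card_univ, Fintype.card_fin]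
        apply mul_le_mul_of_nonneg_left _ (by positivity)
        rw [Finset.prod_ite, Finset.prod_const, Finset.prod_const, one_pow, mul_one, hn]
      exact (by exact_mod_cast h1 : ((((T.filter (fun z => s z = σ)).filter
        (fun z => z.2 = t)).card : ℕ) : ℝ) ≤ _).trans h2
    have hcard : ((T.filter (fun z => s z = σ)).card : ℝ) ≤
        T'.card * ((k : ℝ) ^ k * (X : ℝ) ^ n 0) := by
      rw [Finset.card_eq_sum_card_fiberwise (f := fun z => z.2) (t := T')
        (fun z hz => Finset.mem_image_of_mem _ hz)]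
      push_cast
      refine (Finset.sum_le_sum hin).trans ?_
      rw [Finset.sum_const, nsmul_eq_mul]
    refine hcard.trans ?_
    have hc2 : (T'.card : ℝ) ≤ K0 * (X : ℝ) ^ (n 1 + n 2 + n 3 - 1) *
        ((P : ℝ) ^ ε * (X : ℝ) ^ ε) := by
      refine hc1.trans ?_
      apply mul_le_mul _ hpw (by positivity) (by positivity)
      exact mul_le_mul_of_nonneg_left hDD (by linarith)
    calc (T'.card : ℝ) * ((k : ℝ) ^ k * (X : ℝ) ^ n 0)
        ≤ K0 * (X : ℝ) ^ (n 1 + n 2 + n 3 - 1) * ((P : ℝ) ^ ε * (X : ℝ) ^ ε) *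
          ((k : ℝ) ^ k * (X : ℝ) ^ n 0) := mul_le_mul_of_nonneg_right hc2 (by positivity)
      _ = K0 * (k : ℝ) ^ k * ((P : ℝ) ^ ε *
          ((X : ℝ) ^ (n 1 + n 2 + n 3 - 1) * (X : ℝ) ^ n 0 * (X : ℝ) ^ ε)) := by ring
      _ = K0 * (k : ℝ) ^ k * ((P : ℝ) ^ ε * (X : ℝ) ^ ((k : ℝ) - 1 + ε)) := by
          congr 2
          rw [← pow_add, ← Real.rpow_natCast, ← Real.rpow_add hX0]
          congr 1
          have h1 : n 1 + n 2 + n 3 - 1 + n 0 = k - 1 := by omega
          rw [h1, Nat.cast_sub hk]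
          push_cast
          ring
  rw [Finset.card_eq_sum_card_fiberwise (f := s) (t := Finset.univ)
    (fun z _ => Finset.mem_univ _)]
  push_cast
  refine (Finset.sum_le_sum (fun σ _ => hfib σ)).trans ?_
  rw [Finset.sum_const, Finset.card_univ, nsmul_eq_mul, Fintype.card_fun, Fintype.card_fin,
    Fintype.card_fin]
  push_cast
  apply le_of_eq
  ring

/-- The radical of `n`: the product of the distinct primes dividing `n`. -/
def rad (n : ℕ) : ℕ := ∏ p ∈ n.primeFactors, p

/-- `(a, b, c)` is an abc-triple: pairwise coprime positive integers with `a + b = c`. -/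
def AbcTriple (a b c : ℕ) : Prop :=
  0 < a ∧ 0 < b ∧ 0 < c ∧ a.Coprime b ∧ a.Coprime c ∧ b.Coprime c ∧ a + b = c

/-- The abc-triples all of whose primes divide `r`. -/
def sols (r : ℕ) : Set (ℕ × ℕ × ℕ) :=
  {t | AbcTriple t.1 t.2.1 t.2.2 ∧ rad (t.1 * t.2.1 * t.2.2) ∣ r}

theorem rad_dvd_iff {n r : ℕ} : rad n ∣ r ↔ ∀ q ∈ n.primeFactors, q ∣ r := by
  constructor
  · intro h q hq
    exact (Finset.dvd_prod_of_mem (fun p => p) hq).trans h
  · intro h
    exact Finset.prod_primes_dvd r (fun q hq => (Nat.prime_of_mem_primeFactors hq).prime)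
      (fun q hq => h q hq)

/-- For `k` primes `p 1, ..., p k ≤ X` on average only `P ^ ε X ^ (-1 + ε)` abc-triples are
composed of the primes of `P` and `p 1, ..., p k` without being composed of the primes of `P`. -/
theorem new_primes (k : ℕ) (ε : ℝ) (hε : 0 < ε) : ∃ K : ℝ, 1 ≤ K ∧ ∀ P X : ℕ, 1 ≤ P → 1 ≤ X →
    ∑ p ∈ Fintype.piFinset (fun _ : Fin k => (Finset.Icc 1 X).filter Nat.Prime),
      ((sols (P * ∏ i, p i) \ sols P).ncard : ℝ) ≤
      K * (P : ℝ) ^ ε * (X : ℝ) ^ ((k : ℝ) - 1 + ε) := by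
  classical
  obtain ⟨K, hK, h⟩ := new_solutions k ε hε
  refine ⟨K, hK, fun P X hP hX => ?_⟩
  set I := Fintype.piFinset (fun _ : Fin k => (Finset.Icc 1 X).filter Nat.Prime) with hI
  set F : (Fin k → ℕ) → Finset (ℕ × ℕ × ℕ) := fun p =>
    if hf : (sols (P * ∏ i, p i) \ sols P).Finite then hf.toFinset else ∅ with hF
  have hFc : ∀ p, (sols (P * ∏ i, p i) \ sols P).ncard = (F p).card := by
    intro p
    by_cases hf : (sols (P * ∏ i, p i) \ sols P).Finite
    · rw [hF]
      simp only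
      rw [dif_pos hf, Set.ncard_eq_toFinset_card _ hf]
    · rw [hF]
      simp only
      rw [dif_neg hf, Finset.card_empty, Set.Infinite.ncard hf]
  have hFm : ∀ p, ∀ t ∈ F p, t ∈ sols (P * ∏ i, p i) ∧ t ∉ sols P := by
    intro p t ht
    rw [hF] at ht
    simp only at ht
    split_ifs at ht with hf
    · exact hf.mem_toFinset.mp ht
    · exact absurd ht (Finset.notMem_empty _)
  set f : (Σ _ : Fin k → ℕ, ℕ × ℕ × ℕ) → (Fin k → ℕ) × (ℕ × ℕ) :=
    fun z => (z.1, (z.2.1, z.2.2.1)) with hf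
  have hinj : Set.InjOn f (I.sigma F : Set (Σ _ : Fin k → ℕ, ℕ × ℕ × ℕ)) := by
    rintro ⟨p, a, b, c⟩ hz ⟨p', a', b', c'⟩ hz' he
    rw [Finset.mem_coe, Finset.mem_sigma] at hz hz'
    have h1 := (hFm _ _ hz.2).1.1
    have h2 := (hFm _ _ hz'.2).1.1
    have e1 : a + b = c := h1.2.2.2.2.2.2
    have e2 : a' + b' = c' := h2.2.2.2.2.2.2
    rw [hf] at he
    simp only [Prod.mk.injEq] at he
    obtain ⟨rfl, rfl, rfl⟩ := he
    rw [← e1, ← e2]
  have hcard : ((I.sigma F).image f).card = ∑ p ∈ I, (F p).card := by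
    rw [Finset.card_image_of_injOn hinj, Finset.card_sigma]
  have hmain := h P X ((I.sigma F).image f) hP hX (by
    intro z hz
    rw [Finset.mem_image] at hz
    obtain ⟨⟨p, a, b, c⟩, hz, rfl⟩ := hz
    rw [Finset.mem_sigma] at hz
    obtain ⟨hp, ht⟩ := hz
    obtain ⟨⟨h1, h2⟩, h3⟩ := hFm _ _ ht
    simp only at hp h1 h2 h3
    rw [hI, Fintype.mem_piFinset] at hp
    have hp' : ∀ i, (p i).Prime ∧ p i ≤ X := by
      intro i
      have h4 := hp i
      rw [Finset.mem_filter, Finset.mem_Icc] at h4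
      exact ⟨h4.2, h4.1.2⟩
    have e1 : a + b = c := h1.2.2.2.2.2.2
    have hN : N (a, b) = a * b * c := by
      unfold N
      simp only
      rw [e1]
    rw [rad_dvd_iff] at h2
    rw [hf]
    refine ⟨hp', h1.1, h1.2.1, h1.2.2.2.1, ?_, ?_⟩
    · intro q hq
      simp only at hq
      rw [hN] at hq
      have hqp := Nat.prime_of_mem_primeFactors hq
      rcases (Nat.Prime.dvd_mul hqp).mp (h2 q hq) with h4 | h4
      · exact Or.inl h4
      · obtain ⟨i, -, h5⟩ := (Prime.dvd_finset_prod_iff hqp.prime p).mp h4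
        exact Or.inr ⟨i, ((Nat.prime_dvd_prime_iff_eq hqp (hp' i).1).mp h5).symm⟩
    · by_contra hcon
      push Not at hcon
      apply h3
      refine ⟨h1, ?_⟩
      simp only
      rw [rad_dvd_iff]
      intro q hq
      apply hcon q
      simp only
      rw [hN]
      exact hq)
  rw [hcard] at hmain
  push_cast at hmain
  refine le_trans (le_of_eq ?_) hmain
  apply Finset.sum_congr rfl
  intro p _
  rw [hFc p]

end Pool.Agent.Lib.AbcU
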