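import Mathlib

/-!
Zeros of primitive integer polynomials modulo squarefree numbers.
-/

namespace Pool.Agent.Lib.AbcU

open Polynomial

/-- The zeros of `f` modulo `m` in `[0, m)`. -/
def zerosMod (f : ℤ[X]) (m : ℕ) : Finset ℕ :=
  (Finset.range m).filter (fun x => (m : ℤ) ∣ f.eval (x : ℤ))

theorem eval_dvd_iff_zmod (f : ℤ[X]) (p : ℕ) (x : ℤ) :
    (p : ℤ) ∣ f.eval x ↔ (f.map (Int.castRingHom (ZMod p))).eval (x : ZMod p) = 0 := by
  have h := Polynomial.eval_intCast_map (Int.castRingHom (ZMod p)) f x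
  rw [h, eq_intCast, ZMod.intCast_zmod_eq_zero_iff_dvd, Int.cast_id]

theorem zerosMod_prime {f : ℤ[X]} {D : ℕ} (hD : f.natDegree ≤ D) (hf : f.IsPrimitive) {p : ℕ}
    (hp : p.Prime) : (zerosMod f p).card ≤ D := by
  have : Fact p.Prime := ⟨hp⟩
  obtain ⟨g, hg⟩ : ∃ g : (ZMod p)[X], g = f.map (Int.castRingHom (ZMod p)) := ⟨_, rfl⟩
  have hg0 : g ≠ 0 := by
    intro h0
    have h1 : (C (p : ℤ)) ∣ f := by
      rw [Polynomial.C_dvd_iff_dvd_coeff]
      intro i
      have h2 : g.coeff i = 0 := by rw [h0]; simp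
      rw [hg, Polynomial.coeff_map, eq_intCast, ZMod.intCast_zmod_eq_zero_iff_dvd] at h2
      exact h2
    have h3 := hf _ h1
    have h4 : IsUnit (p : ℤ) := h3
    rw [Int.isUnit_iff] at h4
    have := hp.two_le
    omega
  have h1 : (zerosMod f p).card ≤ g.roots.toFinset.card := by
    apply Finset.card_le_card_of_injOn (fun x : ℕ => (x : ZMod p))
    · intro x hx
      simp only [zerosMod, Finset.coe_filter, Finset.mem_range, Set.mem_ofPred_eq] at hx
      simp only [Finset.mem_coe, Multiset.mem_toFinset]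
      rw [Polynomial.mem_roots hg0, Polynomial.IsRoot.def, hg]
      have h2 := (eval_dvd_iff_zmod f p (x : ℤ)).1 hx.2
      simpa using h2
    · intro x hx y hy hxy
      simp only [zerosMod, Finset.coe_filter, Finset.mem_range, Set.mem_ofPred_eq] at hx hy
      have h2 := (ZMod.natCast_eq_natCast_iff x y p).1 hxy
      exact Nat.ModEq.eq_of_lt_of_lt h2 hx.1 hy.1
  calc (zerosMod f p).card ≤ g.roots.toFinset.card := h1
    _ ≤ Multiset.card g.roots := Multiset.toFinset_card_le _
    _ ≤ g.natDegree := Polynomial.card_roots' g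
    _ ≤ f.natDegree := by rw [hg]; exact Polynomial.natDegree_map_le
    _ ≤ D := hD

/-- Congruent arguments have congruent values. -/
theorem eval_congr {f : ℤ[X]} {m x y : ℕ} (h : x ≡ y [MOD m]) :
    (m : ℤ) ∣ f.eval (x : ℤ) ↔ (m : ℤ) ∣ f.eval (y : ℤ) := by
  have h1 : (x : ℤ) - y ∣ f.eval (x : ℤ) - f.eval (y : ℤ) := Polynomial.sub_dvd_eval_sub _ _ f
  have h2 : (m : ℤ) ∣ (x : ℤ) - y := by
    have := (Nat.modEq_iff_dvd.1 h.symm)
    exact this
  have h3 := h2.trans h1
  constructor
  · intro h4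
    have := dvd_sub h4 h3
    simpa using this
  · intro h4
    have := dvd_add h3 h4
    simpa using this

theorem zerosMod_squarefree {f : ℤ[X]} {D : ℕ} (hD : f.natDegree ≤ D) (hf : f.IsPrimitive) {d : ℕ}
    (hd : Squarefree d) : (zerosMod f d).card ≤ D ^ d.primeFactors.card := by
  classical
  have hd0 : d ≠ 0 := hd.ne_zero
  have h1 : (zerosMod f d).card ≤ (d.primeFactors.pi (fun p => zerosMod f p)).card := by
    apply Finset.card_le_card_of_injOn (fun x : ℕ => fun p (_ : p ∈ d.primeFactors) => x % p)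
    · intro x hx
      simp only [zerosMod, Finset.coe_filter, Finset.mem_range, Set.mem_ofPred_eq] at hx
      simp only [Finset.mem_coe, Finset.mem_pi]
      intro p hp
      have hpp := Nat.prime_of_mem_primeFactors hp
      have hpd := Nat.dvd_of_mem_primeFactors hp
      simp only [zerosMod, Finset.mem_filter, Finset.mem_range]
      refine ⟨Nat.mod_lt _ hpp.pos, ?_⟩
      rw [eval_congr (Nat.mod_modEq x p)]
      exact (Int.natCast_dvd_natCast.2 hpd).trans hx.2
    · intro x hx y hy hxy
      simp only [zerosMod, Finset.coe_filter, Finset.mem_range, Set.mem_ofPred_eq] at hx hy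
      have h2 : ∀ p ∈ d.primeFactors, x ≡ y [MOD p] := by
        intro p hp
        exact congrFun (congrFun hxy p) hp
      have h3 : x ≡ y [MOD d] := by
        rw [Nat.modEq_iff_dvd]
        have h4 : (d : ℤ) = ((∏ p ∈ d.primeFactors, p : ℕ) : ℤ) := by
          rw [Nat.prod_primeFactors_of_squarefree hd]
        rw [h4]
        push_cast
        apply Finset.prod_dvd_of_coprime
        · intro p hp q hq hpq
          have hpp := Nat.prime_of_mem_primeFactors hp
          have hqp := Nat.prime_of_mem_primeFactors hq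
          exact Nat.isCoprime_iff_coprime.2 ((Nat.coprime_primes hpp hqp).2 hpq)
        · intro p hp
          exact Nat.modEq_iff_dvd.1 (h2 p hp)
      exact Nat.ModEq.eq_of_lt_of_lt h3 hx.1 hy.1
  refine h1.trans ?_
  rw [Finset.card_pi]
  calc ∏ p ∈ d.primeFactors, (zerosMod f p).card ≤ ∏ p ∈ d.primeFactors, D := by
        apply Finset.prod_le_prod'
        intro p hp
        exact zerosMod_prime hD hf (Nat.prime_of_mem_primeFactors hp)
    _ = D ^ d.primeFactors.card := by rw [Finset.prod_const]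

/-- A residue class modulo `d` has at most `N / d + 1` elements in `[1, N]`. -/
theorem class_card_le (d N r : ℕ) :
    ((Finset.Icc 1 N).filter (fun n => n % d = r)).card ≤ N / d + 1 := by
  have h1 : ((Finset.Icc 1 N).filter (fun n => n % d = r)).card ≤
      (Finset.range (N / d + 1)).card := by
    apply Finset.card_le_card_of_injOn (fun n => n / d)
    · intro n hn
      simp only [Finset.coe_filter, Finset.mem_Icc, Set.mem_ofPred_eq] at hn
      simp only [Finset.coe_range, Set.mem_Iio]
      exact Nat.lt_succ_of_le (Nat.div_le_div_right hn.1.2)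
    · intro m hm n hn hmn
      simp only [Finset.coe_filter, Finset.mem_Icc, Set.mem_ofPred_eq] at hm hn
      have e1 := Nat.div_add_mod m d
      have e2 := Nat.div_add_mod n d
      have hmn' : m / d = n / d := hmn
      rw [hm.2, hmn'] at e1
      rw [hn.2] at e2
      omega
  simpa using h1

/-- The number of `n ≤ N` with `d ∣ f n`, for a primitive polynomial `f` of degree at most `D` and
squarefree `d`. -/
theorem poly_count {f : ℤ[X]} {D : ℕ} (hD : f.natDegree ≤ D) (hf : f.IsPrimitive) {d : ℕ} (N : ℕ)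
    (hd : Squarefree d) :
    ((Finset.Icc 1 N).filter (fun n : ℕ => (d : ℤ) ∣ f.eval (n : ℤ))).card ≤
      D ^ d.primeFactors.card * (N / d + 1) := by
  classical
  have hd0 : 0 < d := Nat.pos_of_ne_zero hd.ne_zero
  have h1 : ((Finset.Icc 1 N).filter (fun n : ℕ => (d : ℤ) ∣ f.eval (n : ℤ))) ⊆
      (zerosMod f d).biUnion (fun r => (Finset.Icc 1 N).filter (fun n => n % d = r)) := by
    intro n hn
    simp only [Finset.mem_filter, Finset.mem_Icc] at hn
    simp only [Finset.mem_biUnion, zerosMod, Finset.mem_filter, Finset.mem_range, Finset.mem_Icc]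
    refine ⟨n % d, ⟨Nat.mod_lt _ hd0, ?_⟩, hn.1, rfl⟩
    rw [eval_congr (Nat.mod_modEq n d)]
    exact hn.2
  calc ((Finset.Icc 1 N).filter (fun n : ℕ => (d : ℤ) ∣ f.eval (n : ℤ))).card
      ≤ ((zerosMod f d).biUnion
        (fun r => (Finset.Icc 1 N).filter (fun n => n % d = r))).card := Finset.card_le_card h1
    _ ≤ ∑ r ∈ zerosMod f d, ((Finset.Icc 1 N).filter (fun n => n % d = r)).card :=
        Finset.card_biUnion_le
    _ ≤ ∑ r ∈ zerosMod f d, (N / d + 1) :=
        Finset.sum_le_sum (fun r _ => class_card_le d N r)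
    _ = (zerosMod f d).card * (N / d + 1) := by rw [Finset.sum_const, smul_eq_mul]
    _ ≤ D ^ d.primeFactors.card * (N / d + 1) :=
        Nat.mul_le_mul_right _ (zerosMod_squarefree hD hf hd)

/-- Quadratic polynomials of content one. -/
theorem quad_count {a b c : ℤ} (h : ∀ p : ℕ, p.Prime → ¬ ((p : ℤ) ∣ a ∧ (p : ℤ) ∣ b ∧ (p : ℤ) ∣ c))
    {d : ℕ} (N : ℕ) (hd : Squarefree d) :
    ((Finset.Icc 1 N).filter
      (fun n : ℕ => (d : ℤ) ∣ a * (n : ℤ) ^ 2 + b * (n : ℤ) + c)).card ≤
      2 ^ d.primeFactors.card * (N / d + 1) := by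
  have hD : (C a * X ^ 2 + C b * X + C c : ℤ[X]).natDegree ≤ 2 := Polynomial.natDegree_quadratic_le
  have hf : (C a * X ^ 2 + C b * X + C c : ℤ[X]).IsPrimitive := by
    intro r hr
    by_contra hu
    obtain ⟨p, hp, hpr⟩ := Int.exists_prime_and_dvd (n := r) (by
      intro h1
      apply hu
      rw [Int.isUnit_iff_natAbs_eq]
      exact h1)
    have hpn : p.natAbs.Prime := Int.prime_iff_natAbs_prime.1 hp
    rw [Polynomial.C_dvd_iff_dvd_coeff] at hr
    have e0 := hr 0
    have e1 := hr 1
    have e2 := hr 2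
    simp only [Polynomial.coeff_add, Polynomial.coeff_C_mul, Polynomial.coeff_X_pow,
      Polynomial.coeff_X, Polynomial.coeff_C] at e0 e1 e2
    norm_num at e0 e1 e2
    exact h _ hpn ⟨(Int.natAbs_dvd.2 hpr).trans e2, (Int.natAbs_dvd.2 hpr).trans e1,
      (Int.natAbs_dvd.2 hpr).trans e0⟩
  have h2 := poly_count hD hf N hd
  simpa using h2

end Pool.Agent.Lib.AbcU
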