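import Pool.Agent.Lib.AbcU.RDefs

/-!
# The count of triples with a large prescribed divisor

Two different members with the same distribution of the primes of `d` among `a`, `b`, `a + b`
have slopes `b / a` at distance at least `d / (4 X ^ 2)`, and all slopes lie in `(1 / 2, 2)`.
-/

namespace Pool.Agent.Lib.AbcU

namespace RA2Aux

/-- The distribution of the primes of `d` among `a`, `b`, `a + b`. -/
def label (d : ℕ) (t : ℕ × ℕ) : {p // p ∈ d.primeFactors} → Fin 3 :=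
  fun p => if p.1 ∣ t.1 then 0 else if p.1 ∣ t.2 then 1 else 2

theorem mem_TS {Q X : ℕ} {t : ℕ × ℕ} (h : t ∈ TS Q X) :
    X < t.1 ∧ t.1 ≤ 2 * X ∧ X < t.2 ∧ t.2 ≤ 2 * X ∧ t.1 % Q = 1 ∧ t.2 % Q = 1 ∧
      Squarefree (nT t) := by
  simp only [TS, Finset.mem_filter, Finset.mem_product, Finset.mem_Ioc] at h
  obtain ⟨⟨⟨h1, h2⟩, h3, h4⟩, h5, h6, h7⟩ := h
  exact ⟨h1, h2, h3, h4, h5, h6, h7⟩

theorem two_dvd_add {Q X : ℕ} {t : ℕ × ℕ} (hQ : 4 ∣ Q) (h : t ∈ TS Q X) :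
    2 * ((t.1 + t.2) / 2) = t.1 + t.2 := by
  obtain ⟨-, -, -, -, h5, h6, -⟩ := mem_TS h
  have h1 : t.1 % 4 = 1 := by
    rw [← Nat.mod_mod_of_dvd _ hQ, h5]
  have h2 : t.2 % 4 = 1 := by
    rw [← Nat.mod_mod_of_dvd _ hQ, h6]
  omega

theorem coprime_of_mem {Q X : ℕ} {t : ℕ × ℕ} (h : t ∈ TS Q X) : Nat.Coprime t.1 t.2 := by
  obtain ⟨-, -, -, -, -, -, h7⟩ := mem_TS h
  have h1 : Squarefree (t.1 * t.2) := h7.squarefree_of_dvd ⟨_, rfl⟩
  exact Nat.coprime_of_squarefree_mul h1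

theorem dvd_of_label {Q X d : ℕ} (hQ : 4 ∣ Q) (hd : Squarefree d) {t t' : ℕ × ℕ}
    (h : t ∈ TS Q X) (h' : t' ∈ TS Q X) (hn : d ∣ nT t) (hn' : d ∣ nT t')
    (hl : label d t = label d t') :
    (d : ℤ) ∣ (t.1 : ℤ) * t'.2 - (t'.1 : ℤ) * t.2 := by
  have key : ∀ p ∈ d.primeFactors, p ∣ ((t.1 : ℤ) * t'.2 - (t'.1 : ℤ) * t.2).natAbs := by
    intro p hp
    have hpp := Nat.prime_of_mem_primeFactors hp
    have hpd := Nat.dvd_of_mem_primeFactors hp
    have hlp := congrFun hl ⟨p, hp⟩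
    simp only [label] at hlp
    rw [← Int.natCast_dvd]
    have hz : ∀ s : ℕ × ℕ, s ∈ TS Q X → d ∣ nT s → ¬ p ∣ s.1 → ¬ p ∣ s.2 →
        (p : ℤ) ∣ (s.1 : ℤ) + s.2 := by
      intro s hs hns h1 h2
      have h3 : p ∣ nT s := hpd.trans hns
      unfold nT at h3
      rcases (hpp.dvd_mul).1 h3 with h4 | h4
      · rcases (hpp.dvd_mul).1 h4 with h5 | h5
        · exact absurd h5 h1
        · exact absurd h5 h2
      · have h5 : p ∣ s.1 + s.2 := by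
          rw [← two_dvd_add hQ hs]
          exact h4.mul_left 2
        exact_mod_cast h5
    by_cases h1 : p ∣ t.1
    · by_cases h1' : p ∣ t'.1
      · have e1 : (p : ℤ) ∣ (t.1 : ℤ) := by exact_mod_cast h1
        have e2 : (p : ℤ) ∣ (t'.1 : ℤ) := by exact_mod_cast h1'
        exact dvd_sub (e1.mul_right _) (e2.mul_right _)
      · rw [if_pos h1, if_neg h1'] at hlp
        split_ifs at hlp <;> simp at hlp
    · by_cases h1' : p ∣ t'.1
      · rw [if_neg h1, if_pos h1'] at hlp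
        split_ifs at hlp <;> simp at hlp
      · rw [if_neg h1, if_neg h1'] at hlp
        by_cases h2 : p ∣ t.2
        · by_cases h2' : p ∣ t'.2
          · have e1 : (p : ℤ) ∣ (t.2 : ℤ) := by exact_mod_cast h2
            have e2 : (p : ℤ) ∣ (t'.2 : ℤ) := by exact_mod_cast h2'
            exact dvd_sub (e2.mul_left _) (e1.mul_left _)
          · rw [if_pos h2, if_neg h2'] at hlp
            simp at hlp
        · by_cases h2' : p ∣ t'.2
          · rw [if_neg h2, if_pos h2'] at hlp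
            simp at hlp
          · have e1 := hz t h hn h1 h2
            have e2 := hz t' h' hn' h1' h2'
            have e3 : (t.1 : ℤ) * t'.2 - (t'.1 : ℤ) * t.2 =
                (t.1 : ℤ) * ((t'.1 : ℤ) + t'.2) - (t'.1 : ℤ) * ((t.1 : ℤ) + t.2) := by ring
            rw [e3]
            exact dvd_sub (e2.mul_left _) (e1.mul_left _)
  rw [Int.natCast_dvd, ← Nat.prod_primeFactors_of_squarefree hd]
  exact Finset.prod_primes_dvd _ (fun p hp => (Nat.prime_of_mem_primeFactors hp).prime) key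

theorem eq_of_cross {t t' : ℕ × ℕ} (h : Nat.Coprime t.1 t.2) (h' : Nat.Coprime t'.1 t'.2)
    (hp : 0 < t.1) (he : (t.1 : ℤ) * t'.2 - (t'.1 : ℤ) * t.2 = 0) : t = t' := by
  have e : t.1 * t'.2 = t'.1 * t.2 := by
    have : (t.1 : ℤ) * t'.2 = (t'.1 : ℤ) * t.2 := by linarith
    exact_mod_cast this
  have h1 : t.1 ∣ t'.1 := by
    have : t.1 ∣ t'.1 * t.2 := ⟨_, e.symm⟩
    exact h.dvd_of_dvd_mul_right this
  have h2 : t'.1 ∣ t.1 := by
    have : t'.1 ∣ t.1 * t'.2 := ⟨_, e⟩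
    exact h'.dvd_of_dvd_mul_right this
  have h3 : t.1 = t'.1 := Nat.dvd_antisymm h1 h2
  have h4 : t.2 = t'.2 := by
    rw [← h3] at e
    exact (Nat.eq_of_mul_eq_mul_left hp e).symm
  exact Prod.ext h3 h4

/-- The members with a given label. -/
theorem fibre {Q X d : ℕ} (hQ : 4 ∣ Q) (hd : Squarefree d)
    (L : {p // p ∈ d.primeFactors} → Fin 3) :
    (((TS Q X).filter (fun t => d ∣ nT t)).filter (fun t => label d t = L)).card ≤
      ⌊8 * (X : ℝ) ^ 2 / d⌋₊ + 1 := by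
  have hd0 : 0 < d := Nat.pos_of_ne_zero hd.ne_zero
  have hdR : (0 : ℝ) < d := by exact_mod_cast hd0
  set f : ℕ × ℕ → ℕ := fun t => ⌊((t.2 : ℝ) / t.1) * (4 * (X : ℝ) ^ 2 / d)⌋₊ with hf
  rw [← Finset.card_range (⌊8 * (X : ℝ) ^ 2 / d⌋₊ + 1)]
  apply Finset.card_le_card_of_injOn f
  · intro t ht
    rw [Finset.mem_coe, Finset.mem_filter, Finset.mem_filter] at ht
    obtain ⟨⟨ht, -⟩, -⟩ := ht
    obtain ⟨h1, h2, h3, h4, -⟩ := mem_TS ht
    rw [Finset.mem_coe, Finset.mem_range, Nat.lt_succ_iff]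
    apply Nat.floor_le_floor
    have h1' : (X : ℝ) < t.1 := by exact_mod_cast h1
    have h4' : (t.2 : ℝ) ≤ 2 * X := by exact_mod_cast h4
    have h0 : (0 : ℝ) ≤ X := Nat.cast_nonneg X
    have hr : (t.2 : ℝ) / t.1 ≤ 2 := by
      rw [div_le_iff₀ (lt_of_le_of_lt h0 h1')]
      linarith
    have h5 : (0 : ℝ) ≤ 4 * (X : ℝ) ^ 2 / d := by positivity
    calc ((t.2 : ℝ) / t.1) * (4 * (X : ℝ) ^ 2 / d) ≤ 2 * (4 * (X : ℝ) ^ 2 / d) :=
          mul_le_mul_of_nonneg_right hr h5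
      _ = 8 * (X : ℝ) ^ 2 / d := by ring
  · intro t ht t' ht' hft
    rw [Finset.mem_coe, Finset.mem_filter, Finset.mem_filter] at ht ht'
    obtain ⟨⟨ht, hdt⟩, hL⟩ := ht
    obtain ⟨⟨ht', hdt'⟩, hL'⟩ := ht'
    obtain ⟨h1, h2, h3, h4, -⟩ := mem_TS ht
    obtain ⟨h1', h2', h3', h4', -⟩ := mem_TS ht'
    by_contra hne
    have hdvd := dvd_of_label hQ hd ht ht' hdt hdt' (hL.trans hL'.symm)
    have hne0 : (t.1 : ℤ) * t'.2 - (t'.1 : ℤ) * t.2 ≠ 0 := fun h0 =>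
      hne (eq_of_cross (coprime_of_mem ht) (coprime_of_mem ht') (by omega) h0)
    have habs : (d : ℤ) ≤ |(t.1 : ℤ) * t'.2 - (t'.1 : ℤ) * t.2| :=
      Int.le_of_dvd (abs_pos.2 hne0) ((dvd_abs _ _).2 hdvd)
    have habsR : (d : ℝ) ≤ |(t.1 : ℝ) * t'.2 - (t'.1 : ℝ) * t.2| := by exact_mod_cast habs
    have ha : (0 : ℝ) < t.1 := by exact_mod_cast (by omega : 0 < t.1)
    have ha' : (0 : ℝ) < t'.1 := by exact_mod_cast (by omega : 0 < t'.1)
    have hX0 : (0 : ℝ) < X := by exact_mod_cast (by omega : 0 < X)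
    have hA : (t.1 : ℝ) ≤ 2 * X := by exact_mod_cast h2
    have hA' : (t'.1 : ℝ) ≤ 2 * X := by exact_mod_cast h2'
    have hprod : (t.1 : ℝ) * t'.1 ≤ 4 * (X : ℝ) ^ 2 := by nlinarith
    have hdist : 1 ≤ |((t'.2 : ℝ) / t'.1) * (4 * (X : ℝ) ^ 2 / d) -
        ((t.2 : ℝ) / t.1) * (4 * (X : ℝ) ^ 2 / d)| := by
      have e : ((t'.2 : ℝ) / t'.1) * (4 * (X : ℝ) ^ 2 / d) -
          ((t.2 : ℝ) / t.1) * (4 * (X : ℝ) ^ 2 / d) =
          ((t.1 : ℝ) * t'.2 - (t'.1 : ℝ) * t.2) * ((4 * (X : ℝ) ^ 2) / (d * (t.1 * t'.1))) := by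
        field_simp
      have hpos : (0 : ℝ) < (4 * (X : ℝ) ^ 2) / (d * (t.1 * t'.1)) := by positivity
      rw [e, abs_mul, abs_of_pos hpos]
      calc (1 : ℝ) ≤ d * ((4 * (X : ℝ) ^ 2) / (d * (t.1 * t'.1))) := by
            rw [mul_div_assoc', le_div_iff₀ (by positivity), one_mul]
            exact mul_le_mul_of_nonneg_left hprod hdR.le
        _ ≤ _ := mul_le_mul_of_nonneg_right habsR hpos.le
    have hx : (0 : ℝ) ≤ ((t.2 : ℝ) / t.1) * (4 * (X : ℝ) ^ 2 / d) := by positivity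
    have hx' : (0 : ℝ) ≤ ((t'.2 : ℝ) / t'.1) * (4 * (X : ℝ) ^ 2 / d) := by positivity
    simp only [hf] at hft
    have f1 := Nat.floor_le hx
    have f2 := Nat.lt_floor_add_one (((t.2 : ℝ) / t.1) * (4 * (X : ℝ) ^ 2 / d))
    have f3 := Nat.floor_le hx'
    have f4 := Nat.lt_floor_add_one (((t'.2 : ℝ) / t'.1) * (4 * (X : ℝ) ^ 2 / d))
    rw [hft] at f1 f2
    rcases le_abs.1 hdist with h | h <;> linarith

end RA2Aux

open RA2Aux

/-- The count with a large divisor. -/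
theorem count_large {Q X d : ℕ} (hQ : 4 ∣ Q) (hd : Squarefree d) (hX : 1 ≤ X) :
    (((TS Q X).filter (fun t => d ∣ nT t)).card : ℝ) ≤
      3 ^ d.primeFactors.card * (8 * (X : ℝ) ^ 2 / d + 1) := by
  classical
  have h1 := Finset.card_le_mul_card_image_of_maps_to
    (s := (TS Q X).filter (fun t => d ∣ nT t))
    (t := (Finset.univ : Finset ({p // p ∈ d.primeFactors} → Fin 3))) (f := label d)
    (fun t _ => Finset.mem_univ _) (⌊8 * (X : ℝ) ^ 2 / d⌋₊ + 1) (fun L _ => fibre hQ hd L)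
  rw [Finset.card_univ, Fintype.card_fun, Fintype.card_fin, Fintype.card_coe] at h1
  have h2 : (((TS Q X).filter (fun t => d ∣ nT t)).card : ℝ) ≤
      ((⌊8 * (X : ℝ) ^ 2 / d⌋₊ : ℝ) + 1) * 3 ^ d.primeFactors.card := by
    exact_mod_cast h1
  have h3 : (⌊8 * (X : ℝ) ^ 2 / d⌋₊ : ℝ) ≤ 8 * (X : ℝ) ^ 2 / d := Nat.floor_le (by positivity)
  calc _ ≤ _ := h2
    _ ≤ (8 * (X : ℝ) ^ 2 / d + 1) * 3 ^ d.primeFactors.card := by gcongr
    _ = _ := by ring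

end Pool.Agent.Lib.AbcU
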