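import Mathlib

/-!
# The triples of the second moment argument
-/

namespace Pool.Agent.Lib.AbcU

/-- Half of the product `a b (a + b)`. -/
def nT (t : ℕ × ℕ) : ℕ := t.1 * t.2 * ((t.1 + t.2) / 2)

/-- The pairs `(a, b)` in `(X, 2 X]`, both `1` modulo `Q`, with `a b (a + b) / 2` squarefree. -/
def TS (Q X : ℕ) : Finset (ℕ × ℕ) :=
  ((Finset.Ioc X (2 * X)) ×ˢ (Finset.Ioc X (2 * X))).filter
    (fun t => t.1 % Q = 1 ∧ t.2 % Q = 1 ∧ Squarefree (nT t))

end Pool.Agent.Lib.AbcU
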