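import Mathlib
import Pool.Agent.Lib.AbcU.RDefs

/-!
# Many pairs `(a, b)` in `(X, 2 X]` in the class `1` modulo `Q` with `a b (a + b) / 2` squarefree
-/

open Finset

namespace Pool.Agent.Lib.AbcU.RB

theorem card_mod (X m v : ℕ) (hm : 0 < m) :
    (X : ℝ) / m - 1 ≤ ((Ioc X (2 * X)).filter (fun n => n ≡ v [MOD m])).card ∧
      (((Ioc X (2 * X)).filter (fun n => n ≡ v [MOD m])).card : ℝ) ≤ (X : ℝ) / m + 1 := by
  have h := Nat.Ioc_filter_modEq_card X (2 * X) hm v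
  set c := ((Ioc X (2 * X)).filter (fun n => n ≡ v [MOD m])).card with hc
  set p : ℚ := ((2 * X : ℕ) - (v : ℚ)) / m with hp
  set q : ℚ := ((X : ℕ) - (v : ℚ)) / m with hq
  have hmq : (0 : ℚ) < m := by exact_mod_cast hm
  have hpq : p - q = (X : ℚ) / m := by
    rw [hp, hq, ← sub_div]
    push_cast
    congr 1
    ring
  have hX : (0 : ℚ) ≤ (X : ℚ) / m := by positivity
  have h1 : (⌊p⌋ : ℚ) ≤ p := Int.floor_le p
  have h2 : p < ⌊p⌋ + 1 := Int.lt_floor_add_one p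
  have h3 : (⌊q⌋ : ℚ) ≤ q := Int.floor_le q
  have h4 : q < ⌊q⌋ + 1 := Int.lt_floor_add_one q
  have h5 : ⌊q⌋ ≤ ⌊p⌋ := Int.floor_le_floor (by linarith)
  have h6 : (c : ℤ) = ⌊p⌋ - ⌊q⌋ := by
    rw [h, max_eq_left]
    omega
  have h7 : (c : ℚ) = ⌊p⌋ - ⌊q⌋ := by exact_mod_cast h6
  have h8 : (X : ℚ) / m - 1 ≤ c := by rw [h7]; linarith
  have h9 : (c : ℚ) ≤ (X : ℚ) / m + 1 := by rw [h7]; linarith
  constructor
  · have : (((X : ℚ) / m - 1 : ℚ) : ℝ) ≤ ((c : ℚ) : ℝ) := by exact_mod_cast h8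
    push_cast at this
    exact this
  · have : ((c : ℚ) : ℝ) ≤ (((X : ℚ) / m + 1 : ℚ) : ℝ) := by exact_mod_cast h9
    push_cast at this
    exact this

theorem card_class {X m : ℕ} (hm : 0 < m) (S : Finset ℕ) (hS : S ⊆ Ioc X (2 * X))
    (h : ∀ a ∈ S, ∀ b ∈ S, a ≡ b [MOD m]) : (S.card : ℝ) ≤ (X : ℝ) / m + 1 := by
  rcases S.eq_empty_or_nonempty with h0 | ⟨v, hv⟩
  · rw [h0]
    simp only [card_empty, Nat.cast_zero]
    positivity
  · refine le_trans ?_ (card_mod X m v hm).2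
    have : S ⊆ (Ioc X (2 * X)).filter (fun n => n ≡ v [MOD m]) := by
      intro a ha
      exact mem_filter.mpr ⟨hS ha, h a ha v hv⟩
    exact_mod_cast card_le_card this

/-- The class `1` modulo `Q`. -/
def AA (Q X : ℕ) : Finset ℕ := (Ioc X (2 * X)).filter (fun n => n % Q = 1)

theorem AA_eq {Q : ℕ} (hQ : 1 < Q) (X : ℕ) :
    AA Q X = (Ioc X (2 * X)).filter (fun n => n ≡ 1 [MOD Q]) := by
  unfold AA
  refine filter_congr fun n _ => ?_
  unfold Nat.ModEq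
  rw [Nat.mod_eq_of_lt hQ]

theorem card_AA {Q : ℕ} (hQ : 1 < Q) (X : ℕ) :
    (X : ℝ) / Q - 1 ≤ (AA Q X).card ∧ ((AA Q X).card : ℝ) ≤ (X : ℝ) / Q + 1 := by
  rw [AA_eq hQ]
  exact card_mod X Q 1 (by omega)

theorem modEq_of_mem {Q X a b : ℕ} (ha : a ∈ AA Q X) (hb : b ∈ AA Q X) : a ≡ b [MOD Q] := by
  unfold AA at ha hb
  rw [mem_filter] at ha hb
  unfold Nat.ModEq
  rw [ha.2, hb.2]

/-- The pairs with `m ∣ a`, `m ∣ b`, `m ∣ a + b`. -/
def B1 (Q X m : ℕ) : Finset (ℕ × ℕ) := ((AA Q X).filter (fun n => m ∣ n)) ×ˢ (AA Q X)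
def B2 (Q X m : ℕ) : Finset (ℕ × ℕ) := (AA Q X) ×ˢ ((AA Q X).filter (fun n => m ∣ n))
def B3 (Q X m : ℕ) : Finset (ℕ × ℕ) := ((AA Q X) ×ˢ (AA Q X)).filter (fun t => m ∣ t.1 + t.2)
def B4 (Q X m : ℕ) : Finset (ℕ × ℕ) :=
  ((AA Q X).filter (fun n => m ∣ n)) ×ˢ ((AA Q X).filter (fun n => m ∣ n))

theorem card_dvd {Q X m : ℕ} (hQ : 0 < Q) (hm : 0 < m) (hc : Q.Coprime m) :
    (((AA Q X).filter (fun n => m ∣ n)).card : ℝ) ≤ (X : ℝ) / (Q * m) + 1 := by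
  have h := card_class (X := X) (m := Q * m) (Nat.mul_pos hQ hm) ((AA Q X).filter (fun n => m ∣ n))
    ((filter_subset _ _).trans (filter_subset _ _)) (by
      intro a ha b hb
      rw [mem_filter] at ha hb
      rw [← Nat.modEq_and_modEq_iff_modEq_mul hc]
      refine ⟨modEq_of_mem ha.1 hb.1, ?_⟩
      exact (Nat.modEq_zero_iff_dvd.mpr ha.2).trans (Nat.modEq_zero_iff_dvd.mpr hb.2).symm)
  push_cast at h
  exact h

theorem card_B1 {Q X m : ℕ} (hQ : 1 < Q) (hm : 0 < m) (hc : Q.Coprime m) :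
    ((B1 Q X m).card : ℝ) ≤ ((X : ℝ) / (Q * m) + 1) * ((X : ℝ) / Q + 1) := by
  unfold B1
  rw [card_product]
  push_cast
  exact mul_le_mul (card_dvd (by omega) hm hc) (card_AA hQ X).2 (by positivity) (by positivity)

theorem card_B2 {Q X m : ℕ} (hQ : 1 < Q) (hm : 0 < m) (hc : Q.Coprime m) :
    ((B2 Q X m).card : ℝ) ≤ ((X : ℝ) / (Q * m) + 1) * ((X : ℝ) / Q + 1) := by
  unfold B2
  rw [card_product, mul_comm]
  push_cast
  exact mul_le_mul (card_dvd (by omega) hm hc) (card_AA hQ X).2 (by positivity) (by positivity)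

theorem card_B3 {Q X m : ℕ} (hQ : 1 < Q) (hm : 0 < m) (hc : Q.Coprime m) :
    ((B3 Q X m).card : ℝ) ≤ ((X : ℝ) / (Q * m) + 1) * ((X : ℝ) / Q + 1) := by
  have h1 : (B3 Q X m).card ≤ ∑ a ∈ AA Q X, ((AA Q X).filter (fun b => m ∣ a + b)).card := by
    have h2 : B3 Q X m ⊆ (AA Q X).biUnion (fun a =>
        ((AA Q X).filter (fun b => m ∣ a + b)).image (fun b => (a, b))) := by
      rintro ⟨a, b⟩ ht
      unfold B3 at ht
      rw [mem_filter, mem_product] at ht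
      rw [mem_biUnion]
      refine ⟨a, ht.1.1, mem_image.mpr ⟨b, mem_filter.mpr ⟨ht.1.2, ht.2⟩, rfl⟩⟩
    refine (card_le_card h2).trans (card_biUnion_le.trans ?_)
    exact sum_le_sum fun a _ => card_image_le
  have h3 : ∀ a ∈ AA Q X, (((AA Q X).filter (fun b => m ∣ a + b)).card : ℝ) ≤
      (X : ℝ) / (Q * m) + 1 := by
    intro a _
    have h := card_class (X := X) (m := Q * m) (Nat.mul_pos (by omega) hm)
      ((AA Q X).filter (fun b => m ∣ a + b))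
      ((filter_subset _ _).trans (filter_subset _ _)) (by
        intro b hb b' hb'
        rw [mem_filter] at hb hb'
        rw [← Nat.modEq_and_modEq_iff_modEq_mul hc]
        refine ⟨modEq_of_mem hb.1 hb'.1, ?_⟩
        have h4 : a + b ≡ a + b' [MOD m] :=
          (Nat.modEq_zero_iff_dvd.mpr hb.2).trans (Nat.modEq_zero_iff_dvd.mpr hb'.2).symm
        exact Nat.ModEq.add_left_cancel' a h4)
    push_cast at h
    exact h
  calc ((B3 Q X m).card : ℝ) ≤ ∑ a ∈ AA Q X, (((AA Q X).filter (fun b => m ∣ a + b)).card : ℝ) := by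
        exact_mod_cast h1
    _ ≤ ∑ a ∈ AA Q X, ((X : ℝ) / (Q * m) + 1) := sum_le_sum h3
    _ = (AA Q X).card * ((X : ℝ) / (Q * m) + 1) := by rw [sum_const, nsmul_eq_mul]
    _ ≤ ((X : ℝ) / Q + 1) * ((X : ℝ) / (Q * m) + 1) :=
        mul_le_mul_of_nonneg_right (card_AA hQ X).2 (by positivity)
    _ = _ := by ring

theorem card_B4 {Q X m : ℕ} (hQ : 1 < Q) (hm : 0 < m) (hc : Q.Coprime m) :
    ((B4 Q X m).card : ℝ) ≤ 2 * (X : ℝ) ^ 2 / (Q : ℝ) ^ 2 * ((m : ℝ) ^ 2)⁻¹ + 2 := by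
  unfold B4
  rw [card_product]
  push_cast
  have h1 := card_dvd (X := X) (by omega) hm hc
  have hmr : (0 : ℝ) < m := by exact_mod_cast hm
  have hQr : (0 : ℝ) < Q := by exact_mod_cast (by omega : 0 < Q)
  calc (((AA Q X).filter (fun n => m ∣ n)).card : ℝ) * ((AA Q X).filter (fun n => m ∣ n)).card
      ≤ ((X : ℝ) / (Q * m) + 1) * ((X : ℝ) / (Q * m) + 1) :=
        mul_le_mul h1 h1 (by positivity) (by positivity)
    _ ≤ 2 * ((X : ℝ) / (Q * m)) ^ 2 + 2 := by nlinarith [sq_nonneg ((X : ℝ) / (Q * m) - 1)]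
    _ = _ := by
        congr 1
        rw [div_pow, mul_pow]
        field_simp

theorem sum_inv_sq_le {z N : ℕ} (hz : 0 < z) :
    ∑ i ∈ Ioc z N, ((i : ℝ) ^ 2)⁻¹ ≤ (z : ℝ)⁻¹ := by
  rcases le_or_gt z N with h | h
  · refine (sum_Ioc_inv_sq_le_sub hz.ne' h).trans ?_
    have : (0 : ℝ) ≤ (N : ℝ)⁻¹ := by positivity
    linarith
  · rw [Ioc_eq_empty (by omega), sum_empty]
    positivity

/-- The primes of `Q` do not divide `nT t`. -/
theorem not_dvd_of_dvd_Q {Q X : ℕ} (hQ4 : 4 ∣ Q) {a b p : ℕ} (ha : a ∈ AA Q X)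
    (hb : b ∈ AA Q X) (hp : p.Prime) (hpn : p ∣ nT (a, b)) : Q.Coprime p := by
  rw [Nat.coprime_comm, hp.coprime_iff_not_dvd]
  intro hpQ
  unfold AA at ha hb
  rw [mem_filter] at ha hb
  have hma : ∀ {x : ℕ}, x % Q = 1 → ∀ {m : ℕ}, m ∣ Q → x % m = 1 % m := by
    intro x hx m hm
    rw [← Nat.mod_mod_of_dvd x hm, hx]
  have ha4 : a % 4 = 1 := hma ha.2 hQ4
  have hb4 : b % 4 = 1 := hma hb.2 hQ4
  have hap : a % p = 1 := by rw [hma ha.2 hpQ, Nat.mod_eq_of_lt hp.one_lt]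
  have hbp : b % p = 1 := by rw [hma hb.2 hpQ, Nat.mod_eq_of_lt hp.one_lt]
  have hc : (a + b) = 2 * ((a + b) / 2) := by omega
  have hcodd : ((a + b) / 2) % 2 = 1 := by omega
  unfold nT at hpn
  rcases hp.dvd_mul.mp hpn with h1 | h1
  · rcases hp.dvd_mul.mp h1 with h2 | h2
    · exact absurd (Nat.mod_eq_zero_of_dvd h2) (by show ¬ a % p = 0; omega)
    · exact absurd (Nat.mod_eq_zero_of_dvd h2) (by show ¬ b % p = 0; omega)
  · have h3 : p ∣ a + b := by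
      rw [hc]; exact h1.trans (dvd_mul_left _ _)
    have h4 : (a + b) % p = 2 % p := by
      rw [Nat.add_mod, hap, hbp]
    rw [Nat.mod_eq_zero_of_dvd h3] at h4
    have h5 : p ∣ 2 := Nat.dvd_of_mod_eq_zero h4.symm
    have h6 : p = 2 := (Nat.prime_dvd_prime_iff_eq hp Nat.prime_two).mp h5
    rw [h6] at h1
    have h7 : ((a + b) / 2) % 2 = 0 := Nat.mod_eq_zero_of_dvd h1
    omega

/-- The four ways in which `nT t` can fail to be squarefree. -/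
theorem bad_cases {Q X z : ℕ} (hQ4 : 4 ∣ Q)
    (hz : ∀ p : ℕ, p.Prime → p ≠ 2 → p ≤ z → p ∣ Q) {a b : ℕ} (ha : a ∈ AA Q X)
    (hb : b ∈ AA Q X) (hn : ¬ Squarefree (nT (a, b))) :
    (∃ p ∈ (Ioc z (Nat.sqrt (4 * X))).filter (fun p => Q.Coprime p),
      (a, b) ∈ B1 Q X (p ^ 2) ∪ B2 Q X (p ^ 2) ∪ B3 Q X (p ^ 2)) ∨
    (∃ p ∈ (Ioc z (2 * X)).filter (fun p => Q.Coprime p), (a, b) ∈ B4 Q X p) := by
  have ha' := ha
  have hb' := hb
  unfold AA at ha' hb'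
  rw [mem_filter, mem_Ioc] at ha' hb'
  rw [Nat.squarefree_iff_prime_squarefree] at hn
  push Not at hn
  obtain ⟨p, hp, hpp⟩ := hn
  have hpn : p ∣ nT (a, b) := (dvd_mul_right p p).trans hpp
  have hco : Q.Coprime p := not_dvd_of_dvd_Q hQ4 ha hb hp hpn
  have hp2 : p ≠ 2 := by
    rintro rfl
    have h2Q : 2 ∣ Q := dvd_trans (by norm_num) hQ4
    rw [Nat.coprime_comm, Nat.prime_two.coprime_iff_not_dvd] at hco
    exact hco h2Q
  have hpz : z < p := by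
    by_contra hcon
    push Not at hcon
    have h1 := hz p hp hp2 hcon
    rw [Nat.coprime_comm, hp.coprime_iff_not_dvd] at hco
    exact hco h1
  have hma : ∀ {x : ℕ}, x % Q = 1 → x % 4 = 1 := by
    intro x hx
    rw [← Nat.mod_mod_of_dvd x hQ4, hx]
  have ha4 : a % 4 = 1 := hma ha'.2
  have hb4 : b % 4 = 1 := hma hb'.2
  have hc : (a + b) = 2 * ((a + b) / 2) := by omega
  have hppn : p * p ∣ a * b * ((a + b) / 2) := hpp
  have hsq : ∀ {x : ℕ}, 0 < x → x ≤ 4 * X → p ^ 2 ∣ x →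
      p ∈ (Ioc z (Nat.sqrt (4 * X))).filter (fun p => Q.Coprime p) := by
    intro x hx0 hx hd
    rw [mem_filter, mem_Ioc]
    refine ⟨⟨hpz, ?_⟩, hco⟩
    rw [Nat.le_sqrt']
    exact (Nat.le_of_dvd hx0 hd).trans hx
  have hdc : p ∣ (a + b) / 2 → p ∣ a + b := by
    intro h
    rw [hc]
    exact h.trans (dvd_mul_left _ _)
  by_cases hpa : p ∣ a
  · by_cases hpb : p ∣ b
    · right
      refine ⟨p, ?_, ?_⟩
      · rw [mem_filter, mem_Ioc]
        exact ⟨⟨hpz, (Nat.le_of_dvd (by omega) hpa).trans ha'.1.2⟩, hco⟩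
      · unfold B4
        rw [mem_product, mem_filter, mem_filter]
        exact ⟨⟨ha, hpa⟩, ⟨hb, hpb⟩⟩
    · left
      have hpc : ¬ p ∣ (a + b) / 2 := by
        intro h
        exact hpb ((Nat.dvd_add_right hpa).mp (hdc h))
      have hcop : (p * p).Coprime (b * ((a + b) / 2)) := by
        have h1 : p.Coprime (b * ((a + b) / 2)) := by
          rw [hp.coprime_iff_not_dvd, hp.dvd_mul]
          push Not
          exact ⟨hpb, hpc⟩
        exact Nat.Coprime.mul_left h1 h1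
      have h2 : p ^ 2 ∣ a := by
        rw [pow_two]
        rw [mul_assoc] at hppn
        exact hcop.dvd_of_dvd_mul_right hppn
      refine ⟨p, hsq (by omega) (by omega) h2, ?_⟩
      rw [mem_union, mem_union]
      left; left
      unfold B1
      rw [mem_product, mem_filter]
      exact ⟨⟨ha, h2⟩, hb⟩
  · left
    by_cases hpb : p ∣ b
    · have hpc : ¬ p ∣ (a + b) / 2 := by
        intro h
        exact hpa ((Nat.dvd_add_left hpb).mp (hdc h))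
      have hcop : (p * p).Coprime (a * ((a + b) / 2)) := by
        have h1 : p.Coprime (a * ((a + b) / 2)) := by
          rw [hp.coprime_iff_not_dvd, hp.dvd_mul]
          push Not
          exact ⟨hpa, hpc⟩
        exact Nat.Coprime.mul_left h1 h1
      have h2 : p ^ 2 ∣ b := by
        rw [pow_two]
        have h3 : a * b * ((a + b) / 2) = b * (a * ((a + b) / 2)) := by ring
        rw [h3] at hppn
        exact hcop.dvd_of_dvd_mul_right hppn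
      refine ⟨p, hsq (by omega) (by omega) h2, ?_⟩
      rw [mem_union, mem_union]
      left; right
      unfold B2
      rw [mem_product, mem_filter]
      exact ⟨ha, ⟨hb, h2⟩⟩
    · have hcop : (p * p).Coprime (a * b) := by
        have h1 : p.Coprime (a * b) := by
          rw [hp.coprime_iff_not_dvd, hp.dvd_mul]
          push Not
          exact ⟨hpa, hpb⟩
        exact Nat.Coprime.mul_left h1 h1
      have h2 : p ^ 2 ∣ a + b := by
        rw [pow_two, hc]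
        exact (hcop.dvd_of_dvd_mul_left hppn).trans (dvd_mul_left _ _)
      refine ⟨p, hsq (by omega) (by omega) h2, ?_⟩
      rw [mem_union, mem_union]
      right
      unfold B3
      rw [mem_filter, mem_product]
      exact ⟨⟨ha, hb⟩, h2⟩

theorem card_split {Q X z : ℕ} (hQ4 : 4 ∣ Q)
    (hz : ∀ p : ℕ, p.Prime → p ≠ 2 → p ≤ z → p ∣ Q) :
    (AA Q X).card ^ 2 ≤ (TS Q X).card +
      (∑ p ∈ (Ioc z (Nat.sqrt (4 * X))).filter (fun p => Q.Coprime p),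
        ((B1 Q X (p ^ 2)).card + (B2 Q X (p ^ 2)).card + (B3 Q X (p ^ 2)).card) +
      ∑ p ∈ (Ioc z (2 * X)).filter (fun p => Q.Coprime p), (B4 Q X p).card) := by
  classical
  have h1 : (AA Q X) ×ˢ (AA Q X) ⊆ (TS Q X) ∪
      (((Ioc z (Nat.sqrt (4 * X))).filter (fun p => Q.Coprime p)).biUnion (fun p =>
        B1 Q X (p ^ 2) ∪ B2 Q X (p ^ 2) ∪ B3 Q X (p ^ 2)) ∪
      ((Ioc z (2 * X)).filter (fun p => Q.Coprime p)).biUnion (fun p => B4 Q X p)) := by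
    rintro ⟨a, b⟩ ht
    rw [mem_product] at ht
    by_cases hs : Squarefree (nT (a, b))
    · rw [mem_union]
      left
      have h2 := ht.1
      have h3 := ht.2
      unfold AA at h2 h3
      rw [mem_filter] at h2 h3
      unfold TS
      rw [mem_filter, mem_product]
      exact ⟨⟨h2.1, h3.1⟩, h2.2, h3.2, hs⟩
    · rw [mem_union]
      right
      rw [mem_union, mem_biUnion, mem_biUnion]
      exact bad_cases hQ4 hz ht.1 ht.2 hs
  have h2 := card_le_card h1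
  rw [card_product, ← pow_two] at h2
  refine h2.trans ((card_union_le _ _).trans (Nat.add_le_add_left ?_ _))
  refine (card_union_le _ _).trans (Nat.add_le_add ?_ ?_)
  · refine card_biUnion_le.trans (sum_le_sum fun p _ => ?_)
    exact (card_union_le _ _).trans (Nat.add_le_add_right (card_union_le _ _) _)
  · exact card_biUnion_le

theorem sum_B123 {Q X z : ℕ} (hQ : 1 < Q) (hz : 0 < z) :
    ∑ p ∈ (Ioc z (Nat.sqrt (4 * X))).filter (fun p => Q.Coprime p),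
        (((B1 Q X (p ^ 2)).card : ℝ) + (B2 Q X (p ^ 2)).card + (B3 Q X (p ^ 2)).card) ≤
      3 * ((X : ℝ) / Q + 1) * ((X : ℝ) / Q * (z : ℝ)⁻¹ + Nat.sqrt (4 * X)) := by
  have hQr : (0 : ℝ) < Q := by exact_mod_cast (by omega : 0 < Q)
  calc ∑ p ∈ (Ioc z (Nat.sqrt (4 * X))).filter (fun p => Q.Coprime p),
        (((B1 Q X (p ^ 2)).card : ℝ) + (B2 Q X (p ^ 2)).card + (B3 Q X (p ^ 2)).card)
      ≤ ∑ p ∈ (Ioc z (Nat.sqrt (4 * X))).filter (fun p => Q.Coprime p),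
        3 * ((X : ℝ) / Q + 1) * ((X : ℝ) / Q * ((p : ℝ) ^ 2)⁻¹ + 1) := by
        refine sum_le_sum fun p hp => ?_
        rw [mem_filter, mem_Ioc] at hp
        have hp0 : 0 < p := by omega
        have hp20 : 0 < p ^ 2 := by positivity
        have hco : Q.Coprime (p ^ 2) := hp.2.pow_right 2
        have e : (X : ℝ) / (Q * (p ^ 2 : ℕ)) = (X : ℝ) / Q * ((p : ℝ) ^ 2)⁻¹ := by
          have hpr : (0 : ℝ) < p := by exact_mod_cast hp0
          push_cast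
          field_simp
        have h1 := card_B1 (X := X) hQ hp20 hco
        have h2 := card_B2 (X := X) hQ hp20 hco
        have h3 := card_B3 (X := X) hQ hp20 hco
        rw [e] at h1 h2 h3
        nlinarith
    _ ≤ ∑ p ∈ Ioc z (Nat.sqrt (4 * X)),
        3 * ((X : ℝ) / Q + 1) * ((X : ℝ) / Q * ((p : ℝ) ^ 2)⁻¹ + 1) := by
        refine sum_le_sum_of_subset_of_nonneg (filter_subset _ _) fun p _ _ => ?_
        positivity
    _ = 3 * ((X : ℝ) / Q + 1) * ((X : ℝ) / Q * ∑ p ∈ Ioc z (Nat.sqrt (4 * X)), ((p : ℝ) ^ 2)⁻¹ +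
          (Ioc z (Nat.sqrt (4 * X))).card) := by
        rw [← mul_sum, sum_add_distrib, ← mul_sum, sum_const, nsmul_eq_mul, mul_one]
    _ ≤ 3 * ((X : ℝ) / Q + 1) * ((X : ℝ) / Q * (z : ℝ)⁻¹ + Nat.sqrt (4 * X)) := by
        refine mul_le_mul_of_nonneg_left ?_ (by positivity)
        refine add_le_add (mul_le_mul_of_nonneg_left (sum_inv_sq_le hz) (by positivity)) ?_
        rw [Nat.card_Ioc]
        exact_mod_cast Nat.sub_le _ _

theorem sum_B4 {Q X z : ℕ} (hQ : 1 < Q) (hz : 0 < z) :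
    ∑ p ∈ (Ioc z (2 * X)).filter (fun p => Q.Coprime p), ((B4 Q X p).card : ℝ) ≤
      2 * (X : ℝ) ^ 2 / (Q : ℝ) ^ 2 * (z : ℝ)⁻¹ + 4 * X := by
  calc ∑ p ∈ (Ioc z (2 * X)).filter (fun p => Q.Coprime p), ((B4 Q X p).card : ℝ)
      ≤ ∑ p ∈ (Ioc z (2 * X)).filter (fun p => Q.Coprime p),
          (2 * (X : ℝ) ^ 2 / (Q : ℝ) ^ 2 * ((p : ℝ) ^ 2)⁻¹ + 2) := by
        refine sum_le_sum fun p hp => ?_
        rw [mem_filter, mem_Ioc] at hp
        exact card_B4 hQ (by omega) hp.2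
    _ ≤ ∑ p ∈ Ioc z (2 * X), (2 * (X : ℝ) ^ 2 / (Q : ℝ) ^ 2 * ((p : ℝ) ^ 2)⁻¹ + 2) := by
        refine sum_le_sum_of_subset_of_nonneg (filter_subset _ _) fun p _ _ => ?_
        positivity
    _ = 2 * (X : ℝ) ^ 2 / (Q : ℝ) ^ 2 * ∑ p ∈ Ioc z (2 * X), ((p : ℝ) ^ 2)⁻¹ +
          (Ioc z (2 * X)).card * 2 := by
        rw [sum_add_distrib, ← mul_sum, sum_const, nsmul_eq_mul]
    _ ≤ 2 * (X : ℝ) ^ 2 / (Q : ℝ) ^ 2 * (z : ℝ)⁻¹ + 4 * X := by
        refine add_le_add (mul_le_mul_of_nonneg_left (sum_inv_sq_le hz) (by positivity)) ?_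
        rw [Nat.card_Ioc]
        have h1 : ((2 * X - z : ℕ) : ℝ) ≤ 2 * X := by
          exact_mod_cast Nat.sub_le _ _
        linarith

end Pool.Agent.Lib.AbcU.RB

namespace Pool.Agent.Lib.AbcU

open RB

theorem TS_card : ∃ z₀ : ℕ, ∀ z ≥ z₀, ∀ Q : ℕ, 0 < Q → 4 ∣ Q →
    (∀ p : ℕ, p.Prime → p ≠ 2 → p ≤ z → p ∣ Q) →
    ∃ X₀ : ℕ, ∀ X ≥ X₀, (X : ℝ) ^ 2 / (4 * (Q : ℝ) ^ 2) ≤ ((TS Q X).card : ℝ) := by
  refine ⟨16, fun z hz Q hQ0 hQ4 hp => ⟨2500 * Q ^ 4, fun X hX => ?_⟩⟩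
  have hQ : 1 < Q := by
    have := Nat.le_of_dvd hQ0 hQ4
    omega
  have hz0 : 0 < z := by omega
  have h1 := card_split (X := X) hQ4 hp
  have h1' : ((AA Q X).card : ℝ) ^ 2 ≤ (TS Q X).card +
      (∑ p ∈ (Ioc z (Nat.sqrt (4 * X))).filter (fun p => Q.Coprime p),
        (((B1 Q X (p ^ 2)).card : ℝ) + (B2 Q X (p ^ 2)).card + (B3 Q X (p ^ 2)).card) +
      ∑ p ∈ (Ioc z (2 * X)).filter (fun p => Q.Coprime p), ((B4 Q X p).card : ℝ)) := by
    exact_mod_cast h1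
  have h2 := sum_B123 (X := X) hQ hz0
  have h3 := sum_B4 (X := X) hQ hz0
  have h4 := (card_AA hQ X).1
  set x : ℝ := (X : ℝ) / Q with hx
  have hQr : (0 : ℝ) < Q := by exact_mod_cast hQ0
  have hQ1 : (1 : ℝ) ≤ Q := by exact_mod_cast hQ0
  have hX1 : (2500 : ℝ) * (Q : ℝ) ^ 4 ≤ X := by exact_mod_cast hX
  have hX0 : (1 : ℝ) ≤ X := by
    have : (1 : ℝ) ≤ (Q : ℝ) ^ 4 := one_le_pow₀ hQ1
    linarith
  set s : ℝ := √(X : ℝ) with hs
  have hss : s ^ 2 = X := Real.sq_sqrt (by linarith)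
  have hs0 : 0 ≤ s := Real.sqrt_nonneg _
  have hsQ : 50 * (Q : ℝ) ^ 2 ≤ s := by
    apply Real.le_sqrt_of_sq_le
    calc (50 * (Q : ℝ) ^ 2) ^ 2 = 2500 * (Q : ℝ) ^ 4 := by ring
      _ ≤ (X : ℝ) := hX1
  have hs1 : 1 ≤ s := by
    have : (1 : ℝ) ≤ (Q : ℝ) ^ 2 := one_le_pow₀ hQ1
    linarith
  have hN : ((Nat.sqrt (4 * X) : ℕ) : ℝ) ≤ 2 * s := by
    have h5 : ((Nat.sqrt (4 * X) : ℕ) : ℝ) ≤ √((4 * X : ℕ) : ℝ) := Real.nat_sqrt_le_real_sqrt
    have h6 : √((4 * X : ℕ) : ℝ) = 2 * s := by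
      push_cast
      rw [hs, Real.sqrt_mul (by norm_num), show (4 : ℝ) = 2 ^ 2 by norm_num,
        Real.sqrt_sq (by norm_num)]
    rw [h6] at h5
    exact h5
  have hzinv : (z : ℝ)⁻¹ ≤ 1 / 16 := by
    rw [one_div]
    apply inv_anti₀ (by norm_num)
    exact_mod_cast hz
  have hzinv0 : (0 : ℝ) ≤ (z : ℝ)⁻¹ := by positivity
  have hx0 : 0 ≤ x := by positivity
  have hxX : x ≤ X := by
    rw [hx]
    exact div_le_self (by linarith) hQ1
  have hx1 : 1 ≤ x := by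
    rw [hx, le_div_iff₀ hQr]
    have : (Q : ℝ) ≤ (Q : ℝ) ^ 4 := by
      calc (Q : ℝ) = (Q : ℝ) ^ 1 := (pow_one _).symm
        _ ≤ (Q : ℝ) ^ 4 := pow_le_pow_right₀ hQ1 (by norm_num)
    linarith
  have e1 : 2 * (X : ℝ) ^ 2 / (Q : ℝ) ^ 2 = 2 * x ^ 2 := by
    rw [hx, div_pow]; ring
  have e2 : (X : ℝ) ^ 2 / (4 * (Q : ℝ) ^ 2) = x ^ 2 / 4 := by
    rw [hx, div_pow]; field_simp
  rw [e1] at h3
  rw [e2]
  have h5 : (x - 1) ^ 2 ≤ ((AA Q X).card : ℝ) ^ 2 := pow_le_pow_left₀ (by linarith) h4 2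
  have h6 : 3 * (x + 1) * (x * (z : ℝ)⁻¹ + Nat.sqrt (4 * X)) ≤
      3 * (x + 1) * (x * (1 / 16) + 2 * s) := by
    refine mul_le_mul_of_nonneg_left ?_ (by positivity)
    exact add_le_add (mul_le_mul_of_nonneg_left hzinv hx0) hN
  have h7 : 2 * x ^ 2 * (z : ℝ)⁻¹ ≤ 2 * x ^ 2 * (1 / 16) :=
    mul_le_mul_of_nonneg_left hzinv (by positivity)
  -- the main comparison
  have h8 : 21 * (s * X) ≤ (7 / 16) * x ^ 2 := by
    have h9 : x ^ 2 * (Q : ℝ) ^ 2 = s ^ 2 * X := by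
      rw [hss, hx, div_pow, div_mul_cancel₀ _ (by positivity), pow_two]
    have h10 : 21 * (s * X) * (Q : ℝ) ^ 2 ≤ (7 / 16) * x ^ 2 * (Q : ℝ) ^ 2 := by
      have h11 : (7 / 16) * x ^ 2 * (Q : ℝ) ^ 2 = (7 / 16) * (s * (s * X)) := by
        rw [mul_assoc, h9]; ring
      rw [h11]
      have h12 : 0 ≤ s * X := by positivity
      nlinarith
    exact le_of_mul_le_mul_right h10 (by positivity)
  have h9 : x * s ≤ s * X := by
    rw [mul_comm s]
    exact mul_le_mul_of_nonneg_right hxX hs0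
  have h10 : (X : ℝ) ≤ s * X := le_mul_of_one_le_left (by linarith) hs1
  have h11 : s ≤ s * X := le_mul_of_one_le_right hs0 hX0
  have k1 : 3 * (x + 1) * (x * (1 / 16) + 2 * s) =
      3 / 16 * x ^ 2 + 6 * (x * s) + 3 / 16 * x + 6 * s := by ring
  have k2 : (x - 1) ^ 2 = x ^ 2 - 2 * x + 1 := by ring
  rw [k1] at h6
  rw [k2] at h5
  clear h1 h4 hN hzinv hzinv0 hp hX1 hss
  linarith

end Pool.Agent.Lib.AbcU
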