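import Pool.Agent.Lib.AbcU.RB

/-!
# The triples `u + 2 ^ k w = c`

The pairs `(u, w)` in `(X, 2 X]` with `u = B + R`, `w = 1` modulo `2 R`, `gcd(u, w) = 1`, where `R` is odd and
`B = 2 ^ k`. The number `u w (u + B w)` is prime to `2 R`.
-/

open Finset

namespace Pool.Agent.Lib.AbcU

/-- The product `u w (u + B w)`. -/
def nU (B : ℕ) (t : ℕ × ℕ) : ℕ := t.1 * t.2 * (t.1 + B * t.2)

/-- The family. -/
def TU (R B X : ℕ) : Finset (ℕ × ℕ) :=
  ((Ioc X (2 * X)) ×ˢ (Ioc X (2 * X))).filter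
    (fun t => t.1 ≡ B + R [MOD 2 * R] ∧ t.2 ≡ 1 [MOD 2 * R] ∧ t.1.Coprime t.2)

theorem mem_TU {R B X : ℕ} {t : ℕ × ℕ} : t ∈ TU R B X ↔
    (X < t.1 ∧ t.1 ≤ 2 * X) ∧ (X < t.2 ∧ t.2 ≤ 2 * X) ∧ t.1 ≡ B + R [MOD 2 * R] ∧
      t.2 ≡ 1 [MOD 2 * R] ∧ t.1.Coprime t.2 := by
  simp only [TU, mem_filter, mem_product, mem_Ioc]
  tauto

theorem not_dvd_of_residue {R k : ℕ} (hR : Odd R) (hk : 1 ≤ k) {u w : ℕ}
    (hu : u ≡ 2 ^ k + R [MOD 2 * R]) (hw : w ≡ 1 [MOD 2 * R]) {p : ℕ} (hp : p.Prime)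
    (hpR : p ∣ 2 * R) : ¬ p ∣ u ∧ ¬ p ∣ w ∧ ¬ p ∣ u + 2 ^ k * w := by
  have hw' : w ≡ 1 [MOD p] := hw.of_dvd hpR
  have hu' : u ≡ 2 ^ k + R [MOD p] := hu.of_dvd hpR
  have hpw : ¬ p ∣ w := by
    intro h
    have h1 : 1 ≡ 0 [MOD p] := hw'.symm.trans (Nat.modEq_zero_iff_dvd.2 h)
    have h2 := Nat.modEq_zero_iff_dvd.1 h1
    exact hp.one_lt.ne' (Nat.dvd_one.1 h2)
  by_cases hp2 : p = 2
  · subst hp2
    have hB : 2 ^ k % 2 = 0 := by
      obtain ⟨j, rfl⟩ : ∃ j, k = j + 1 := ⟨k - 1, by omega⟩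
      rw [pow_succ]
      omega
    have hR2 : R % 2 = 1 := Nat.odd_iff.1 hR
    have hu2 : u % 2 = 1 := by
      have h1 : u % 2 = (2 ^ k + R) % 2 := hu'
      rw [h1, Nat.add_mod, hB, hR2]
    have hs2 : (u + 2 ^ k * w) % 2 = 1 := by
      rw [Nat.add_mod, Nat.mul_mod, hB, hu2]
      simp
    refine ⟨?_, hpw, ?_⟩
    · intro h
      omega
    · intro h
      omega
  · have hpR' : p ∣ R := by
      rcases (hp.dvd_mul).1 hpR with h | h
      · exact absurd ((Nat.prime_dvd_prime_iff_eq hp Nat.prime_two).1 h) hp2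
      · exact h
    have hR0 : R ≡ 0 [MOD p] := Nat.modEq_zero_iff_dvd.2 hpR'
    have hu1 : u ≡ 2 ^ k [MOD p] := by
      have h1 : 2 ^ k + R ≡ 2 ^ k + 0 [MOD p] := Nat.ModEq.add_left _ hR0
      rw [add_zero] at h1
      exact hu'.trans h1
    have hpow : ∀ j, ¬ p ∣ 2 ^ j := by
      intro j h
      exact hp2 ((Nat.prime_dvd_prime_iff_eq hp Nat.prime_two).1 (hp.dvd_of_dvd_pow h))
    refine ⟨?_, hpw, ?_⟩
    · intro h
      exact hpow k (Nat.modEq_zero_iff_dvd.1 (hu1.symm.trans (Nat.modEq_zero_iff_dvd.2 h)))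
    · intro h
      have h1 : u + 2 ^ k * w ≡ 2 ^ k + 2 ^ k * 1 [MOD p] :=
        Nat.ModEq.add hu1 (Nat.ModEq.mul_left _ hw')
      have h2 : 2 ^ k + 2 ^ k * 1 = 2 ^ (k + 1) := by ring
      rw [h2] at h1
      exact hpow (k + 1) (Nat.modEq_zero_iff_dvd.1 (h1.symm.trans (Nat.modEq_zero_iff_dvd.2 h)))

theorem not_dvd_nU {R k X : ℕ} (hR : Odd R) (hk : 1 ≤ k) {t : ℕ × ℕ} (ht : t ∈ TU R (2 ^ k) X)
    {p : ℕ} (hp : p.Prime) (hpR : p ∣ 2 * R) : ¬ p ∣ nU (2 ^ k) t := by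
  rw [mem_TU] at ht
  obtain ⟨-, -, h1, h2, -⟩ := ht
  obtain ⟨g1, g2, g3⟩ := not_dvd_of_residue hR hk h1 h2 hp hpR
  intro h
  unfold nU at h
  rcases (hp.dvd_mul).1 h with h | h
  · rcases (hp.dvd_mul).1 h with h | h
    · exact g1 h
    · exact g2 h
  · exact g3 h

theorem coprime_of_dvd_nU {R k X d : ℕ} (hR : Odd R) (hk : 1 ≤ k) {t : ℕ × ℕ}
    (ht : t ∈ TU R (2 ^ k) X) (hd : d ∣ nU (2 ^ k) t) : Nat.Coprime (2 * R) d := by
  apply Nat.coprime_of_dvd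
  intro p hp hpR hpd
  exact not_dvd_nU hR hk ht hp hpR (hpd.trans hd)

/-- The pairs with a fixed factorisation of `d`. -/
def BU (R B X x y z : ℕ) : Finset (ℕ × ℕ) :=
  ((Ioc X (2 * X)) ×ˢ (Ioc X (2 * X))).filter
    (fun t => t.1 ≡ B + R [MOD 2 * R] ∧ t.2 ≡ 1 [MOD 2 * R] ∧ x ∣ t.1 ∧ y ∣ t.2 ∧
      z ∣ t.1 + B * t.2)

theorem card_BU {R B X x y z : ℕ} (hR0 : 0 < R) (hx : 0 < x) (hy : 0 < y) (hz : 0 < z)
    (hQx : Nat.Coprime (2 * R) x) (hQy : Nat.Coprime (2 * R) y) (hQz : Nat.Coprime (2 * R) z)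
    (hBz : Nat.Coprime B z) (hyz : Nat.Coprime y z) (hX : 2 * R * (x * y * z) ≤ X) :
    ((BU R B X x y z).card : ℝ) ≤ 4 * (X : ℝ) ^ 2 / (((2 * R : ℕ) : ℝ) ^ 2 * (x * y * z)) := by
  classical
  obtain ⟨Q, hQ⟩ : ∃ Q, Q = 2 * R := ⟨_, rfl⟩
  unfold BU
  rw [← hQ] at hQx hQy hQz hX ⊢
  have hQ0 : 0 < Q := by omega
  set A := (Ioc X (2 * X)).filter (fun a => a ≡ B + R [MOD Q] ∧ x ∣ a) with hA
  set C : ℕ → Finset ℕ := fun a =>
    (Ioc X (2 * X)).filter (fun b => b ≡ 1 [MOD Q] ∧ y ∣ b ∧ z ∣ a + B * b) with hC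
  have hQ0' : (0 : ℝ) < Q := by exact_mod_cast hQ0
  have hx' : (0 : ℝ) < x := by exact_mod_cast hx
  have hy' : (0 : ℝ) < y := by exact_mod_cast hy
  have hz' : (0 : ℝ) < z := by exact_mod_cast hz
  have hXr : (Q : ℝ) * (x * y * z) ≤ X := by exact_mod_cast hX
  have hx1 : (1 : ℝ) ≤ x := by exact_mod_cast hx
  have hyz1 : (1 : ℝ) ≤ y * z := by exact_mod_cast Nat.mul_pos hy hz
  have h1 : (A.card : ℝ) ≤ X / ((Q * x : ℕ) : ℝ) + 1 := by
    apply RB.card_class (Nat.mul_pos hQ0 hx) A (filter_subset _ _)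
    intro a ha a' ha'
    rw [hA, mem_filter] at ha ha'
    rw [← Nat.modEq_and_modEq_iff_modEq_mul hQx]
    exact ⟨ha.2.1.trans ha'.2.1.symm, (Nat.modEq_zero_iff_dvd.2 ha.2.2).trans
      (Nat.modEq_zero_iff_dvd.2 ha'.2.2).symm⟩
  have h2 : ∀ a, ((C a).card : ℝ) ≤ X / ((Q * (y * z) : ℕ) : ℝ) + 1 := by
    intro a
    apply RB.card_class (Nat.mul_pos hQ0 (Nat.mul_pos hy hz)) (C a) (filter_subset _ _)
    intro b hb b' hb'
    rw [hC] at hb hb'
    simp only [mem_filter, mem_Ioc] at hb hb'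
    rw [← Nat.modEq_and_modEq_iff_modEq_mul (Nat.Coprime.mul_right hQy hQz),
      ← Nat.modEq_and_modEq_iff_modEq_mul hyz]
    refine ⟨hb.2.1.trans hb'.2.1.symm, (Nat.modEq_zero_iff_dvd.2 hb.2.2.1).trans
      (Nat.modEq_zero_iff_dvd.2 hb'.2.2.1).symm, ?_⟩
    have h3 : a + B * b ≡ a + B * b' [MOD z] := (Nat.modEq_zero_iff_dvd.2 hb.2.2.2).trans
      (Nat.modEq_zero_iff_dvd.2 hb'.2.2.2).symm
    have h4 := Nat.ModEq.add_left_cancel' a h3
    exact Nat.ModEq.cancel_left_of_coprime (by rw [Nat.gcd_comm]; exact hBz) h4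
  have h3 : ((Ioc X (2 * X)) ×ˢ (Ioc X (2 * X))).filter
      (fun t => t.1 ≡ B + R [MOD Q] ∧ t.2 ≡ 1 [MOD Q] ∧ x ∣ t.1 ∧ y ∣ t.2 ∧
        z ∣ t.1 + B * t.2) ⊆ A.biUnion (fun a => (C a).image (fun b => (a, b))) := by
    rintro ⟨a, b⟩ ht
    rw [mem_filter, mem_product] at ht
    obtain ⟨⟨t1, t2⟩, t3, t4, t5, t6, t7⟩ := ht
    rw [mem_biUnion]
    refine ⟨a, ?_, ?_⟩
    · rw [hA, mem_filter]
      exact ⟨t1, t3, t5⟩
    · rw [mem_image]
      refine ⟨b, ?_, rfl⟩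
      rw [hC]
      simp only [mem_filter]
      exact ⟨t2, t4, t6, t7⟩
  obtain ⟨F, hF⟩ : ∃ F : Finset (ℕ × ℕ), F = ((Ioc X (2 * X)) ×ˢ (Ioc X (2 * X))).filter
      (fun t => t.1 ≡ B + R [MOD Q] ∧ t.2 ≡ 1 [MOD Q] ∧ x ∣ t.1 ∧ y ∣ t.2 ∧
        z ∣ t.1 + B * t.2) := ⟨_, rfl⟩
  rw [← hF] at h3 ⊢
  have h4 : (F.card : ℝ) ≤ A.card * (X / ((Q * (y * z) : ℕ) : ℝ) + 1) := by
    calc (F.card : ℝ) ≤
          ((A.biUnion (fun a => (C a).image (fun b => (a, b)))).card : ℝ) := by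
          exact_mod_cast card_le_card h3
      _ ≤ ∑ a ∈ A, (((C a).image (fun b => (a, b))).card : ℝ) := by
          exact_mod_cast card_biUnion_le
      _ ≤ ∑ _a ∈ A, (X / ((Q * (y * z) : ℕ) : ℝ) + 1) := by
          apply sum_le_sum
          intro a _
          refine le_trans ?_ (h2 a)
          exact_mod_cast card_image_le
      _ = A.card * (X / ((Q * (y * z) : ℕ) : ℝ) + 1) := by
          rw [sum_const, nsmul_eq_mul]
  have h5 : (X : ℝ) / ((Q * x : ℕ) : ℝ) + 1 ≤ 2 * (X / (Q * x)) := by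
    have e : (1 : ℝ) ≤ X / (Q * x) := by
      rw [le_div_iff₀ (by positivity), one_mul]
      calc (Q : ℝ) * x ≤ Q * (x * (y * z)) := by
            apply mul_le_mul_of_nonneg_left _ hQ0'.le
            exact le_mul_of_one_le_right hx'.le hyz1
        _ = Q * (x * y * z) := by ring
        _ ≤ X := hXr
    push_cast
    linarith
  have h6 : (X : ℝ) / ((Q * (y * z) : ℕ) : ℝ) + 1 ≤ 2 * (X / (Q * (y * z))) := by
    have e : (1 : ℝ) ≤ X / (Q * (y * z)) := by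
      rw [le_div_iff₀ (by positivity), one_mul]
      calc (Q : ℝ) * (y * z) ≤ Q * (x * (y * z)) := by
            apply mul_le_mul_of_nonneg_left _ hQ0'.le
            exact le_mul_of_one_le_left (by positivity) hx1
        _ = Q * (x * y * z) := by ring
        _ ≤ X := hXr
    push_cast
    linarith
  calc _ ≤ A.card * (X / ((Q * (y * z) : ℕ) : ℝ) + 1) := h4
    _ ≤ (2 * (X / (Q * x))) * (2 * (X / (Q * (y * z)))) := by
        apply mul_le_mul (h1.trans h5) h6 (by positivity) (by positivity)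
    _ = 4 * (X : ℝ) ^ 2 / ((Q : ℝ) ^ 2 * (x * y * z)) := by
        field_simp
        ring

/-- The count for small divisors. -/
theorem count_smallU {R k X d : ℕ} (hR : Odd R) (hk : 1 ≤ k) (hd : Squarefree d)
    (hX : 2 * R * d ≤ X) :
    (((TU R (2 ^ k) X).filter (fun t => d ∣ nU (2 ^ k) t)).card : ℝ) ≤
      3 ^ d.primeFactors.card * (4 * (X : ℝ) ^ 2 / (((2 * R : ℕ) : ℝ) ^ 2 * d)) := by
  classical
  have hR0 : 0 < R := hR.pos
  have hd0 : d ≠ 0 := hd.ne_zero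
  obtain ⟨B, hB⟩ : ∃ B, B = 2 ^ k := ⟨_, rfl⟩
  rcases ((TU R (2 ^ k) X).filter (fun t => d ∣ nU (2 ^ k) t)).eq_empty_or_nonempty with
    h0 | ⟨t0, ht0⟩
  · rw [h0, card_empty]
    push_cast
    positivity
  · rw [mem_filter] at ht0
    have hcop := coprime_of_dvd_nU hR hk ht0.1 ht0.2
    have hBd : Nat.Coprime B d := by
      rw [hB]
      exact Nat.Coprime.pow_left k (hcop.coprime_dvd_left ⟨R, rfl⟩)
    rw [← hB]
    have hsub : (TU R B X).filter (fun t => d ∣ nU B t) ⊆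
        (Nat.finMulAntidiag 3 d).biUnion (fun f => BU R B X (f 0) (f 1) (f 2)) := by
      rintro ⟨a, b⟩ ht
      rw [mem_filter, mem_TU] at ht
      obtain ⟨⟨h1, h2, h3, h4, -⟩, h5⟩ := ht
      unfold nU at h5
      simp only at h1 h2 h3 h4 h5
      obtain ⟨xy, z, hxy, hz, e1⟩ := exists_dvd_and_dvd_of_dvd_mul h5
      obtain ⟨x, y, hx, hy, e2⟩ := exists_dvd_and_dvd_of_dvd_mul hxy
      rw [mem_biUnion]
      refine ⟨![x, y, z], ?_, ?_⟩
      · rw [Nat.mem_finMulAntidiag]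
        refine ⟨?_, hd0⟩
        rw [Fin.prod_univ_three]
        simp [e1, e2]
      · unfold BU
        rw [mem_filter, mem_product, mem_Ioc, mem_Ioc]
        refine ⟨⟨h1, h2⟩, h3, h4, ?_, ?_, ?_⟩
        · simpa using hx
        · simpa using hy
        · simpa using hz
    have hbound : ∀ f ∈ Nat.finMulAntidiag 3 d,
        ((BU R B X (f 0) (f 1) (f 2)).card : ℝ) ≤
          4 * (X : ℝ) ^ 2 / (((2 * R : ℕ) : ℝ) ^ 2 * d) := by
      intro f hf
      rw [Nat.mem_finMulAntidiag] at hf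
      obtain ⟨hf1, _⟩ := hf
      rw [Fin.prod_univ_three] at hf1
      have p0 : f 0 ≠ 0 := by
        intro h
        rw [h] at hf1
        apply hd0
        rw [← hf1]
        ring
      have p1 : f 1 ≠ 0 := by
        intro h
        rw [h] at hf1
        apply hd0
        rw [← hf1]
        ring
      have p2 : f 2 ≠ 0 := by
        intro h
        rw [h] at hf1
        apply hd0
        rw [← hf1]
        ring
      have c0 : Nat.Coprime (2 * R) (f 0) :=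
        hcop.coprime_dvd_right ⟨f 1 * f 2, by rw [← hf1]; ring⟩
      have c1 : Nat.Coprime (2 * R) (f 1) :=
        hcop.coprime_dvd_right ⟨f 0 * f 2, by rw [← hf1]; ring⟩
      have c2 : Nat.Coprime (2 * R) (f 2) :=
        hcop.coprime_dvd_right ⟨f 0 * f 1, by rw [← hf1]; ring⟩
      have c4 : Nat.Coprime B (f 2) :=
        hBd.coprime_dvd_right ⟨f 0 * f 1, by rw [← hf1]; ring⟩
      have c3 : Nat.Coprime (f 1) (f 2) := by
        apply Nat.coprime_of_squarefree_mul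
        apply hd.squarefree_of_dvd
        exact ⟨f 0, by rw [← hf1]; ring⟩
      have h1 := card_BU hR0 (Nat.pos_of_ne_zero p0) (Nat.pos_of_ne_zero p1)
        (Nat.pos_of_ne_zero p2) c0 c1 c2 c4 c3 (X := X) (by rw [hf1]; exact hX)
      have h2 : ((f 0 : ℝ) * f 1 * f 2) = d := by exact_mod_cast hf1
      rw [h2] at h1
      exact h1
    have hcard : ((Nat.finMulAntidiag 3 d).card : ℝ) = 3 ^ d.primeFactors.card := by
      have h1 := Nat.card_finMulAntidiag_of_squarefree (d := 3) hd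
      rw [h1, ArithmeticFunction.cardDistinctFactors_apply]
      push_cast
      congr 1
    calc (((TU R B X).filter (fun t => d ∣ nU B t)).card : ℝ) ≤
          (((Nat.finMulAntidiag 3 d).biUnion (fun f => BU R B X (f 0) (f 1) (f 2))).card : ℝ) := by
          exact_mod_cast card_le_card hsub
      _ ≤ ∑ f ∈ Nat.finMulAntidiag 3 d, ((BU R B X (f 0) (f 1) (f 2)).card : ℝ) := by
          exact_mod_cast card_biUnion_le
      _ ≤ ∑ _f ∈ Nat.finMulAntidiag 3 d, 4 * (X : ℝ) ^ 2 / (((2 * R : ℕ) : ℝ) ^ 2 * d) :=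
          sum_le_sum hbound
      _ = 3 ^ d.primeFactors.card * (4 * (X : ℝ) ^ 2 / (((2 * R : ℕ) : ℝ) ^ 2 * d)) := by
          rw [sum_const, nsmul_eq_mul, hcard]

/-- Many members. -/
theorem card_TU_ge {z R X B : ℕ} (hz : 8 ≤ z) (hR : Odd R)
    (hzR : ∀ p : ℕ, p.Prime → p ≠ 2 → p ≤ z → p ∣ R) (hX : 12 * (2 * R) ^ 2 ≤ X) :
    (X : ℝ) ^ 2 / (4 * ((2 * R : ℕ) : ℝ) ^ 2) ≤ (TU R B X).card := by
  classical
  have hR0 : 0 < R := hR.pos
  obtain ⟨Q, hQ⟩ : ∃ Q, Q = 2 * R := ⟨_, rfl⟩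
  have hQ0 : 0 < Q := by omega
  have hQ0' : (0 : ℝ) < Q := by exact_mod_cast hQ0
  obtain ⟨P, hP⟩ : ∃ P : Finset ℕ, P = (Ioc z (2 * X)).filter (fun p => p.Prime) := ⟨_, rfl⟩
  set A := (Ioc X (2 * X)).filter (fun a => a ≡ B + R [MOD Q]) with hA
  set C := (Ioc X (2 * X)).filter (fun a => a ≡ 1 [MOD Q]) with hC
  have hA1 := (RB.card_mod X Q (B + R) hQ0).1
  have hC1 := (RB.card_mod X Q 1 hQ0).1
  rw [← hA] at hA1
  rw [← hC] at hC1
  have hcov : A ×ˢ C ⊆ TU R B X ∪ P.biUnion (fun p =>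
      (A.filter (fun a => Nat.Coprime Q p ∧ p ∣ a)) ×ˢ
        (C.filter (fun a => Nat.Coprime Q p ∧ p ∣ a))) := by
    rintro ⟨a, b⟩ ht
    rw [mem_product, hA, hC, mem_filter, mem_filter, mem_Ioc, mem_Ioc] at ht
    obtain ⟨⟨h1, h2⟩, h3, h4⟩ := ht
    rw [mem_union]
    by_cases hab : Nat.Coprime a b
    · left
      rw [mem_TU, ← hQ]
      exact ⟨h1, h3, h2, h4, hab⟩
    · right
      obtain ⟨p, hp, hpa, hpb⟩ := Nat.Prime.not_coprime_iff_dvd.1 hab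
      have hcop : Nat.Coprime Q p := by
        rw [Nat.coprime_comm, hp.coprime_iff_not_dvd]
        intro hpQ
        have h5 : b ≡ 1 [MOD p] := h4.of_dvd hpQ
        have h6 : 1 ≡ 0 [MOD p] := h5.symm.trans (Nat.modEq_zero_iff_dvd.2 hpb)
        exact hp.one_lt.ne' (Nat.dvd_one.1 (Nat.modEq_zero_iff_dvd.1 h6))
      have hzp : z < p := by
        by_contra hcon
        rw [not_lt] at hcon
        have hpQ : ¬ p ∣ Q := by
          rw [← hp.coprime_iff_not_dvd, Nat.coprime_comm]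
          exact hcop
        apply hpQ
        rw [hQ]
        by_cases hp2 : p = 2
        · rw [hp2]
          exact ⟨R, rfl⟩
        · exact (hzR p hp hp2 hcon).mul_left 2
      rw [mem_biUnion]
      refine ⟨p, ?_, ?_⟩
      · rw [hP, mem_filter, mem_Ioc]
        exact ⟨⟨hzp, (Nat.le_of_dvd (by omega) hpa).trans h1.2⟩, hp⟩
      · exact mem_product.2 ⟨mem_filter.2 ⟨mem_filter.2 ⟨mem_Ioc.2 h1, h2⟩, hcop, hpa⟩,
          mem_filter.2 ⟨mem_filter.2 ⟨mem_Ioc.2 h3, h4⟩, hcop, hpb⟩⟩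
  have hone : ∀ p ∈ P, ∀ v : ℕ, ((((Ioc X (2 * X)).filter (fun a => a ≡ v [MOD Q])).filter
      (fun a => Nat.Coprime Q p ∧ p ∣ a)).card : ℝ) ≤ X / (Q * p) + 1 := by
    intro p hp v
    rw [hP, mem_filter, mem_Ioc] at hp
    have hp0 : 0 < p := by omega
    have h1 := RB.card_class (X := X) (m := Q * p) (Nat.mul_pos hQ0 hp0)
      (((Ioc X (2 * X)).filter (fun a => a ≡ v [MOD Q])).filter
        (fun a => Nat.Coprime Q p ∧ p ∣ a)) ((filter_subset _ _).trans (filter_subset _ _)) (by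
        intro a ha b hb
        rw [mem_filter, mem_filter] at ha hb
        rw [← Nat.modEq_and_modEq_iff_modEq_mul ha.2.1]
        exact ⟨ha.1.2.trans hb.1.2.symm, (Nat.modEq_zero_iff_dvd.2 ha.2.2).trans
          (Nat.modEq_zero_iff_dvd.2 hb.2.2).symm⟩)
    push_cast at h1
    exact h1
  have hX0 : 0 < X := by
    have : 0 < 12 * (2 * R) ^ 2 := by positivity
    omega
  have hXr : (0 : ℝ) < X := by exact_mod_cast hX0
  have hz0 : (0 : ℝ) < z := by exact_mod_cast (by omega : 0 < z)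
  have hbad : ((P.biUnion (fun p => (A.filter (fun a => Nat.Coprime Q p ∧ p ∣ a)) ×ˢ
        (C.filter (fun a => Nat.Coprime Q p ∧ p ∣ a)))).card : ℝ) ≤
      2 * (X : ℝ) ^ 2 / (Q : ℝ) ^ 2 * (1 / z) + 4 * X := by
    calc ((P.biUnion (fun p => (A.filter (fun a => Nat.Coprime Q p ∧ p ∣ a)) ×ˢ
        (C.filter (fun a => Nat.Coprime Q p ∧ p ∣ a)))).card : ℝ)
        ≤ ∑ p ∈ P, (((A.filter (fun a => Nat.Coprime Q p ∧ p ∣ a)) ×ˢ
        (C.filter (fun a => Nat.Coprime Q p ∧ p ∣ a))).card : ℝ) := by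
          exact_mod_cast card_biUnion_le
      _ ≤ ∑ p ∈ P, (2 * (X : ℝ) ^ 2 / (Q : ℝ) ^ 2 * (1 / (p : ℝ) ^ 2) + 2) := by
          apply sum_le_sum
          intro p hp
          have hp0 : (0 : ℝ) < p := by
            have hp' := hp
            rw [hP, mem_filter, mem_Ioc] at hp'
            exact_mod_cast (by omega : 0 < p)
          rw [card_product]
          push_cast
          have g1 := hone p hp (B + R)
          have g2 := hone p hp 1
          have g3 : (0 : ℝ) ≤ X / (Q * p) + 1 := by positivity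
          calc _ ≤ ((X : ℝ) / (Q * p) + 1) * (X / (Q * p) + 1) :=
                mul_le_mul g1 g2 (Nat.cast_nonneg _) g3
            _ ≤ 2 * ((X : ℝ) / (Q * p)) ^ 2 + 2 := by nlinarith [sq_nonneg ((X : ℝ) / (Q * p) - 1)]
            _ = 2 * (X : ℝ) ^ 2 / (Q : ℝ) ^ 2 * (1 / (p : ℝ) ^ 2) + 2 := by
                field_simp
      _ = 2 * (X : ℝ) ^ 2 / (Q : ℝ) ^ 2 * (∑ p ∈ P, 1 / (p : ℝ) ^ 2) + P.card * 2 := by
          rw [sum_add_distrib, ← mul_sum, sum_const, nsmul_eq_mul]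
      _ ≤ 2 * (X : ℝ) ^ 2 / (Q : ℝ) ^ 2 * (1 / z) + 4 * X := by
          apply add_le_add
          · apply mul_le_mul_of_nonneg_left _ (by positivity)
            have h1 : ∑ p ∈ P, 1 / (p : ℝ) ^ 2 ≤ ∑ p ∈ Ioc z (2 * X), 1 / (p : ℝ) ^ 2 := by
              rw [hP]
              apply sum_le_sum_of_subset_of_nonneg (filter_subset _ _)
              intro i _ _
              positivity
            refine h1.trans ?_
            simpa [one_div] using RB.sum_inv_sq_le (z := z) (N := 2 * X) (by omega)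
          · have h1 : P.card ≤ 2 * X := by
              rw [hP]
              refine (card_filter_le _ _).trans ?_
              rw [Nat.card_Ioc]
              omega
            have h2 : (P.card : ℝ) ≤ 2 * X := by exact_mod_cast h1
            linarith
  have hall : ((A ×ˢ C).card : ℝ) ≤ (TU R B X).card +
      (2 * (X : ℝ) ^ 2 / (Q : ℝ) ^ 2 * (1 / z) + 4 * X) := by
    have h1 := (card_le_card hcov).trans (card_union_le _ _)
    have h2 : ((A ×ˢ C).card : ℝ) ≤ (TU R B X).card +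
      ((P.biUnion (fun p => (A.filter (fun a => Nat.Coprime Q p ∧ p ∣ a)) ×ˢ
        (C.filter (fun a => Nat.Coprime Q p ∧ p ∣ a)))).card : ℝ) := by exact_mod_cast h1
    linarith
  rw [card_product] at hall
  push_cast at hall
  rw [← hQ]
  have hXQ : 12 * (Q : ℝ) ^ 2 ≤ X := by
    rw [hQ]
    exact_mod_cast hX
  obtain ⟨y, hy⟩ : ∃ y : ℝ, y = (X : ℝ) / Q := ⟨_, rfl⟩
  have hQ1 : (1 : ℝ) ≤ Q := by exact_mod_cast hQ0
  have hyX : 12 * X ≤ y ^ 2 := by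
    rw [hy, div_pow, le_div_iff₀ (by positivity)]
    nlinarith
  have hy12 : 12 ≤ y := by
    rw [hy, le_div_iff₀ hQ0']
    nlinarith
  have hyX2 : y ≤ X := by
    rw [hy, div_le_iff₀ hQ0']
    nlinarith
  have hprod : (y - 1) * (y - 1) ≤ (A.card : ℝ) * C.card := by
    rw [← hy] at hA1 hC1
    exact mul_le_mul hA1 hC1 (by linarith) (Nat.cast_nonneg _)
  have hz8 : (1 : ℝ) / z ≤ 1 / 8 := by
    apply one_div_le_one_div_of_le (by norm_num)
    exact_mod_cast hz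
  have e1 : 2 * (X : ℝ) ^ 2 / (Q : ℝ) ^ 2 * (1 / z) ≤ y ^ 2 / 4 := by
    have e2 : 2 * (X : ℝ) ^ 2 / (Q : ℝ) ^ 2 = 2 * y ^ 2 := by
      rw [hy, div_pow]
      ring
    rw [e2]
    have : 0 ≤ 2 * y ^ 2 := by positivity
    nlinarith
  have e3 : (X : ℝ) ^ 2 / (4 * (Q : ℝ) ^ 2) = y ^ 2 / 4 := by
    rw [hy, div_pow]
    field_simp
  rw [e3]
  nlinarith

end Pool.Agent.Lib.AbcU
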