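import Pool.Agent.Lib.AbcU.RC1
import Pool.Agent.Lib.AbcU.RA2

/-!
# The count of the members of `TU` with a large prescribed divisor
-/

namespace Pool.Agent.Lib.AbcU

namespace RC2Aux

open RA2Aux (label eq_of_cross)

theorem dvd_of_label {R B X d : ℕ} (hd : Squarefree d) {t t' : ℕ × ℕ}
    (hn : d ∣ nU B t) (hn' : d ∣ nU B t') (hl : label d t = label d t') :
    (d : ℤ) ∣ (t.1 : ℤ) * t'.2 - (t'.1 : ℤ) * t.2 := by
  have key : ∀ p ∈ d.primeFactors, p ∣ ((t.1 : ℤ) * t'.2 - (t'.1 : ℤ) * t.2).natAbs := by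
    intro p hp
    have hpp := Nat.prime_of_mem_primeFactors hp
    have hpd := Nat.dvd_of_mem_primeFactors hp
    have hlp := congrFun hl ⟨p, hp⟩
    simp only [label] at hlp
    rw [← Int.natCast_dvd]
    have hz : ∀ s : ℕ × ℕ, d ∣ nU B s → ¬ p ∣ s.1 → ¬ p ∣ s.2 →
        (p : ℤ) ∣ (s.1 : ℤ) + B * s.2 := by
      intro s hns h1 h2
      have h3 : p ∣ nU B s := hpd.trans hns
      unfold nU at h3
      rcases (hpp.dvd_mul).1 h3 with h4 | h4
      · rcases (hpp.dvd_mul).1 h4 with h5 | h5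
        · exact absurd h5 h1
        · exact absurd h5 h2
      · exact_mod_cast h4
    by_cases h1 : p ∣ t.1
    · by_cases h1' : p ∣ t'.1
      · have e1 : (p : ℤ) ∣ (t.1 : ℤ) := by exact_mod_cast h1
        have e2 : (p : ℤ) ∣ (t'.1 : ℤ) := by exact_mod_cast h1'
        exact dvd_sub (e1.mul_right _) (e2.mul_right _)
      · rw [if_pos h1, if_neg h1'] at hlp
        split_ifs at hlp <;> simp at hlp
    · by_cases h1' : p ∣ t'.1
      · rw [if_neg h1, if_pos h1'] at hlp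
        split_ifs at hlp <;> simp at hlp
      · rw [if_neg h1, if_neg h1'] at hlp
        by_cases h2 : p ∣ t.2
        · by_cases h2' : p ∣ t'.2
          · have e1 : (p : ℤ) ∣ (t.2 : ℤ) := by exact_mod_cast h2
            have e2 : (p : ℤ) ∣ (t'.2 : ℤ) := by exact_mod_cast h2'
            exact dvd_sub (e2.mul_left _) (e1.mul_left _)
          · rw [if_pos h2, if_neg h2'] at hlp
            simp at hlp
        · by_cases h2' : p ∣ t'.2
          · rw [if_neg h2, if_pos h2'] at hlp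
            simp at hlp
          · have e1 := hz t hn h1 h2
            have e2 := hz t' hn' h1' h2'
            have e3 : (t.1 : ℤ) * t'.2 - (t'.1 : ℤ) * t.2 =
                ((t.1 : ℤ) + B * t.2) * t'.2 - ((t'.1 : ℤ) + B * t'.2) * t.2 := by ring
            rw [e3]
            exact dvd_sub (e1.mul_right _) (e2.mul_right _)
  rw [Int.natCast_dvd, ← Nat.prod_primeFactors_of_squarefree hd]
  exact Finset.prod_primes_dvd _ (fun p hp => (Nat.prime_of_mem_primeFactors hp).prime) key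

/-- The members with a given label. -/
theorem fibre {R B X d : ℕ} (hd : Squarefree d)
    (L : {p // p ∈ d.primeFactors} → Fin 3) :
    (((TU R B X).filter (fun t => d ∣ nU B t)).filter (fun t => label d t = L)).card ≤
      ⌊8 * (X : ℝ) ^ 2 / d⌋₊ + 1 := by
  have hd0 : 0 < d := Nat.pos_of_ne_zero hd.ne_zero
  have hdR : (0 : ℝ) < d := by exact_mod_cast hd0
  set f : ℕ × ℕ → ℕ := fun t => ⌊((t.2 : ℝ) / t.1) * (4 * (X : ℝ) ^ 2 / d)⌋₊ with hf
  rw [← Finset.card_range (⌊8 * (X : ℝ) ^ 2 / d⌋₊ + 1)]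
  apply Finset.card_le_card_of_injOn f
  · intro t ht
    rw [Finset.mem_coe, Finset.mem_filter, Finset.mem_filter] at ht
    obtain ⟨⟨ht, -⟩, -⟩ := ht
    obtain ⟨⟨h1, h2⟩, ⟨h3, h4⟩, -⟩ := mem_TU.1 ht
    rw [Finset.mem_coe, Finset.mem_range, Nat.lt_succ_iff]
    apply Nat.floor_le_floor
    have h1' : (X : ℝ) < t.1 := by exact_mod_cast h1
    have h4' : (t.2 : ℝ) ≤ 2 * X := by exact_mod_cast h4
    have h0 : (0 : ℝ) ≤ X := Nat.cast_nonneg X
    have hr : (t.2 : ℝ) / t.1 ≤ 2 := by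
      rw [div_le_iff₀ (lt_of_le_of_lt h0 h1')]
      linarith
    have h5 : (0 : ℝ) ≤ 4 * (X : ℝ) ^ 2 / d := by positivity
    calc ((t.2 : ℝ) / t.1) * (4 * (X : ℝ) ^ 2 / d) ≤ 2 * (4 * (X : ℝ) ^ 2 / d) :=
          mul_le_mul_of_nonneg_right hr h5
      _ = 8 * (X : ℝ) ^ 2 / d := by ring
  · intro t ht t' ht' hft
    rw [Finset.mem_coe, Finset.mem_filter, Finset.mem_filter] at ht ht'
    obtain ⟨⟨ht, hdt⟩, hL⟩ := ht
    obtain ⟨⟨ht', hdt'⟩, hL'⟩ := ht'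
    obtain ⟨⟨h1, h2⟩, ⟨h3, h4⟩, -, -, hc⟩ := mem_TU.1 ht
    obtain ⟨⟨h1', h2'⟩, ⟨h3', h4'⟩, -, -, hc'⟩ := mem_TU.1 ht'
    by_contra hne
    have hdvd := dvd_of_label (R := R) (X := X) hd hdt hdt' (hL.trans hL'.symm)
    have hne0 : (t.1 : ℤ) * t'.2 - (t'.1 : ℤ) * t.2 ≠ 0 := fun h0 =>
      hne (eq_of_cross hc hc' (by omega) h0)
    have habs : (d : ℤ) ≤ |(t.1 : ℤ) * t'.2 - (t'.1 : ℤ) * t.2| :=
      Int.le_of_dvd (abs_pos.2 hne0) ((dvd_abs _ _).2 hdvd)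
    have habsR : (d : ℝ) ≤ |(t.1 : ℝ) * t'.2 - (t'.1 : ℝ) * t.2| := by exact_mod_cast habs
    have ha : (0 : ℝ) < t.1 := by exact_mod_cast (by omega : 0 < t.1)
    have ha' : (0 : ℝ) < t'.1 := by exact_mod_cast (by omega : 0 < t'.1)
    have hX0 : (0 : ℝ) < X := by exact_mod_cast (by omega : 0 < X)
    have hA : (t.1 : ℝ) ≤ 2 * X := by exact_mod_cast h2
    have hA' : (t'.1 : ℝ) ≤ 2 * X := by exact_mod_cast h2'
    have hprod : (t.1 : ℝ) * t'.1 ≤ 4 * (X : ℝ) ^ 2 := by nlinarith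
    have hdist : 1 ≤ |((t'.2 : ℝ) / t'.1) * (4 * (X : ℝ) ^ 2 / d) -
        ((t.2 : ℝ) / t.1) * (4 * (X : ℝ) ^ 2 / d)| := by
      have e : ((t'.2 : ℝ) / t'.1) * (4 * (X : ℝ) ^ 2 / d) -
          ((t.2 : ℝ) / t.1) * (4 * (X : ℝ) ^ 2 / d) =
          ((t.1 : ℝ) * t'.2 - (t'.1 : ℝ) * t.2) * ((4 * (X : ℝ) ^ 2) / (d * (t.1 * t'.1))) := by
        field_simp
      have hpos : (0 : ℝ) < (4 * (X : ℝ) ^ 2) / (d * (t.1 * t'.1)) := by positivity
      rw [e, abs_mul, abs_of_pos hpos]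
      calc (1 : ℝ) ≤ d * ((4 * (X : ℝ) ^ 2) / (d * (t.1 * t'.1))) := by
            rw [mul_div_assoc', le_div_iff₀ (by positivity), one_mul]
            exact mul_le_mul_of_nonneg_left hprod hdR.le
        _ ≤ _ := mul_le_mul_of_nonneg_right habsR hpos.le
    have hx : (0 : ℝ) ≤ ((t.2 : ℝ) / t.1) * (4 * (X : ℝ) ^ 2 / d) := by positivity
    have hx' : (0 : ℝ) ≤ ((t'.2 : ℝ) / t'.1) * (4 * (X : ℝ) ^ 2 / d) := by positivity
    simp only [hf] at hft
    have f1 := Nat.floor_le hx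
    have f2 := Nat.lt_floor_add_one (((t.2 : ℝ) / t.1) * (4 * (X : ℝ) ^ 2 / d))
    have f3 := Nat.floor_le hx'
    have f4 := Nat.lt_floor_add_one (((t'.2 : ℝ) / t'.1) * (4 * (X : ℝ) ^ 2 / d))
    rw [hft] at f1 f2
    rcases le_abs.1 hdist with h | h <;> linarith

end RC2Aux

/-- The count with a large divisor. -/
theorem count_largeU {R B X d : ℕ} (hd : Squarefree d) :
    (((TU R B X).filter (fun t => d ∣ nU B t)).card : ℝ) ≤
      3 ^ d.primeFactors.card * (8 * (X : ℝ) ^ 2 / d + 1) := by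
  classical
  have h1 := Finset.card_le_mul_card_image_of_maps_to
    (s := (TU R B X).filter (fun t => d ∣ nU B t))
    (t := (Finset.univ : Finset ({p // p ∈ d.primeFactors} → Fin 3))) (f := RA2Aux.label d)
    (fun t _ => Finset.mem_univ _) (⌊8 * (X : ℝ) ^ 2 / d⌋₊ + 1) (fun L _ => RC2Aux.fibre hd L)
  rw [Finset.card_univ, Fintype.card_fun, Fintype.card_fin, Fintype.card_coe] at h1
  have h2 : (((TU R B X).filter (fun t => d ∣ nU B t)).card : ℝ) ≤
      ((⌊8 * (X : ℝ) ^ 2 / d⌋₊ : ℝ) + 1) * 3 ^ d.primeFactors.card := by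
    exact_mod_cast h1
  have h3 : (⌊8 * (X : ℝ) ^ 2 / d⌋₊ : ℝ) ≤ 8 * (X : ℝ) ^ 2 / d := Nat.floor_le (by positivity)
  calc _ ≤ _ := h2
    _ ≤ (8 * (X : ℝ) ^ 2 / d + 1) * 3 ^ d.primeFactors.card := by gcongr
    _ = _ := by ring

end Pool.Agent.Lib.AbcU
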