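import Pool.Agent.Lib.AbcU.RProb
import Pool.Agent.Lib.AbcU.RDefs
import Pool.Agent.Lib.AbcU.Sparse

/-!
# The probability that a random set of primes contains no triple of the family
-/

open MeasureTheory ProbabilityTheory Finset

namespace Pool.Agent.Lib.AbcU

variable {Ω : Type*} [MeasurableSpace Ω]

/-- All the primes of `n` belong to the random set. -/
def Bn (S : Ω → Set ℕ) (n : ℕ) : Set Ω := {ω | ∀ p ∈ n.primeFactors, p ∈ S ω}

/-- The primes of `n`. -/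
def PF (n : ℕ) : Finset Nat.Primes := n.primeFactors.subtype Nat.Prime

theorem mem_PF (n : ℕ) (p : Nat.Primes) : p ∈ PF n ↔ (p : ℕ) ∈ n.primeFactors :=
  Finset.mem_subtype

omit [MeasurableSpace Ω] in
theorem Bn_eq (S : Ω → Set ℕ) (n : ℕ) : Bn S n = ⋂ p ∈ PF n, {ω | (p : ℕ) ∈ S ω} := by
  ext ω
  simp only [Bn, Set.mem_ofPred_eq, Set.mem_iInter, mem_PF]
  constructor
  · intro h p hp
    exact h _ hp
  · intro h p hp
    exact h ⟨p, Nat.prime_of_mem_primeFactors hp⟩ hp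

theorem Bn_meas (S : Ω → Set ℕ) (hS : ∀ p : Nat.Primes, MeasurableSet {ω | (p : ℕ) ∈ S ω})
    (n : ℕ) : MeasurableSet (Bn S n) := by
  rw [Bn_eq]
  exact Finset.measurableSet_biInter _ (fun p _ => hS p)

omit [MeasurableSpace Ω] in
theorem Bn_inter (S : Ω → Set ℕ) (n n' : ℕ) (hn : n ≠ 0) (hn' : n' ≠ 0) :
    Bn S n ∩ Bn S n' = Bn S (Nat.lcm n n') := by
  ext ω
  simp only [Bn, Set.mem_ofPred_eq, Set.mem_inter_iff]
  have h : (Nat.lcm n n').primeFactors = n.primeFactors ∪ n'.primeFactors := by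
    ext p
    rw [Finset.mem_union, Nat.mem_primeFactors, Nat.mem_primeFactors, Nat.mem_primeFactors]
    constructor
    · rintro ⟨h1, h2, _⟩
      rcases (Nat.Prime.dvd_lcm h1).mp h2 with h3 | h3
      · exact Or.inl ⟨h1, h3, hn⟩
      · exact Or.inr ⟨h1, h3, hn'⟩
    · rintro (⟨h1, h2, _⟩ | ⟨h1, h2, _⟩)
      · exact ⟨h1, h2.trans (Nat.dvd_lcm_left _ _), Nat.lcm_ne_zero hn hn'⟩
      · exact ⟨h1, h2.trans (Nat.dvd_lcm_right _ _), Nat.lcm_ne_zero hn hn'⟩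
  rw [h]
  constructor
  · rintro ⟨h1, h2⟩ p hp
    rcases Finset.mem_union.mp hp with h3 | h3
    · exact h1 p h3
    · exact h2 p h3
  · intro h1
    exact ⟨fun p hp => h1 p (Finset.mem_union_left _ hp),
      fun p hp => h1 p (Finset.mem_union_right _ hp)⟩

theorem Bn_prob (μ : Measure Ω) (S : Ω → Set ℕ) (s : ℝ)
    (hind : iIndepSet (fun p : Nat.Primes => {ω | (p : ℕ) ∈ S ω}) μ)
    (hodd : ∀ p : Nat.Primes, (p : ℕ) ≠ 2 →
      μ {ω | (p : ℕ) ∈ S ω} = ENNReal.ofReal ((p : ℝ) ^ (-s)))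
    (n : ℕ) (hn : Squarefree n) (hn2 : ¬ 2 ∣ n) : μ.real (Bn S n) = (n : ℝ) ^ (-s) := by
  have h1 : μ (Bn S n) = ENNReal.ofReal ((n : ℝ) ^ (-s)) := by
    rw [Bn_eq]
    have h1 := (iIndepSet_iff _ _).mp hind (PF n) (f := fun p => {ω | (p : ℕ) ∈ S ω})
      (fun p _ => MeasurableSpace.measurableSet_generateFrom (Set.mem_singleton _))
    rw [h1]
    have h2 : ∏ p ∈ PF n, μ {ω | (p : ℕ) ∈ S ω} =
        ∏ p ∈ PF n, ENNReal.ofReal ((p : ℝ) ^ (-s)) := by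
      apply Finset.prod_congr rfl
      intro p hp
      apply hodd
      intro hp2
      have h3 : (p : ℕ) ∈ n.primeFactors := (mem_PF n p).mp hp
      rw [hp2] at h3
      exact hn2 (Nat.dvd_of_mem_primeFactors h3)
    rw [h2]
    have h3 : ∏ p ∈ PF n, ENNReal.ofReal ((p : ℝ) ^ (-s)) =
        ∏ p ∈ n.primeFactors, ENNReal.ofReal ((p : ℝ) ^ (-s)) :=
      Finset.prod_subtype_of_mem (fun p : ℕ => ENNReal.ofReal ((p : ℝ) ^ (-s)))
        (fun p hp => Nat.prime_of_mem_primeFactors hp)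
    rw [h3, ← ENNReal.ofReal_prod_of_nonneg (fun p _ => by positivity)]
    congr 1
    rw [Real.finsetProd_rpow _ _ (fun p _ => Nat.cast_nonneg p), ← Nat.cast_prod,
      Nat.prod_primeFactors_of_squarefree hn]
  rw [Measure.real, h1, ENNReal.toReal_ofReal (by positivity)]

/-- The members of the family. -/
theorem TS_mem {Q X : ℕ} (hQ : 4 ∣ Q) {t : ℕ × ℕ} (ht : t ∈ TS Q X) :
    Squarefree (nT t) ∧ ¬ 2 ∣ nT t ∧ X ^ 3 ≤ nT t ∧ nT t ≤ 8 * X ^ 3 := by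
  simp only [TS, Finset.mem_filter, Finset.mem_product, Finset.mem_Ioc] at ht
  obtain ⟨⟨⟨h1, h2⟩, h3, h4⟩, h5, h6, h7⟩ := ht
  obtain ⟨q, rfl⟩ := hQ
  have ha4 : t.1 % 4 = 1 := by
    have := Nat.mod_mul_right_mod t.1 4 q
    rw [h5] at this
    omega
  have hb4 : t.2 % 4 = 1 := by
    have := Nat.mod_mul_right_mod t.2 4 q
    rw [h6] at this
    omega
  have hc2 : ((t.1 + t.2) / 2) % 2 = 1 := by omega
  refine ⟨h7, ?_, ?_, ?_⟩
  · unfold nT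
    intro h
    rcases (Nat.Prime.dvd_mul Nat.prime_two).mp h with h8 | h8
    · rcases (Nat.Prime.dvd_mul Nat.prime_two).mp h8 with h9 | h9
      · omega
      · omega
    · omega
  · unfold nT
    have h8 : X ≤ (t.1 + t.2) / 2 := by omega
    calc X ^ 3 = X * X * X := by ring
      _ ≤ t.1 * t.2 * ((t.1 + t.2) / 2) := Nat.mul_le_mul (Nat.mul_le_mul h1.le h3.le) h8
  · unfold nT
    have h8 : (t.1 + t.2) / 2 ≤ 2 * X := by omega
    calc t.1 * t.2 * ((t.1 + t.2) / 2) ≤ (2 * X) * (2 * X) * (2 * X) :=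
          Nat.mul_le_mul (Nat.mul_le_mul h2 h4) h8
      _ = 8 * X ^ 3 := by ring

/-- The sum of `gcd ^ s` over the pairs which are not coprime. -/
noncomputable def GG (s : ℝ) (Q X : ℕ) : ℝ :=
  ∑ t ∈ TS Q X, ∑ t' ∈ TS Q X, if 1 < Nat.gcd (nT t) (nT t') then
    ((Nat.gcd (nT t) (nT t') : ℕ) : ℝ) ^ s else 0

/-- The probability that no member of the family is contained in the random set. -/
theorem none_le (μ : Measure Ω) (S : Ω → Set ℕ) (s : ℝ) (hs : 0 < s)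
    (hS : ∀ p : Nat.Primes, MeasurableSet {ω | (p : ℕ) ∈ S ω})
    (hind : iIndepSet (fun p : Nat.Primes => {ω | (p : ℕ) ∈ S ω}) μ)
    (hodd : ∀ p : Nat.Primes, (p : ℕ) ≠ 2 →
      μ {ω | (p : ℕ) ∈ S ω} = ENNReal.ofReal ((p : ℝ) ^ (-s)))
    (Q X : ℕ) (hQ : 4 ∣ Q) (hX : 1 ≤ X) (hT : 0 < (TS Q X).card) :
    μ.real {ω | ∀ t ∈ TS Q X, ω ∉ Bn S (nT t)} ≤
      (64 : ℝ) ^ s * GG s Q X / ((TS Q X).card : ℝ) ^ 2 := by
  have := hind.isProbabilityMeasure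
  have hX0 : (0 : ℝ) < X := by exact_mod_cast hX
  have hT0 : (0 : ℝ) < (TS Q X).card := by exact_mod_cast hT
  have hsm := second_moment μ (TS Q X) (fun t => Bn S (nT t)) (fun t _ => Bn_meas S hS _)
  have hP : ∀ t ∈ TS Q X, μ.real (Bn S (nT t)) = (nT t : ℝ) ^ (-s) := by
    intro t ht
    obtain ⟨h1, h2, _, _⟩ := TS_mem hQ ht
    exact Bn_prob μ S s hind hodd _ h1 h2
  have hn0 : ∀ t ∈ TS Q X, (0 : ℝ) < nT t := by
    intro t ht
    obtain ⟨h1, _⟩ := TS_mem hQ ht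
    exact_mod_cast Nat.pos_of_ne_zero h1.ne_zero
  have hup : ∀ t ∈ TS Q X, (nT t : ℝ) ^ (-s) ≤ (X : ℝ) ^ (-(3 * s)) := by
    intro t ht
    obtain ⟨_, _, h3, _⟩ := TS_mem hQ ht
    have h4 : ((X : ℝ) ^ 3) ≤ nT t := by exact_mod_cast h3
    calc (nT t : ℝ) ^ (-s) ≤ ((X : ℝ) ^ 3) ^ (-s) :=
          Real.rpow_le_rpow_of_nonpos (by positivity) h4 (by linarith)
      _ = (X : ℝ) ^ (-(3 * s)) := by
          rw [← Real.rpow_natCast, ← Real.rpow_mul hX0.le]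
          congr 1
          push_cast
          ring
  have hlow : ∀ t ∈ TS Q X, (8 : ℝ) ^ (-s) * (X : ℝ) ^ (-(3 * s)) ≤ (nT t : ℝ) ^ (-s) := by
    intro t ht
    obtain ⟨_, _, _, h3⟩ := TS_mem hQ ht
    have h4 : (nT t : ℝ) ≤ 8 * (X : ℝ) ^ 3 := by exact_mod_cast h3
    calc (8 : ℝ) ^ (-s) * (X : ℝ) ^ (-(3 * s)) = (8 * (X : ℝ) ^ 3) ^ (-s) := by
          rw [Real.mul_rpow (by norm_num) (by positivity), ← Real.rpow_natCast (X : ℝ) 3,
            ← Real.rpow_mul hX0.le]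
          congr 2
          push_cast
          ring
      _ ≤ (nT t : ℝ) ^ (-s) :=
          Real.rpow_le_rpow_of_nonpos (hn0 t ht) h4 (by linarith)
  -- the variance
  have hvar : ∑ t ∈ TS Q X, ∑ t' ∈ TS Q X, (μ.real (Bn S (nT t) ∩ Bn S (nT t')) -
      μ.real (Bn S (nT t)) * μ.real (Bn S (nT t'))) ≤ (X : ℝ) ^ (-(6 * s)) * GG s Q X := by
    unfold GG
    rw [Finset.mul_sum]
    apply Finset.sum_le_sum
    intro t ht
    rw [Finset.mul_sum]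
    apply Finset.sum_le_sum
    intro t' ht'
    obtain ⟨h1, h2, _, _⟩ := TS_mem hQ ht
    obtain ⟨h1', h2', _, _⟩ := TS_mem hQ ht'
    have hl2 : ¬ 2 ∣ Nat.lcm (nT t) (nT t') := by
      intro h
      rcases (Nat.Prime.dvd_lcm Nat.prime_two).mp h with h3 | h3
      · exact h2 h3
      · exact h2' h3
    rw [Bn_inter S _ _ h1.ne_zero h1'.ne_zero,
      Bn_prob μ S s hind hodd _ (squarefree_lcm h1 h1') hl2, hP t ht, hP t' ht']
    obtain ⟨g, hg⟩ : ∃ g : ℕ, g = Nat.gcd (nT t) (nT t') := ⟨_, rfl⟩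
    have hg0 : 0 < g := by rw [hg]; exact Nat.gcd_pos_of_pos_left _ (Nat.pos_of_ne_zero h1.ne_zero)
    have hg0' : (0 : ℝ) < g := by exact_mod_cast hg0
    have hgl : (g : ℝ) * (Nat.lcm (nT t) (nT t') : ℕ) = nT t * nT t' := by
      rw [hg]
      exact_mod_cast Nat.gcd_mul_lcm (nT t) (nT t')
    have hlcm : ((Nat.lcm (nT t) (nT t') : ℕ) : ℝ) ^ (-s) =
        (nT t : ℝ) ^ (-s) * (nT t' : ℝ) ^ (-s) * (g : ℝ) ^ s := by
      rw [← Real.mul_rpow (hn0 t ht).le (hn0 t' ht').le, ← hgl,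
        Real.mul_rpow hg0'.le (Nat.cast_nonneg _), mul_comm, ← mul_assoc,
        ← Real.rpow_add hg0']
      simp
    rw [← hg, hlcm]
    have hnn : 0 ≤ (nT t : ℝ) ^ (-s) * (nT t' : ℝ) ^ (-s) := by positivity
    by_cases hg1 : 1 < g
    · rw [if_pos hg1]
      have h3 : (nT t : ℝ) ^ (-s) * (nT t' : ℝ) ^ (-s) ≤ (X : ℝ) ^ (-(6 * s)) := by
        calc (nT t : ℝ) ^ (-s) * (nT t' : ℝ) ^ (-s)
            ≤ (X : ℝ) ^ (-(3 * s)) * (X : ℝ) ^ (-(3 * s)) :=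
              mul_le_mul (hup t ht) (hup t' ht') (by positivity) (by positivity)
          _ = (X : ℝ) ^ (-(6 * s)) := by
              rw [← Real.rpow_add hX0]
              congr 1
              ring
      have h4 := mul_le_mul_of_nonneg_right h3 (show 0 ≤ (g : ℝ) ^ s by positivity)
      linarith
    · rw [if_neg hg1, mul_zero]
      have hge : g = 1 := by omega
      rw [hge]
      simp
  have hE : (8 : ℝ) ^ (-s) * (X : ℝ) ^ (-(3 * s)) * (TS Q X).card ≤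
      ∑ t ∈ TS Q X, μ.real (Bn S (nT t)) := by
    rw [Finset.sum_congr rfl hP, mul_comm, ← nsmul_eq_mul]
    exact Finset.card_nsmul_le_sum _ _ _ hlow
  obtain ⟨q, hq⟩ : ∃ q : ℝ, q = μ.real {ω | ∀ t ∈ TS Q X, ω ∉ Bn S (nT t)} := ⟨_, rfl⟩
  have hq0 : 0 ≤ q := by rw [hq]; exact measureReal_nonneg
  rw [← hq] at hsm ⊢
  have hE0 : 0 ≤ (8 : ℝ) ^ (-s) * (X : ℝ) ^ (-(3 * s)) * (TS Q X).card := by positivity
  have h1 : ((8 : ℝ) ^ (-s) * (X : ℝ) ^ (-(3 * s)) * (TS Q X).card) ^ 2 * q ≤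
      (X : ℝ) ^ (-(6 * s)) * GG s Q X :=
    (mul_le_mul_of_nonneg_right (pow_le_pow_left₀ hE0 hE 2) hq0).trans (hsm.trans hvar)
  have h2 : ((8 : ℝ) ^ (-s) * (X : ℝ) ^ (-(3 * s)) * (TS Q X).card) ^ 2 =
      (64 : ℝ) ^ (-s) * (X : ℝ) ^ (-(6 * s)) * ((TS Q X).card : ℝ) ^ 2 := by
    rw [mul_pow, mul_pow]
    congr 2
    · rw [← Real.rpow_natCast, ← Real.rpow_mul (by norm_num), mul_comm (-s),
        Real.rpow_mul (by norm_num)]
      norm_num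
    · rw [← Real.rpow_natCast, ← Real.rpow_mul hX0.le]
      congr 1
      push_cast
      ring
  rw [h2] at h1
  have h3 : (64 : ℝ) ^ s * (64 : ℝ) ^ (-s) = 1 := by
    rw [← Real.rpow_add (by norm_num)]
    simp
  rw [le_div_iff₀ (by positivity)]
  have h4 : (0 : ℝ) < (X : ℝ) ^ (-(6 * s)) := by positivity
  have h5 : (64 : ℝ) ^ (-s) * ((TS Q X).card : ℝ) ^ 2 * q ≤ GG s Q X := by
    have h6 : (X : ℝ) ^ (-(6 * s)) * ((64 : ℝ) ^ (-s) * ((TS Q X).card : ℝ) ^ 2 * q) ≤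
        (X : ℝ) ^ (-(6 * s)) * GG s Q X := by
      refine le_trans (le_of_eq ?_) h1
      ring
    exact le_of_mul_le_mul_left h6 h4
  calc q * ((TS Q X).card : ℝ) ^ 2
      = ((64 : ℝ) ^ s * (64 : ℝ) ^ (-s)) * (q * ((TS Q X).card : ℝ) ^ 2) := by rw [h3, one_mul]
    _ = (64 : ℝ) ^ s * ((64 : ℝ) ^ (-s) * ((TS Q X).card : ℝ) ^ 2 * q) := by ring
    _ ≤ (64 : ℝ) ^ s * GG s Q X := mul_le_mul_of_nonneg_left h5 (by positivity)

end Pool.Agent.Lib.AbcU
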