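import Mathlib

/-!
# The second moment method
-/

open MeasureTheory ProbabilityTheory Finset

namespace Pool.Agent.Lib.AbcU

variable {Ω : Type*} [MeasurableSpace Ω] {τ : Type*}

open Classical in
/-- The second moment method. -/
theorem second_moment (μ : Measure Ω) [IsProbabilityMeasure μ] (T : Finset τ) (B : τ → Set Ω)
    (hB : ∀ t ∈ T, MeasurableSet (B t)) :
    (∑ t ∈ T, μ.real (B t)) ^ 2 * μ.real {ω | ∀ t ∈ T, ω ∉ B t} ≤
      ∑ t ∈ T, ∑ t' ∈ T, (μ.real (B t ∩ B t') - μ.real (B t) * μ.real (B t')) := by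
  obtain ⟨f, hf⟩ : ∃ f : Ω → ℝ, f = fun ω => ∑ t ∈ T, (B t).indicator (fun _ => (1 : ℝ)) ω :=
    ⟨_, rfl⟩
  obtain ⟨m, hm⟩ : ∃ m : ℝ, m = ∑ t ∈ T, μ.real (B t) := ⟨_, rfl⟩
  have hint : ∀ t ∈ T, ∀ t' ∈ T, Integrable (fun ω => (B t).indicator (fun _ => (1 : ℝ)) ω *
      (B t').indicator (fun _ => (1 : ℝ)) ω) μ := by
    intro t ht t' ht'
    have h1 : (fun ω => (B t).indicator (fun _ => (1 : ℝ)) ω *
        (B t').indicator (fun _ => (1 : ℝ)) ω) = (B t ∩ B t').indicator (fun _ => (1 : ℝ)) := by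
      funext ω
      by_cases h1 : ω ∈ B t
      · by_cases h2 : ω ∈ B t'
        · simp [Set.indicator, h1, h2]
        · simp [Set.indicator, h1, h2]
      · simp [Set.indicator, h1]
    rw [h1]
    exact (integrable_const (1 : ℝ)).indicator ((hB t ht).inter (hB t' ht'))
  have hint1 : ∀ t ∈ T, Integrable ((B t).indicator (fun _ => (1 : ℝ))) μ := fun t ht =>
    (integrable_const (1 : ℝ)).indicator (hB t ht)
  have hI : ∀ t ∈ T, ∫ ω, (B t).indicator (fun _ => (1 : ℝ)) ω ∂μ = μ.real (B t) := by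
    intro t ht
    rw [integral_indicator_const _ (hB t ht)]
    simp
  have hI2 : ∀ t ∈ T, ∀ t' ∈ T, ∫ ω, (B t).indicator (fun _ => (1 : ℝ)) ω *
      (B t').indicator (fun _ => (1 : ℝ)) ω ∂μ = μ.real (B t ∩ B t') := by
    intro t ht t' ht'
    have h1 : (fun ω => (B t).indicator (fun _ => (1 : ℝ)) ω *
        (B t').indicator (fun _ => (1 : ℝ)) ω) = (B t ∩ B t').indicator (fun _ => (1 : ℝ)) := by
      funext ω
      by_cases h1 : ω ∈ B t
      · by_cases h2 : ω ∈ B t'
        · simp [Set.indicator, h1, h2]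
        · simp [Set.indicator, h1, h2]
      · simp [Set.indicator, h1]
    rw [h1, integral_indicator_const _ ((hB t ht).inter (hB t' ht'))]
    simp
  have hfint : Integrable f μ := by
    rw [hf]
    exact integrable_finsetSum _ hint1
  have hf2int : Integrable (fun ω => f ω * f ω) μ := by
    have h1 : (fun ω => f ω * f ω) = fun ω => ∑ t ∈ T, ∑ t' ∈ T,
        (B t).indicator (fun _ => (1 : ℝ)) ω * (B t').indicator (fun _ => (1 : ℝ)) ω := by
      funext ω
      rw [hf, Finset.sum_mul_sum]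
    rw [h1]
    exact integrable_finsetSum _ (fun t ht => integrable_finsetSum _ (fun t' ht' => hint t ht t' ht'))
  have hEf : ∫ ω, f ω ∂μ = m := by
    rw [hf, integral_finsetSum _ hint1, hm]
    exact Finset.sum_congr rfl hI
  have hEf2 : ∫ ω, f ω * f ω ∂μ = ∑ t ∈ T, ∑ t' ∈ T, μ.real (B t ∩ B t') := by
    have h1 : (fun ω => f ω * f ω) = fun ω => ∑ t ∈ T, ∑ t' ∈ T,
        (B t).indicator (fun _ => (1 : ℝ)) ω * (B t').indicator (fun _ => (1 : ℝ)) ω := by
      funext ω
      rw [hf, Finset.sum_mul_sum]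
    rw [h1, integral_finsetSum _ (fun t ht => integrable_finsetSum _ (fun t' ht' => hint t ht t' ht'))]
    apply Finset.sum_congr rfl
    intro t ht
    rw [integral_finsetSum _ (fun t' ht' => hint t ht t' ht')]
    exact Finset.sum_congr rfl (fun t' ht' => hI2 t ht t' ht')
  -- the variance
  have hvar : ∫ ω, (f ω - m) ^ 2 ∂μ = ∑ t ∈ T, ∑ t' ∈ T, μ.real (B t ∩ B t') - m ^ 2 := by
    have h1 : (fun ω => (f ω - m) ^ 2) = fun ω => f ω * f ω - 2 * m * f ω + m ^ 2 := by
      funext ω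
      ring
    have hg : Integrable (fun ω => 2 * m * f ω) μ := hfint.const_mul _
    have hfg : Integrable (fun ω => f ω * f ω - 2 * m * f ω) μ := hf2int.sub hg
    rw [h1, integral_add hfg (integrable_const _), integral_sub hf2int hg, integral_const_mul,
      hEf, hEf2]
    simp
    ring
  have hvint : Integrable (fun ω => (f ω - m) ^ 2) μ := by
    have h1 : (fun ω => (f ω - m) ^ 2) = fun ω => f ω * f ω - 2 * m * f ω + m ^ 2 := by
      funext ω
      ring
    rw [h1]
    exact (hf2int.sub (hfint.const_mul _)).add (integrable_const _)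
  have hmark := mul_meas_ge_le_integral_of_nonneg (μ := μ) (f := fun ω => (f ω - m) ^ 2)
    (Filter.Eventually.of_forall (fun ω => sq_nonneg _)) hvint (m ^ 2)
  have hsub : {ω | ∀ t ∈ T, ω ∉ B t} ⊆ {ω | m ^ 2 ≤ (f ω - m) ^ 2} := by
    intro ω hω
    have h1 : f ω = 0 := by
      rw [hf]
      apply Finset.sum_eq_zero
      intro t ht
      exact Set.indicator_of_notMem (hω t ht) _
    simp only [Set.mem_ofPred_eq, h1]
    rw [zero_sub, neg_sq]
  have h1 : m ^ 2 * μ.real {ω | ∀ t ∈ T, ω ∉ B t} ≤ ∫ ω, (f ω - m) ^ 2 ∂μ := by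
    refine le_trans ?_ hmark
    apply mul_le_mul_of_nonneg_left _ (sq_nonneg _)
    exact measureReal_mono hsub
  rw [← hm]
  refine h1.trans (le_of_eq ?_)
  rw [hvar]
  have h2 : ∑ t ∈ T, ∑ t' ∈ T, (μ.real (B t ∩ B t') - μ.real (B t) * μ.real (B t')) =
      ∑ t ∈ T, ∑ t' ∈ T, μ.real (B t ∩ B t') - ∑ t ∈ T, ∑ t' ∈ T, μ.real (B t) * μ.real (B t') := by
    rw [← Finset.sum_sub_distrib]
    apply Finset.sum_congr rfl
    intro t _
    rw [Finset.sum_sub_distrib]
  rw [h2, ← Finset.sum_mul_sum, ← hm]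
  ring

end Pool.Agent.Lib.AbcU
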