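import Pool.Agent.Lib.AbcU.RPr2

/-!
# The bound for the sum over the pairs which are not coprime
-/

open Finset

namespace Pool.Agent.Lib.AbcU

/-- The possible greatest common divisors. -/
def D2 (X : ℕ) : Finset ℕ := (Finset.Icc 2 (8 * X ^ 3)).filter Squarefree

/-- The number of the members divisible by `d`. -/
noncomputable def AA (Q X d : ℕ) : ℝ := (((TS Q X).filter (fun t => d ∣ nT t)).card : ℝ)

theorem GG_le_sum (s : ℝ) (Q X : ℕ) (hQ : 4 ∣ Q) :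
    GG s Q X ≤ ∑ d ∈ D2 X, (d : ℝ) ^ s * AA Q X d ^ 2 := by
  classical
  obtain ⟨D, hD⟩ : ∃ D : Finset ℕ, D = D2 X := ⟨_, rfl⟩
  rw [← hD]
  have h1 : GG s Q X ≤ ∑ t ∈ TS Q X, ∑ t' ∈ TS Q X, ∑ d ∈ D,
      (if d ∣ nT t then (1 : ℝ) else 0) * (if d ∣ nT t' then (1 : ℝ) else 0) * (d : ℝ) ^ s := by
    unfold GG
    apply Finset.sum_le_sum
    intro t ht
    apply Finset.sum_le_sum
    intro t' ht'
    have hnn : ∀ d ∈ D, 0 ≤ (if d ∣ nT t then (1 : ℝ) else 0) *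
        (if d ∣ nT t' then (1 : ℝ) else 0) * (d : ℝ) ^ s := by
      intro d _
      have h2 : (0 : ℝ) ≤ if d ∣ nT t then (1 : ℝ) else 0 := by split_ifs <;> norm_num
      have h3 : (0 : ℝ) ≤ if d ∣ nT t' then (1 : ℝ) else 0 := by split_ifs <;> norm_num
      positivity
    by_cases hg : 1 < Nat.gcd (nT t) (nT t')
    · rw [if_pos hg]
      obtain ⟨h2, _, _, h3⟩ := TS_mem hQ ht
      have hgD : Nat.gcd (nT t) (nT t') ∈ D := by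
        rw [hD, D2, Finset.mem_filter, Finset.mem_Icc]
        refine ⟨⟨hg, ?_⟩, h2.squarefree_of_dvd (Nat.gcd_dvd_left _ _)⟩
        exact (Nat.le_of_dvd (Nat.pos_of_ne_zero h2.ne_zero) (Nat.gcd_dvd_left _ _)).trans h3
      refine le_trans (le_of_eq ?_) (Finset.single_le_sum hnn hgD)
      rw [if_pos (Nat.gcd_dvd_left _ _), if_pos (Nat.gcd_dvd_right _ _)]
      ring
    · rw [if_neg hg]
      exact Finset.sum_nonneg hnn
  refine h1.trans (le_of_eq ?_)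
  have h2 : ∀ t ∈ TS Q X, ∑ t' ∈ TS Q X, ∑ d ∈ D,
      (if d ∣ nT t then (1 : ℝ) else 0) * (if d ∣ nT t' then (1 : ℝ) else 0) * (d : ℝ) ^ s =
      ∑ d ∈ D, ∑ t' ∈ TS Q X,
        (if d ∣ nT t then (1 : ℝ) else 0) * (if d ∣ nT t' then (1 : ℝ) else 0) * (d : ℝ) ^ s :=
    fun t _ => Finset.sum_comm
  rw [Finset.sum_congr rfl h2, Finset.sum_comm]
  apply Finset.sum_congr rfl
  intro d _
  have h3 : AA Q X d = ∑ t ∈ TS Q X, (if d ∣ nT t then (1 : ℝ) else 0) := by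
    unfold AA
    rw [Finset.sum_boole]
  rw [h3, sq, Finset.sum_mul_sum, Finset.mul_sum]
  apply Finset.sum_congr rfl
  intro t _
  rw [Finset.mul_sum]
  apply Finset.sum_congr rfl
  intro t' _
  ring

theorem card_TS_le (Q X : ℕ) : ((TS Q X).card : ℝ) ≤ (X : ℝ) ^ 2 := by
  have h1 : (TS Q X).card ≤ X * X := by
    unfold TS
    refine (Finset.card_filter_le _ _).trans ?_
    rw [Finset.card_product, Nat.card_Ioc]
    have : 2 * X - X = X := by omega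
    rw [this]
  calc ((TS Q X).card : ℝ) ≤ ((X * X : ℕ) : ℝ) := by exact_mod_cast h1
    _ = (X : ℝ) ^ 2 := by push_cast; ring

theorem card_divisors_squarefree {n : ℕ} (hn : Squarefree n) :
    n.divisors.card ≤ 2 ^ n.primeFactors.card := by
  rw [Nat.card_divisors hn.ne_zero, ← Finset.prod_const]
  apply Finset.prod_le_prod' 
  intro p _
  have := (Nat.squarefree_iff_factorization_le_one hn.ne_zero).mp hn p
  omega

/-- The sum of the counts over `d`. -/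
theorem sum_AA_le (Q X : ℕ) (hQ : 4 ∣ Q) (hX : 1 ≤ X) (ε C : ℝ) (hε : 0 < ε)
    (hC : ∀ P : ℕ, 1 ≤ P → (4 : ℝ) ^ P.primeFactors.card ≤ C * (P : ℝ) ^ ε) (hC0 : 0 ≤ C) :
    ∑ d ∈ D2 X, AA Q X d ≤ (X : ℝ) ^ 2 * (C * (8 * (X : ℝ) ^ 3) ^ ε) := by
  classical
  obtain ⟨D, hD⟩ : ∃ D : Finset ℕ, D = D2 X := ⟨_, rfl⟩
  rw [← hD]
  have h1 : ∑ d ∈ D, AA Q X d = ∑ t ∈ TS Q X, ((D.filter (fun d => d ∣ nT t)).card : ℝ) := by
    unfold AA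
    have h2 : ∀ d ∈ D, (((TS Q X).filter (fun t => d ∣ nT t)).card : ℝ) =
        ∑ t ∈ TS Q X, (if d ∣ nT t then (1 : ℝ) else 0) := fun d _ => by rw [Finset.sum_boole]
    rw [Finset.sum_congr rfl h2, Finset.sum_comm]
    apply Finset.sum_congr rfl
    intro t _
    rw [Finset.sum_boole]
  rw [h1]
  have hX0 : (0 : ℝ) < X := by exact_mod_cast hX
  have h3 : ∀ t ∈ TS Q X, ((D.filter (fun d => d ∣ nT t)).card : ℝ) ≤
      C * (8 * (X : ℝ) ^ 3) ^ ε := by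
    intro t ht
    obtain ⟨g1, _, _, g2⟩ := TS_mem hQ ht
    have hn0 : 0 < nT t := Nat.pos_of_ne_zero g1.ne_zero
    have h4 : D.filter (fun d => d ∣ nT t) ⊆ (nT t).divisors := by
      intro d hd
      rw [Nat.mem_divisors]
      exact ⟨(Finset.mem_filter.mp hd).2, g1.ne_zero⟩
    have h5 := (Finset.card_le_card h4).trans (card_divisors_squarefree g1)
    calc ((D.filter (fun d => d ∣ nT t)).card : ℝ)
        ≤ ((2 ^ (nT t).primeFactors.card : ℕ) : ℝ) := by exact_mod_cast h5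
      _ = (2 : ℝ) ^ (nT t).primeFactors.card := by push_cast; rfl
      _ ≤ (4 : ℝ) ^ (nT t).primeFactors.card :=
          pow_le_pow_left₀ (by norm_num) (by norm_num) _
      _ ≤ C * (nT t : ℝ) ^ ε := hC _ hn0
      _ ≤ C * (8 * (X : ℝ) ^ 3) ^ ε := by
          apply mul_le_mul_of_nonneg_left _ hC0
          apply Real.rpow_le_rpow (Nat.cast_nonneg _) _ hε.le
          exact_mod_cast g2
  calc ∑ t ∈ TS Q X, ((D.filter (fun d => d ∣ nT t)).card : ℝ)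
      ≤ (TS Q X).card • (C * (8 * (X : ℝ) ^ 3) ^ ε) := Finset.sum_le_card_nsmul _ _ _ h3
    _ = (TS Q X).card * (C * (8 * (X : ℝ) ^ 3) ^ ε) := nsmul_eq_mul _ _
    _ ≤ (X : ℝ) ^ 2 * (C * (8 * (X : ℝ) ^ 3) ^ ε) :=
        mul_le_mul_of_nonneg_right (card_TS_le Q X) (by positivity)

theorem not_dvd_nT {Q X : ℕ} (hQ : 4 ∣ Q) {t : ℕ × ℕ} (ht : t ∈ TS Q X) {p : ℕ} (hp : p.Prime)
    (hp2 : p ≠ 2) (hpQ : p ∣ Q) : ¬ p ∣ nT t := by
  simp only [TS, Finset.mem_filter, Finset.mem_product, Finset.mem_Ioc] at ht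
  obtain ⟨⟨⟨h1, h2⟩, h3, h4⟩, h5, h6, h7⟩ := ht
  have ha : t.1 % p = 1 % p := by rw [← Nat.mod_mod_of_dvd t.1 hpQ, h5]
  have hb : t.2 % p = 1 % p := by rw [← Nat.mod_mod_of_dvd t.2 hpQ, h6]
  have ha4 : t.1 % 4 = 1 := by rw [← Nat.mod_mod_of_dvd t.1 hQ, h5]
  have hb4 : t.2 % 4 = 1 := by rw [← Nat.mod_mod_of_dvd t.2 hQ, h6]
  have hp1 : 1 % p = 1 := Nat.mod_eq_of_lt hp.one_lt
  rw [hp1] at ha hb
  intro h
  unfold nT at h
  rcases (Nat.Prime.dvd_mul hp).mp h with h8 | h8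
  · rcases (Nat.Prime.dvd_mul hp).mp h8 with h9 | h9
    · have := Nat.mod_eq_zero_of_dvd h9
      omega
    · have := Nat.mod_eq_zero_of_dvd h9
      omega
  · have h9 : p ∣ t.1 + t.2 := by
      have h10 : p ∣ 2 * ((t.1 + t.2) / 2) := h8.mul_left 2
      have he : 2 ∣ t.1 + t.2 := by omega
      rwa [Nat.mul_div_cancel' he] at h10
    have h11 : (t.1 + t.2) % p = 0 := Nat.mod_eq_zero_of_dvd h9
    rw [Nat.add_mod, ha, hb] at h11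
    have h12 : p ∣ 1 + 1 := Nat.dvd_of_mod_eq_zero h11
    have h13 := (Nat.prime_dvd_prime_iff_eq hp Nat.prime_two).mp h12
    exact hp2 h13

/-- The divisors which occur are larger than `z`. -/
theorem lt_of_AA {Q X z : ℕ} (hQ : 4 ∣ Q) (hz : ∀ p : ℕ, p.Prime → p ≠ 2 → p ≤ z → p ∣ Q) {d : ℕ}
    (hd : d ∈ D2 X) (hA : AA Q X d ≠ 0) : z < d := by
  classical
  have h1 : ((TS Q X).filter (fun t => d ∣ nT t)).Nonempty := by
    rw [Finset.nonempty_iff_ne_empty]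
    intro h
    apply hA
    unfold AA
    rw [h]
    simp
  obtain ⟨t, ht⟩ := h1
  rw [Finset.mem_filter] at ht
  rw [D2, Finset.mem_filter, Finset.mem_Icc] at hd
  have hd1 : d ≠ 1 := by omega
  have hp := Nat.minFac_prime hd1
  have hpd : d.minFac ∣ nT t := (Nat.minFac_dvd d).trans ht.2
  have hp2 : d.minFac ≠ 2 := by
    intro h
    rw [h] at hpd
    exact (TS_mem hQ ht.1).2.1 hpd
  have h3 : z < d.minFac := by
    by_contra hcon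
    rw [not_lt] at hcon
    exact not_dvd_nT hQ ht.1 hp hp2 (hz _ hp hp2 hcon) hpd
  exact h3.trans_le (Nat.minFac_le (by omega))

/-- The bound for the sum over the pairs which are not coprime. -/
theorem GG_le (s : ℝ) (hs0 : 0 < s) (hs : s < 2 / 3) : ∃ δ K : ℝ, 0 < δ ∧ 0 ≤ K ∧
    ∀ z Q X : ℕ, 1 ≤ z → 4 ∣ Q → 0 < Q → Q ≤ X →
      (∀ p : ℕ, p.Prime → p ≠ 2 → p ≤ z → p ∣ Q) →
      (∀ d : ℕ, Squarefree d → Q * d ≤ X →
        AA Q X d ≤ 3 ^ d.primeFactors.card * (4 * (X : ℝ) ^ 2 / ((Q : ℝ) ^ 2 * d))) →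
      (∀ d : ℕ, Squarefree d → AA Q X d ≤ 3 ^ d.primeFactors.card * (8 * (X : ℝ) ^ 2 / d + 1)) →
      GG s Q X ≤ K * ((X : ℝ) ^ 4 / (Q : ℝ) ^ 4 * (z : ℝ) ^ (-δ) + (X : ℝ) ^ (4 - δ) * Q) := by
  classical
  obtain ⟨ε, hε⟩ : ∃ ε : ℝ, ε = (2 - 3 * s) / 12 := ⟨_, rfl⟩
  have hε0 : 0 < ε := by linarith
  obtain ⟨η, hη⟩ : ∃ η : ℝ, η = (4 - 3 * s) / 6 := ⟨_, rfl⟩
  have hη0 : 1 / 3 < η := by linarith
  have hη1 : η < 2 / 3 := by linarith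
  obtain ⟨C, hC1, hC⟩ := Pool.Agent.Lib.AbcS.four_pow_le ε hε0
  have hC0 : 0 ≤ C := by linarith
  have hsum : Summable (fun d : ℕ => (d : ℝ) ^ (-(1 + η / 2))) :=
    Real.summable_nat_rpow.mpr (by linarith)
  obtain ⟨Z, hZ⟩ : ∃ Z : ℝ, Z = ∑' d : ℕ, (d : ℝ) ^ (-(1 + η / 2)) := ⟨_, rfl⟩
  have hZ0 : 0 ≤ Z := by rw [hZ]; exact tsum_nonneg (fun d => by positivity)
  obtain ⟨δ, hδ⟩ : ∃ δ : ℝ, δ = min (η / 2) ((2 - 3 * s) / 2) := ⟨_, rfl⟩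
  have hδ0 : 0 < δ := by rw [hδ]; exact lt_min (by linarith) (by linarith)
  have hδ1 : δ ≤ η / 2 := by rw [hδ]; exact min_le_left _ _
  have hδ2 : δ ≤ (2 - 3 * s) / 2 := by rw [hδ]; exact min_le_right _ _
  refine ⟨δ, 16 * C ^ 2 * Z + 81 * C ^ 2 * Z + 72 * C ^ 2, hδ0, by positivity, ?_⟩
  intro z Q X hz hQ4 hQ0 hQX hzQ hA1 hA2
  have hX1 : 1 ≤ X := by omega
  have hX0 : (0 : ℝ) < X := by exact_mod_cast hX1
  have hX1' : (1 : ℝ) ≤ X := by exact_mod_cast hX1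
  have hQ0' : (0 : ℝ) < Q := by exact_mod_cast hQ0
  have hQ1' : (1 : ℝ) ≤ Q := by exact_mod_cast hQ0
  have hz0 : (0 : ℝ) < z := by exact_mod_cast hz
  have hz1 : (1 : ℝ) ≤ z := by exact_mod_cast hz
  obtain ⟨c1, hc1⟩ : ∃ c1 : ℝ, c1 = 16 * C ^ 2 * ((X : ℝ) ^ 4 / (Q : ℝ) ^ 4) *
    (z : ℝ) ^ (-(η / 2)) := ⟨_, rfl⟩
  obtain ⟨c2, hc2⟩ : ∃ c2 : ℝ, c2 = 81 * C ^ 2 * (X : ℝ) ^ 4 *
    ((X : ℝ) / Q) ^ (-(η / 2)) := ⟨_, rfl⟩
  obtain ⟨c3, hc3⟩ : ∃ c3 : ℝ, c3 = 9 * C * (8 * (X : ℝ) ^ 3) ^ (s + ε) := ⟨_, rfl⟩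
  have hc1' : 0 ≤ c1 := by rw [hc1]; positivity
  have hc2' : 0 ≤ c2 := by rw [hc2]; positivity
  have hc3' : 0 ≤ c3 := by rw [hc3]; positivity
  have hAA0 : ∀ d, 0 ≤ AA Q X d := fun d => by unfold AA; positivity
  have key : ∀ d ∈ D2 X, (d : ℝ) ^ s * AA Q X d ^ 2 ≤
      (c1 + c2) * (d : ℝ) ^ (-(1 + η / 2)) + c3 * AA Q X d := by
    intro d hd
    by_cases hA : AA Q X d = 0
    · rw [hA]
      have : 0 ≤ (c1 + c2) * (d : ℝ) ^ (-(1 + η / 2)) := by positivity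
      simpa using this
    have hzd := lt_of_AA hQ4 hzQ hd hA
    rw [D2, Finset.mem_filter, Finset.mem_Icc] at hd
    obtain ⟨⟨hd2, hd8⟩, hds⟩ := hd
    have hd0 : (0 : ℝ) < d := by exact_mod_cast (by omega : 0 < d)
    have hd8' : (d : ℝ) ≤ 8 * (X : ℝ) ^ 3 := by exact_mod_cast hd8
    have h3w : (3 : ℝ) ^ d.primeFactors.card ≤ C * (d : ℝ) ^ ε :=
      (pow_le_pow_left₀ (by norm_num) (by norm_num) _).trans (hC d (by omega))
    have hw0 : 0 ≤ C * (d : ℝ) ^ ε := by positivity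
    have hexp : (d : ℝ) ^ s * ((d : ℝ) ^ ε) ^ 2 * ((d : ℝ) ^ 2)⁻¹ =
        (d : ℝ) ^ (-(1 + η / 2)) * (d : ℝ) ^ (-(η / 2)) := by
      rw [← Real.rpow_natCast ((d : ℝ) ^ ε) 2, ← Real.rpow_mul hd0.le,
        ← Real.rpow_natCast (d : ℝ) 2, ← Real.rpow_neg hd0.le, ← Real.rpow_add hd0,
        ← Real.rpow_add hd0, ← Real.rpow_add hd0]
      congr 1
      rw [hε, hη]
      push_cast
      ring
    by_cases hcase1 : Q * d ≤ X
    · -- small divisors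
      have h1 := hA1 d hds hcase1
      have h2 : AA Q X d ≤ C * (d : ℝ) ^ ε * (4 * (X : ℝ) ^ 2 / ((Q : ℝ) ^ 2 * d)) :=
        h1.trans (mul_le_mul_of_nonneg_right h3w (by positivity))
      have h3 : AA Q X d ^ 2 ≤ (C * (d : ℝ) ^ ε * (4 * (X : ℝ) ^ 2 / ((Q : ℝ) ^ 2 * d))) ^ 2 :=
        pow_le_pow_left₀ (hAA0 d) h2 2
      have h4 : (d : ℝ) ^ s * (C * (d : ℝ) ^ ε * (4 * (X : ℝ) ^ 2 / ((Q : ℝ) ^ 2 * d))) ^ 2 =
          16 * C ^ 2 * ((X : ℝ) ^ 4 / (Q : ℝ) ^ 4) *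
            ((d : ℝ) ^ s * ((d : ℝ) ^ ε) ^ 2 * ((d : ℝ) ^ 2)⁻¹) := by
        field_simp
        ring
      have h5 : (d : ℝ) ^ (-(η / 2)) ≤ (z : ℝ) ^ (-(η / 2)) :=
        Real.rpow_le_rpow_of_nonpos hz0 (by exact_mod_cast hzd.le) (by linarith)
      calc (d : ℝ) ^ s * AA Q X d ^ 2
          ≤ (d : ℝ) ^ s * (C * (d : ℝ) ^ ε * (4 * (X : ℝ) ^ 2 / ((Q : ℝ) ^ 2 * d))) ^ 2 :=
            mul_le_mul_of_nonneg_left h3 (by positivity)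
        _ = 16 * C ^ 2 * ((X : ℝ) ^ 4 / (Q : ℝ) ^ 4) *
            ((d : ℝ) ^ (-(1 + η / 2)) * (d : ℝ) ^ (-(η / 2))) := by rw [h4, hexp]
        _ ≤ 16 * C ^ 2 * ((X : ℝ) ^ 4 / (Q : ℝ) ^ 4) *
            ((d : ℝ) ^ (-(1 + η / 2)) * (z : ℝ) ^ (-(η / 2))) := by gcongr
        _ = c1 * (d : ℝ) ^ (-(1 + η / 2)) := by rw [hc1]; ring
        _ ≤ (c1 + c2) * (d : ℝ) ^ (-(1 + η / 2)) + c3 * AA Q X d := by
            have g1 : 0 ≤ c2 * (d : ℝ) ^ (-(1 + η / 2)) := by positivity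
            have g2 : 0 ≤ c3 * AA Q X d := mul_nonneg hc3' (hAA0 d)
            nlinarith
    · rw [not_le] at hcase1
      have h1 := hA2 d hds
      by_cases hcase2 : (d : ℝ) ≤ (X : ℝ) ^ 2
      · -- middle divisors
        have h0 : 8 * (X : ℝ) ^ 2 / d + 1 ≤ 9 * (X : ℝ) ^ 2 / d := by
          have : 1 ≤ (X : ℝ) ^ 2 / d := by rwa [le_div_iff₀ hd0, one_mul]
          have e1 : 9 * (X : ℝ) ^ 2 / d = 8 * (X : ℝ) ^ 2 / d + (X : ℝ) ^ 2 / d := by ring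
          rw [e1]
          linarith
        have h2 : AA Q X d ≤ C * (d : ℝ) ^ ε * (9 * (X : ℝ) ^ 2 / d) :=
          h1.trans (mul_le_mul h3w h0 (by positivity) hw0)
        have h3 : AA Q X d ^ 2 ≤ (C * (d : ℝ) ^ ε * (9 * (X : ℝ) ^ 2 / d)) ^ 2 :=
          pow_le_pow_left₀ (hAA0 d) h2 2
        have h4 : (d : ℝ) ^ s * (C * (d : ℝ) ^ ε * (9 * (X : ℝ) ^ 2 / d)) ^ 2 =
            81 * C ^ 2 * (X : ℝ) ^ 4 * ((d : ℝ) ^ s * ((d : ℝ) ^ ε) ^ 2 * ((d : ℝ) ^ 2)⁻¹) := by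
          field_simp
          ring
        have h5 : (d : ℝ) ^ (-(η / 2)) ≤ ((X : ℝ) / Q) ^ (-(η / 2)) := by
          apply Real.rpow_le_rpow_of_nonpos (by positivity) _ (by linarith)
          rw [div_le_iff₀ hQ0', mul_comm]
          exact_mod_cast hcase1.le
        calc (d : ℝ) ^ s * AA Q X d ^ 2
            ≤ (d : ℝ) ^ s * (C * (d : ℝ) ^ ε * (9 * (X : ℝ) ^ 2 / d)) ^ 2 :=
              mul_le_mul_of_nonneg_left h3 (by positivity)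
          _ = 81 * C ^ 2 * (X : ℝ) ^ 4 *
              ((d : ℝ) ^ (-(1 + η / 2)) * (d : ℝ) ^ (-(η / 2))) := by rw [h4, hexp]
          _ ≤ 81 * C ^ 2 * (X : ℝ) ^ 4 *
              ((d : ℝ) ^ (-(1 + η / 2)) * ((X : ℝ) / Q) ^ (-(η / 2))) := by gcongr
          _ = c2 * (d : ℝ) ^ (-(1 + η / 2)) := by rw [hc2]; ring
          _ ≤ (c1 + c2) * (d : ℝ) ^ (-(1 + η / 2)) + c3 * AA Q X d := by
              have g1 : 0 ≤ c1 * (d : ℝ) ^ (-(1 + η / 2)) := by positivity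
              have g2 : 0 ≤ c3 * AA Q X d := mul_nonneg hc3' (hAA0 d)
              nlinarith
      · -- large divisors
        rw [not_le] at hcase2
        have h0 : 8 * (X : ℝ) ^ 2 / d + 1 ≤ 9 := by
          have : (X : ℝ) ^ 2 / d ≤ 1 := by rw [div_le_one hd0]; exact hcase2.le
          have e1 : 8 * (X : ℝ) ^ 2 / d = 8 * ((X : ℝ) ^ 2 / d) := by ring
          rw [e1]
          linarith
        have h2 : AA Q X d ≤ C * (d : ℝ) ^ ε * 9 :=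
          h1.trans (mul_le_mul h3w h0 (by positivity) hw0)
        have h3 : (d : ℝ) ^ s * (C * (d : ℝ) ^ ε * 9) ≤ c3 := by
          have e1 : (d : ℝ) ^ s * (C * (d : ℝ) ^ ε * 9) = 9 * C * (d : ℝ) ^ (s + ε) := by
            rw [Real.rpow_add hd0]
            ring
          rw [e1, hc3]
          apply mul_le_mul_of_nonneg_left _ (by positivity)
          exact Real.rpow_le_rpow hd0.le hd8' (by linarith)
        calc (d : ℝ) ^ s * AA Q X d ^ 2 = (d : ℝ) ^ s * AA Q X d * AA Q X d := by ring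
          _ ≤ (d : ℝ) ^ s * (C * (d : ℝ) ^ ε * 9) * AA Q X d := by
              apply mul_le_mul_of_nonneg_right _ (hAA0 d)
              exact mul_le_mul_of_nonneg_left h2 (by positivity)
          _ ≤ c3 * AA Q X d := mul_le_mul_of_nonneg_right h3 (hAA0 d)
          _ ≤ (c1 + c2) * (d : ℝ) ^ (-(1 + η / 2)) + c3 * AA Q X d := by
              have g1 : 0 ≤ (c1 + c2) * (d : ℝ) ^ (-(1 + η / 2)) := by positivity
              linarith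
  have h1 : GG s Q X ≤ (c1 + c2) * Z + c3 * ((X : ℝ) ^ 2 * (C * (8 * (X : ℝ) ^ 3) ^ ε)) := by
    refine (GG_le_sum s Q X hQ4).trans ((Finset.sum_le_sum key).trans ?_)
    rw [Finset.sum_add_distrib, ← Finset.mul_sum, ← Finset.mul_sum]
    apply add_le_add
    · apply mul_le_mul_of_nonneg_left _ (by positivity)
      rw [hZ]
      exact hsum.sum_le_tsum _ (fun d _ => by positivity)
    · exact mul_le_mul_of_nonneg_left (sum_AA_le Q X hQ4 hX1 ε C hε0 hC hC0) hc3'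
  refine h1.trans ?_
  have hzz : (z : ℝ) ^ (-(η / 2)) ≤ (z : ℝ) ^ (-δ) :=
    Real.rpow_le_rpow_of_exponent_le hz1 (by linarith)
  have hXQ : ((X : ℝ) / Q) ^ (-(η / 2)) ≤ (X : ℝ) ^ (-δ) * Q := by
    rw [Real.div_rpow hX0.le hQ0'.le, div_eq_mul_inv, ← Real.rpow_neg hQ0'.le, neg_neg]
    apply mul_le_mul
    · exact Real.rpow_le_rpow_of_exponent_le hX1' (by linarith)
    · calc (Q : ℝ) ^ (η / 2) ≤ (Q : ℝ) ^ (1 : ℝ) :=
            Real.rpow_le_rpow_of_exponent_le hQ1' (by linarith)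
        _ = Q := Real.rpow_one _
    · positivity
    · positivity
  have hX4 : (X : ℝ) ^ 4 * (X : ℝ) ^ (-δ) = (X : ℝ) ^ (4 - δ) := by
    rw [← Real.rpow_natCast (X : ℝ) 4, ← Real.rpow_add hX0]
    congr 1
  have g1 : c1 * Z ≤ 16 * C ^ 2 * Z * ((X : ℝ) ^ 4 / (Q : ℝ) ^ 4 * (z : ℝ) ^ (-δ)) := by
    rw [hc1]
    calc 16 * C ^ 2 * ((X : ℝ) ^ 4 / (Q : ℝ) ^ 4) * (z : ℝ) ^ (-(η / 2)) * Z
        = 16 * C ^ 2 * Z * ((X : ℝ) ^ 4 / (Q : ℝ) ^ 4 * (z : ℝ) ^ (-(η / 2))) := by ring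
      _ ≤ _ := by gcongr
  have g2 : c2 * Z ≤ 81 * C ^ 2 * Z * ((X : ℝ) ^ (4 - δ) * Q) := by
    rw [hc2]
    calc 81 * C ^ 2 * (X : ℝ) ^ 4 * ((X : ℝ) / Q) ^ (-(η / 2)) * Z
        = 81 * C ^ 2 * Z * ((X : ℝ) ^ 4 * ((X : ℝ) / Q) ^ (-(η / 2))) := by ring
      _ ≤ 81 * C ^ 2 * Z * ((X : ℝ) ^ 4 * ((X : ℝ) ^ (-δ) * Q)) := by gcongr
      _ = 81 * C ^ 2 * Z * ((X : ℝ) ^ (4 - δ) * Q) := by rw [← hX4]; ring
  have g3 : c3 * ((X : ℝ) ^ 2 * (C * (8 * (X : ℝ) ^ 3) ^ ε)) ≤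
      72 * C ^ 2 * ((X : ℝ) ^ (4 - δ) * Q) := by
    have h8X : (0 : ℝ) < 8 * (X : ℝ) ^ 3 := by positivity
    have e1 : c3 * ((X : ℝ) ^ 2 * (C * (8 * (X : ℝ) ^ 3) ^ ε)) =
        9 * C ^ 2 * ((X : ℝ) ^ 2 * (8 * (X : ℝ) ^ 3) ^ (s + ε + ε)) := by
      rw [hc3, Real.rpow_add h8X (s + ε) ε]
      ring
    have e2 : (8 * (X : ℝ) ^ 3) ^ (s + ε + ε) ≤ 8 * (X : ℝ) ^ (3 * (s + ε + ε)) := by
      rw [Real.mul_rpow (by norm_num) (by positivity), ← Real.rpow_natCast (X : ℝ) 3,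
        ← Real.rpow_mul hX0.le]
      apply mul_le_mul _ (le_of_eq (by push_cast; rfl)) (by positivity) (by norm_num)
      calc (8 : ℝ) ^ (s + ε + ε) ≤ (8 : ℝ) ^ (1 : ℝ) :=
            Real.rpow_le_rpow_of_exponent_le (by norm_num) (by linarith)
        _ = 8 := Real.rpow_one _
    have e3 : (X : ℝ) ^ 2 * (X : ℝ) ^ (3 * (s + ε + ε)) ≤ (X : ℝ) ^ (4 - δ) := by
      rw [← Real.rpow_natCast (X : ℝ) 2, ← Real.rpow_add hX0]
      apply Real.rpow_le_rpow_of_exponent_le hX1'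
      rw [hε]
      push_cast
      linarith
    have e4 : (X : ℝ) ^ (4 - δ) ≤ (X : ℝ) ^ (4 - δ) * Q :=
      le_mul_of_one_le_right (by positivity) hQ1'
    rw [e1]
    calc 9 * C ^ 2 * ((X : ℝ) ^ 2 * (8 * (X : ℝ) ^ 3) ^ (s + ε + ε))
        ≤ 9 * C ^ 2 * ((X : ℝ) ^ 2 * (8 * (X : ℝ) ^ (3 * (s + ε + ε)))) := by gcongr
      _ = 72 * C ^ 2 * ((X : ℝ) ^ 2 * (X : ℝ) ^ (3 * (s + ε + ε))) := by ring
      _ ≤ 72 * C ^ 2 * ((X : ℝ) ^ (4 - δ) * Q) := by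
          apply mul_le_mul_of_nonneg_left (e3.trans e4) (by positivity)
  obtain ⟨u, hu⟩ : ∃ u : ℝ, u = (X : ℝ) ^ 4 / (Q : ℝ) ^ 4 * (z : ℝ) ^ (-δ) := ⟨_, rfl⟩
  obtain ⟨v, hv⟩ : ∃ v : ℝ, v = (X : ℝ) ^ (4 - δ) * Q := ⟨_, rfl⟩
  have hu0 : 0 ≤ u := by rw [hu]; positivity
  have hv0 : 0 ≤ v := by rw [hv]; positivity
  rw [← hu] at g1 ⊢
  rw [← hv] at g2 g3 ⊢
  have h72 : 0 ≤ 72 * C ^ 2 * u := by positivity
  have h81 : 0 ≤ 81 * C ^ 2 * Z * u := by positivity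
  have h16 : 0 ≤ 16 * C ^ 2 * Z * v := by positivity
  calc (c1 + c2) * Z + c3 * ((X : ℝ) ^ 2 * (C * (8 * (X : ℝ) ^ 3) ^ ε))
      = c1 * Z + c2 * Z + c3 * ((X : ℝ) ^ 2 * (C * (8 * (X : ℝ) ^ 3) ^ ε)) := by ring
    _ ≤ 16 * C ^ 2 * Z * u + 81 * C ^ 2 * Z * v + 72 * C ^ 2 * v := by linarith
    _ ≤ 16 * C ^ 2 * Z * u + 81 * C ^ 2 * Z * v + 72 * C ^ 2 * v +
        (72 * C ^ 2 * u + 81 * C ^ 2 * Z * u + 16 * C ^ 2 * Z * v) := by linarith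
    _ = (16 * C ^ 2 * Z + 81 * C ^ 2 * Z + 72 * C ^ 2) * (u + v) := by ring

end Pool.Agent.Lib.AbcU
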