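import Pool.Agent.Lib.AbcU.RPr2

/-!
# The weighted second moment method for random sets of primes
-/

open MeasureTheory ProbabilityTheory Finset

namespace Pool.Agent.Lib.AbcU

variable {Ω : Type*} [MeasurableSpace Ω] {τ : Type*}

open Classical in
/-- The second moment method, with weights. -/
theorem second_moment_w (μ : Measure Ω) [IsProbabilityMeasure μ] (T : Finset τ) (B : τ → Set Ω)
    (c : τ → ℝ) (hB : ∀ t ∈ T, MeasurableSet (B t)) :
    (∑ t ∈ T, c t * μ.real (B t)) ^ 2 * μ.real {ω | ∀ t ∈ T, ω ∉ B t} ≤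
      ∑ t ∈ T, ∑ t' ∈ T, c t * c t' * (μ.real (B t ∩ B t') - μ.real (B t) * μ.real (B t')) := by
  obtain ⟨f, hf⟩ : ∃ f : Ω → ℝ, f = fun ω => ∑ t ∈ T, (B t).indicator (fun _ => c t) ω :=
    ⟨_, rfl⟩
  obtain ⟨m, hm⟩ : ∃ m : ℝ, m = ∑ t ∈ T, c t * μ.real (B t) := ⟨_, rfl⟩
  have hprod : ∀ t t' : τ, (fun ω => (B t).indicator (fun _ => c t) ω *
        (B t').indicator (fun _ => c t') ω) = (B t ∩ B t').indicator (fun _ => c t * c t') := by
    intro t t'
    funext ω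
    by_cases h1 : ω ∈ B t
    · by_cases h2 : ω ∈ B t'
      · simp [Set.indicator, h1, h2]
      · simp [Set.indicator, h1, h2]
    · simp [Set.indicator, h1]
  have hint : ∀ t ∈ T, ∀ t' ∈ T, Integrable (fun ω => (B t).indicator (fun _ => c t) ω *
      (B t').indicator (fun _ => c t') ω) μ := by
    intro t ht t' ht'
    rw [hprod]
    exact (integrable_const _).indicator ((hB t ht).inter (hB t' ht'))
  have hint1 : ∀ t ∈ T, Integrable ((B t).indicator (fun _ => c t)) μ := fun t ht =>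
    (integrable_const _).indicator (hB t ht)
  have hI : ∀ t ∈ T, ∫ ω, (B t).indicator (fun _ => c t) ω ∂μ = c t * μ.real (B t) := by
    intro t ht
    rw [integral_indicator_const _ (hB t ht), smul_eq_mul, mul_comm]
  have hI2 : ∀ t ∈ T, ∀ t' ∈ T, ∫ ω, (B t).indicator (fun _ => c t) ω *
      (B t').indicator (fun _ => c t') ω ∂μ = c t * c t' * μ.real (B t ∩ B t') := by
    intro t ht t' ht'
    rw [hprod, integral_indicator_const _ ((hB t ht).inter (hB t' ht')), smul_eq_mul, mul_comm]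
  have hfint : Integrable f μ := by
    rw [hf]
    exact integrable_finsetSum _ hint1
  have hf2int : Integrable (fun ω => f ω * f ω) μ := by
    have h1 : (fun ω => f ω * f ω) = fun ω => ∑ t ∈ T, ∑ t' ∈ T,
        (B t).indicator (fun _ => c t) ω * (B t').indicator (fun _ => c t') ω := by
      funext ω
      rw [hf, Finset.sum_mul_sum]
    rw [h1]
    exact integrable_finsetSum _ (fun t ht => integrable_finsetSum _ (fun t' ht' => hint t ht t' ht'))
  have hEf : ∫ ω, f ω ∂μ = m := by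
    rw [hf, integral_finsetSum _ hint1, hm]
    exact Finset.sum_congr rfl hI
  have hEf2 : ∫ ω, f ω * f ω ∂μ = ∑ t ∈ T, ∑ t' ∈ T, c t * c t' * μ.real (B t ∩ B t') := by
    have h1 : (fun ω => f ω * f ω) = fun ω => ∑ t ∈ T, ∑ t' ∈ T,
        (B t).indicator (fun _ => c t) ω * (B t').indicator (fun _ => c t') ω := by
      funext ω
      rw [hf, Finset.sum_mul_sum]
    rw [h1, integral_finsetSum _ (fun t ht => integrable_finsetSum _ (fun t' ht' => hint t ht t' ht'))]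
    apply Finset.sum_congr rfl
    intro t ht
    rw [integral_finsetSum _ (fun t' ht' => hint t ht t' ht')]
    exact Finset.sum_congr rfl (fun t' ht' => hI2 t ht t' ht')
  -- the variance
  have hvar : ∫ ω, (f ω - m) ^ 2 ∂μ =
      ∑ t ∈ T, ∑ t' ∈ T, c t * c t' * μ.real (B t ∩ B t') - m ^ 2 := by
    have h1 : (fun ω => (f ω - m) ^ 2) = fun ω => f ω * f ω - 2 * m * f ω + m ^ 2 := by
      funext ω
      ring
    have hg : Integrable (fun ω => 2 * m * f ω) μ := hfint.const_mul _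
    have hfg : Integrable (fun ω => f ω * f ω - 2 * m * f ω) μ := hf2int.sub hg
    rw [h1, integral_add hfg (integrable_const _), integral_sub hf2int hg, integral_const_mul,
      hEf, hEf2]
    simp
    ring
  have hvint : Integrable (fun ω => (f ω - m) ^ 2) μ := by
    have h1 : (fun ω => (f ω - m) ^ 2) = fun ω => f ω * f ω - 2 * m * f ω + m ^ 2 := by
      funext ω
      ring
    rw [h1]
    exact (hf2int.sub (hfint.const_mul _)).add (integrable_const _)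
  have hmark := mul_meas_ge_le_integral_of_nonneg (μ := μ) (f := fun ω => (f ω - m) ^ 2)
    (Filter.Eventually.of_forall (fun ω => sq_nonneg _)) hvint (m ^ 2)
  have hsub : {ω | ∀ t ∈ T, ω ∉ B t} ⊆ {ω | m ^ 2 ≤ (f ω - m) ^ 2} := by
    intro ω hω
    have h1 : f ω = 0 := by
      rw [hf]
      apply Finset.sum_eq_zero
      intro t ht
      exact Set.indicator_of_notMem (hω t ht) _
    simp only [Set.mem_ofPred_eq, h1]
    rw [zero_sub, neg_sq]
  have h1 : m ^ 2 * μ.real {ω | ∀ t ∈ T, ω ∉ B t} ≤ ∫ ω, (f ω - m) ^ 2 ∂μ := by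
    refine le_trans ?_ hmark
    apply mul_le_mul_of_nonneg_left _ (sq_nonneg _)
    exact measureReal_mono hsub
  rw [← hm]
  refine h1.trans (le_of_eq ?_)
  rw [hvar, hm, sq, Finset.sum_mul_sum, ← Finset.sum_sub_distrib]
  apply Finset.sum_congr rfl
  intro t _
  rw [← Finset.sum_sub_distrib]
  apply Finset.sum_congr rfl
  intro t' _
  ring

/-- The radical. -/
def ρ (n : ℕ) : ℕ := ∏ p ∈ n.primeFactors, p

theorem ρ_pos (n : ℕ) : 1 ≤ ρ n :=
  Finset.prod_pos (fun _ hp => (Nat.prime_of_mem_primeFactors hp).pos)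

theorem ρ_dvd (n : ℕ) : ρ n ∣ n := Nat.prod_primeFactors_dvd n

theorem primeFactors_ρ (n : ℕ) : (ρ n).primeFactors = n.primeFactors :=
  Nat.primeFactors_prod (fun _ hp => Nat.prime_of_mem_primeFactors hp)

theorem ρ_squarefree (n : ℕ) : Squarefree (ρ n) := by
  have h := UniqueFactorizationMonoid.squarefree_radical (a := n)
  rwa [Nat.radical_eq_prod_primeFactors] at h

theorem ρ_mul (n n' : ℕ) (hn : n ≠ 0) (hn' : n' ≠ 0) :
    ρ n * ρ n' = ρ (Nat.lcm n n') * ρ (Nat.gcd n n') := by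
  have h1 : (Nat.lcm n n').primeFactors = n.primeFactors ∪ n'.primeFactors := by
    ext p
    rw [Finset.mem_union, Nat.mem_primeFactors, Nat.mem_primeFactors, Nat.mem_primeFactors]
    constructor
    · rintro ⟨h1, h2, _⟩
      rcases (Nat.Prime.dvd_lcm h1).mp h2 with h3 | h3
      · exact Or.inl ⟨h1, h3, hn⟩
      · exact Or.inr ⟨h1, h3, hn'⟩
    · rintro (⟨h1, h2, _⟩ | ⟨h1, h2, _⟩)
      · exact ⟨h1, h2.trans (Nat.dvd_lcm_left _ _), Nat.lcm_ne_zero hn hn'⟩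
      · exact ⟨h1, h2.trans (Nat.dvd_lcm_right _ _), Nat.lcm_ne_zero hn hn'⟩
  have h2 : (Nat.gcd n n').primeFactors = n.primeFactors ∩ n'.primeFactors :=
    Nat.primeFactors_gcd hn hn'
  unfold ρ
  rw [h1, h2]
  exact (Finset.prod_union_inter).symm

theorem Bn_prob_w (μ : Measure Ω) (S : Ω → Set ℕ) (s : ℝ)
    (hind : iIndepSet (fun p : Nat.Primes => {ω | (p : ℕ) ∈ S ω}) μ)
    (n : ℕ) (hodd : ∀ p : Nat.Primes, (p : ℕ) ∈ n.primeFactors →
      μ {ω | (p : ℕ) ∈ S ω} = ENNReal.ofReal ((p : ℝ) ^ (-s))) :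
    μ.real (Bn S n) = (ρ n : ℝ) ^ (-s) := by
  have h1 : μ (Bn S n) = ENNReal.ofReal ((ρ n : ℝ) ^ (-s)) := by
    rw [Bn_eq]
    have h1 := (iIndepSet_iff _ _).mp hind (PF n) (f := fun p => {ω | (p : ℕ) ∈ S ω})
      (fun p _ => MeasurableSpace.measurableSet_generateFrom (Set.mem_singleton _))
    rw [h1]
    have h2 : ∏ p ∈ PF n, μ {ω | (p : ℕ) ∈ S ω} =
        ∏ p ∈ PF n, ENNReal.ofReal ((p : ℝ) ^ (-s)) := by
      apply Finset.prod_congr rfl
      intro p hp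
      exact hodd p ((mem_PF n p).mp hp)
    rw [h2]
    have h3 : ∏ p ∈ PF n, ENNReal.ofReal ((p : ℝ) ^ (-s)) =
        ∏ p ∈ n.primeFactors, ENNReal.ofReal ((p : ℝ) ^ (-s)) :=
      Finset.prod_subtype_of_mem (fun p : ℕ => ENNReal.ofReal ((p : ℝ) ^ (-s)))
        (fun p hp => Nat.prime_of_mem_primeFactors hp)
    rw [h3, ← ENNReal.ofReal_prod_of_nonneg (fun p _ => by positivity)]
    congr 1
    rw [Real.finsetProd_rpow _ _ (fun p _ => Nat.cast_nonneg p), ← Nat.cast_prod]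
    rfl
  rw [Measure.real, h1, ENNReal.toReal_ofReal (by positivity)]

/-- The probability that no member of the family is contained in the random set. -/
theorem noneW_le (μ : Measure Ω) (S : Ω → Set ℕ) (s : ℝ)
    (hS : ∀ p : Nat.Primes, MeasurableSet {ω | (p : ℕ) ∈ S ω})
    (hind : iIndepSet (fun p : Nat.Primes => {ω | (p : ℕ) ∈ S ω}) μ)
    (z : ℕ) (hodd : ∀ p : Nat.Primes, z < (p : ℕ) →
      μ {ω | (p : ℕ) ∈ S ω} = ENNReal.ofReal ((p : ℝ) ^ (-s)))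
    (T : Finset τ) (n : τ → ℕ) (hn0 : ∀ t ∈ T, n t ≠ 0)
    (hbig : ∀ t ∈ T, ∀ p : ℕ, p.Prime → p ∣ n t → z < p) :
    (T.card : ℝ) ^ 2 * μ.real {ω | ∀ t ∈ T, ω ∉ Bn S (n t)} ≤
      ∑ t ∈ T, ∑ t' ∈ T, if 1 < ρ (Nat.gcd (n t) (n t')) then
        (ρ (Nat.gcd (n t) (n t')) : ℝ) ^ s else 0 := by
  have := hind.isProbabilityMeasure
  have hP : ∀ t ∈ T, μ.real (Bn S (n t)) = (ρ (n t) : ℝ) ^ (-s) := fun t ht =>
    Bn_prob_w μ S s hind _ (fun p hp => hodd p
      (hbig t ht p p.2 (Nat.dvd_of_mem_primeFactors hp)))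
  have hρ0 : ∀ m : ℕ, (0 : ℝ) < ρ m := fun m => by exact_mod_cast ρ_pos m
  have hsm := second_moment_w μ T (fun t => Bn S (n t)) (fun t => (ρ (n t) : ℝ) ^ s)
    (fun t _ => Bn_meas S hS _)
  have h1 : ∑ t ∈ T, (ρ (n t) : ℝ) ^ s * μ.real (Bn S (n t)) = T.card := by
    have h2 : ∀ t ∈ T, (ρ (n t) : ℝ) ^ s * μ.real (Bn S (n t)) = 1 := by
      intro t ht
      rw [hP t ht, ← Real.rpow_add (hρ0 _)]
      simp
    rw [Finset.sum_congr rfl h2]
    simp
  rw [h1] at hsm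
  refine hsm.trans ?_
  apply Finset.sum_le_sum
  intro t ht
  apply Finset.sum_le_sum
  intro t' ht'
  obtain ⟨g, hg⟩ : ∃ g : ℕ, g = ρ (Nat.gcd (n t) (n t')) := ⟨_, rfl⟩
  have hg1 : 1 ≤ g := by rw [hg]; exact ρ_pos _
  have hg0 : (0 : ℝ) < g := by exact_mod_cast hg1
  have hgl : (ρ (n t) : ℝ) * ρ (n t') = (ρ (Nat.lcm (n t) (n t')) : ℝ) * g := by
    rw [hg]
    exact_mod_cast ρ_mul (n t) (n t') (hn0 t ht) (hn0 t' ht')
  have hl : μ.real (Bn S (Nat.lcm (n t) (n t'))) = (ρ (Nat.lcm (n t) (n t')) : ℝ) ^ (-s) := by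
    apply Bn_prob_w μ S s hind
    intro p hp
    have hp1 := Nat.dvd_of_mem_primeFactors hp
    rcases (Nat.Prime.dvd_lcm p.2).mp hp1 with h3 | h3
    · exact hodd p (hbig t ht p p.2 h3)
    · exact hodd p (hbig t' ht' p p.2 h3)
  rw [Bn_inter S _ _ (hn0 t ht) (hn0 t' ht'), hl, hP t ht, hP t' ht', ← hg]
  have e1 : (ρ (n t) : ℝ) ^ s * (ρ (n t') : ℝ) ^ s *
      ((ρ (Nat.lcm (n t) (n t')) : ℝ) ^ (-s) - (ρ (n t) : ℝ) ^ (-s) * (ρ (n t') : ℝ) ^ (-s)) =
      (g : ℝ) ^ s - 1 := by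
    have e2 : (ρ (n t) : ℝ) ^ s * (ρ (n t') : ℝ) ^ s =
        (ρ (Nat.lcm (n t) (n t')) : ℝ) ^ s * (g : ℝ) ^ s := by
      rw [← Real.mul_rpow (hρ0 _).le (hρ0 _).le, hgl, Real.mul_rpow (hρ0 _).le hg0.le]
    have e3 : ∀ m : ℕ, (ρ m : ℝ) ^ s * (ρ m : ℝ) ^ (-s) = 1 := by
      intro m
      rw [← Real.rpow_add (hρ0 _)]
      simp
    calc (ρ (n t) : ℝ) ^ s * (ρ (n t') : ℝ) ^ s *
        ((ρ (Nat.lcm (n t) (n t')) : ℝ) ^ (-s) - (ρ (n t) : ℝ) ^ (-s) * (ρ (n t') : ℝ) ^ (-s))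
        = ((ρ (n t) : ℝ) ^ s * (ρ (n t') : ℝ) ^ s) * (ρ (Nat.lcm (n t) (n t')) : ℝ) ^ (-s) -
          ((ρ (n t) : ℝ) ^ s * (ρ (n t) : ℝ) ^ (-s)) *
            ((ρ (n t') : ℝ) ^ s * (ρ (n t') : ℝ) ^ (-s)) := by ring
      _ = (g : ℝ) ^ s * ((ρ (Nat.lcm (n t) (n t')) : ℝ) ^ s *
            (ρ (Nat.lcm (n t) (n t')) : ℝ) ^ (-s)) - 1 := by
          rw [e2, e3, e3]
          ring
      _ = (g : ℝ) ^ s - 1 := by rw [e3]; ring
  rw [e1]
  by_cases hgg : 1 < g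
  · rw [if_pos hgg]
    linarith
  · rw [if_neg hgg]
    have hge : g = 1 := by omega
    rw [hge]
    simp

end Pool.Agent.Lib.AbcU
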