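import Pool.Agent.Lib.AbcU.RW1
import Pool.Agent.Lib.AbcU.RSum

/-!
# The weighted second moment method: the sum over the divisors
-/

open MeasureTheory ProbabilityTheory Finset

namespace Pool.Agent.Lib.AbcU

variable {Ω : Type*} [MeasurableSpace Ω] {τ : Type*}

/-- The number of the members divisible by `d`. -/
noncomputable def AW (T : Finset τ) (n : τ → ℕ) (d : ℕ) : ℝ := ((T.filter (fun t => d ∣ n t)).card : ℝ)

/-- The possible values of the radical of the greatest common divisor. -/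
def DW (R : ℕ) : Finset ℕ := (Finset.Icc 2 R).filter Squarefree

theorem sum_gcd_le (s : ℝ) (T : Finset τ) (n : τ → ℕ) (R : ℕ) (hn0 : ∀ t ∈ T, n t ≠ 0)
    (hR : ∀ t ∈ T, n t ≤ R) :
    (∑ t ∈ T, ∑ t' ∈ T, if 1 < ρ (Nat.gcd (n t) (n t')) then
        (ρ (Nat.gcd (n t) (n t')) : ℝ) ^ s else 0) ≤ ∑ d ∈ DW R, (d : ℝ) ^ s * AW T n d ^ 2 := by
  classical
  obtain ⟨D, hD⟩ : ∃ D : Finset ℕ, D = DW R := ⟨_, rfl⟩
  rw [← hD]
  have h1 : (∑ t ∈ T, ∑ t' ∈ T, if 1 < ρ (Nat.gcd (n t) (n t')) then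
        (ρ (Nat.gcd (n t) (n t')) : ℝ) ^ s else 0) ≤ ∑ t ∈ T, ∑ t' ∈ T, ∑ d ∈ D,
      (if d ∣ n t then (1 : ℝ) else 0) * (if d ∣ n t' then (1 : ℝ) else 0) * (d : ℝ) ^ s := by
    apply Finset.sum_le_sum
    intro t ht
    apply Finset.sum_le_sum
    intro t' ht'
    have hnn : ∀ d ∈ D, 0 ≤ (if d ∣ n t then (1 : ℝ) else 0) *
        (if d ∣ n t' then (1 : ℝ) else 0) * (d : ℝ) ^ s := by
      intro d _
      have h2 : (0 : ℝ) ≤ if d ∣ n t then (1 : ℝ) else 0 := by split_ifs <;> norm_num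
      have h3 : (0 : ℝ) ≤ if d ∣ n t' then (1 : ℝ) else 0 := by split_ifs <;> norm_num
      positivity
    obtain ⟨g, hg⟩ : ∃ g : ℕ, g = ρ (Nat.gcd (n t) (n t')) := ⟨_, rfl⟩
    rw [← hg]
    by_cases hgg : 1 < g
    · rw [if_pos hgg]
      have hg1 : g ∣ n t := by rw [hg]; exact (ρ_dvd _).trans (Nat.gcd_dvd_left _ _)
      have hg2 : g ∣ n t' := by rw [hg]; exact (ρ_dvd _).trans (Nat.gcd_dvd_right _ _)
      have hgD : g ∈ D := by
        rw [hD, DW, Finset.mem_filter, Finset.mem_Icc]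
        refine ⟨⟨hgg, (Nat.le_of_dvd (Nat.pos_of_ne_zero (hn0 t ht)) hg1).trans (hR t ht)⟩, ?_⟩
        rw [hg]
        exact ρ_squarefree _
      refine le_trans (le_of_eq ?_) (Finset.single_le_sum hnn hgD)
      rw [if_pos hg1, if_pos hg2]
      ring
    · rw [if_neg hgg]
      exact Finset.sum_nonneg hnn
  refine h1.trans (le_of_eq ?_)
  have h2 : ∀ t ∈ T, ∑ t' ∈ T, ∑ d ∈ D,
      (if d ∣ n t then (1 : ℝ) else 0) * (if d ∣ n t' then (1 : ℝ) else 0) * (d : ℝ) ^ s =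
      ∑ d ∈ D, ∑ t' ∈ T,
        (if d ∣ n t then (1 : ℝ) else 0) * (if d ∣ n t' then (1 : ℝ) else 0) * (d : ℝ) ^ s :=
    fun t _ => Finset.sum_comm
  rw [Finset.sum_congr rfl h2, Finset.sum_comm]
  apply Finset.sum_congr rfl
  intro d _
  have h3 : AW T n d = ∑ t ∈ T, (if d ∣ n t then (1 : ℝ) else 0) := by
    unfold AW
    rw [Finset.sum_boole]
  rw [h3, sq, Finset.sum_mul_sum, Finset.mul_sum]
  apply Finset.sum_congr rfl
  intro t _
  rw [Finset.mul_sum]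
  apply Finset.sum_congr rfl
  intro t' _
  ring

/-- The number of the squarefree divisors. -/
theorem card_sqf_le (m : ℕ) (hm : m ≠ 0) (D : Finset ℕ) (hD : ∀ d ∈ D, Squarefree d ∧ d ∣ m) :
    D.card ≤ 2 ^ m.primeFactors.card := by
  have h1 : D ⊆ (ρ m).divisors := by
    intro d hd
    obtain ⟨h1, h2⟩ := hD d hd
    rw [Nat.mem_divisors]
    refine ⟨?_, by have := ρ_pos m; omega⟩
    have h3 : ∏ p ∈ d.primeFactors, p = d := Nat.prod_primeFactors_of_squarefree h1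
    rw [← h3]
    exact Finset.prod_dvd_prod_of_subset _ _ _ (Nat.primeFactors_mono h2 hm)
  have h2 := card_divisors_squarefree (ρ_squarefree m)
  rw [primeFactors_ρ] at h2
  exact (Finset.card_le_card h1).trans h2

/-- The sum of the counts over `d`. -/
theorem sum_AW_le (T : Finset τ) (n : τ → ℕ) (R : ℕ) (hn0 : ∀ t ∈ T, n t ≠ 0)
    (hR : ∀ t ∈ T, n t ≤ R) (ε C : ℝ) (hε : 0 < ε)
    (hC : ∀ P : ℕ, 1 ≤ P → (4 : ℝ) ^ P.primeFactors.card ≤ C * (P : ℝ) ^ ε) (hC0 : 0 ≤ C) :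
    ∑ d ∈ DW R, AW T n d ≤ T.card * (C * (R : ℝ) ^ ε) := by
  classical
  obtain ⟨D, hD⟩ : ∃ D : Finset ℕ, D = DW R := ⟨_, rfl⟩
  rw [← hD]
  have h1 : ∑ d ∈ D, AW T n d = ∑ t ∈ T, ((D.filter (fun d => d ∣ n t)).card : ℝ) := by
    unfold AW
    have h2 : ∀ d ∈ D, ((T.filter (fun t => d ∣ n t)).card : ℝ) =
        ∑ t ∈ T, (if d ∣ n t then (1 : ℝ) else 0) := fun d _ => by rw [Finset.sum_boole]
    rw [Finset.sum_congr rfl h2, Finset.sum_comm]
    apply Finset.sum_congr rfl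
    intro t _
    rw [Finset.sum_boole]
  rw [h1]
  have h3 : ∀ t ∈ T, ((D.filter (fun d => d ∣ n t)).card : ℝ) ≤ C * (R : ℝ) ^ ε := by
    intro t ht
    have hnt := hn0 t ht
    have h5 := card_sqf_le (n t) hnt (D.filter (fun d => d ∣ n t)) (by
      intro d hd
      rw [Finset.mem_filter, hD, DW, Finset.mem_filter] at hd
      exact ⟨hd.1.2, hd.2⟩)
    calc ((D.filter (fun d => d ∣ n t)).card : ℝ)
        ≤ ((2 ^ (n t).primeFactors.card : ℕ) : ℝ) := by exact_mod_cast h5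
      _ = (2 : ℝ) ^ (n t).primeFactors.card := by push_cast; rfl
      _ ≤ (4 : ℝ) ^ (n t).primeFactors.card :=
          pow_le_pow_left₀ (by norm_num) (by norm_num) _
      _ ≤ C * (n t : ℝ) ^ ε := hC _ (Nat.pos_of_ne_zero hnt)
      _ ≤ C * (R : ℝ) ^ ε := by
          apply mul_le_mul_of_nonneg_left _ hC0
          apply Real.rpow_le_rpow (Nat.cast_nonneg _) _ hε.le
          exact_mod_cast hR t ht
  calc ∑ t ∈ T, ((D.filter (fun d => d ∣ n t)).card : ℝ)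
      ≤ T.card • (C * (R : ℝ) ^ ε) := Finset.sum_le_card_nsmul _ _ _ h3
    _ = T.card * (C * (R : ℝ) ^ ε) := nsmul_eq_mul _ _

/-- The divisors which occur are larger than `z`. -/
theorem lt_of_AW (T : Finset τ) (n : τ → ℕ) (R z : ℕ)
    (hbig : ∀ t ∈ T, ∀ p : ℕ, p.Prime → p ∣ n t → z < p) {d : ℕ}
    (hd : d ∈ DW R) (hA : AW T n d ≠ 0) : z < d := by
  classical
  have h1 : (T.filter (fun t => d ∣ n t)).Nonempty := by
    rw [Finset.nonempty_iff_ne_empty]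
    intro h
    apply hA
    unfold AW
    rw [h]
    simp
  obtain ⟨t, ht⟩ := h1
  rw [Finset.mem_filter] at ht
  rw [DW, Finset.mem_filter, Finset.mem_Icc] at hd
  have hd1 : d ≠ 1 := by omega
  have hp := Nat.minFac_prime hd1
  have hpd : d.minFac ∣ n t := (Nat.minFac_dvd d).trans ht.2
  exact (hbig t ht.1 _ hp hpd).trans_le (Nat.minFac_le (by omega))

/-- The bound for the sum over the divisors. -/
theorem sum_DW_le (s ε : ℝ) (hs0 : 0 < s) (hε0 : 0 < ε) (hη0 : 0 < 1 - s - 2 * ε) :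
    ∃ K : ℝ, 0 ≤ K ∧ ∀ (T : Finset τ) (n : τ → ℕ) (R z Q : ℕ) (B D₀ : ℝ),
      1 ≤ z → 0 < Q → 0 < B → 0 < D₀ → (∀ t ∈ T, n t ≠ 0) → (∀ t ∈ T, n t ≤ R) →
      (∀ t ∈ T, ∀ p : ℕ, p.Prime → p ∣ n t → z < p) → (T.card : ℝ) ≤ B →
      (∀ d : ℕ, Squarefree d → (Q * d : ℝ) ≤ D₀ →
        AW T n d ≤ 3 ^ d.primeFactors.card * (4 * B / ((Q : ℝ) ^ 2 * d))) →
      (∀ d : ℕ, Squarefree d → AW T n d ≤ 3 ^ d.primeFactors.card * (8 * B / d + 1)) →
      ∑ d ∈ DW R, (d : ℝ) ^ s * AW T n d ^ 2 ≤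
        K * (B ^ 2 / (Q : ℝ) ^ 4 * (z : ℝ) ^ (-((1 - s - 2 * ε) / 2)) +
          B ^ 2 * (D₀ / Q) ^ (-((1 - s - 2 * ε) / 2)) + B * (R : ℝ) ^ (s + 2 * ε)) := by
  classical
  obtain ⟨η, hη⟩ : ∃ η : ℝ, η = 1 - s - 2 * ε := ⟨_, rfl⟩
  rw [← hη] at hη0 ⊢
  obtain ⟨C, hC1, hC⟩ := Pool.Agent.Lib.AbcS.four_pow_le ε hε0
  have hC0 : 0 ≤ C := by linarith
  have hsum : Summable (fun d : ℕ => (d : ℝ) ^ (-(1 + η / 2))) :=
    Real.summable_nat_rpow.mpr (by linarith)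
  obtain ⟨Z, hZ⟩ : ∃ Z : ℝ, Z = ∑' d : ℕ, (d : ℝ) ^ (-(1 + η / 2)) := ⟨_, rfl⟩
  have hZ0 : 0 ≤ Z := by rw [hZ]; exact tsum_nonneg (fun d => by positivity)
  refine ⟨16 * C ^ 2 * Z + 81 * C ^ 2 * Z + 9 * C ^ 2, by positivity, ?_⟩
  intro T n R z Q B D₀ hz hQ0 hB0 hD0 hn0 hR hbig hTB hA1 hA2
  have hQ0' : (0 : ℝ) < Q := by exact_mod_cast hQ0
  have hz0 : (0 : ℝ) < z := by exact_mod_cast hz
  obtain ⟨c1, hc1⟩ : ∃ c1 : ℝ, c1 = 16 * C ^ 2 * (B ^ 2 / (Q : ℝ) ^ 4) *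
    (z : ℝ) ^ (-(η / 2)) := ⟨_, rfl⟩
  obtain ⟨c2, hc2⟩ : ∃ c2 : ℝ, c2 = 81 * C ^ 2 * B ^ 2 *
    (D₀ / Q) ^ (-(η / 2)) := ⟨_, rfl⟩
  obtain ⟨c3, hc3⟩ : ∃ c3 : ℝ, c3 = 9 * C * (R : ℝ) ^ (s + ε) := ⟨_, rfl⟩
  have hc1' : 0 ≤ c1 := by rw [hc1]; positivity
  have hc2' : 0 ≤ c2 := by rw [hc2]; positivity
  have hc3' : 0 ≤ c3 := by rw [hc3]; positivity
  have hAA0 : ∀ d, 0 ≤ AW T n d := fun d => by unfold AW; positivity
  have key : ∀ d ∈ DW R, (d : ℝ) ^ s * AW T n d ^ 2 ≤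
      (c1 + c2) * (d : ℝ) ^ (-(1 + η / 2)) + c3 * AW T n d := by
    intro d hd
    by_cases hA : AW T n d = 0
    · rw [hA]
      have : 0 ≤ (c1 + c2) * (d : ℝ) ^ (-(1 + η / 2)) := by positivity
      simpa using this
    have hzd := lt_of_AW T n R z hbig hd hA
    rw [DW, Finset.mem_filter, Finset.mem_Icc] at hd
    obtain ⟨⟨hd2, hdR⟩, hds⟩ := hd
    have hd0 : (0 : ℝ) < d := by exact_mod_cast (by omega : 0 < d)
    have hdR' : (d : ℝ) ≤ R := by exact_mod_cast hdR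
    have h3w : (3 : ℝ) ^ d.primeFactors.card ≤ C * (d : ℝ) ^ ε :=
      (pow_le_pow_left₀ (by norm_num) (by norm_num) _).trans (hC d (by omega))
    have hw0 : 0 ≤ C * (d : ℝ) ^ ε := by positivity
    have hexp : (d : ℝ) ^ s * ((d : ℝ) ^ ε) ^ 2 * ((d : ℝ) ^ 2)⁻¹ =
        (d : ℝ) ^ (-(1 + η / 2)) * (d : ℝ) ^ (-(η / 2)) := by
      rw [← Real.rpow_natCast ((d : ℝ) ^ ε) 2, ← Real.rpow_mul hd0.le,
        ← Real.rpow_natCast (d : ℝ) 2, ← Real.rpow_neg hd0.le, ← Real.rpow_add hd0,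
        ← Real.rpow_add hd0, ← Real.rpow_add hd0]
      congr 1
      rw [hη]
      push_cast
      ring
    by_cases hcase1 : (Q * d : ℝ) ≤ D₀
    · -- small divisors
      have h1 := hA1 d hds hcase1
      have h2 : AW T n d ≤ C * (d : ℝ) ^ ε * (4 * B / ((Q : ℝ) ^ 2 * d)) :=
        h1.trans (mul_le_mul_of_nonneg_right h3w (by positivity))
      have h3 : AW T n d ^ 2 ≤ (C * (d : ℝ) ^ ε * (4 * B / ((Q : ℝ) ^ 2 * d))) ^ 2 :=
        pow_le_pow_left₀ (hAA0 d) h2 2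
      have h4 : (d : ℝ) ^ s * (C * (d : ℝ) ^ ε * (4 * B / ((Q : ℝ) ^ 2 * d))) ^ 2 =
          16 * C ^ 2 * (B ^ 2 / (Q : ℝ) ^ 4) *
            ((d : ℝ) ^ s * ((d : ℝ) ^ ε) ^ 2 * ((d : ℝ) ^ 2)⁻¹) := by
        field_simp
        ring
      have h5 : (d : ℝ) ^ (-(η / 2)) ≤ (z : ℝ) ^ (-(η / 2)) :=
        Real.rpow_le_rpow_of_nonpos hz0 (by exact_mod_cast hzd.le) (by linarith)
      calc (d : ℝ) ^ s * AW T n d ^ 2
          ≤ (d : ℝ) ^ s * (C * (d : ℝ) ^ ε * (4 * B / ((Q : ℝ) ^ 2 * d))) ^ 2 :=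
            mul_le_mul_of_nonneg_left h3 (by positivity)
        _ = 16 * C ^ 2 * (B ^ 2 / (Q : ℝ) ^ 4) *
            ((d : ℝ) ^ (-(1 + η / 2)) * (d : ℝ) ^ (-(η / 2))) := by rw [h4, hexp]
        _ ≤ 16 * C ^ 2 * (B ^ 2 / (Q : ℝ) ^ 4) *
            ((d : ℝ) ^ (-(1 + η / 2)) * (z : ℝ) ^ (-(η / 2))) := by gcongr
        _ = c1 * (d : ℝ) ^ (-(1 + η / 2)) := by rw [hc1]; ring
        _ ≤ (c1 + c2) * (d : ℝ) ^ (-(1 + η / 2)) + c3 * AW T n d := by
            have g1 : 0 ≤ c2 * (d : ℝ) ^ (-(1 + η / 2)) := by positivity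
            have g2 : 0 ≤ c3 * AW T n d := mul_nonneg hc3' (hAA0 d)
            nlinarith
    · rw [not_le] at hcase1
      have h1 := hA2 d hds
      by_cases hcase2 : (d : ℝ) ≤ B
      · -- middle divisors
        have h0 : 8 * B / d + 1 ≤ 9 * B / d := by
          have : 1 ≤ B / d := by rwa [le_div_iff₀ hd0, one_mul]
          have e1 : 9 * B / d = 8 * B / d + B / d := by ring
          rw [e1]
          linarith
        have h2 : AW T n d ≤ C * (d : ℝ) ^ ε * (9 * B / d) :=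
          h1.trans (mul_le_mul h3w h0 (by positivity) hw0)
        have h3 : AW T n d ^ 2 ≤ (C * (d : ℝ) ^ ε * (9 * B / d)) ^ 2 :=
          pow_le_pow_left₀ (hAA0 d) h2 2
        have h4 : (d : ℝ) ^ s * (C * (d : ℝ) ^ ε * (9 * B / d)) ^ 2 =
            81 * C ^ 2 * B ^ 2 * ((d : ℝ) ^ s * ((d : ℝ) ^ ε) ^ 2 * ((d : ℝ) ^ 2)⁻¹) := by
          field_simp
          ring
        have h5 : (d : ℝ) ^ (-(η / 2)) ≤ (D₀ / Q) ^ (-(η / 2)) := by
          apply Real.rpow_le_rpow_of_nonpos (by positivity) _ (by linarith)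
          rw [div_le_iff₀ hQ0', mul_comm]
          exact hcase1.le
        calc (d : ℝ) ^ s * AW T n d ^ 2
            ≤ (d : ℝ) ^ s * (C * (d : ℝ) ^ ε * (9 * B / d)) ^ 2 :=
              mul_le_mul_of_nonneg_left h3 (by positivity)
          _ = 81 * C ^ 2 * B ^ 2 *
              ((d : ℝ) ^ (-(1 + η / 2)) * (d : ℝ) ^ (-(η / 2))) := by rw [h4, hexp]
          _ ≤ 81 * C ^ 2 * B ^ 2 *
              ((d : ℝ) ^ (-(1 + η / 2)) * (D₀ / Q) ^ (-(η / 2))) := by gcongr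
          _ = c2 * (d : ℝ) ^ (-(1 + η / 2)) := by rw [hc2]; ring
          _ ≤ (c1 + c2) * (d : ℝ) ^ (-(1 + η / 2)) + c3 * AW T n d := by
              have g1 : 0 ≤ c1 * (d : ℝ) ^ (-(1 + η / 2)) := by positivity
              have g2 : 0 ≤ c3 * AW T n d := mul_nonneg hc3' (hAA0 d)
              nlinarith
      · -- large divisors
        rw [not_le] at hcase2
        have h0 : 8 * B / d + 1 ≤ 9 := by
          have : B / d ≤ 1 := by rw [div_le_one hd0]; exact hcase2.le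
          have e1 : 8 * B / d = 8 * (B / d) := by ring
          rw [e1]
          linarith
        have h2 : AW T n d ≤ C * (d : ℝ) ^ ε * 9 :=
          h1.trans (mul_le_mul h3w h0 (by positivity) hw0)
        have h3 : (d : ℝ) ^ s * (C * (d : ℝ) ^ ε * 9) ≤ c3 := by
          have e1 : (d : ℝ) ^ s * (C * (d : ℝ) ^ ε * 9) = 9 * C * (d : ℝ) ^ (s + ε) := by
            rw [Real.rpow_add hd0]
            ring
          rw [e1, hc3]
          apply mul_le_mul_of_nonneg_left _ (by positivity)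
          exact Real.rpow_le_rpow hd0.le hdR' (by linarith)
        calc (d : ℝ) ^ s * AW T n d ^ 2 = (d : ℝ) ^ s * AW T n d * AW T n d := by ring
          _ ≤ (d : ℝ) ^ s * (C * (d : ℝ) ^ ε * 9) * AW T n d := by
              apply mul_le_mul_of_nonneg_right _ (hAA0 d)
              exact mul_le_mul_of_nonneg_left h2 (by positivity)
          _ ≤ c3 * AW T n d := mul_le_mul_of_nonneg_right h3 (hAA0 d)
          _ ≤ (c1 + c2) * (d : ℝ) ^ (-(1 + η / 2)) + c3 * AW T n d := by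
              have g1 : 0 ≤ (c1 + c2) * (d : ℝ) ^ (-(1 + η / 2)) := by positivity
              linarith
  obtain ⟨v, hv⟩ : ∃ v : ℝ, v = B * (R : ℝ) ^ (s + 2 * ε) := ⟨_, rfl⟩
  have hv0 : 0 ≤ v := by rw [hv]; positivity
  have h1 : ∑ d ∈ DW R, (d : ℝ) ^ s * AW T n d ^ 2 ≤ (c1 + c2) * Z + 9 * C ^ 2 * v := by
    refine (Finset.sum_le_sum key).trans ?_
    rw [Finset.sum_add_distrib, ← Finset.mul_sum, ← Finset.mul_sum]
    apply add_le_add
    · apply mul_le_mul_of_nonneg_left _ (by positivity)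
      rw [hZ]
      exact hsum.sum_le_tsum _ (fun d _ => by positivity)
    · have h2 := sum_AW_le T n R hn0 hR ε C hε0 hC hC0
      have hRε : (0 : ℝ) ≤ C * (R : ℝ) ^ ε := by positivity
      calc c3 * ∑ d ∈ DW R, AW T n d ≤ c3 * (T.card * (C * (R : ℝ) ^ ε)) :=
            mul_le_mul_of_nonneg_left h2 hc3'
        _ ≤ c3 * (B * (C * (R : ℝ) ^ ε)) :=
            mul_le_mul_of_nonneg_left (mul_le_mul_of_nonneg_right hTB hRε) hc3'
        _ = 9 * C ^ 2 * (B * ((R : ℝ) ^ (s + ε) * (R : ℝ) ^ ε)) := by rw [hc3]; ring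
        _ = 9 * C ^ 2 * v := by
            rw [hv]
            congr 2
            rcases Nat.eq_zero_or_pos R with h | h
            · have n1 : s + ε ≠ 0 := by positivity
              have n2 : s + 2 * ε ≠ 0 := by positivity
              rw [h, Nat.cast_zero, Real.zero_rpow n1, Real.zero_rpow n2, zero_mul]
            · have hR0 : (0 : ℝ) < R := by exact_mod_cast h
              rw [← Real.rpow_add hR0]
              congr 1
              ring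
  refine h1.trans ?_
  rw [← hv]
  obtain ⟨u1, hu1⟩ : ∃ u : ℝ, u = B ^ 2 / (Q : ℝ) ^ 4 * (z : ℝ) ^ (-(η / 2)) := ⟨_, rfl⟩
  obtain ⟨u2, hu2⟩ : ∃ u : ℝ, u = B ^ 2 * (D₀ / Q) ^ (-(η / 2)) := ⟨_, rfl⟩
  have hu10 : 0 ≤ u1 := by rw [hu1]; positivity
  have hu20 : 0 ≤ u2 := by rw [hu2]; positivity
  have e1 : c1 = 16 * C ^ 2 * u1 := by rw [hc1, hu1]; ring
  have e2 : c2 = 81 * C ^ 2 * u2 := by rw [hc2, hu2]; ring
  rw [← hu1, ← hu2, e1, e2]
  have f1 : 0 ≤ C ^ 2 * Z * u1 := by positivity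
  have f2 : 0 ≤ C ^ 2 * Z * u2 := by positivity
  have f3 : 0 ≤ C ^ 2 * Z * v := by positivity
  have f4 : 0 ≤ C ^ 2 * u1 := by positivity
  have f5 : 0 ≤ C ^ 2 * u2 := by positivity
  nlinarith

end Pool.Agent.Lib.AbcU
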