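import Pool.Agent.Lib.AbcU.RW2
import Pool.Agent.Lib.AbcU.RC1
import Pool.Agent.Lib.AbcU.RC2

/-!
# Almost surely infinitely many triples of given quality
-/

open MeasureTheory ProbabilityTheory Finset Filter
open scoped ENNReal

namespace Pool.Agent.Lib.AbcU

/-- The modulus: the product of the odd primes up to `z`. -/
def RM (z : ℕ) : ℕ := ∏ p ∈ (Finset.range (z + 1)).filter (fun p => p.Prime ∧ p ≠ 2), p

theorem RM_odd (z : ℕ) : Odd (RM z) := by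
  unfold RM
  apply Finset.prod_induction _ Odd
  · intro a b ha hb
    exact ha.mul hb
  · exact odd_one
  · intro p hp
    rw [Finset.mem_filter] at hp
    exact hp.2.1.odd_of_ne_two hp.2.2

theorem dvd_RM (z p : ℕ) (hp : p.Prime) (hp2 : p ≠ 2) (hpz : p ≤ z) : p ∣ RM z := by
  unfold RM
  apply Finset.dvd_prod_of_mem
  rw [Finset.mem_filter, Finset.mem_range]
  exact ⟨by omega, hp, hp2⟩

theorem nU_bounds {R k X : ℕ} {t : ℕ × ℕ} (ht : t ∈ TU R (2 ^ k) X) :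
    nU (2 ^ k) t ≠ 0 ∧ nU (2 ^ k) t ≤ 16 * 2 ^ k * X ^ 3 := by
  rw [mem_TU] at ht
  obtain ⟨⟨h1, h2⟩, ⟨h3, h4⟩, _⟩ := ht
  constructor
  · unfold nU
    have g1 : 0 < t.1 := by omega
    have g2 : 0 < t.2 := by omega
    positivity
  · unfold nU
    have hk : 1 ≤ 2 ^ k := Nat.one_le_two_pow
    calc t.1 * t.2 * (t.1 + 2 ^ k * t.2) ≤ (2 * X) * (2 * X) * (2 * X + 2 ^ k * (2 * X)) := by
          gcongr
      _ = 8 * X ^ 3 * (1 + 2 ^ k) := by ring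
      _ ≤ 8 * X ^ 3 * (2 ^ k + 2 ^ k) := by gcongr
      _ = 16 * 2 ^ k * X ^ 3 := by ring

theorem big_of_mem {z k X : ℕ} (hk : 1 ≤ k) {t : ℕ × ℕ} (ht : t ∈ TU (RM z) (2 ^ k) X) (p : ℕ)
    (hp : p.Prime) (hpn : p ∣ nU (2 ^ k) t) : z < p := by
  by_contra hcon
  rw [not_lt] at hcon
  apply not_dvd_nU (RM_odd z) hk ht hp _ hpn
  by_cases hp2 : p = 2
  · rw [hp2]
    exact ⟨_, rfl⟩
  · exact (dvd_RM z p hp hp2 hcon).mul_left 2

theorem exists_XU (s v : ℝ) (hs0 : 0 < s) (hv : 3 ≤ v) (hs : v * s < 2) :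
    ∃ δ K : ℝ, 0 < δ ∧ 0 ≤ K ∧ ∃ z₀ : ℕ, ∀ z ≥ z₀, ∀ X₁ : ℕ, ∃ k X : ℕ, z ≤ X ∧ X₁ ≤ X ∧ 1 ≤ X ∧
      1 ≤ k ∧ (X : ℝ) ^ (v - 3) ≤ 2 ^ k ∧ (2 : ℝ) ^ k ≤ 2 * (X : ℝ) ^ (v - 3) ∧
      0 < (TU (RM z) (2 ^ k) X).card ∧
      (∑ d ∈ DW (16 * 2 ^ k * X ^ 3), (d : ℝ) ^ s * AW (TU (RM z) (2 ^ k) X) (nU (2 ^ k)) d ^ 2) /
        ((TU (RM z) (2 ^ k) X).card : ℝ) ^ 2 ≤ K * (z : ℝ) ^ (-δ) := by
  have hv0 : 0 < v := by linarith
  have hsv : s < 2 / v := by rw [lt_div_iff₀ hv0, mul_comm]; exact hs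
  have hv23 : 2 / v ≤ 2 / 3 := by
    apply div_le_div_of_nonneg_left (by norm_num) (by norm_num) hv
  obtain ⟨ε, hε⟩ : ∃ ε : ℝ, ε = (2 / v - s) / 4 := ⟨_, rfl⟩
  have hε0 : 0 < ε := by linarith
  obtain ⟨η, hη⟩ : ∃ η : ℝ, η = 1 - s - 2 * ε := ⟨_, rfl⟩
  have hη0 : 0 < η := by linarith
  have hη1 : η < 1 := by linarith
  obtain ⟨τ, hτ⟩ : ∃ τ : ℝ, τ = s + 2 * ε := ⟨_, rfl⟩
  have hτ0 : 0 < τ := by linarith
  have hτ1 : τ ≤ 1 := by linarith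
  have hvτ : v * τ = (v * s + 2) / 2 := by
    have h1 : v * (2 / v) = 2 := by field_simp
    have h2 : τ = (s + 2 / v) / 2 := by rw [hτ, hε]; ring
    rw [h2]
    linarith [show v * ((s + 2 / v) / 2) = (v * s + v * (2 / v)) / 2 by ring]
  obtain ⟨δ₁, hδ₁⟩ : ∃ δ₁ : ℝ, δ₁ = 2 - v * τ := ⟨_, rfl⟩
  have hδ₁0 : 0 < δ₁ := by rw [hδ₁, hvτ]; linarith
  obtain ⟨K, hK, hmain⟩ := sum_DW_le (τ := ℕ × ℕ) s ε hs0 hε0 (by linarith)
  rw [← hη, ← hτ] at hmain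
  refine ⟨η / 2, 48 * K, by linarith, by positivity, 8, fun z hz X₁ => ?_⟩
  have hz1 : 1 ≤ z := by omega
  obtain ⟨R, hR⟩ : ∃ R : ℕ, R = RM z := ⟨_, rfl⟩
  have hRodd : Odd R := by rw [hR]; exact RM_odd z
  have hR0 : 0 < R := hRodd.pos
  obtain ⟨Q, hQ⟩ : ∃ Q : ℕ, Q = 2 * R := ⟨_, rfl⟩
  have hQ0 : 0 < Q := by omega
  have hQ0' : (0 : ℝ) < Q := by exact_mod_cast hQ0
  have hQ1' : (1 : ℝ) ≤ Q := by exact_mod_cast hQ0
  have hz0' : (0 : ℝ) < z := by exact_mod_cast hz1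
  have hzδ : 0 < (z : ℝ) ^ (-(η / 2)) := by positivity
  have hlim : ∀ (c d : ℝ), 0 < d → Tendsto (fun X : ℕ => c * (X : ℝ) ^ (-d)) atTop (nhds 0) := by
    intro c d hd
    have h1 : Tendsto (fun X : ℕ => c * (X : ℝ) ^ (-d)) atTop (nhds (c * 0)) :=
      Tendsto.const_mul c ((tendsto_rpow_neg_atTop hd).comp tendsto_natCast_atTop_atTop)
    rwa [mul_zero] at h1
  obtain ⟨X, ⟨hX1, hX2⟩, hX3⟩ := ((((hlim ((Q : ℝ) ^ 5) (η / 2) (by linarith)).eventually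
    (gt_mem_nhds hzδ)).and ((hlim (32 * (Q : ℝ) ^ 4) δ₁ hδ₁0).eventually (gt_mem_nhds hzδ))).and
    (eventually_ge_atTop (X₁ + z + 12 * (2 * R) ^ 2 + 1))).exists
  have hXr1 : (1 : ℝ) ≤ X := by
    have : 1 ≤ X := by omega
    exact_mod_cast this
  have hXr0 : (0 : ℝ) < X := by linarith
  obtain ⟨k, hk1, hk2, hk3⟩ : ∃ k : ℕ, 1 ≤ k ∧ (X : ℝ) ^ (v - 3) ≤ 2 ^ k ∧
      (2 : ℝ) ^ k ≤ 2 * (X : ℝ) ^ (v - 3) := by
    obtain ⟨m, hm⟩ : ∃ m : ℕ, m = ⌊(X : ℝ) ^ (v - 3)⌋₊ := ⟨_, rfl⟩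
    have h1 : (1 : ℝ) ≤ (X : ℝ) ^ (v - 3) := Real.one_le_rpow hXr1 (by linarith)
    have hm1 : 1 ≤ m := by
      rw [hm]
      exact Nat.le_floor (by simpa using h1)
    have hm2 : (m : ℝ) ≤ (X : ℝ) ^ (v - 3) := by
      rw [hm]
      exact Nat.floor_le (by positivity)
    have hm3 : (X : ℝ) ^ (v - 3) < m + 1 := by
      rw [hm]
      exact Nat.lt_floor_add_one _
    refine ⟨Nat.log 2 m + 1, by omega, ?_, ?_⟩
    · have h2 : m < 2 ^ (Nat.log 2 m + 1) := Nat.lt_pow_succ_log_self (by norm_num) m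
      have h3 : m + 1 ≤ 2 ^ (Nat.log 2 m + 1) := h2
      have h4 : (m : ℝ) + 1 ≤ 2 ^ (Nat.log 2 m + 1) := by exact_mod_cast h3
      linarith
    · have h2 : 2 ^ Nat.log 2 m ≤ m := Nat.pow_log_le_self 2 (by omega)
      have h3 : (2 : ℝ) ^ Nat.log 2 m ≤ m := by exact_mod_cast h2
      rw [pow_succ]
      linarith
  have hcard := card_TU_ge (z := z) (R := R) (X := X) (B := 2 ^ k) hz hRodd (by
    intro p hp hp2 hpz
    rw [hR]
    exact dvd_RM z p hp hp2 hpz) (by omega)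
  rw [← hR]
  obtain ⟨T, hT⟩ : ∃ T : Finset (ℕ × ℕ), T = TU R (2 ^ k) X := ⟨_, rfl⟩
  obtain ⟨N, hN⟩ : ∃ N : ℕ, N = 16 * 2 ^ k * X ^ 3 := ⟨_, rfl⟩
  have hcU : (T.card : ℝ) ≤ (X : ℝ) ^ 2 := by
    have h1 : T.card ≤ X * X := by
      rw [hT]
      unfold TU
      refine (Finset.card_filter_le _ _).trans ?_
      rw [Finset.card_product, Nat.card_Ioc]
      have : 2 * X - X = X := by omega
      rw [this]
    calc (T.card : ℝ) ≤ ((X * X : ℕ) : ℝ) := by exact_mod_cast h1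
      _ = (X : ℝ) ^ 2 := by push_cast; ring
  have hb := hmain T (nU (2 ^ k)) N z Q ((X : ℝ) ^ 2) X hz1 hQ0 (by positivity) hXr0
    (fun t ht => (nU_bounds (by rwa [hT] at ht)).1)
    (fun t ht => by rw [hN]; exact (nU_bounds (by rwa [hT] at ht)).2)
    (fun t ht p hp hpn => big_of_mem hk1 (by rwa [hT, hR] at ht) p hp hpn) hcU
    (by
      intro d hd hdX
      have h1 : 2 * R * d ≤ X := by
        have h2 : ((Q * d : ℕ) : ℝ) ≤ X := by push_cast; exact hdX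
        rw [← hQ]
        exact_mod_cast h2
      have h3 := count_smallU hRodd hk1 hd h1
      rw [← hQ] at h3
      rw [hT]
      exact h3)
    (by
      intro d hd
      rw [hT]
      exact count_largeU hd)
  rw [← hT, ← hQ] at hcard
  have hTpos : (0 : ℝ) < (X : ℝ) ^ 2 / (4 * (Q : ℝ) ^ 2) := by positivity
  refine ⟨k, X, by omega, by omega, by omega, hk1, hk2, hk3, ?_, ?_⟩
  · rw [← hT]
    exact_mod_cast hTpos.trans_le hcard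
  · rw [← hT, ← hN]
    have h1 : ((X : ℝ) ^ 2 / (4 * (Q : ℝ) ^ 2)) ^ 2 ≤ (T.card : ℝ) ^ 2 := by gcongr
    -- the three terms
    have t2 : ((X : ℝ) / Q) ^ (-(η / 2)) ≤ (X : ℝ) ^ (-(η / 2)) * Q := by
      rw [Real.div_rpow hXr0.le hQ0'.le, div_eq_mul_inv, ← Real.rpow_neg hQ0'.le, neg_neg]
      apply mul_le_mul_of_nonneg_left _ (by positivity)
      calc (Q : ℝ) ^ (η / 2) ≤ (Q : ℝ) ^ (1 : ℝ) :=
            Real.rpow_le_rpow_of_exponent_le hQ1' (by linarith)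
        _ = Q := Real.rpow_one _
    have t3 : (N : ℝ) ^ τ ≤ 32 * (X : ℝ) ^ (v * τ) := by
      have g1 : (N : ℝ) ≤ 32 * (X : ℝ) ^ v := by
        have g2 : (X : ℝ) ^ v = (X : ℝ) ^ (v - 3) * (X : ℝ) ^ 3 := by
          rw [← Real.rpow_natCast (X : ℝ) 3, ← Real.rpow_add hXr0]
          congr 1
          push_cast
          ring
        rw [hN, g2]
        push_cast
        calc (16 : ℝ) * 2 ^ k * (X : ℝ) ^ 3 ≤ 16 * (2 * (X : ℝ) ^ (v - 3)) * (X : ℝ) ^ 3 := by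
              gcongr
          _ = _ := by ring
      calc (N : ℝ) ^ τ ≤ (32 * (X : ℝ) ^ v) ^ τ :=
            Real.rpow_le_rpow (Nat.cast_nonneg _) g1 hτ0.le
        _ = (32 : ℝ) ^ τ * (X : ℝ) ^ (v * τ) := by
            rw [Real.mul_rpow (by norm_num) (by positivity), ← Real.rpow_mul hXr0.le]
        _ ≤ 32 * (X : ℝ) ^ (v * τ) := by
            apply mul_le_mul_of_nonneg_right _ (by positivity)
            calc (32 : ℝ) ^ τ ≤ (32 : ℝ) ^ (1 : ℝ) :=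
                  Real.rpow_le_rpow_of_exponent_le (by norm_num) hτ1
              _ = 32 := Real.rpow_one _
    have t4 : (X : ℝ) ^ 2 * (X : ℝ) ^ (v * τ) = (X : ℝ) ^ 4 * (X : ℝ) ^ (-δ₁) := by
      rw [← Real.rpow_natCast (X : ℝ) 2, ← Real.rpow_natCast (X : ℝ) 4, ← Real.rpow_add hXr0,
        ← Real.rpow_add hXr0]
      congr 1
      rw [hδ₁]
      push_cast
      ring
    obtain ⟨w, hw⟩ : ∃ w : ℝ, w = (z : ℝ) ^ (-(η / 2)) := ⟨_, rfl⟩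
    rw [← hw] at hX1 hX2 hb ⊢
    have hb2 : ∑ d ∈ DW N, (d : ℝ) ^ s * AW T (nU (2 ^ k)) d ^ 2 ≤
        K * (((X : ℝ) ^ 2) ^ 2 / (Q : ℝ) ^ 4 * w + ((X : ℝ) ^ 2) ^ 2 * ((X : ℝ) ^ (-(η / 2)) * Q) +
          32 * ((X : ℝ) ^ 4 * (X : ℝ) ^ (-δ₁))) := by
      refine hb.trans (mul_le_mul_of_nonneg_left ?_ hK)
      apply add_le_add
      · apply add_le_add le_rfl
        exact mul_le_mul_of_nonneg_left t2 (by positivity)
      · calc (X : ℝ) ^ 2 * (N : ℝ) ^ τ ≤ (X : ℝ) ^ 2 * (32 * (X : ℝ) ^ (v * τ)) :=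
              mul_le_mul_of_nonneg_left t3 (by positivity)
          _ = 32 * ((X : ℝ) ^ 2 * (X : ℝ) ^ (v * τ)) := by ring
          _ = _ := by rw [t4]
    have hnn : 0 ≤ K * (((X : ℝ) ^ 2) ^ 2 / (Q : ℝ) ^ 4 * w +
        ((X : ℝ) ^ 2) ^ 2 * ((X : ℝ) ^ (-(η / 2)) * Q) + 32 * ((X : ℝ) ^ 4 * (X : ℝ) ^ (-δ₁))) := by
      rw [← hw] at hzδ
      positivity
    calc (∑ d ∈ DW N, (d : ℝ) ^ s * AW T (nU (2 ^ k)) d ^ 2) / (T.card : ℝ) ^ 2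
        ≤ (K * (((X : ℝ) ^ 2) ^ 2 / (Q : ℝ) ^ 4 * w +
          ((X : ℝ) ^ 2) ^ 2 * ((X : ℝ) ^ (-(η / 2)) * Q) +
            32 * ((X : ℝ) ^ 4 * (X : ℝ) ^ (-δ₁)))) / ((X : ℝ) ^ 2 / (4 * (Q : ℝ) ^ 2)) ^ 2 :=
          div_le_div₀ hnn hb2 (by positivity) h1
      _ = 16 * K * (w + (Q : ℝ) ^ 5 * (X : ℝ) ^ (-(η / 2)) +
            32 * (Q : ℝ) ^ 4 * (X : ℝ) ^ (-δ₁)) := by
          field_simp
          ring
      _ ≤ 16 * K * (w + w + w) := by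
          apply mul_le_mul_of_nonneg_left _ (by positivity)
          linarith
      _ = 48 * K * w := by ring

variable {Ω : Type*} [MeasurableSpace Ω]

/-- The exponents. -/
theorem exists_v (s m : ℝ) (hs0 : 0 < s) (hs : s < 2 / 3) (hm1 : m < 1 - s) :
    ∃ m' v : ℝ, m ≤ m' ∧ 0 ≤ m' ∧ 3 ≤ v ∧ v * s < 2 ∧ v * m' < v - 2 := by
  obtain ⟨m', hm'⟩ : ∃ m' : ℝ, m' = max m 0 := ⟨_, rfl⟩
  have h1 : m ≤ m' := by rw [hm']; exact le_max_left _ _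
  have h2 : 0 ≤ m' := by rw [hm']; exact le_max_right _ _
  have h3 : m' < 1 - s := by rw [hm']; exact max_lt hm1 (by linarith)
  have h4 : 0 < 1 - m' := by linarith
  have h5 : 2 / (1 - m') < 2 / s := div_lt_div_of_pos_left (by norm_num) hs0 (by linarith)
  have h6 : 3 < 2 / s := by
    rw [lt_div_iff₀ hs0]
    linarith
  obtain ⟨v, hv1, hv2⟩ := exists_between (max_lt h6 h5)
  have hv3 : 3 < v := (le_max_left _ _).trans_lt hv1
  have hv4 : 2 / (1 - m') < v := (le_max_right _ _).trans_lt hv1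
  refine ⟨m', v, h1, h2, hv3.le, ?_, ?_⟩
  · rwa [lt_div_iff₀ hs0] at hv2
  · rw [div_lt_iff₀ h4] at hv4
    linarith

/-- If the random set contains the large primes `p` independently, with probability `p ^ (-s)`,
`0 < s < 2 / 3`, then almost surely infinitely many triples composed of `2` and of its primes
have `c ≥ rad ^ m`; here `m < 1 - s`. -/
theorem ae_infinite_quality (s : ℝ) (hs0 : 0 < s) (hs : s < 2 / 3) (m : ℝ) (hm1 : m < 1 - s)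
    (μ : Measure Ω) (S : Ω → Set ℕ)
    (hS : ∀ p : Nat.Primes, MeasurableSet {ω | (p : ℕ) ∈ S ω})
    (hind : iIndepSet (fun p : Nat.Primes => {ω | (p : ℕ) ∈ S ω}) μ)
    (P0 : ℕ) (hodd : ∀ p : Nat.Primes, P0 < (p : ℕ) →
      μ {ω | (p : ℕ) ∈ S ω} = ENNReal.ofReal ((p : ℝ) ^ (-s))) :
    ∀ᵐ ω ∂μ, {t : ℕ × ℕ | 0 < t.1 ∧ 0 < t.2 ∧ t.1.Coprime t.2 ∧
      (∀ p ∈ (t.1 * t.2 * (t.1 + t.2)).primeFactors, p ≠ 2 → p ∈ S ω) ∧
      ((∏ p ∈ (t.1 * t.2 * (t.1 + t.2)).primeFactors, p : ℕ) : ℝ) ^ m ≤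
        ((t.1 + t.2 : ℕ) : ℝ)}.Infinite := by
  have hprob : IsProbabilityMeasure μ := hind.isProbabilityMeasure
  obtain ⟨m', v, hmm, hm0, hv3, hvs, hvm⟩ := exists_v s m hs0 hs hm1
  -- the size of `X`
  obtain ⟨X₁, hX₁⟩ : ∃ X₁ : ℕ, ∀ X : ℕ, X₁ ≤ X → (64 : ℝ) ^ m' ≤ (X : ℝ) ^ (v - 2 - v * m') := by
    have h1 : Tendsto (fun X : ℕ => (X : ℝ) ^ (v - 2 - v * m')) atTop atTop :=
      (tendsto_rpow_atTop (by linarith)).comp tendsto_natCast_atTop_atTop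
    exact (h1.eventually_ge_atTop _).exists_forall_of_atTop
  obtain ⟨δ, K, hδ, hK, z₁, hz₁'⟩ := exists_XU s v hs0 hv3 hvs
  obtain ⟨z₀, hz₀'⟩ : ∃ z₀ : ℕ, z₀ = max z₁ P0 := ⟨_, rfl⟩
  have hPz : P0 ≤ z₀ := by rw [hz₀']; exact le_max_right _ _
  have hz₁ : ∀ z : ℕ, ∃ k X : ℕ, z₀ ≤ z → (z ≤ X ∧ X₁ ≤ X ∧ 1 ≤ X ∧
      1 ≤ k ∧ (X : ℝ) ^ (v - 3) ≤ 2 ^ k ∧ (2 : ℝ) ^ k ≤ 2 * (X : ℝ) ^ (v - 3) ∧
      0 < (TU (RM z) (2 ^ k) X).card ∧
      (∑ d ∈ DW (16 * 2 ^ k * X ^ 3), (d : ℝ) ^ s * AW (TU (RM z) (2 ^ k) X) (nU (2 ^ k)) d ^ 2) /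
        ((TU (RM z) (2 ^ k) X).card : ℝ) ^ 2 ≤ K * (z : ℝ) ^ (-δ)) := by
    intro z
    by_cases h : z₀ ≤ z
    · obtain ⟨k, X, h1⟩ := hz₁' z (le_trans (by rw [hz₀']; exact le_max_left _ _) h) X₁
      exact ⟨k, X, fun _ => h1⟩
    · exact ⟨0, 0, fun h' => absurd h' h⟩
  choose k X hX using hz₁
  obtain ⟨J, hJ⟩ : ∃ J : ℕ, 2 ≤ J * δ := by
    obtain ⟨J, hJ⟩ := exists_nat_ge (2 / δ)
    exact ⟨J, by rwa [div_le_iff₀ hδ] at hJ⟩
  have hJ1 : 1 ≤ J := by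
    rcases Nat.eq_zero_or_pos J with h | h
    · rw [h] at hJ
      norm_num at hJ
    · exact h
  obtain ⟨Z, hZ⟩ : ∃ Z : ℕ → ℕ, Z = fun m => (m + z₀ + 1) ^ J := ⟨_, rfl⟩
  have hZm : ∀ m, m + z₀ + 1 ≤ Z m := by
    intro m
    rw [hZ]
    exact Nat.le_self_pow (by omega) _
  have hZ0 : ∀ m, z₀ ≤ Z m := fun m => by have := hZm m; omega
  obtain ⟨F, hF⟩ : ∃ F : ℕ → Set Ω, F = fun m =>
    {ω | ∀ t ∈ TU (RM (Z m)) (2 ^ k (Z m)) (X (Z m)), ω ∉ Bn S (nU (2 ^ k (Z m)) t)} := ⟨_, rfl⟩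
  have hle : ∀ m, μ (F m) ≤ ENNReal.ofReal (K * ((m + 1 : ℕ) : ℝ) ^ (-2 : ℝ)) := by
    intro m
    obtain ⟨_, _, h2, h3, _, _, h4, h4'⟩ := hX (Z m) (hZ0 m)
    have hZP : P0 ≤ Z m := hPz.trans (hZ0 m)
    have h5 := noneW_le μ S s hS hind (Z m) (fun p hp => hodd p (by omega))
      (TU (RM (Z m)) (2 ^ k (Z m)) (X (Z m))) (nU (2 ^ k (Z m)))
      (fun t ht => (nU_bounds ht).1) (fun t ht p hp hpn => big_of_mem h3 ht p hp hpn)
    have h7 := h5.trans (sum_gcd_le s (TU (RM (Z m)) (2 ^ k (Z m)) (X (Z m))) (nU (2 ^ k (Z m)))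
      (16 * 2 ^ k (Z m) * X (Z m) ^ 3) (fun t ht => (nU_bounds ht).1)
      (fun t ht => (nU_bounds ht).2))
    have h4r : (0 : ℝ) < ((TU (RM (Z m)) (2 ^ k (Z m)) (X (Z m))).card : ℝ) ^ 2 := by
      have : (0 : ℝ) < ((TU (RM (Z m)) (2 ^ k (Z m)) (X (Z m))).card : ℝ) := by exact_mod_cast h4
      positivity
    have h6 : μ.real (F m) ≤ K * ((m + 1 : ℕ) : ℝ) ^ (-2 : ℝ) := by
      have h8 : μ.real (F m) ≤ K * (Z m : ℝ) ^ (-δ) := by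
        rw [hF]
        refine le_trans ?_ h4'
        rw [le_div_iff₀ h4r, mul_comm]
        exact h7
      refine h8.trans ?_
      apply mul_le_mul_of_nonneg_left _ hK
      have hm : (1 : ℝ) ≤ ((m + z₀ + 1 : ℕ) : ℝ) := by
        have : 1 ≤ m + z₀ + 1 := by omega
        exact_mod_cast this
      calc ((Z m : ℕ) : ℝ) ^ (-δ) = ((m + z₀ + 1 : ℕ) : ℝ) ^ (-(J * δ)) := by
            rw [hZ]
            push_cast
            rw [← Real.rpow_natCast, ← Real.rpow_mul (by positivity)]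
            congr 1
            ring
        _ ≤ ((m + z₀ + 1 : ℕ) : ℝ) ^ (-2 : ℝ) :=
            Real.rpow_le_rpow_of_exponent_le hm (by linarith)
        _ ≤ ((m + 1 : ℕ) : ℝ) ^ (-2 : ℝ) := by
            apply Real.rpow_le_rpow_of_nonpos (by positivity) _ (by norm_num)
            exact_mod_cast (by omega : m + 1 ≤ m + z₀ + 1)
    rw [← ENNReal.ofReal_toReal (measure_ne_top μ (F m))]
    exact ENNReal.ofReal_le_ofReal h6
  have hsum : Summable (fun m : ℕ => K * ((m + 1 : ℕ) : ℝ) ^ (-2 : ℝ)) :=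
    ((summable_nat_add_iff 1).mpr
      (Real.summable_nat_rpow.mpr (by norm_num : (-2 : ℝ) < -1))).mul_left K
  have hfin : ∑' m, μ (F m) ≠ ⊤ := by
    apply ne_top_of_le_ne_top _ (ENNReal.tsum_le_tsum hle)
    rw [← ENNReal.ofReal_tsum_of_nonneg (fun m => by positivity) hsum]
    exact ENNReal.ofReal_ne_top
  filter_upwards [ae_eventually_notMem hfin] with ω hω
  obtain ⟨m0, hm0'⟩ := eventually_atTop.mp hω
  apply Set.Infinite.of_image Prod.fst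
  apply Set.infinite_of_forall_exists_gt
  intro n
  obtain ⟨j, hj⟩ : ∃ j : ℕ, j = max m0 n := ⟨_, rfl⟩
  have h3 := hm0' j (by rw [hj]; exact le_max_left _ _)
  rw [hF] at h3
  simp only [Set.mem_ofPred_eq, not_forall, not_not] at h3
  obtain ⟨t, ht, hB⟩ := h3
  obtain ⟨g1, g2, g3, g4, g5, g6, g7, g8⟩ := hX (Z j) (hZ0 j)
  obtain ⟨x, hx⟩ : ∃ x : ℕ, x = X (Z j) := ⟨_, rfl⟩
  obtain ⟨l, hl⟩ : ∃ l : ℕ, l = k (Z j) := ⟨_, rfl⟩
  rw [← hx] at g1 g2 g3 g5 g6 ht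
  rw [← hl] at g4 g5 g6 ht hB
  have hb := nU_bounds ht
  have hodd2 : ¬ 2 ∣ nU (2 ^ l) t := not_dvd_nU (RM_odd _) g4 ht Nat.prime_two ⟨_, rfl⟩
  have ht' := ht
  rw [mem_TU] at ht'
  obtain ⟨⟨k1, k2⟩, ⟨k3, k4⟩, k5, k6, k7⟩ := ht'
  have h4 := hZm j
  have h5 : n ≤ j := by rw [hj]; exact le_max_right _ _
  have hprod : t.1 * (2 ^ l * t.2) * (t.1 + 2 ^ l * t.2) = 2 ^ l * nU (2 ^ l) t := by
    unfold nU
    ring
  have h2l : 1 ≤ 2 ^ l := Nat.one_le_two_pow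
  have hw0 : 0 < 2 ^ l * t.2 := by
    have : 0 < t.2 := by omega
    positivity
  have hcop : t.1.Coprime (2 ^ l * t.2) := by
    apply Nat.Coprime.mul_right _ k7
    apply Nat.Coprime.pow_right
    rw [Nat.coprime_comm, Nat.Prime.coprime_iff_not_dvd Nat.prime_two]
    intro h
    apply hodd2
    unfold nU
    exact (h.mul_right _).mul_right _
  refine ⟨t.1, ⟨(t.1, 2 ^ l * t.2), ⟨by simp only; omega, hw0, hcop, ?_, ?_⟩, rfl⟩, by omega⟩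
  · intro p hp hp3
    simp only at hp
    rw [hprod] at hp
    have hp1 := Nat.prime_of_mem_primeFactors hp
    have hp2 := Nat.dvd_of_mem_primeFactors hp
    apply hB
    rw [Nat.mem_primeFactors]
    refine ⟨hp1, ?_, hb.1⟩
    rcases (Nat.Prime.dvd_mul hp1).mp hp2 with h7 | h7
    · exact absurd ((Nat.prime_dvd_prime_iff_eq hp1 Nat.prime_two).mp (hp1.dvd_of_dvd_pow h7)) hp3
    · exact h7
  · simp only
    rw [hprod]
    obtain ⟨R, hR⟩ : ∃ R : ℕ, R = ∏ p ∈ (2 ^ l * nU (2 ^ l) t).primeFactors, p := ⟨_, rfl⟩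
    rw [← hR]
    have hR1 : 1 ≤ R := by
      rw [hR]
      exact Finset.prod_pos (fun p hp => (Nat.prime_of_mem_primeFactors hp).pos)
    have hR2 : R ≤ 2 * (16 * 2 ^ l * x ^ 3) := by
      have h8 : (2 ^ l * nU (2 ^ l) t).primeFactors = (2 * nU (2 ^ l) t).primeFactors := by
        rw [Nat.primeFactors_mul (by positivity) hb.1, Nat.primeFactors_mul (by norm_num) hb.1,
          Nat.primeFactors_pow 2 (by omega)]
      have h9 : R ∣ 2 * nU (2 ^ l) t := by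
        rw [hR, h8]
        exact Nat.prod_primeFactors_dvd _
      have h10 : 0 < nU (2 ^ l) t := Nat.pos_of_ne_zero hb.1
      have h11 := Nat.le_of_dvd (by omega) h9
      have h12 := hb.2
      omega
    have hRr1 : (1 : ℝ) ≤ R := by exact_mod_cast hR1
    have hX0 : (0 : ℝ) < x := by exact_mod_cast g3
    have hR3 : (R : ℝ) ≤ 64 * (x : ℝ) ^ v := by
      have h8 : (R : ℝ) ≤ 2 * (16 * 2 ^ l * (x : ℝ) ^ 3) := by exact_mod_cast hR2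
      have h9 : (x : ℝ) ^ v = (x : ℝ) ^ (v - 3) * (x : ℝ) ^ 3 := by
        rw [← Real.rpow_natCast (x : ℝ) 3, ← Real.rpow_add hX0]
        congr 1
        push_cast
        ring
      rw [h9]
      calc (R : ℝ) ≤ 2 * (16 * 2 ^ l * (x : ℝ) ^ 3) := h8
        _ ≤ 2 * (16 * (2 * (x : ℝ) ^ (v - 3)) * (x : ℝ) ^ 3) := by gcongr
        _ = _ := by ring
    have hc : (x : ℝ) ^ (v - 2) ≤ ((t.1 + 2 ^ l * t.2 : ℕ) : ℝ) := by
      have h8 : (x : ℝ) ^ (v - 2) = (x : ℝ) ^ (v - 3) * x := by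
        rw [show v - 2 = (v - 3) + 1 by ring, Real.rpow_add hX0, Real.rpow_one]
      rw [h8]
      calc (x : ℝ) ^ (v - 3) * x ≤ 2 ^ l * x := by gcongr
        _ = ((2 ^ l * x : ℕ) : ℝ) := by push_cast; ring
        _ ≤ ((t.1 + 2 ^ l * t.2 : ℕ) : ℝ) := by
            have h9 : 2 ^ l * x ≤ 2 ^ l * t.2 := Nat.mul_le_mul_left _ k3.le
            exact_mod_cast h9.trans (Nat.le_add_left _ _)
    calc (R : ℝ) ^ m ≤ (R : ℝ) ^ m' := Real.rpow_le_rpow_of_exponent_le hRr1 hmm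
      _ ≤ (64 * (x : ℝ) ^ v) ^ m' := Real.rpow_le_rpow (by positivity) hR3 hm0
      _ = (64 : ℝ) ^ m' * (x : ℝ) ^ (v * m') := by
          rw [Real.mul_rpow (by norm_num) (by positivity), ← Real.rpow_mul hX0.le]
      _ ≤ (x : ℝ) ^ (v - 2 - v * m') * (x : ℝ) ^ (v * m') :=
          mul_le_mul_of_nonneg_right (hX₁ _ g2) (by positivity)
      _ = (x : ℝ) ^ (v - 2) := by
          rw [← Real.rpow_add hX0]
          congr 1
          ring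
      _ ≤ _ := hc

end Pool.Agent.Lib.AbcU
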