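import Pool.Agent.Lib.AbcU.Base
import Pool.Agent.Lib.AbcX.Final

/-!
# Random sets of primes
-/

open Finset
open scoped ENNReal

namespace Pool.Agent.Lib.AbcU

variable {ι : Type*}

open Classical in
/-- The sum of `R ^ (-σ)` from a count. -/
theorem tsum_of_count (R : ι → ℕ) (hR : ∀ i, 1 ≤ R i) (W : Set ι) (θ σ K : ℝ) (hθ : 0 ≤ θ)
    (hσ : θ < σ)
    (hc : ∀ Y : ℕ, 1 ≤ Y → ∀ T : Finset ι, (∀ i ∈ T, i ∈ W ∧ R i ≤ Y) →
      (T.card : ℝ) ≤ K * (Y : ℝ) ^ θ) :
    ∑' i : ι, (if i ∈ W then ENNReal.ofReal ((R i : ℝ) ^ (-σ)) else 0) ≠ ⊤ := by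
  obtain ⟨u, hu⟩ : ∃ u : ℝ, u = (2 : ℝ) ^ (θ - σ) := ⟨_, rfl⟩
  have hu0 : 0 < u := by rw [hu]; positivity
  have hu1 : u < 1 := by
    rw [hu]
    exact Real.rpow_lt_one_of_one_lt_of_neg (by norm_num) (by linarith)
  have hK : 0 ≤ K := by
    have h := hc 1 le_rfl ∅ (by simp)
    simpa using h
  rw [tsum_fiber _ (fun i => Nat.log 2 (R i))]
  have key : ∀ k : ℕ, (∑' i, if Nat.log 2 (R i) = k then
      (if i ∈ W then ENNReal.ofReal ((R i : ℝ) ^ (-σ)) else 0) else 0) ≤
      ENNReal.ofReal ((K * (2 : ℝ) ^ θ) * u ^ k) := by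
    intro k
    obtain ⟨n, hn⟩ : ∃ n : ℝ, n = (2 : ℝ) ^ k := ⟨_, rfl⟩
    have hn0 : 0 < n := by rw [hn]; positivity
    have hun : u ^ k = n ^ (θ - σ) := by
      rw [hu, hn, ← Real.rpow_natCast, ← Real.rpow_natCast, ← Real.rpow_mul (by norm_num),
        ← Real.rpow_mul (by norm_num), mul_comm]
    have h := tsum_le_card (ι := ι) (fun i => if Nat.log 2 (R i) = k then
      (if i ∈ W then ENNReal.ofReal ((R i : ℝ) ^ (-σ)) else 0) else 0)
      (K * (2 * n) ^ θ) (n ^ (-σ)) (by positivity) (by
        intro T hT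
        have h1 := hc (2 ^ (k + 1)) Nat.one_le_two_pow T (by
          intro i hi
          have h2 := hT i hi
          by_cases hk : Nat.log 2 (R i) = k
          · by_cases hW : i ∈ W
            · refine ⟨hW, ?_⟩
              rw [← hk]
              exact (Nat.lt_pow_succ_log_self (by norm_num) _).le
            · rw [if_pos hk, if_neg hW] at h2
              exact absurd rfl h2
          · rw [if_neg hk] at h2
            exact absurd rfl h2)
        have e1 : ((2 ^ (k + 1) : ℕ) : ℝ) = 2 * n := by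
          rw [hn]
          push_cast
          ring
        rw [e1] at h1
        exact h1) (by
        intro i
        by_cases hk : Nat.log 2 (R i) = k
        · rw [if_pos hk]
          by_cases hW : i ∈ W
          · rw [if_pos hW]
            apply ENNReal.ofReal_le_ofReal
            apply Real.rpow_le_rpow_of_nonpos hn0 _ (by linarith)
            have h2 : 2 ^ k ≤ R i := by
              rw [← hk]
              exact Nat.pow_log_le_self 2 (by have := hR i; omega)
            rw [hn]
            exact_mod_cast h2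
          · rw [if_neg hW]
            exact zero_le
        · rw [if_neg hk]
          exact zero_le)
    refine h.trans (le_of_eq ?_)
    congr 1
    rw [hun, Real.mul_rpow (by norm_num) hn0.le, show θ - σ = θ + -σ by ring, Real.rpow_add hn0]
    ring
  have hfin : ∑' k : ℕ, ENNReal.ofReal ((K * (2 : ℝ) ^ θ) * u ^ k) ≠ ⊤ := by
    have h1 : Summable (fun k : ℕ => (K * (2 : ℝ) ^ θ) * u ^ k) :=
      (summable_geometric_of_lt_one hu0.le hu1).mul_left _
    rw [← ENNReal.ofReal_tsum_of_nonneg (fun k => by positivity) h1]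
    exact ENNReal.ofReal_ne_top
  exact ne_top_of_le_ne_top hfin (ENNReal.tsum_le_tsum key)

end Pool.Agent.Lib.AbcU
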