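import Mathlib

/-!
# The secondary term of the first moment

If a family of positive integers has counting function `C n^(2/3) + O(n^(2/3 - κ))`, then the sum over
`r ≤ Y` of the number of members of the family dividing `r` is `E Y - c Y^(2/3) + O(Y^(2/3 - κ'))`,
`c > 0` (`c = - ζ(2/3) C`).
-/

namespace Pool.Agent.Lib.AbcU.Sec

open Filter Topology Finset

section powers

theorem neg_hi {s x : ℝ} (hs : 0 < s) (hx : 0 < x) :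
    x ^ (-s) - (x + 1) ^ (-s) ≤ s * x ^ (-s - 1) := by
  have hx1 : 0 < 1 + 1 / x := by positivity
  have e1 : (x + 1) ^ (-s) = x ^ (-s) * (1 + 1 / x) ^ (-s) := by
    rw [← Real.mul_rpow hx.le hx1.le]
    congr 1
    field_simp
  have e2 : x ^ (-s - 1) = x ^ (-s) * (1 / x) := by
    rw [Real.rpow_sub hx, Real.rpow_one]
    ring
  have h1 : 1 - s * (1 / x) ≤ (1 + 1 / x) ^ (-s) := by
    rw [Real.rpow_def_of_pos hx1]
    have h2 : Real.log (1 + 1 / x) ≤ 1 / x := by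
      have := Real.log_le_sub_one_of_pos hx1
      linarith
    have h3 := Real.add_one_le_exp (Real.log (1 + 1 / x) * -s)
    nlinarith
  have h4 : 0 < x ^ (-s) := Real.rpow_pos_of_pos hx _
  rw [e1, e2]
  nlinarith

theorem neg_lo {s x : ℝ} (hs : 0 < s) (hx : 0 < x) :
    s * (x + 1) ^ (-s - 1) ≤ x ^ (-s) - (x + 1) ^ (-s) := by
  have hx1 : 0 < x + 1 := by linarith
  have hq : 0 < x / (x + 1) := by positivity
  have e1 : x ^ (-s) = (x + 1) ^ (-s) * (x / (x + 1)) ^ (-s) := by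
    rw [← Real.mul_rpow hx1.le hq.le]
    congr 1
    field_simp
  have e2 : (x + 1) ^ (-s - 1) = (x + 1) ^ (-s) * (1 / (x + 1)) := by
    rw [Real.rpow_sub hx1, Real.rpow_one]
    ring
  have h1 : 1 + s * (1 / (x + 1)) ≤ (x / (x + 1)) ^ (-s) := by
    rw [Real.rpow_def_of_pos hq]
    have h2 : Real.log (x / (x + 1)) ≤ - (1 / (x + 1)) := by
      have := Real.log_le_sub_one_of_pos hq
      have e3 : x / (x + 1) - 1 = - (1 / (x + 1)) := by field_simp; ring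
      linarith
    have h3 := Real.add_one_le_exp (Real.log (x / (x + 1)) * -s)
    nlinarith
  have h4 : 0 < (x + 1) ^ (-s) := Real.rpow_pos_of_pos hx1 _
  rw [e1, e2]
  nlinarith

theorem pos_hi {q x : ℝ} (hq : 0 ≤ q) (hq1 : q ≤ 1) (hx : 0 < x) :
    (x + 1) ^ q - x ^ q ≤ q * x ^ (q - 1) := by
  have hx1 : 0 < 1 + 1 / x := by positivity
  have e1 : (x + 1) ^ q = x ^ q * (1 + 1 / x) ^ q := by
    rw [← Real.mul_rpow hx.le hx1.le]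
    congr 1
    field_simp
  have e2 : x ^ (q - 1) = x ^ q * (1 / x) := by
    rw [Real.rpow_sub hx, Real.rpow_one]
    ring
  have h1 : (1 + 1 / x) ^ q ≤ 1 + q * (1 / x) :=
    rpow_one_add_le_one_add_mul_self (by have : 0 < 1 / x := by positivity
                                         linarith) hq hq1
  have h4 : 0 < x ^ q := Real.rpow_pos_of_pos hx _
  rw [e1, e2]
  nlinarith

theorem pos_lo {q x : ℝ} (hq : 0 ≤ q) (hq1 : q ≤ 1) (hx : 0 < x) :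
    q * (x + 1) ^ (q - 1) ≤ (x + 1) ^ q - x ^ q := by
  have hx1 : 0 < x + 1 := by linarith
  have hy : -1 ≤ -(1 / (x + 1)) := by
    have : 1 / (x + 1) ≤ 1 := by
      rw [div_le_one hx1]
      linarith
    linarith
  have hy' : 0 ≤ 1 + -(1 / (x + 1)) := by linarith
  have e1 : x ^ q = (x + 1) ^ q * (1 + -(1 / (x + 1))) ^ q := by
    rw [← Real.mul_rpow hx1.le hy']
    congr 1
    field_simp
    ring
  have e2 : (x + 1) ^ (q - 1) = (x + 1) ^ q * (1 / (x + 1)) := by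
    rw [Real.rpow_sub hx1, Real.rpow_one]
    ring
  have h1 : (1 + -(1 / (x + 1))) ^ q ≤ 1 + q * (-(1 / (x + 1))) :=
    rpow_one_add_le_one_add_mul_self hy hq hq1
  have h4 : 0 < (x + 1) ^ q := Real.rpow_pos_of_pos hx1 _
  rw [e1, e2]
  nlinarith

/-- `∑_{m ≤ Z} m^(-2/3) = 3 Z^(1/3) + ζ + O(Z^(-2/3))`. -/
theorem exists_zeta : ∃ ζ : ℝ, ζ ≤ -2 ∧ ∀ Z : ℕ, 1 ≤ Z →
    |∑ m ∈ Icc 1 Z, (m : ℝ) ^ (-(2 / 3) : ℝ) - 3 * (Z : ℝ) ^ (1 / 3 : ℝ) - ζ| ≤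
      (Z : ℝ) ^ (-(2 / 3) : ℝ) := by
  obtain ⟨u, hu⟩ : ∃ u : ℕ → ℝ, u = fun n : ℕ => ∑ m ∈ Icc (1 : ℕ) (n + 1), (m : ℝ) ^ (-(2 / 3) : ℝ) -
    3 * ((n + 1 : ℕ) : ℝ) ^ (1 / 3 : ℝ) := ⟨_, rfl⟩
  have hstep : ∀ n, u (n + 1) - u n = ((n + 1 + 1 : ℕ) : ℝ) ^ (-(2 / 3) : ℝ) -
      3 * (((n + 1 + 1 : ℕ) : ℝ) ^ (1 / 3 : ℝ) - ((n + 1 : ℕ) : ℝ) ^ (1 / 3 : ℝ)) := by
    intro n
    rw [hu]
    simp only
    rw [Finset.sum_Icc_succ_top (by omega)]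
    ring
  have hn0 : ∀ n : ℕ, (0 : ℝ) < ((n + 1 : ℕ) : ℝ) := fun n => by positivity
  have hcast : ∀ n : ℕ, ((n + 1 + 1 : ℕ) : ℝ) = ((n + 1 : ℕ) : ℝ) + 1 := fun n => by push_cast; ring
  have hd1 : ∀ n, u (n + 1) - u n ≤ 0 := by
    intro n
    rw [hstep, hcast]
    have := pos_lo (q := 1 / 3) (by norm_num) (by norm_num) (hn0 n)
    have e : (1 / 3 : ℝ) - 1 = -(2 / 3) := by norm_num
    rw [e] at this
    linarith
  have hd2 : ∀ n, ((n + 1 + 1 : ℕ) : ℝ) ^ (-(2 / 3) : ℝ) - ((n + 1 : ℕ) : ℝ) ^ (-(2 / 3) : ℝ) ≤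
      u (n + 1) - u n := by
    intro n
    rw [hstep, hcast]
    have := pos_hi (q := 1 / 3) (by norm_num) (by norm_num) (hn0 n)
    have e : (1 / 3 : ℝ) - 1 = -(2 / 3) := by norm_num
    rw [e] at this
    linarith
  have hanti : Antitone u := antitone_nat_of_succ_le (fun n => by linarith [hd1 n])
  obtain ⟨v, hv⟩ : ∃ v : ℕ → ℝ, v = fun n => u n - ((n + 1 : ℕ) : ℝ) ^ (-(2 / 3) : ℝ) := ⟨_, rfl⟩
  have hmono : Monotone v := monotone_nat_of_le_succ (fun n => by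
    rw [hv]
    simp only
    linarith [hd2 n])
  have hvu : ∀ n, v n ≤ u n := fun n => by
    rw [hv]
    simp only
    have : 0 < ((n + 1 : ℕ) : ℝ) ^ (-(2 / 3) : ℝ) := Real.rpow_pos_of_pos (hn0 n) _
    linarith
  have hvu' : ∀ m n, v m ≤ u n := by
    intro m n
    rcases le_total m n with h | h
    · exact (hmono h).trans (hvu n)
    · exact (hvu m).trans (hanti h)
  have hbdd : BddBelow (Set.range u) := ⟨v 0, by
    rintro _ ⟨n, rfl⟩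
    exact hvu' 0 n⟩
  refine ⟨⨅ n, u n, ?_, ?_⟩
  · refine (ciInf_le hbdd 0).trans ?_
    rw [hu]
    norm_num
  · intro Z hZ
    obtain ⟨n, rfl⟩ : ∃ n, Z = n + 1 := ⟨Z - 1, by omega⟩
    have h1 : ⨅ n, u n ≤ u n := ciInf_le hbdd n
    have h2 : v n ≤ ⨅ n, u n := le_ciInf (fun m => hvu' n m)
    have h3 : ∑ m ∈ Icc 1 (n + 1), (m : ℝ) ^ (-(2 / 3) : ℝ) -
        3 * ((n + 1 : ℕ) : ℝ) ^ (1 / 3 : ℝ) = u n := by rw [hu]
    rw [h3, abs_of_nonneg (by linarith)]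
    rw [hv] at h2
    simp only at h2
    linarith

end powers

section family

variable {ι : Type*} (R : ι → ℕ)

/-- the counting function -/
noncomputable def A (n : ℕ) : ℕ := {i | R i ≤ n}.ncard

variable {R}

/-- the sum of the inverses of the members `≤ n` -/
noncomputable def S (hf : ∀ n, {i | R i ≤ n}.Finite) (n : ℕ) : ℝ :=
  ∑ i ∈ (hf n).toFinset, 1 / (R i : ℝ)

theorem A_eq (hf : ∀ n, {i | R i ≤ n}.Finite) (n : ℕ) : A R n = (hf n).toFinset.card := by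
  unfold A
  rw [Set.ncard_eq_toFinset_card _ (hf n)]

theorem A_mono (hf : ∀ n, {i | R i ≤ n}.Finite) {m n : ℕ} (h : m ≤ n) : A R m ≤ A R n :=
  Set.ncard_le_ncard (fun _ hi => le_trans hi h) (hf n)

theorem S_succ (hf : ∀ n, {i | R i ≤ n}.Finite) (n : ℕ) :
    S hf (n + 1) = S hf n + ((A R (n + 1) : ℝ) - A R n) / ((n + 1 : ℕ) : ℝ) := by
  classical
  have hsub : (hf n).toFinset ⊆ (hf (n + 1)).toFinset := by
    intro i hi
    rw [Set.Finite.mem_toFinset] at hi ⊢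
    exact le_trans hi (Nat.le_succ n)
  unfold S
  rw [← Finset.sum_sdiff hsub, add_comm]
  congr 1
  have h1 : ∀ i ∈ (hf (n + 1)).toFinset \ (hf n).toFinset,
      1 / (R i : ℝ) = 1 / ((n + 1 : ℕ) : ℝ) := by
    intro i hi
    rw [Finset.mem_sdiff, Set.Finite.mem_toFinset, Set.Finite.mem_toFinset] at hi
    simp only [Set.mem_ofPred_eq] at hi
    have : R i = n + 1 := by omega
    rw [this]
  rw [Finset.sum_congr rfl h1, Finset.sum_const, nsmul_eq_mul, Finset.card_sdiff_of_subset hsub,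
    Nat.cast_sub (Finset.card_le_card hsub), A_eq hf, A_eq hf]
  ring

theorem abel (hf : ∀ n, {i | R i ≤ n}.Finite) (x : ℕ) : ∀ N : ℕ, x ≤ N →
    S hf N - S hf x = (A R N : ℝ) / ((N : ℝ) + 1) - (A R x : ℝ) / ((x : ℝ) + 1) +
      ∑ n ∈ Ioc x N, (A R n : ℝ) * (1 / (n : ℝ) - 1 / ((n : ℝ) + 1)) := by
  intro N hN
  induction N, hN using Nat.le_induction with
  | base => simp
  | succ N hN ih =>
    rw [S_succ, ← Finset.insert_Ioc_right_eq_Ioc_add_one (by omega), Finset.sum_insert (by simp)]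
    have hN0 : ((N : ℝ) + 1) ≠ 0 := by positivity
    have hN1 : ((N : ℝ) + 1 + 1) ≠ 0 := by positivity
    have e : S hf N + ((A R (N + 1) : ℝ) - A R N) / ((N + 1 : ℕ) : ℝ) - S hf x =
        (S hf N - S hf x) + ((A R (N + 1) : ℝ) - A R N) / ((N + 1 : ℕ) : ℝ) := by ring
    rw [e, ih]
    push_cast
    field_simp
    ring

variable {C K κ : ℝ}

/-- the tail of the sum of the inverses -/
theorem partial_bound (hf : ∀ n, {i | R i ≤ n}.Finite) (hC : 0 ≤ C) (hK : 0 ≤ K) (hκ : 0 < κ)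
    (hκ1 : κ ≤ 1 / 3)
    (hA : ∀ n : ℕ, 1 ≤ n → |(A R n : ℝ) - C * (n : ℝ) ^ (2 / 3 : ℝ)| ≤ K * (n : ℝ) ^ (2 / 3 - κ))
    {x N : ℕ} (hx : 1 ≤ x) (hN : x ≤ N) :
    |S hf N - S hf x - 2 * C * (x : ℝ) ^ (-(1 / 3) : ℝ)| ≤
      (5 * K + 3 * C) * (x : ℝ) ^ (-(1 / 3) - κ) + 4 * C * (N : ℝ) ^ (-(1 / 3) : ℝ) := by
  have hx0 : (0 : ℝ) < x := by exact_mod_cast hx
  have hx1 : (1 : ℝ) ≤ x := by exact_mod_cast hx
  have hN0 : (0 : ℝ) < N := by exact_mod_cast hx.trans hN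
  have hxN : (x : ℝ) ≤ N := by exact_mod_cast hN
  obtain ⟨D, hD⟩ : ∃ D : ℕ → ℝ, D = fun n => (A R n : ℝ) - C * (n : ℝ) ^ (2 / 3 : ℝ) := ⟨_, rfl⟩
  have hDb : ∀ n : ℕ, 1 ≤ n → |D n| ≤ K * (n : ℝ) ^ (2 / 3 - κ) := by
    intro n hn
    rw [hD]
    exact hA n hn
  have hAD : ∀ n, (A R n : ℝ) = C * (n : ℝ) ^ (2 / 3 : ℝ) + D n := by
    intro n
    rw [hD]
    ring
  -- the error part
  have hE1 : ∀ n : ℕ, 1 ≤ n → |D n / ((n : ℝ) + 1)| ≤ K * (n : ℝ) ^ (-(1 / 3) - κ) := by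
    intro n hn
    have hn0 : (0 : ℝ) < n := by exact_mod_cast hn
    rw [abs_div, abs_of_pos (by positivity : (0 : ℝ) < (n : ℝ) + 1), div_le_iff₀ (by positivity)]
    refine (hDb n hn).trans ?_
    have e : (n : ℝ) ^ (2 / 3 - κ) = (n : ℝ) ^ (-(1 / 3) - κ) * n := by
      rw [← Real.rpow_add_one hn0.ne']
      congr 1
      ring
    rw [e]
    have : 0 ≤ (n : ℝ) ^ (-(1 / 3) - κ) := by positivity
    nlinarith [mul_nonneg hK this]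
  have hs : 0 < 1 / 3 + κ := by linarith
  have hE2 : ∀ n : ℕ, 2 ≤ n → |D n * (1 / (n : ℝ) - 1 / ((n : ℝ) + 1))| ≤
      3 * K * (((n : ℝ) - 1) ^ (-(1 / 3 + κ)) - (n : ℝ) ^ (-(1 / 3 + κ))) := by
    intro n hn
    have hn0 : (0 : ℝ) < n := by
      have : 0 < n := by omega
      exact_mod_cast this
    have hn1 : (0 : ℝ) < (n : ℝ) - 1 := by
      have : (2 : ℝ) ≤ n := by exact_mod_cast hn
      linarith
    have e1 : 1 / (n : ℝ) - 1 / ((n : ℝ) + 1) = 1 / ((n : ℝ) * ((n : ℝ) + 1)) := by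
      field_simp
      ring
    have h1 : |D n * (1 / (n : ℝ) - 1 / ((n : ℝ) + 1))| ≤ K * (n : ℝ) ^ (-(1 / 3 + κ) - 1) := by
      rw [e1, abs_mul, abs_of_pos (by positivity : (0 : ℝ) < 1 / ((n : ℝ) * ((n : ℝ) + 1))),
        mul_one_div, div_le_iff₀ (by positivity)]
      refine (hDb n (by omega)).trans ?_
      have e : (n : ℝ) ^ (2 / 3 - κ) = (n : ℝ) ^ (-(1 / 3 + κ) - 1) * (n * n) := by
        rw [← mul_assoc, ← Real.rpow_add_one hn0.ne', ← Real.rpow_add_one hn0.ne']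
        congr 1
        ring
      rw [e]
      have h0 : 0 ≤ (n : ℝ) ^ (-(1 / 3 + κ) - 1) := by positivity
      have h2 : (n : ℝ) * n ≤ n * (n + 1) := by nlinarith
      calc K * ((n : ℝ) ^ (-(1 / 3 + κ) - 1) * (n * n)) =
            K * (n : ℝ) ^ (-(1 / 3 + κ) - 1) * (n * n) := by ring
        _ ≤ K * (n : ℝ) ^ (-(1 / 3 + κ) - 1) * (n * (n + 1)) :=
            mul_le_mul_of_nonneg_left h2 (mul_nonneg hK h0)
    have h2 := neg_lo hs hn1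
    have e2 : (n : ℝ) - 1 + 1 = n := by ring
    rw [e2] at h2
    refine h1.trans ?_
    have h3 : 0 ≤ (n : ℝ) ^ (-(1 / 3 + κ) - 1) := by positivity
    have h4 : (n : ℝ) ^ (-(1 / 3 + κ) - 1) ≤
        3 * (((n : ℝ) - 1) ^ (-(1 / 3 + κ)) - (n : ℝ) ^ (-(1 / 3 + κ))) := by
      nlinarith
    calc K * (n : ℝ) ^ (-(1 / 3 + κ) - 1) ≤
          K * (3 * (((n : ℝ) - 1) ^ (-(1 / 3 + κ)) - (n : ℝ) ^ (-(1 / 3 + κ)))) :=
          mul_le_mul_of_nonneg_left h4 hK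
      _ = _ := by ring
  have hE3 : |∑ n ∈ Ioc x N, D n * (1 / (n : ℝ) - 1 / ((n : ℝ) + 1))| ≤
      3 * K * (x : ℝ) ^ (-(1 / 3) - κ) := by
    refine (Finset.abs_sum_le_sum_abs _ _).trans ?_
    have h1 : ∑ n ∈ Ioc x N, |D n * (1 / (n : ℝ) - 1 / ((n : ℝ) + 1))| ≤
        ∑ n ∈ Ioc x N, 3 * K * (((n : ℝ) - 1) ^ (-(1 / 3 + κ)) - (n : ℝ) ^ (-(1 / 3 + κ))) := by
      apply Finset.sum_le_sum
      intro n hn
      rw [Finset.mem_Ioc] at hn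
      exact hE2 n (by omega)
    refine h1.trans ?_
    rw [← Finset.mul_sum]
    have h2 : ∀ M : ℕ, x ≤ M →
        ∑ n ∈ Ioc x M, (((n : ℝ) - 1) ^ (-(1 / 3 + κ)) - (n : ℝ) ^ (-(1 / 3 + κ))) =
        (x : ℝ) ^ (-(1 / 3 + κ)) - (M : ℝ) ^ (-(1 / 3 + κ)) := by
      intro M hM
      induction M, hM using Nat.le_induction with
      | base => simp
      | succ M hM ih =>
        rw [← Finset.insert_Ioc_right_eq_Ioc_add_one (by omega), Finset.sum_insert (by simp), ih]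
        push_cast
        ring_nf
    rw [h2 N hN]
    have e : -(1 / 3 + κ) = -(1 / 3) - κ := by ring
    rw [e]
    have h3 : 0 ≤ (N : ℝ) ^ (-(1 / 3) - κ) := by positivity
    nlinarith [mul_nonneg hK h3]
  -- the main part
  have hM1 : ∀ n : ℕ, 1 ≤ n → |(n : ℝ) ^ (2 / 3 : ℝ) * (1 / (n : ℝ) - 1 / ((n : ℝ) + 1)) -
      3 * ((n : ℝ) ^ (-(1 / 3) : ℝ) - ((n : ℝ) + 1) ^ (-(1 / 3) : ℝ))| ≤
      (n : ℝ) ^ (-(4 / 3) : ℝ) - ((n : ℝ) + 1) ^ (-(4 / 3) : ℝ) := by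
    intro n hn
    have hn0 : (0 : ℝ) < n := by exact_mod_cast hn
    have hn1 : (0 : ℝ) < (n : ℝ) + 1 := by positivity
    have h1 := neg_hi (s := 1 / 3) (by norm_num) hn0
    have h2 := neg_lo (s := 1 / 3) (by norm_num) hn0
    have e : (-(1 / 3) - 1 : ℝ) = -(4 / 3) := by norm_num
    rw [e] at h1 h2
    have e1 : (n : ℝ) ^ (2 / 3 : ℝ) * (1 / (n : ℝ) - 1 / ((n : ℝ) + 1)) =
        (n : ℝ) ^ (-(1 / 3) : ℝ) / ((n : ℝ) + 1) := by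
      have e2 : (n : ℝ) ^ (2 / 3 : ℝ) = (n : ℝ) ^ (-(1 / 3) : ℝ) * n := by
        rw [← Real.rpow_add_one hn0.ne']
        norm_num
      rw [e2]
      field_simp
      ring
    have h3 : (n : ℝ) ^ (-(1 / 3) : ℝ) / ((n : ℝ) + 1) ≤ (n : ℝ) ^ (-(4 / 3) : ℝ) := by
      rw [div_le_iff₀ hn1]
      have e2 : (n : ℝ) ^ (-(1 / 3) : ℝ) = (n : ℝ) ^ (-(4 / 3) : ℝ) * n := by
        rw [← Real.rpow_add_one hn0.ne']
        norm_num
      rw [e2]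
      have : 0 ≤ (n : ℝ) ^ (-(4 / 3) : ℝ) := by positivity
      nlinarith
    have h4 : ((n : ℝ) + 1) ^ (-(4 / 3) : ℝ) ≤ (n : ℝ) ^ (-(1 / 3) : ℝ) / ((n : ℝ) + 1) := by
      rw [le_div_iff₀ hn1]
      have e2 : ((n : ℝ) + 1) ^ (-(4 / 3) : ℝ) * ((n : ℝ) + 1) = ((n : ℝ) + 1) ^ (-(1 / 3) : ℝ) := by
        rw [← Real.rpow_add_one hn1.ne']
        norm_num
      rw [e2]
      exact Real.rpow_le_rpow_of_nonpos hn0 (by linarith) (by norm_num)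
    rw [e1, abs_le]
    constructor <;> linarith
  have hM2 : |∑ n ∈ Ioc x N, (n : ℝ) ^ (2 / 3 : ℝ) * (1 / (n : ℝ) - 1 / ((n : ℝ) + 1)) -
      3 * (((x : ℝ) + 1) ^ (-(1 / 3) : ℝ) - ((N : ℝ) + 1) ^ (-(1 / 3) : ℝ))| ≤
      ((x : ℝ) + 1) ^ (-(4 / 3) : ℝ) := by
    have h1 : ∀ (g : ℕ → ℝ) (M : ℕ), x ≤ M → ∑ n ∈ Ioc x M, (g n - g (n + 1)) =
        g (x + 1) - g (M + 1) := by
      intro g M hM
      induction M, hM using Nat.le_induction with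
      | base => simp
      | succ M hM ih =>
        rw [← Finset.insert_Ioc_right_eq_Ioc_add_one (by omega), Finset.sum_insert (by simp), ih]
        ring
    have h2 := h1 (fun n => (n : ℝ) ^ (-(1 / 3) : ℝ)) N hN
    have h3 := h1 (fun n => (n : ℝ) ^ (-(4 / 3) : ℝ)) N hN
    simp only [Nat.cast_add, Nat.cast_one] at h2 h3
    rw [← h2, Finset.mul_sum, ← Finset.sum_sub_distrib]
    refine (Finset.abs_sum_le_sum_abs _ _).trans ?_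
    have h4 : ∑ n ∈ Ioc x N, |(n : ℝ) ^ (2 / 3 : ℝ) * (1 / (n : ℝ) - 1 / ((n : ℝ) + 1)) -
        3 * ((n : ℝ) ^ (-(1 / 3) : ℝ) - ((n : ℝ) + 1) ^ (-(1 / 3) : ℝ))| ≤
        ∑ n ∈ Ioc x N, ((n : ℝ) ^ (-(4 / 3) : ℝ) - ((n : ℝ) + 1) ^ (-(4 / 3) : ℝ)) := by
      apply Finset.sum_le_sum
      intro n hn
      rw [Finset.mem_Ioc] at hn
      exact hM1 n (by omega)
    refine h4.trans ?_
    rw [h3]
    have : 0 ≤ ((N : ℝ) + 1) ^ (-(4 / 3) : ℝ) := by positivity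
    linarith
  have hx4 : (x : ℝ) ^ (-(4 / 3) : ℝ) ≤ (x : ℝ) ^ (-(1 / 3) - κ) :=
    Real.rpow_le_rpow_of_exponent_le hx1 (by linarith)
  have hM3 : ((x : ℝ) + 1) ^ (-(4 / 3) : ℝ) ≤ (x : ℝ) ^ (-(4 / 3) : ℝ) :=
    Real.rpow_le_rpow_of_nonpos hx0 (by linarith) (by norm_num)
  have hM4 : |(x : ℝ) ^ (-(1 / 3) : ℝ) - ((x : ℝ) + 1) ^ (-(1 / 3) : ℝ)| ≤
      1 / 3 * (x : ℝ) ^ (-(4 / 3) : ℝ) := by
    have h1 := neg_hi (s := 1 / 3) (by norm_num) hx0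
    have e : (-(1 / 3) - 1 : ℝ) = -(4 / 3) := by norm_num
    rw [e] at h1
    rw [abs_of_nonneg]
    · exact h1
    · have := Real.rpow_le_rpow_of_nonpos hx0 (by linarith : (x : ℝ) ≤ x + 1)
        (by norm_num : (-(1 / 3) : ℝ) ≤ 0)
      linarith
  have hM5 : |(x : ℝ) ^ (2 / 3 : ℝ) / ((x : ℝ) + 1) - (x : ℝ) ^ (-(1 / 3) : ℝ)| ≤
      (x : ℝ) ^ (-(4 / 3) : ℝ) := by
    have e2 : (x : ℝ) ^ (2 / 3 : ℝ) = (x : ℝ) ^ (-(1 / 3) : ℝ) * x := by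
      rw [← Real.rpow_add_one hx0.ne']
      norm_num
    have e3 : (x : ℝ) ^ (-(1 / 3) : ℝ) = (x : ℝ) ^ (-(4 / 3) : ℝ) * x := by
      rw [← Real.rpow_add_one hx0.ne']
      norm_num
    have e4 : (x : ℝ) ^ (2 / 3 : ℝ) / ((x : ℝ) + 1) - (x : ℝ) ^ (-(1 / 3) : ℝ) =
        - ((x : ℝ) ^ (-(4 / 3) : ℝ) * (x / (x + 1))) := by
      rw [e2, e3]
      field_simp
      ring
    rw [e4, abs_neg, abs_of_nonneg (by positivity)]
    have h1 : (x : ℝ) / (x + 1) ≤ 1 := by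
      rw [div_le_one (by positivity)]
      linarith
    have h2 : 0 ≤ (x : ℝ) ^ (-(4 / 3) : ℝ) := by positivity
    nlinarith
  have hM6 : (N : ℝ) ^ (2 / 3 : ℝ) / ((N : ℝ) + 1) ≤ (N : ℝ) ^ (-(1 / 3) : ℝ) := by
    rw [div_le_iff₀ (by positivity)]
    have e2 : (N : ℝ) ^ (2 / 3 : ℝ) = (N : ℝ) ^ (-(1 / 3) : ℝ) * N := by
      rw [← Real.rpow_add_one hN0.ne']
      norm_num
    rw [e2]
    have : 0 ≤ (N : ℝ) ^ (-(1 / 3) : ℝ) := by positivity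
    nlinarith
  have hM7 : ((N : ℝ) + 1) ^ (-(1 / 3) : ℝ) ≤ (N : ℝ) ^ (-(1 / 3) : ℝ) :=
    Real.rpow_le_rpow_of_nonpos hN0 (by linarith) (by norm_num)
  have hNx : (N : ℝ) ^ (-(1 / 3) - κ) ≤ (x : ℝ) ^ (-(1 / 3) - κ) :=
    Real.rpow_le_rpow_of_nonpos hx0 hxN (by linarith)
  have hsum : ∑ n ∈ Ioc x N, (A R n : ℝ) * (1 / (n : ℝ) - 1 / ((n : ℝ) + 1)) =
      C * ∑ n ∈ Ioc x N, (n : ℝ) ^ (2 / 3 : ℝ) * (1 / (n : ℝ) - 1 / ((n : ℝ) + 1)) +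
      ∑ n ∈ Ioc x N, D n * (1 / (n : ℝ) - 1 / ((n : ℝ) + 1)) := by
    rw [Finset.mul_sum, ← Finset.sum_add_distrib]
    apply Finset.sum_congr rfl
    intro n _
    rw [hAD]
    ring
  have hab := abel hf x N hN
  rw [hsum, hAD N, hAD x] at hab
  have hNp : 0 ≤ (N : ℝ) ^ (2 / 3 : ℝ) / ((N : ℝ) + 1) := by positivity
  have hNp' : 0 ≤ ((N : ℝ) + 1) ^ (-(1 / 3) : ℝ) := by positivity
  have a1 := abs_le.1 (hE1 N (hx.trans hN))
  have a2 := abs_le.1 (hE1 x hx)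
  have a3 := abs_le.1 hE3
  have a4 := abs_le.1 hM2
  have a5 := abs_le.1 hM4
  have a6 := abs_le.1 hM5
  have e1 : (C * (N : ℝ) ^ (2 / 3 : ℝ) + D N) / ((N : ℝ) + 1) =
      C * ((N : ℝ) ^ (2 / 3 : ℝ) / ((N : ℝ) + 1)) + D N / ((N : ℝ) + 1) := by ring
  have e2 : (C * (x : ℝ) ^ (2 / 3 : ℝ) + D x) / ((x : ℝ) + 1) =
      C * ((x : ℝ) ^ (2 / 3 : ℝ) / ((x : ℝ) + 1)) + D x / ((x : ℝ) + 1) := by ring
  rw [e1, e2] at hab
  have hKN : K * (N : ℝ) ^ (-(1 / 3) - κ) ≤ K * (x : ℝ) ^ (-(1 / 3) - κ) :=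
    mul_le_mul_of_nonneg_left hNx hK
  obtain ⟨p1, hp1⟩ : ∃ p, p = ∑ n ∈ Ioc x N, (n : ℝ) ^ (2 / 3 : ℝ) *
    (1 / (n : ℝ) - 1 / ((n : ℝ) + 1)) := ⟨_, rfl⟩
  obtain ⟨p2, hp2⟩ : ∃ p, p = ∑ n ∈ Ioc x N, D n * (1 / (n : ℝ) - 1 / ((n : ℝ) + 1)) := ⟨_, rfl⟩
  rw [← hp1] at a4 hab
  rw [← hp2] at a3 hab
  obtain ⟨q1, hq1⟩ : ∃ q, q = (N : ℝ) ^ (2 / 3 : ℝ) / ((N : ℝ) + 1) := ⟨_, rfl⟩
  obtain ⟨q2, hq2⟩ : ∃ q, q = (x : ℝ) ^ (2 / 3 : ℝ) / ((x : ℝ) + 1) := ⟨_, rfl⟩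
  obtain ⟨q3, hq3⟩ : ∃ q, q = (x : ℝ) ^ (-(4 / 3) : ℝ) := ⟨_, rfl⟩
  obtain ⟨q4, hq4⟩ : ∃ q, q = (x : ℝ) ^ (-(1 / 3) : ℝ) := ⟨_, rfl⟩
  obtain ⟨q5, hq5⟩ : ∃ q, q = ((x : ℝ) + 1) ^ (-(1 / 3) : ℝ) := ⟨_, rfl⟩
  obtain ⟨q6, hq6⟩ : ∃ q, q = ((N : ℝ) + 1) ^ (-(1 / 3) : ℝ) := ⟨_, rfl⟩
  obtain ⟨q7, hq7⟩ : ∃ q, q = (N : ℝ) ^ (-(1 / 3) : ℝ) := ⟨_, rfl⟩
  obtain ⟨q8, hq8⟩ : ∃ q, q = (x : ℝ) ^ (-(1 / 3) - κ) := ⟨_, rfl⟩
  obtain ⟨q9, hq9⟩ : ∃ q, q = ((x : ℝ) + 1) ^ (-(4 / 3) : ℝ) := ⟨_, rfl⟩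
  rw [← hq5, ← hq6, ← hq9] at a4
  rw [← hq4, ← hq5, ← hq3] at a5
  rw [← hq2, ← hq4, ← hq3] at a6
  rw [← hq1, ← hq2] at hab
  rw [← hq1, ← hq7] at hM6
  rw [← hq6, ← hq7] at hM7
  rw [← hq9, ← hq3] at hM3
  rw [← hq3, ← hq8] at hx4
  rw [← hq1] at hNp
  rw [← hq6] at hNp'
  rw [← hq8] at a2 a3 hKN
  rw [hab, ← hq4, ← hq8, ← hq7]
  have hmul : ∀ {a b : ℝ}, a ≤ b → C * a ≤ C * b := fun h => mul_le_mul_of_nonneg_left h hC
  have b1 := hmul a4.1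
  have b2 := hmul a4.2
  have b3 := hmul a5.1
  have b4 := hmul a5.2
  have b5 := hmul a6.1
  have b6 := hmul a6.2
  have b7 := hmul hM6
  have b8 := hmul hM7
  have b9 := hmul hM3
  have b10 := hmul hx4
  have b11 := hmul hNp
  have b12 := hmul hNp'
  rw [abs_le]
  constructor <;> nlinarith

theorem S_tendsto (hf : ∀ n, {i | R i ≤ n}.Finite) (hs : Summable (fun i => 1 / (R i : ℝ))) :
    Tendsto (fun n => S hf n) atTop (𝓝 (∑' i, 1 / (R i : ℝ))) := by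
  have h1 : Tendsto (fun n => (hf n).toFinset) atTop atTop := by
    apply tendsto_atTop_finset_of_monotone
    · intro m n hmn i hi
      rw [Set.Finite.mem_toFinset] at hi ⊢
      exact le_trans hi hmn
    · intro i
      refine ⟨R i, ?_⟩
      rw [Set.Finite.mem_toFinset]
      exact le_refl (R i)
  exact hs.hasSum.comp h1

theorem tail_bound (hf : ∀ n, {i | R i ≤ n}.Finite) (hs : Summable (fun i => 1 / (R i : ℝ)))
    (hC : 0 ≤ C) (hK : 0 ≤ K) (hκ : 0 < κ) (hκ1 : κ ≤ 1 / 3)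
    (hA : ∀ n : ℕ, 1 ≤ n → |(A R n : ℝ) - C * (n : ℝ) ^ (2 / 3 : ℝ)| ≤ K * (n : ℝ) ^ (2 / 3 - κ))
    {x : ℕ} (hx : 1 ≤ x) :
    |∑' i, 1 / (R i : ℝ) - S hf x - 2 * C * (x : ℝ) ^ (-(1 / 3) : ℝ)| ≤
      (5 * K + 3 * C) * (x : ℝ) ^ (-(1 / 3) - κ) := by
  have h1 : Tendsto (fun N : ℕ => |S hf N - S hf x - 2 * C * (x : ℝ) ^ (-(1 / 3) : ℝ)|) atTop
      (𝓝 |∑' i, 1 / (R i : ℝ) - S hf x - 2 * C * (x : ℝ) ^ (-(1 / 3) : ℝ)|) :=
    (((S_tendsto hf hs).sub_const _).sub_const _).abs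
  have h2 : Tendsto (fun N : ℕ => (5 * K + 3 * C) * (x : ℝ) ^ (-(1 / 3) - κ) +
      4 * C * (N : ℝ) ^ (-(1 / 3) : ℝ)) atTop
      (𝓝 ((5 * K + 3 * C) * (x : ℝ) ^ (-(1 / 3) - κ) + 4 * C * 0)) := by
    apply Tendsto.const_add
    apply Tendsto.const_mul
    exact (tendsto_rpow_neg_atTop (by norm_num : (0 : ℝ) < 1 / 3)).comp
      tendsto_natCast_atTop_atTop
  rw [mul_zero, add_zero] at h2
  apply le_of_tendsto_of_tendsto h1 h2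
  filter_upwards [eventually_ge_atTop x] with N hN
  exact partial_bound hf hC hK hκ hκ1 hA hx hN

theorem A_real (hC : 0 ≤ C) (hK : 0 ≤ K) (hκ : 0 < κ) (hκ1 : κ ≤ 1 / 3)
    (hA : ∀ n : ℕ, 1 ≤ n → |(A R n : ℝ) - C * (n : ℝ) ^ (2 / 3 : ℝ)| ≤ K * (n : ℝ) ^ (2 / 3 - κ))
    {t : ℝ} (ht : 1 ≤ t) :
    |(A R ⌊t⌋₊ : ℝ) - C * t ^ (2 / 3 : ℝ)| ≤ (K + C) * t ^ (2 / 3 - κ) := by
  obtain ⟨n, hn⟩ : ∃ n, n = ⌊t⌋₊ := ⟨_, rfl⟩
  rw [← hn]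
  have hn1 : 1 ≤ n := by
    rw [hn]
    exact (Nat.one_le_floor_iff t).2 ht
  have ht0 : 0 < t := by linarith
  have h1 : (n : ℝ) ≤ t := by rw [hn]; exact Nat.floor_le ht0.le
  have h2 : t ≤ (n : ℝ) + 1 := by rw [hn]; exact (Nat.lt_floor_add_one t).le
  have hn0 : (0 : ℝ) < n := by exact_mod_cast hn1
  have hn1' : (1 : ℝ) ≤ n := by exact_mod_cast hn1
  have h3 := pos_hi (q := 2 / 3) (by norm_num) (by norm_num) hn0
  have h4 : (n : ℝ) ^ ((2 / 3 : ℝ) - 1) ≤ 1 :=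
    Real.rpow_le_one_of_one_le_of_nonpos hn1' (by norm_num)
  have h5 : t ^ (2 / 3 : ℝ) ≤ ((n : ℝ) + 1) ^ (2 / 3 : ℝ) :=
    Real.rpow_le_rpow ht0.le h2 (by norm_num)
  have h6 : (n : ℝ) ^ (2 / 3 : ℝ) ≤ t ^ (2 / 3 : ℝ) := Real.rpow_le_rpow hn0.le h1 (by norm_num)
  have h7 : (1 : ℝ) ≤ t ^ (2 / 3 - κ) := Real.one_le_rpow ht (by linarith)
  have h8 : (n : ℝ) ^ (2 / 3 - κ) ≤ t ^ (2 / 3 - κ) :=
    Real.rpow_le_rpow hn0.le h1 (by linarith)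
  have h9 := abs_le.1 (hA n hn1)
  have h10 := mul_le_mul_of_nonneg_left h8 hK
  have h11 : C * (t ^ (2 / 3 : ℝ) - (n : ℝ) ^ (2 / 3 : ℝ)) ≤ C * t ^ (2 / 3 - κ) := by
    apply mul_le_mul_of_nonneg_left _ hC
    linarith
  have h12 : 0 ≤ C * (t ^ (2 / 3 : ℝ) - (n : ℝ) ^ (2 / 3 : ℝ)) :=
    mul_nonneg hC (by linarith)
  have h13 : 0 ≤ C * t ^ (2 / 3 - κ) := mul_nonneg hC (by linarith)
  rw [abs_le]
  constructor <;> nlinarith

theorem S_real (hf : ∀ n, {i | R i ≤ n}.Finite) (hs : Summable (fun i => 1 / (R i : ℝ)))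
    (hC : 0 ≤ C) (hK : 0 ≤ K) (hκ : 0 < κ) (hκ1 : κ ≤ 1 / 3)
    (hA : ∀ n : ℕ, 1 ≤ n → |(A R n : ℝ) - C * (n : ℝ) ^ (2 / 3 : ℝ)| ≤ K * (n : ℝ) ^ (2 / 3 - κ))
    {t : ℝ} (ht : 1 ≤ t) :
    |∑' i, 1 / (R i : ℝ) - S hf ⌊t⌋₊ - 2 * C * t ^ (-(1 / 3) : ℝ)| ≤
      (10 * K + 8 * C) * t ^ (-(1 / 3) - κ) := by
  obtain ⟨n, hn⟩ : ∃ n, n = ⌊t⌋₊ := ⟨_, rfl⟩
  rw [← hn]
  have hn1 : 1 ≤ n := by
    rw [hn]
    exact (Nat.one_le_floor_iff t).2 ht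
  have ht0 : 0 < t := by linarith
  have h1 : (n : ℝ) ≤ t := by rw [hn]; exact Nat.floor_le ht0.le
  have h2 : t ≤ (n : ℝ) + 1 := by rw [hn]; exact (Nat.lt_floor_add_one t).le
  have hn0 : (0 : ℝ) < n := by exact_mod_cast hn1
  have hn1' : (1 : ℝ) ≤ n := by exact_mod_cast hn1
  have hn2 : t / 2 ≤ n := by linarith
  have ht2 : 0 < t / 2 := by linarith
  have h3 := neg_hi (s := 1 / 3) (by norm_num) hn0
  have h4 : ((n : ℝ) + 1) ^ (-(1 / 3) : ℝ) ≤ t ^ (-(1 / 3) : ℝ) :=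
    Real.rpow_le_rpow_of_nonpos ht0 h2 (by norm_num)
  have h5 : t ^ (-(1 / 3) : ℝ) ≤ (n : ℝ) ^ (-(1 / 3) : ℝ) :=
    Real.rpow_le_rpow_of_nonpos hn0 h1 (by norm_num)
  have e43 : (-(1 / 3) - 1 : ℝ) = -(4 / 3) := by norm_num
  rw [e43] at h3
  -- comparison of `n` and `t`
  have hcmp : ∀ e : ℝ, e ≤ 0 → (n : ℝ) ^ e ≤ 2 ^ (-e) * t ^ e := by
    intro e he
    have g1 : (n : ℝ) ^ e ≤ (t / 2) ^ e := Real.rpow_le_rpow_of_nonpos ht2 hn2 he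
    have g2 : (t / 2) ^ e = 2 ^ (-e) * t ^ e := by
      rw [Real.div_rpow ht0.le (by norm_num), Real.rpow_neg (by norm_num)]
      ring
    rw [g2] at g1
    exact g1
  have h6 : (n : ℝ) ^ (-(4 / 3) : ℝ) ≤ 3 * t ^ (-(1 / 3) - κ) := by
    have g1 := hcmp (-(4 / 3)) (by norm_num)
    have g2 : (2 : ℝ) ^ (-(-(4 / 3)) : ℝ) ≤ 3 := by
      have g3 : ((2 : ℝ) ^ (-(-(4 / 3)) : ℝ)) ^ (3 : ℕ) ≤ 3 ^ (3 : ℕ) := by
        rw [← Real.rpow_natCast, ← Real.rpow_mul (by norm_num)]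
        norm_num
      exact le_of_pow_le_pow_left₀ (by norm_num) (by norm_num) g3
    have g4 : t ^ (-(4 / 3) : ℝ) ≤ t ^ (-(1 / 3) - κ) :=
      Real.rpow_le_rpow_of_exponent_le ht (by linarith)
    have g5 : 0 ≤ t ^ (-(4 / 3) : ℝ) := by positivity
    calc (n : ℝ) ^ (-(4 / 3) : ℝ) ≤ 2 ^ (-(-(4 / 3)) : ℝ) * t ^ (-(4 / 3) : ℝ) := g1
      _ ≤ 3 * t ^ (-(4 / 3) : ℝ) := mul_le_mul_of_nonneg_right g2 g5
      _ ≤ 3 * t ^ (-(1 / 3) - κ) := by linarith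
  have h7 : (n : ℝ) ^ (-(1 / 3) - κ) ≤ 2 * t ^ (-(1 / 3) - κ) := by
    have g1 := hcmp (-(1 / 3) - κ) (by linarith)
    have g2 : (2 : ℝ) ^ (-(-(1 / 3) - κ)) ≤ 2 := by
      calc (2 : ℝ) ^ (-(-(1 / 3) - κ)) ≤ 2 ^ (1 : ℝ) :=
            Real.rpow_le_rpow_of_exponent_le (by norm_num) (by linarith)
        _ = 2 := Real.rpow_one 2
    have g5 : 0 ≤ t ^ (-(1 / 3) - κ) := by positivity
    exact g1.trans (mul_le_mul_of_nonneg_right g2 g5)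
  have h8 := abs_le.1 (tail_bound hf hs hC hK hκ hκ1 hA hn1)
  have h9 : (5 * K + 3 * C) * (n : ℝ) ^ (-(1 / 3) - κ) ≤
      (5 * K + 3 * C) * (2 * t ^ (-(1 / 3) - κ)) :=
    mul_le_mul_of_nonneg_left h7 (by positivity)
  have h10 : C * ((n : ℝ) ^ (-(1 / 3) : ℝ) - t ^ (-(1 / 3) : ℝ)) ≤ C * t ^ (-(1 / 3) - κ) := by
    apply mul_le_mul_of_nonneg_left _ hC
    linarith
  have h11 : 0 ≤ C * ((n : ℝ) ^ (-(1 / 3) : ℝ) - t ^ (-(1 / 3) : ℝ)) :=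
    mul_nonneg hC (by linarith)
  have h12 : 0 ≤ C * t ^ (-(1 / 3) - κ) := by positivity
  rw [abs_le]
  constructor <;> nlinarith

/-- The sum of the numbers of members dividing `r`. -/
theorem sum_ncard (hR : ∀ i, 1 ≤ R i) (hf : ∀ n, {i | R i ≤ n}.Finite) (Y : ℕ) :
    ∑ r ∈ Icc 1 Y, {i | R i ∣ r}.ncard = ∑ i ∈ (hf Y).toFinset, Y / R i := by
  classical
  have h1 : ∀ r ∈ Icc 1 Y, {i | R i ∣ r}.ncard = ((hf Y).toFinset.filter (fun i => R i ∣ r)).card := by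
    intro r hr
    rw [Finset.mem_Icc] at hr
    rw [← Set.ncard_coe_finset]
    congr 1
    ext i
    simp only [Set.mem_ofPred_eq, Finset.coe_filter, Set.Finite.mem_toFinset]
    constructor
    · intro h
      exact ⟨(Nat.le_of_dvd hr.1 h).trans hr.2, h⟩
    · exact fun h => h.2
  rw [Finset.sum_congr rfl h1]
  simp only [Finset.card_filter]
  rw [Finset.sum_comm]
  apply Finset.sum_congr rfl
  intro i _
  rw [← Finset.card_filter]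
  have := Nat.Ioc_filter_dvd_card_eq_div Y (R i)
  rw [← this]
  congr 1

/-- The hyperbola method. -/
theorem floor_sum (hR : ∀ i, 1 ≤ R i) (hf : ∀ n, {i | R i ≤ n}.Finite) {Y Z : ℕ} (hZ : 1 ≤ Z) :
    ∑ i ∈ (hf Y).toFinset, Y / R i + Z * A R (Y / Z) =
      ∑ i ∈ (hf (Y / Z)).toFinset, Y / R i + ∑ m ∈ Icc 1 Z, A R (Y / m) := by
  classical
  obtain ⟨x, hx⟩ : ∃ x, x = Y / Z := ⟨_, rfl⟩
  rw [← hx]
  have hxY : x ≤ Y := by rw [hx]; exact Nat.div_le_self _ _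
  have hsub : ∀ {m n : ℕ}, m ≤ n → (hf m).toFinset ⊆ (hf n).toFinset := by
    intro m n hmn i hi
    rw [Set.Finite.mem_toFinset] at hi ⊢
    exact le_trans hi hmn
  rw [← Finset.sum_sdiff (hsub hxY)]
  have h1 : ∀ i ∈ (hf Y).toFinset \ (hf x).toFinset,
      Y / R i = ((Icc 1 Z).filter (fun m => R i ≤ Y / m)).card := by
    intro i hi
    rw [Finset.mem_sdiff, Set.Finite.mem_toFinset, Set.Finite.mem_toFinset] at hi
    simp only [Set.mem_ofPred_eq, not_le] at hi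
    have hlt : Y / R i < Z := by
      rw [Nat.div_lt_iff_lt_mul (hR i)]
      have g1 : Y / Z < R i := by rw [← hx]; exact hi.2
      rw [Nat.div_lt_iff_lt_mul (by omega)] at g1
      rw [mul_comm]
      exact g1
    have e : (Icc 1 Z).filter (fun m => R i ≤ Y / m) = Icc 1 (Y / R i) := by
      ext m
      simp only [Finset.mem_filter, Finset.mem_Icc]
      constructor
      · rintro ⟨⟨g1, g2⟩, g3⟩
        refine ⟨g1, ?_⟩
        rw [Nat.le_div_iff_mul_le (by omega)] at g3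
        rw [Nat.le_div_iff_mul_le (hR i), mul_comm]
        exact g3
      · rintro ⟨g1, g2⟩
        refine ⟨⟨g1, g2.trans hlt.le⟩, ?_⟩
        rw [Nat.le_div_iff_mul_le (hR i)] at g2
        rw [Nat.le_div_iff_mul_le (by omega), mul_comm]
        exact g2
    rw [e]
    simp
  have h2 : ∑ i ∈ (hf Y).toFinset \ (hf x).toFinset, Y / R i + Z * A R x =
      ∑ m ∈ Icc 1 Z, A R (Y / m) := by
    rw [Finset.sum_congr rfl h1]
    simp only [Finset.card_filter]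
    rw [Finset.sum_comm]
    have h3 : Z * A R x = ∑ _m ∈ Icc 1 Z, A R x := by
      rw [Finset.sum_const, Nat.card_Icc, Nat.add_sub_cancel, smul_eq_mul]
    rw [h3, ← Finset.sum_add_distrib]
    apply Finset.sum_congr rfl
    intro m hm
    rw [Finset.mem_Icc] at hm
    rw [← Finset.card_filter, A_eq hf x, A_eq hf (Y / m)]
    have hxm : x ≤ Y / m := by
      rw [hx]
      exact Nat.div_le_div_left hm.2 hm.1
    have e : ((hf Y).toFinset \ (hf x).toFinset).filter (fun i => R i ≤ Y / m) =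
        (hf (Y / m)).toFinset \ (hf x).toFinset := by
      ext i
      simp only [Finset.mem_filter, Finset.mem_sdiff, Set.Finite.mem_toFinset, Set.mem_ofPred_eq]
      constructor
      · rintro ⟨⟨_, g2⟩, g3⟩
        exact ⟨g3, g2⟩
      · rintro ⟨g1, g2⟩
        exact ⟨⟨g1.trans (Nat.div_le_self _ _), g2⟩, g1⟩
    rw [e, Finset.card_sdiff_of_subset (hsub hxm)]
    exact Nat.sub_add_cancel (Finset.card_le_card (hsub hxm))
  rw [← h2]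
  ring

end family

end Pool.Agent.Lib.AbcU.Sec
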