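import Pool.Agent.Lib.AbcU.Sec

/-!
# The secondary term of the first moment: conclusion
-/

namespace Pool.Agent.Lib.AbcU.Sec

open Filter Topology Finset

variable {ι : Type*} {R : ι → ℕ} {C K κ : ℝ}

theorem main_bound (hR : ∀ i, 1 ≤ R i) (hf : ∀ n, {i | R i ≤ n}.Finite)
    (hs : Summable (fun i => 1 / (R i : ℝ)))
    (hC : 0 ≤ C) (hK : 0 ≤ K) (hκ : 0 < κ) (hκ1 : κ ≤ 1 / 3)
    (hA : ∀ n : ℕ, 1 ≤ n → |(A R n : ℝ) - C * (n : ℝ) ^ (2 / 3 : ℝ)| ≤ K * (n : ℝ) ^ (2 / 3 - κ))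
    {ζ : ℝ} (hζ : ∀ Z : ℕ, 1 ≤ Z →
      |∑ m ∈ Icc 1 Z, (m : ℝ) ^ (-(2 / 3) : ℝ) - 3 * (Z : ℝ) ^ (1 / 3 : ℝ) - ζ| ≤
      (Z : ℝ) ^ (-(2 / 3) : ℝ))
    {Y Z : ℕ} (hZ : 1 ≤ Z) (hZY : Z ≤ Y) :
    |((∑ r ∈ Icc 1 Y, {i | R i ∣ r}.ncard : ℕ) : ℝ) - (∑' i, 1 / (R i : ℝ)) * Y -
      C * ζ * (Y : ℝ) ^ (2 / 3 : ℝ)| ≤
      (12 * K + 10 * C) * (Z * (Y : ℝ) ^ (2 / 3 - κ)) +
      (K + 3 * C) * ((Y : ℝ) ^ (2 / 3 : ℝ) * (Z : ℝ) ^ (-(2 / 3) : ℝ)) := by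
  have hZ0 : (0 : ℝ) < Z := by exact_mod_cast hZ
  have hZ1 : (1 : ℝ) ≤ Z := by exact_mod_cast hZ
  have hY0 : (0 : ℝ) < Y := by exact_mod_cast (lt_of_lt_of_le (by omega : 0 < Z) hZY)
  have hY1 : (1 : ℝ) ≤ Y := by exact_mod_cast hZ.trans hZY
  obtain ⟨t, ht⟩ : ∃ t : ℝ, t = (Y : ℝ) / Z := ⟨_, rfl⟩
  have ht1 : 1 ≤ t := by
    rw [ht, le_div_iff₀ hZ0, one_mul]
    exact_mod_cast hZY
  have ht0 : 0 < t := by linarith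
  have htY : t ≤ Y := by
    rw [ht, div_le_iff₀ hZ0]
    nlinarith
  have hfl : ⌊t⌋₊ = Y / Z := by rw [ht, Nat.floor_div_eq_div]
  obtain ⟨x, hx⟩ : ∃ x, x = Y / Z := ⟨_, rfl⟩
  obtain ⟨E, hE⟩ : ∃ E : ℝ, E = ∑' i, 1 / (R i : ℝ) := ⟨_, rfl⟩
  have hmain := floor_sum hR hf (Y := Y) (Z := Z) hZ
  rw [← sum_ncard hR hf Y, ← hx] at hmain
  have hmain' : ((∑ r ∈ Icc 1 Y, {i | R i ∣ r}.ncard : ℕ) : ℝ) + Z * (A R x : ℝ) =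
      ((∑ i ∈ (hf x).toFinset, Y / R i : ℕ) : ℝ) + ∑ m ∈ Icc 1 Z, (A R (Y / m) : ℝ) := by
    exact_mod_cast hmain
  -- (i)
  have hi1 : ((∑ i ∈ (hf x).toFinset, Y / R i : ℕ) : ℝ) ≤ Y * S hf x := by
    unfold S
    rw [Finset.mul_sum, Nat.cast_sum]
    apply Finset.sum_le_sum
    intro i _
    rw [mul_one_div]
    exact Nat.cast_div_le
  have hi2 : Y * S hf x - A R x ≤ ((∑ i ∈ (hf x).toFinset, Y / R i : ℕ) : ℝ) := by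
    have e : (A R x : ℝ) = ∑ _i ∈ (hf x).toFinset, (1 : ℝ) := by
      rw [Finset.sum_const, nsmul_eq_mul, mul_one, A_eq hf]
    unfold S
    rw [e, Finset.mul_sum, Nat.cast_sum, ← Finset.sum_sub_distrib]
    apply Finset.sum_le_sum
    intro i _
    have hRi : (0 : ℝ) < R i := by exact_mod_cast hR i
    have h1 : (Y : ℝ) / R i < ((Y / R i : ℕ) : ℝ) + 1 := by
      have := Nat.lt_floor_add_one ((Y : ℝ) / R i)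
      rw [Nat.floor_div_eq_div] at this
      exact this
    rw [mul_one_div]
    linarith
  -- (ii)
  have hii := abs_le.1 (S_real hf hs hC hK hκ hκ1 hA ht1)
  rw [hfl, ← hx, ← hE] at hii
  have eA : (Y : ℝ) * t ^ (-(1 / 3) : ℝ) = (Y : ℝ) ^ (2 / 3 : ℝ) * (Z : ℝ) ^ (1 / 3 : ℝ) := by
    rw [ht, Real.div_rpow hY0.le hZ0.le, Real.rpow_neg hZ0.le, div_inv_eq_mul, ← mul_assoc]
    congr 1
    rw [mul_comm, ← Real.rpow_add_one hY0.ne']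
    norm_num
  have eB : (Z : ℝ) * t ^ (2 / 3 : ℝ) = (Y : ℝ) ^ (2 / 3 : ℝ) * (Z : ℝ) ^ (1 / 3 : ℝ) := by
    rw [ht, Real.div_rpow hY0.le hZ0.le]
    have : (Z : ℝ) = (Z : ℝ) ^ (1 / 3 : ℝ) * (Z : ℝ) ^ (2 / 3 : ℝ) := by
      rw [← Real.rpow_add hZ0]
      norm_num
    have hp : (Z : ℝ) ^ (2 / 3 : ℝ) ≠ 0 := (Real.rpow_pos_of_pos hZ0 _).ne'
    rw [mul_div_assoc']
    rw [div_eq_iff hp]
    calc (Z : ℝ) * (Y : ℝ) ^ (2 / 3 : ℝ) =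
          ((Z : ℝ) ^ (1 / 3 : ℝ) * (Z : ℝ) ^ (2 / 3 : ℝ)) * (Y : ℝ) ^ (2 / 3 : ℝ) := by rw [← this]
      _ = _ := by ring
  have eC : (Y : ℝ) * t ^ (-(1 / 3) - κ) ≤ Z * (Y : ℝ) ^ (2 / 3 - κ) := by
    have e1 : (Y : ℝ) * t ^ (-(1 / 3) - κ) =
        (Y : ℝ) ^ (2 / 3 - κ) * (Z : ℝ) ^ (-(-(1 / 3) - κ)) := by
      rw [ht, Real.div_rpow hY0.le hZ0.le, Real.rpow_neg hZ0.le, ← div_eq_mul_inv, ← mul_div_assoc]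
      congr 1
      rw [mul_comm, ← Real.rpow_add_one hY0.ne']
      congr 1
      ring
    have e2 : (Z : ℝ) ^ (-(-(1 / 3) - κ)) ≤ Z := by
      calc (Z : ℝ) ^ (-(-(1 / 3) - κ)) ≤ (Z : ℝ) ^ (1 : ℝ) :=
            Real.rpow_le_rpow_of_exponent_le hZ1 (by linarith)
        _ = Z := Real.rpow_one _
    rw [e1, mul_comm]
    exact mul_le_mul_of_nonneg_right e2 (by positivity)
  -- (iii)
  have hiii : |∑ m ∈ Icc 1 Z, (A R (Y / m) : ℝ) -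
      C * (Y : ℝ) ^ (2 / 3 : ℝ) * ∑ m ∈ Icc 1 Z, (m : ℝ) ^ (-(2 / 3) : ℝ)| ≤
      (K + C) * (Z * (Y : ℝ) ^ (2 / 3 - κ)) := by
    rw [Finset.mul_sum, ← Finset.sum_sub_distrib]
    refine (Finset.abs_sum_le_sum_abs _ _).trans ?_
    have h1 : ∀ m ∈ Icc 1 Z, |(A R (Y / m) : ℝ) -
        C * (Y : ℝ) ^ (2 / 3 : ℝ) * (m : ℝ) ^ (-(2 / 3) : ℝ)| ≤ (K + C) * (Y : ℝ) ^ (2 / 3 - κ) := by
      intro m hm
      rw [Finset.mem_Icc] at hm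
      have hm0 : (0 : ℝ) < m := by exact_mod_cast hm.1
      have hm1 : (1 : ℝ) ≤ m := by exact_mod_cast hm.1
      have hu1 : (1 : ℝ) ≤ (Y : ℝ) / m := by
        rw [le_div_iff₀ hm0, one_mul]
        exact_mod_cast hm.2.trans hZY
      have h2 := A_real hC hK hκ hκ1 hA hu1
      rw [Nat.floor_div_eq_div] at h2
      have e1 : ((Y : ℝ) / m) ^ (2 / 3 : ℝ) = (Y : ℝ) ^ (2 / 3 : ℝ) * (m : ℝ) ^ (-(2 / 3) : ℝ) := by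
        rw [Real.div_rpow hY0.le hm0.le, Real.rpow_neg hm0.le, div_eq_mul_inv]
      rw [e1, ← mul_assoc] at h2
      refine h2.trans ?_
      apply mul_le_mul_of_nonneg_left _ (by linarith)
      apply Real.rpow_le_rpow (by positivity) _ (by linarith)
      rw [div_le_iff₀ hm0]
      nlinarith
    refine (Finset.sum_le_sum h1).trans ?_
    rw [Finset.sum_const, Nat.card_Icc, Nat.add_sub_cancel, nsmul_eq_mul]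
    apply le_of_eq
    ring
  -- (iv)
  have hiv := A_real hC hK hκ hκ1 hA ht1
  rw [hfl, ← hx] at hiv
  have hiv' : |Z * (A R x : ℝ) - C * ((Y : ℝ) ^ (2 / 3 : ℝ) * (Z : ℝ) ^ (1 / 3 : ℝ))| ≤
      (K + C) * (Z * (Y : ℝ) ^ (2 / 3 - κ)) := by
    rw [← eB]
    have e1 : Z * (A R x : ℝ) - C * (Z * t ^ (2 / 3 : ℝ)) = Z * ((A R x : ℝ) - C * t ^ (2 / 3 : ℝ)) := by
      ring
    rw [e1, abs_mul, abs_of_pos hZ0]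
    have h1 : t ^ (2 / 3 - κ) ≤ (Y : ℝ) ^ (2 / 3 - κ) := Real.rpow_le_rpow ht0.le htY (by linarith)
    calc Z * |(A R x : ℝ) - C * t ^ (2 / 3 : ℝ)| ≤ Z * ((K + C) * t ^ (2 / 3 - κ)) :=
          mul_le_mul_of_nonneg_left hiv hZ0.le
      _ ≤ Z * ((K + C) * (Y : ℝ) ^ (2 / 3 - κ)) := by
          apply mul_le_mul_of_nonneg_left _ hZ0.le
          exact mul_le_mul_of_nonneg_left h1 (by linarith)
      _ = _ := by ring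
  have hAx : (A R x : ℝ) ≤ (K + 2 * C) * ((Y : ℝ) ^ (2 / 3 : ℝ) * (Z : ℝ) ^ (-(2 / 3) : ℝ)) := by
    have h1 := (abs_le.1 hiv).2
    have h2 : t ^ (2 / 3 - κ) ≤ t ^ (2 / 3 : ℝ) :=
      Real.rpow_le_rpow_of_exponent_le ht1 (by linarith)
    have h3 : t ^ (2 / 3 : ℝ) = (Y : ℝ) ^ (2 / 3 : ℝ) * (Z : ℝ) ^ (-(2 / 3) : ℝ) := by
      rw [ht, Real.div_rpow hY0.le hZ0.le, Real.rpow_neg hZ0.le, div_eq_mul_inv]
    rw [← h3]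
    have h4 : (K + C) * t ^ (2 / 3 - κ) ≤ (K + C) * t ^ (2 / 3 : ℝ) :=
      mul_le_mul_of_nonneg_left h2 (by linarith)
    linarith
  -- (v)
  have hv := abs_le.1 (hζ Z hZ)
  obtain ⟨U, hU⟩ : ∃ U : ℝ, U = ∑ m ∈ Icc 1 Z, (m : ℝ) ^ (-(2 / 3) : ℝ) := ⟨_, rfl⟩
  obtain ⟨y, hy⟩ : ∃ y : ℝ, y = (Y : ℝ) ^ (2 / 3 : ℝ) := ⟨_, rfl⟩
  obtain ⟨z, hz⟩ : ∃ z : ℝ, z = (Z : ℝ) ^ (1 / 3 : ℝ) := ⟨_, rfl⟩
  obtain ⟨w, hw⟩ : ∃ w : ℝ, w = (Z : ℝ) ^ (-(2 / 3) : ℝ) := ⟨_, rfl⟩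
  obtain ⟨e, he⟩ : ∃ e : ℝ, e = Z * (Y : ℝ) ^ (2 / 3 - κ) := ⟨_, rfl⟩
  have hy0 : 0 ≤ y := by rw [hy]; positivity
  have hw0 : 0 ≤ w := by rw [hw]; positivity
  have he0 : 0 ≤ e := by rw [he]; positivity
  rw [← hU, ← hz, ← hw] at hv
  rw [← hU, ← hy, ← he] at hiii
  rw [← hy, ← hz] at eA
  rw [← he] at eC
  rw [← hy, ← hz, ← he] at hiv'
  rw [← hy, ← hw] at hAx
  rw [← hE, ← hy, ← hw, ← he]
  have a3 := abs_le.1 hiii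
  have a4 := abs_le.1 hiv'
  have b1 : (Y : ℝ) * (E - S hf x - 2 * C * t ^ (-(1 / 3) : ℝ)) ≤ (10 * K + 8 * C) * e := by
    calc (Y : ℝ) * (E - S hf x - 2 * C * t ^ (-(1 / 3) : ℝ)) ≤
          Y * ((10 * K + 8 * C) * t ^ (-(1 / 3) - κ)) := mul_le_mul_of_nonneg_left hii.2 hY0.le
      _ = (10 * K + 8 * C) * (Y * t ^ (-(1 / 3) - κ)) := by ring
      _ ≤ (10 * K + 8 * C) * e := mul_le_mul_of_nonneg_left eC (by positivity)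
  have b2 : -((10 * K + 8 * C) * e) ≤ (Y : ℝ) * (E - S hf x - 2 * C * t ^ (-(1 / 3) : ℝ)) := by
    calc -((10 * K + 8 * C) * e) ≤ -((10 * K + 8 * C) * (Y * t ^ (-(1 / 3) - κ))) := by
          apply neg_le_neg
          exact mul_le_mul_of_nonneg_left eC (by positivity)
      _ = Y * (-((10 * K + 8 * C) * t ^ (-(1 / 3) - κ))) := by ring
      _ ≤ _ := mul_le_mul_of_nonneg_left hii.1 hY0.le
  have b3 : (Y : ℝ) * (E - S hf x - 2 * C * t ^ (-(1 / 3) : ℝ)) =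
      E * Y - Y * S hf x - 2 * C * (y * z) := by
    rw [← eA]
    ring
  rw [b3] at b1 b2
  have b4 : C * y * (U - 3 * z - ζ) ≤ C * (y * w) := by
    calc C * y * (U - 3 * z - ζ) ≤ C * y * w := mul_le_mul_of_nonneg_left hv.2 (mul_nonneg hC hy0)
      _ = _ := by ring
  have b5 : -(C * (y * w)) ≤ C * y * (U - 3 * z - ζ) := by
    calc -(C * (y * w)) = C * y * (-w) := by ring
      _ ≤ _ := mul_le_mul_of_nonneg_left hv.1 (mul_nonneg hC hy0)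
  have b6 : C * y * (U - 3 * z - ζ) = C * y * U - 3 * (C * (y * z)) - C * ζ * y := by ring
  rw [b6] at b4 b5
  have b7 : 0 ≤ C * (y * w) := mul_nonneg hC (mul_nonneg hy0 hw0)
  have b8 : 0 ≤ (K + 2 * C) * (y * w) := mul_nonneg (by linarith) (mul_nonneg hy0 hw0)
  have b9 : (K + 3 * C) * (y * w) = (K + 2 * C) * (y * w) + C * (y * w) := by ring
  have b10 : (12 * K + 10 * C) * e = (10 * K + 8 * C) * e + (K + C) * e + (K + C) * e := by ring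
  rw [b9, b10, abs_le]
  constructor <;> linarith

theorem uniform {κ' : ℝ} (hf : ∀ n, {i | R i ≤ n}.Finite) (hC : 0 ≤ C) (hκ' : κ' ≤ κ)
    (hκ1 : κ' ≤ 1 / 3)
    (hA : ∀ᶠ n : ℕ in atTop, |(A R n : ℝ) - C * (n : ℝ) ^ (2 / 3 : ℝ)| ≤ (n : ℝ) ^ (2 / 3 - κ)) :
    ∃ K : ℝ, 0 ≤ K ∧ ∀ n : ℕ, 1 ≤ n →
      |(A R n : ℝ) - C * (n : ℝ) ^ (2 / 3 : ℝ)| ≤ K * (n : ℝ) ^ (2 / 3 - κ') := by
  obtain ⟨N, hN⟩ := eventually_atTop.1 hA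
  refine ⟨1 + ((A R N : ℝ) + C * (N : ℝ) ^ (2 / 3 : ℝ)), by positivity, ?_⟩
  intro n hn
  have hn1 : (1 : ℝ) ≤ n := by exact_mod_cast hn
  have h1 : (1 : ℝ) ≤ (n : ℝ) ^ (2 / 3 - κ') := Real.one_le_rpow hn1 (by linarith)
  have h2 : (n : ℝ) ^ (2 / 3 - κ) ≤ (n : ℝ) ^ (2 / 3 - κ') :=
    Real.rpow_le_rpow_of_exponent_le hn1 (by linarith)
  have h0 : 0 ≤ (A R N : ℝ) + C * (N : ℝ) ^ (2 / 3 : ℝ) := by positivity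
  rcases le_total N n with h | h
  · refine (hN n h).trans (h2.trans ?_)
    nlinarith
  · have h3 : (A R n : ℝ) ≤ A R N := by exact_mod_cast A_mono hf h
    have h4 : (n : ℝ) ^ (2 / 3 : ℝ) ≤ (N : ℝ) ^ (2 / 3 : ℝ) :=
      Real.rpow_le_rpow (by linarith) (by exact_mod_cast h) (by norm_num)
    have h5 := mul_le_mul_of_nonneg_left h4 hC
    have h6 : (0 : ℝ) ≤ A R n := Nat.cast_nonneg _
    have h7 : 0 ≤ C * (n : ℝ) ^ (2 / 3 : ℝ) := by positivity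
    have h8 : |(A R n : ℝ) - C * (n : ℝ) ^ (2 / 3 : ℝ)| ≤ (A R N : ℝ) + C * (N : ℝ) ^ (2 / 3 : ℝ) := by
      rw [abs_le]
      constructor <;> linarith
    refine h8.trans ?_
    nlinarith

/-- The secondary term. -/
theorem secondary (hR : ∀ i, 1 ≤ R i) (hf : ∀ n, {i | R i ≤ n}.Finite)
    (hs : Summable (fun i => 1 / (R i : ℝ))) (hC : 0 < C) (hκ : 0 < κ)
    (hA : ∀ᶠ n : ℕ in atTop, |(A R n : ℝ) - C * (n : ℝ) ^ (2 / 3 : ℝ)| ≤ (n : ℝ) ^ (2 / 3 - κ)) :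
    ∃ c κ' : ℝ, 0 < c ∧ 0 < κ' ∧ ∀ᶠ Y : ℕ in atTop,
      |((∑ r ∈ Icc 1 Y, {i | R i ∣ r}.ncard : ℕ) : ℝ) - (∑' i, 1 / (R i : ℝ)) * Y +
        c * (Y : ℝ) ^ (2 / 3 : ℝ)| ≤ (Y : ℝ) ^ (2 / 3 - κ') := by
  obtain ⟨κ1, hκ1⟩ : ∃ κ1 : ℝ, κ1 = min κ (1 / 3) := ⟨_, rfl⟩
  have hκ10 : 0 < κ1 := by rw [hκ1]; exact lt_min hκ (by norm_num)
  have hκ1a : κ1 ≤ κ := by rw [hκ1]; exact min_le_left _ _
  have hκ1b : κ1 ≤ 1 / 3 := by rw [hκ1]; exact min_le_right _ _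
  obtain ⟨K, hK, hAK⟩ := uniform hf hC.le hκ1a hκ1b hA
  obtain ⟨ζ, hζ2, hζ⟩ := exists_zeta
  refine ⟨-(C * ζ), κ1 / 4, ?_, by positivity, ?_⟩
  · nlinarith
  obtain ⟨B, hB⟩ : ∃ B : ℝ, B = (12 * K + 10 * C) + 2 * (K + 3 * C) := ⟨_, rfl⟩
  have hB0 : 0 ≤ B := by rw [hB]; positivity
  -- `Y ^ (κ1 / 12)` exceeds `B`
  have hlim : Tendsto (fun Y : ℕ => (Y : ℝ) ^ (κ1 / 12)) atTop atTop :=
    (tendsto_rpow_atTop (by positivity)).comp tendsto_natCast_atTop_atTop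
  filter_upwards [hlim.eventually_ge_atTop B, eventually_ge_atTop 1] with Y hYB hY1
  have hY1' : (1 : ℝ) ≤ Y := by exact_mod_cast hY1
  have hY0 : (0 : ℝ) < Y := by linarith
  obtain ⟨u, hu⟩ : ∃ u : ℝ, u = (Y : ℝ) ^ (κ1 / 2) := ⟨_, rfl⟩
  have hu1 : 1 ≤ u := by rw [hu]; exact Real.one_le_rpow hY1' (by positivity)
  obtain ⟨Z, hZ⟩ : ∃ Z : ℕ, Z = ⌊u⌋₊ := ⟨_, rfl⟩
  have hZ1 : 1 ≤ Z := by rw [hZ]; exact (Nat.one_le_floor_iff u).2 hu1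
  have hZu : (Z : ℝ) ≤ u := by rw [hZ]; exact Nat.floor_le (by linarith)
  have hZu2 : u / 2 ≤ Z := by
    have h1 := Nat.lt_floor_add_one u
    rw [← hZ] at h1
    have h2 : (1 : ℝ) ≤ Z := by exact_mod_cast hZ1
    linarith
  have huY : u ≤ Y := by
    rw [hu]
    calc (Y : ℝ) ^ (κ1 / 2) ≤ (Y : ℝ) ^ (1 : ℝ) :=
          Real.rpow_le_rpow_of_exponent_le hY1' (by linarith)
      _ = Y := Real.rpow_one _
  have hZY : Z ≤ Y := by exact_mod_cast hZu.trans huY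
  have hb := main_bound hR hf hs hC.le hK hκ10 hκ1b hAK hζ hZ1 hZY
  have e1 : ((∑ r ∈ Icc 1 Y, {i | R i ∣ r}.ncard : ℕ) : ℝ) - (∑' i, 1 / (R i : ℝ)) * Y +
      -(C * ζ) * (Y : ℝ) ^ (2 / 3 : ℝ) =
      ((∑ r ∈ Icc 1 Y, {i | R i ∣ r}.ncard : ℕ) : ℝ) - (∑' i, 1 / (R i : ℝ)) * Y -
      C * ζ * (Y : ℝ) ^ (2 / 3 : ℝ) := by ring
  rw [e1]
  refine hb.trans ?_
  have h1 : (Z : ℝ) * (Y : ℝ) ^ (2 / 3 - κ1) ≤ (Y : ℝ) ^ (2 / 3 - κ1 / 3) := by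
    calc (Z : ℝ) * (Y : ℝ) ^ (2 / 3 - κ1) ≤ (Y : ℝ) ^ (κ1 / 2) * (Y : ℝ) ^ (2 / 3 - κ1) := by
          rw [← hu]
          exact mul_le_mul_of_nonneg_right hZu (by positivity)
      _ = (Y : ℝ) ^ (κ1 / 2 + (2 / 3 - κ1)) := by rw [← Real.rpow_add hY0]
      _ ≤ (Y : ℝ) ^ (2 / 3 - κ1 / 3) := Real.rpow_le_rpow_of_exponent_le hY1' (by linarith)
  have h2 : (Z : ℝ) ^ (-(2 / 3) : ℝ) ≤ 2 * (Y : ℝ) ^ (-(κ1 / 3)) := by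
    have hu0 : 0 < u / 2 := by linarith
    calc (Z : ℝ) ^ (-(2 / 3) : ℝ) ≤ (u / 2) ^ (-(2 / 3) : ℝ) :=
          Real.rpow_le_rpow_of_nonpos hu0 hZu2 (by norm_num)
      _ = 2 ^ (2 / 3 : ℝ) * u ^ (-(2 / 3) : ℝ) := by
          rw [Real.div_rpow (by linarith) (by norm_num), Real.rpow_neg (by norm_num : (0 : ℝ) ≤ 2)]
          rw [div_inv_eq_mul, mul_comm]
      _ ≤ 2 * u ^ (-(2 / 3) : ℝ) := by
          apply mul_le_mul_of_nonneg_right _ (by positivity)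
          calc (2 : ℝ) ^ (2 / 3 : ℝ) ≤ 2 ^ (1 : ℝ) :=
                Real.rpow_le_rpow_of_exponent_le (by norm_num) (by norm_num)
            _ = 2 := Real.rpow_one 2
      _ = 2 * (Y : ℝ) ^ (-(κ1 / 3)) := by
          rw [hu, ← Real.rpow_mul hY0.le]
          congr 2
          ring
  have h3 : (Y : ℝ) ^ (2 / 3 : ℝ) * (Z : ℝ) ^ (-(2 / 3) : ℝ) ≤ 2 * (Y : ℝ) ^ (2 / 3 - κ1 / 3) := by
    calc (Y : ℝ) ^ (2 / 3 : ℝ) * (Z : ℝ) ^ (-(2 / 3) : ℝ) ≤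
          (Y : ℝ) ^ (2 / 3 : ℝ) * (2 * (Y : ℝ) ^ (-(κ1 / 3))) :=
          mul_le_mul_of_nonneg_left h2 (by positivity)
      _ = 2 * ((Y : ℝ) ^ (2 / 3 : ℝ) * (Y : ℝ) ^ (-(κ1 / 3))) := by ring
      _ = 2 * (Y : ℝ) ^ (2 / 3 - κ1 / 3) := by
          rw [← Real.rpow_add hY0]
          congr 2
  calc (12 * K + 10 * C) * (Z * (Y : ℝ) ^ (2 / 3 - κ1)) +
      (K + 3 * C) * ((Y : ℝ) ^ (2 / 3 : ℝ) * (Z : ℝ) ^ (-(2 / 3) : ℝ)) ≤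
      (12 * K + 10 * C) * (Y : ℝ) ^ (2 / 3 - κ1 / 3) +
      (K + 3 * C) * (2 * (Y : ℝ) ^ (2 / 3 - κ1 / 3)) := by gcongr
    _ = B * (Y : ℝ) ^ (2 / 3 - κ1 / 3) := by rw [hB]; ring
    _ ≤ (Y : ℝ) ^ (κ1 / 12) * (Y : ℝ) ^ (2 / 3 - κ1 / 3) := by
        apply mul_le_mul_of_nonneg_right hYB (by positivity)
    _ = (Y : ℝ) ^ (2 / 3 - κ1 / 4) := by
        rw [← Real.rpow_add hY0]
        congr 1
        ring

end Pool.Agent.Lib.AbcU.Sec
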